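import Pool.Agent.Y752.KP.Ms
import Pool.Agent.H510R2.Div

set_option autoImplicit false
set_option linter.unusedSectionVars false

/-! Sums over the diagonal tuples. -/

namespace Pool.Agent.Y752.KP

open Complex Filter Topology MeasureTheory Set

noncomputable section

variable {ι : Type} [Fintype ι] [DecidableEq ι]

/-- the common product -/
def Nv (q : ι → ℕ × ℕ) : ℕ := ∏ j : ι, (q j).1

lemma Nv_pos {Yv : ι → ℕ} {q : ι → ℕ × ℕ} (hq : q ∈ DD Yv) : 1 ≤ Nv q := by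
  have h1 := mem_QQ.1 (Finset.mem_filter.1 hq).1
  have h2 : 0 < ∏ j : ι, (q j).1 := Finset.prod_pos fun j _ => (qs_bd (h1 j)).1
  exact h2

lemma DD_dvd {Yv : ι → ℕ} {q : ι → ℕ × ℕ} (hq : q ∈ DD Yv) (j : ι) :
    (q j).1 ∣ Nv q ∧ (q j).2 ∣ Nv q := by
  obtain ⟨h1, h2⟩ := Finset.mem_filter.1 hq
  refine ⟨Finset.dvd_prod_of_mem _ (Finset.mem_univ j), ?_⟩
  unfold Nv
  rw [h2]
  exact Finset.dvd_prod_of_mem _ (Finset.mem_univ j)

lemma wtp_eq {Yv : ι → ℕ} {q : ι → ℕ × ℕ} (hq : q ∈ DD Yv) : wtp q = ((Nv q : ℕ) : ℝ)⁻¹ := by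
  obtain ⟨h1, h2⟩ := Finset.mem_filter.1 hq
  have hN : (0:ℝ) < ((Nv q : ℕ) : ℝ) := by exact_mod_cast Nv_pos hq
  unfold wtp
  have e1 : ∏ j, wt (q j) = (Real.sqrt (∏ j, (((q j).1 : ℝ) * (q j).2)))⁻¹ := by
    unfold wt
    rw [Finset.prod_inv_distrib, Real.sqrt_prod _ fun _ _ => by positivity]
  rw [e1]
  congr 1
  have e2 : ∏ j, (((q j).1 : ℝ) * (q j).2) = ((Nv q : ℕ) : ℝ) * ((Nv q : ℕ) : ℝ) := by
    rw [Finset.prod_mul_distrib]
    congr 1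
    · unfold Nv; push_cast; rfl
    · unfold Nv
      rw [h2]
      push_cast
      rfl
  rw [e2, Real.sqrt_mul_self hN.le]

lemma lh_N {Yv : ι → ℕ} {q : ι → ℕ × ℕ} (hq : q ∈ DD Yv) (j : ι) :
    0 ≤ lh (q j) ∧ lh (q j) ≤ 2 * Real.log (Nv q) := by
  obtain ⟨h1, h2⟩ := Finset.mem_filter.1 hq
  obtain ⟨a, b, _, _⟩ := qs_bd (mem_QQ.1 h1 j)
  have ha : (1:ℝ) ≤ (q j).1 := by exact_mod_cast a
  have hb : (1:ℝ) ≤ (q j).2 := by exact_mod_cast b
  obtain ⟨d1, d2⟩ := DD_dvd hq j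
  have l1 : ((q j).1 : ℝ) ≤ Nv q := by exact_mod_cast Nat.le_of_dvd (Nv_pos hq) d1
  have l2 : ((q j).2 : ℝ) ≤ Nv q := by exact_mod_cast Nat.le_of_dvd (Nv_pos hq) d2
  unfold lh
  rw [Real.log_mul (by linarith) (by linarith)]
  have m1 := Real.log_nonneg ha
  have m2 := Real.log_nonneg hb
  have m3 := Real.log_le_log (by linarith) l1
  have m4 := Real.log_le_log (by linarith) l2
  constructor <;> linarith

lemma fib_card (Yv : ι → ℕ) (s : Finset (ι → ℕ × ℕ)) (hs : s ⊆ DD Yv) (N : ℕ) (hN : 1 ≤ N) :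
    ((s.filter fun q => Nv q = N).card : ℝ) ≤ ((N.divisors.card : ℝ) ^ 2) ^ Fintype.card ι := by
  have h1 : s.filter (fun q => Nv q = N) ⊆
      Fintype.piFinset fun _ : ι => N.divisors ×ˢ N.divisors := by
    intro q hq
    obtain ⟨h1, h2⟩ := Finset.mem_filter.1 hq
    rw [Fintype.mem_piFinset]
    intro j
    obtain ⟨d1, d2⟩ := DD_dvd (hs h1) j
    rw [h2] at d1 d2
    simp only [Finset.mem_product, Nat.mem_divisors]
    exact ⟨⟨d1, by omega⟩, d2, by omega⟩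
  have h2 := Finset.card_le_card h1
  rw [Fintype.card_piFinset, Finset.prod_const, Finset.card_product, Finset.card_univ] at h2
  calc ((s.filter fun q => Nv q = N).card : ℝ)
      ≤ (((N.divisors.card * N.divisors.card) ^ Fintype.card ι : ℕ) : ℝ) := by exact_mod_cast h2
    _ = _ := by
        push_cast
        rw [sq]

lemma tail_sum (ι : Type) [Fintype ι] [DecidableEq ι] : ∃ C : ℝ, 0 < C ∧ ∀ (Yv : ι → ℕ)
    (B : Finset ι) (w : ℝ), 1 ≤ w → ∀ s : Finset (ι → ℕ × ℕ), s ⊆ DD Yv →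
    (∀ q ∈ s, w ≤ Nv q) → ∑ q ∈ s, (wtp q * ∏ j ∈ B, (-lh (q j))) ^ 2 ≤ C * w ^ (-(9 / 10) : ℝ) := by
  set n := Fintype.card ι with hn
  set ε : ℝ := 1 / (80 * ((n : ℝ) + 1)) with hε
  have hεp : 0 < ε := by positivity
  have hnε : 2 * n * ε ≤ 1 / 40 := by
    rw [hε, mul_one_div, div_le_div_iff₀ (by positivity) (by norm_num)]
    have : (0:ℝ) ≤ n := by positivity
    linarith
  obtain ⟨C1, hC1, hdiv⟩ := Pool.Agent.H510R2.divisor_bound ε hεp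
  have hsum : Summable fun N : ℕ => (N : ℝ) ^ (-(21 / 20) : ℝ) :=
    Real.summable_nat_rpow.2 (by norm_num)
  set Z : ℝ := ∑' N : ℕ, (N : ℝ) ^ (-(21 / 20) : ℝ) with hZ
  have hZ0 : 0 ≤ Z := tsum_nonneg fun _ => by positivity
  set C0 : ℝ := (C1 ^ 2) ^ n * (1 + 2 / ε) ^ (2 * n) with hC0
  have hC0p : 0 < C0 := by positivity
  refine ⟨C0 * Z + 1, by positivity, fun Yv B w hw s hs hsw => ?_⟩
  set g : ℕ → ℝ := fun N => (1 + 2 * Real.log N) ^ (2 * n) * ((N : ℝ)⁻¹) ^ 2 with hg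
  have hterm : ∀ q ∈ s, (wtp q * ∏ j ∈ B, (-lh (q j))) ^ 2 ≤ g (Nv q) := by
    intro q hq
    have hq' := hs hq
    have hN1 : (1:ℝ) ≤ Nv q := by exact_mod_cast Nv_pos hq'
    have hlN : 0 ≤ Real.log (Nv q) := Real.log_nonneg hN1
    rw [mul_pow, wtp_eq hq', hg, mul_comm]
    refine mul_le_mul_of_nonneg_right ?_ (by positivity)
    have h1 : |∏ j ∈ B, (-lh (q j))| ≤ (1 + 2 * Real.log (Nv q)) ^ n := by
      rw [Finset.abs_prod]
      calc ∏ j ∈ B, |(-lh (q j))| ≤ ∏ _j ∈ B, (1 + 2 * Real.log (Nv q)) := by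
            refine Finset.prod_le_prod (fun _ _ => abs_nonneg _) fun j _ => ?_
            obtain ⟨a, b⟩ := lh_N hq' j
            rw [abs_neg, abs_of_nonneg a]
            linarith
        _ = (1 + 2 * Real.log (Nv q)) ^ B.card := by rw [Finset.prod_const]
        _ ≤ (1 + 2 * Real.log (Nv q)) ^ n :=
            pow_le_pow_right₀ (by linarith) (Finset.card_le_univ B)
    calc (∏ j ∈ B, (-lh (q j))) ^ 2 = |∏ j ∈ B, (-lh (q j))| ^ 2 := (sq_abs _).symm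
      _ ≤ ((1 + 2 * Real.log (Nv q)) ^ n) ^ 2 := by gcongr
      _ = (1 + 2 * Real.log (Nv q)) ^ (2 * n) := by rw [← pow_mul, mul_comm n 2]
  have hgN : ∀ N : ℕ, 1 ≤ N → ((N.divisors.card : ℝ) ^ 2) ^ n * g N ≤ C0 * (N : ℝ) ^ (-(39 / 20) : ℝ) := by
    intro N hN
    have hNr : (1:ℝ) ≤ N := by exact_mod_cast hN
    have hN0 : (0:ℝ) < N := by linarith
    have h1 := hdiv N hN
    have h2 : ((N.divisors.card : ℝ) ^ 2) ^ n ≤ (C1 ^ 2) ^ n * (N : ℝ) ^ (1 / 40 : ℝ) := by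
      calc ((N.divisors.card : ℝ) ^ 2) ^ n ≤ ((C1 * (N : ℝ) ^ ε) ^ 2) ^ n := by gcongr
        _ = (C1 ^ 2) ^ n * (N : ℝ) ^ (2 * n * ε) := by
            rw [mul_pow, mul_pow, ← Real.rpow_natCast ((N : ℝ) ^ ε) 2, ← Real.rpow_mul hN0.le,
              ← Real.rpow_natCast _ n, ← Real.rpow_natCast _ n, ← Real.rpow_mul hN0.le]
            congr 2
            push_cast
            ring
        _ ≤ _ := by
            have := Real.rpow_le_rpow_of_exponent_le hNr hnε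
            gcongr
    have h3 : (1 + 2 * Real.log N) ^ (2 * n) ≤ (1 + 2 / ε) ^ (2 * n) * (N : ℝ) ^ (1 / 40 : ℝ) := by
      have h4 : 1 + 2 * Real.log N ≤ (1 + 2 / ε) * (N : ℝ) ^ ε := by
        have h5 := Real.log_le_rpow_div hN0.le hεp
        have h6 : 1 ≤ (N : ℝ) ^ ε := Real.one_le_rpow hNr hεp.le
        have h7 : (1 + 2 / ε) * (N : ℝ) ^ ε = (N : ℝ) ^ ε + 2 * ((N : ℝ) ^ ε / ε) := by ring
        rw [h7]
        linarith
      have h5 : 0 ≤ 1 + 2 * Real.log N := by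
        have := Real.log_nonneg hNr
        linarith
      calc (1 + 2 * Real.log N) ^ (2 * n) ≤ ((1 + 2 / ε) * (N : ℝ) ^ ε) ^ (2 * n) := by gcongr
        _ = (1 + 2 / ε) ^ (2 * n) * (N : ℝ) ^ (2 * n * ε) := by
            rw [mul_pow, ← Real.rpow_natCast ((N : ℝ) ^ ε) (2 * n), ← Real.rpow_mul hN0.le]
            congr 2
            push_cast
            ring
        _ ≤ _ := by
            have := Real.rpow_le_rpow_of_exponent_le hNr hnε
            gcongr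
    have h8 : (N : ℝ) ^ (1 / 40 : ℝ) * (N : ℝ) ^ (1 / 40 : ℝ) * ((N : ℝ)⁻¹) ^ 2 =
        (N : ℝ) ^ (-(39 / 20) : ℝ) := by
      have h9 : ((N : ℝ)⁻¹) ^ 2 = (N : ℝ) ^ (-2 : ℝ) := by
        rw [Real.rpow_neg hN0.le, ← Real.rpow_natCast, ← Real.inv_rpow hN0.le]
        norm_num
      rw [h9, ← Real.rpow_add hN0, ← Real.rpow_add hN0]
      norm_num
    rw [hg]
    calc ((N.divisors.card : ℝ) ^ 2) ^ n * ((1 + 2 * Real.log N) ^ (2 * n) * ((N : ℝ)⁻¹) ^ 2)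
        ≤ ((C1 ^ 2) ^ n * (N : ℝ) ^ (1 / 40 : ℝ)) *
          (((1 + 2 / ε) ^ (2 * n) * (N : ℝ) ^ (1 / 40 : ℝ)) * ((N : ℝ)⁻¹) ^ 2) := by gcongr
      _ = C0 * ((N : ℝ) ^ (1 / 40 : ℝ) * (N : ℝ) ^ (1 / 40 : ℝ) * ((N : ℝ)⁻¹) ^ 2) := by
          rw [hC0]; ring
      _ = _ := by rw [h8]
  calc ∑ q ∈ s, (wtp q * ∏ j ∈ B, (-lh (q j))) ^ 2 ≤ ∑ q ∈ s, g (Nv q) := Finset.sum_le_sum hterm
    _ = ∑ N ∈ s.image Nv, (s.filter fun q => Nv q = N).card • g N := Finset.sum_comp g Nv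
    _ ≤ ∑ N ∈ s.image Nv, C0 * w ^ (-(9 / 10) : ℝ) * (N : ℝ) ^ (-(21 / 20) : ℝ) := by
        refine Finset.sum_le_sum fun N hN => ?_
        obtain ⟨q, hq, rfl⟩ := Finset.mem_image.1 hN
        have hN1 := Nv_pos (hs hq)
        have hN0 : (0:ℝ) < Nv q := by exact_mod_cast hN1
        have hwN := hsw q hq
        have hg0 : 0 ≤ g (Nv q) := by
          have : 0 ≤ Real.log (Nv q) := Real.log_nonneg (by exact_mod_cast hN1)
          rw [hg]
          positivity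
        rw [nsmul_eq_mul]
        refine (mul_le_mul_of_nonneg_right (fib_card Yv s hs (Nv q) hN1) hg0).trans ?_
        refine (hgN (Nv q) hN1).trans ?_
        have h1 : (Nv q : ℝ) ^ (-(39 / 20) : ℝ) = (Nv q : ℝ) ^ (-(9 / 10) : ℝ) *
            (Nv q : ℝ) ^ (-(21 / 20) : ℝ) := by
          rw [← Real.rpow_add hN0]; norm_num
        have h2 : (Nv q : ℝ) ^ (-(9 / 10) : ℝ) ≤ w ^ (-(9 / 10) : ℝ) :=
          Real.rpow_le_rpow_of_nonpos (by linarith) hwN (by norm_num)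
        rw [h1]
        calc C0 * ((Nv q : ℝ) ^ (-(9 / 10) : ℝ) * (Nv q : ℝ) ^ (-(21 / 20) : ℝ))
            ≤ C0 * (w ^ (-(9 / 10) : ℝ) * (Nv q : ℝ) ^ (-(21 / 20) : ℝ)) :=
              mul_le_mul_of_nonneg_left (mul_le_mul_of_nonneg_right h2 (by positivity)) hC0p.le
          _ = _ := by ring
    _ = C0 * w ^ (-(9 / 10) : ℝ) * ∑ N ∈ s.image Nv, (N : ℝ) ^ (-(21 / 20) : ℝ) := by
        rw [Finset.mul_sum]
    _ ≤ C0 * w ^ (-(9 / 10) : ℝ) * Z := by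
        have : ∑ N ∈ s.image Nv, (N : ℝ) ^ (-(21 / 20) : ℝ) ≤ Z :=
          hsum.sum_le_tsum _ fun _ _ => by positivity
        gcongr
    _ ≤ _ := by
        have : 0 < w ^ (-(9 / 10) : ℝ) := by positivity
        nlinarith

lemma sum_abs {T : ℝ} {Yv : ι → ℕ} (hYT : ∀ j, (Yv j : ℝ) ≤ T) (B : Finset ι)
    {s : Finset (ι → ℕ × ℕ)} (hs : s ⊆ DD Yv) (hL : 1 ≤ Real.log T) :
    ∑ q ∈ s, |wtp q * ∏ j ∈ B, (-lh (q j))| ≤ (∏ j, (Yv j : ℝ) ^ 2) * Real.log T ^ Fintype.card ι := by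
  refine (Finset.sum_le_card_nsmul _ _ (Real.log T ^ Fintype.card ι) fun q hq => ?_).trans ?_
  · have h1 := (Finset.mem_filter.1 (hs hq)).1
    rw [abs_mul, abs_of_nonneg (wtp_nonneg q), Finset.abs_prod]
    have h2 : ∏ j ∈ B, |(-lh (q j))| ≤ Real.log T ^ Fintype.card ι := by
      calc ∏ j ∈ B, |(-lh (q j))| ≤ ∏ _j ∈ B, Real.log T := by
            refine Finset.prod_le_prod (fun _ _ => abs_nonneg _) fun j _ => ?_
            rw [abs_neg]
            exact lh_bd (hYT j) (mem_QQ.1 h1 j)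
        _ = Real.log T ^ B.card := by rw [Finset.prod_const]
        _ ≤ _ := pow_le_pow_right₀ hL (Finset.card_le_univ B)
    calc wtp q * ∏ j ∈ B, |(-lh (q j))| ≤ 1 * ∏ j ∈ B, |(-lh (q j))| :=
          mul_le_mul_of_nonneg_right (wtp_le_one h1) (Finset.prod_nonneg fun _ _ => abs_nonneg _)
      _ ≤ _ := by rw [one_mul]; exact h2
  · rw [nsmul_eq_mul]
    refine mul_le_mul_of_nonneg_right ?_ (by positivity)
    refine le_trans ?_ (QQ_card Yv)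
    exact_mod_cast Finset.card_le_card (hs.trans (Finset.filter_subset _ _))

end

end Pool.Agent.Y752.KP
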