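import Pool.Agent.Y752.KP.Kl1
import Pool.Agent.TH794.QD.Planch

set_option autoImplicit false

/-! A kernel `e(t+y)` with small Fourier transform defines an operator of small norm. -/

namespace Pool.Agent.Y752.KP

open Complex Filter Topology MeasureTheory Set
open scoped FourierTransform Convolution ENNReal

noncomputable section

lemma enorm_sq_ofReal (w : ℂ) : ‖w‖ₑ ^ 2 = ENNReal.ofReal (‖w‖ ^ 2) := by
  rw [← ofReal_norm, ENNReal.ofReal_pow (norm_nonneg _)]

lemma indicator_int {a b : ℝ} (f : ℝ → ℂ) (hf : Continuous f) :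
    Integrable (indicator (Ioc a b) f) := by
  rw [integrable_indicator_iff measurableSet_Ioc]
  exact (hf.integrableOn_Icc).mono_set Ioc_subset_Icc_self

theorem op_gen (e : ℝ → ℂ) (he : Continuous e) {T S M : ℝ} (hT : 0 ≤ T) (hS : 0 ≤ S) (hST : S ≤ T)
    (hM0 : 0 ≤ M) (hM : ∀ lam, ‖∫ u in (0:ℝ)..(2 * T), e u * ee lam u‖ ≤ M) (R : ℝ → ℂ)
    (hR : Continuous R) :
    ∫ y in (0:ℝ)..T, ‖∫ t in (0:ℝ)..S, e (t + y) * R t‖ ^ 2 ≤ M ^ 2 * ∫ t in (0:ℝ)..S, ‖R t‖ ^ 2 := by
  set E : ℝ → ℂ := indicator (Ioc 0 (2 * T)) e with hE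
  set Q0 : ℝ → ℂ := indicator (Ioc 0 S) R with hQ0
  set Q : ℝ → ℂ := fun s => Q0 (-s) with hQ
  have iE : Integrable E := indicator_int e he
  have iQ0 : Integrable Q0 := indicator_int R hR
  have iQ : Integrable Q := iQ0.comp_neg
  obtain ⟨B, hB⟩ : ∃ B : ℝ, ∀ u, ‖E u‖ ≤ B := by
    obtain ⟨B, hB⟩ := (isCompact_Icc (a := (0:ℝ)) (b := 2 * T)).exists_bound_of_continuousOn
      he.continuousOn
    refine ⟨max B 0, fun u => ?_⟩
    rw [hE, indicator_apply]
    split_ifs with h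
    · exact (hB u (Ioc_subset_Icc_self h)).trans (le_max_left _ _)
    · simp
  obtain ⟨B2, hB2⟩ : ∃ B : ℝ, ∀ u, ‖Q0 u‖ ≤ B := by
    obtain ⟨B, hB⟩ := (isCompact_Icc (a := (0:ℝ)) (b := S)).exists_bound_of_continuousOn
      hR.continuousOn
    refine ⟨max B 0, fun u => ?_⟩
    rw [hQ0, indicator_apply]
    split_ifs with h
    · exact (hB u (Ioc_subset_Icc_self h)).trans (le_max_left _ _)
    · simp
  have sqint : ∀ h : ℝ → ℂ, Integrable h → ∀ b : ℝ, (∀ u, ‖h u‖ ≤ b) → MemLp h 2 := by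
    intro h hh b hb
    rw [memLp_two_iff_integrable_sq_norm hh.aestronglyMeasurable]
    have h1 : Integrable fun u => b * ‖h u‖ := hh.norm.const_mul b
    refine h1.mono' (hh.aestronglyMeasurable.norm.pow 2) (Eventually.of_forall fun u => ?_)
    rw [Real.norm_of_nonneg (by positivity), sq]
    exact mul_le_mul_of_nonneg_right (hb u) (norm_nonneg _)
  set h : ℝ → ℂ := Q ⋆[ContinuousLinearMap.mul ℂ ℂ] E with hh
  have ih : Integrable h := iQ.integrable_convolution _ iE
  have hval : ∀ y, h y = ∫ t in (0:ℝ)..S, E (t + y) * R t := by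
    intro y
    have e1 : h y = ∫ s, Q s * E (y - s) := rfl
    have e2 : ∫ s, Q s * E (y - s) = ∫ s, Q0 s * E (y + s) := by
      rw [← integral_neg_eq_self (fun s => Q0 s * E (y + s))]
      refine integral_congr_ae (Eventually.of_forall fun s => ?_)
      simp only [hQ, sub_eq_add_neg]
    rw [e1, e2, intervalIntegral.integral_of_le hS, ← integral_indicator measurableSet_Ioc]
    refine integral_congr_ae (Eventually.of_forall fun s => ?_)
    simp only [hQ0, indicator_apply]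
    split_ifs with hs
    · rw [add_comm s y, mul_comm]
    · simp
  have hbd : ∀ y, ‖h y‖ ≤ B * ∫ s, ‖Q s‖ := by
    intro y
    have e1 : h y = ∫ s, Q s * E (y - s) := rfl
    rw [e1, ← integral_const_mul]
    refine norm_integral_le_of_norm_le (iQ.norm.const_mul B) (Eventually.of_forall fun s => ?_)
    rw [norm_mul, mul_comm]
    exact mul_le_mul_of_nonneg_right (hB _) (norm_nonneg _)
  have mh : MemLp h 2 := sqint h ih _ hbd
  have mQ : MemLp Q 2 := sqint Q iQ B2 (fun u => hB2 _)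
  have pl := Pool.Agent.TH794.QD.plancherel h ih mh
  have plQ := Pool.Agent.TH794.QD.plancherel Q iQ mQ
  have hF : ∀ ξ, 𝓕 h ξ = 𝓕 Q ξ * 𝓕 E ξ := fun ξ => Real.fourier_mul_convolution_eq iQ iE ξ
  have hEF : ∀ ξ, ‖𝓕 E ξ‖ ≤ M := by
    intro ξ
    have e1 : 𝓕 E ξ = ∫ u in (0:ℝ)..(2 * T), e u * ee (-(2 * Real.pi * ξ)) u := by
      rw [Real.fourier_eq', intervalIntegral.integral_of_le (by linarith),
        ← integral_indicator measurableSet_Ioc]
      refine integral_congr_ae (Eventually.of_forall fun u => ?_)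
      simp only [hE, indicator_apply]
      split_ifs with hu
      · rw [smul_eq_mul, mul_comm]
        congr 1
        unfold ee
        congr 1
        simp only [RCLike.inner_apply, conj_trivial]
        push_cast
        ring
      · simp
    rw [e1]
    exact hM _
  have k1 : ∫⁻ y, ‖h y‖ₑ ^ 2 ≤ ENNReal.ofReal (M ^ 2) * ∫⁻ s, ‖Q s‖ₑ ^ 2 := by
    rw [← pl, ← plQ, ← lintegral_const_mul' _ _ ENNReal.ofReal_ne_top]
    refine lintegral_mono fun ξ => ?_
    rw [hF ξ, enorm_sq_ofReal, enorm_sq_ofReal, ← ENNReal.ofReal_mul (by positivity)]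
    refine ENNReal.ofReal_le_ofReal ?_
    rw [norm_mul, mul_pow, mul_comm]
    have := hEF ξ
    gcongr
  have k2 : ∫⁻ s, ‖Q s‖ₑ ^ 2 = ENNReal.ofReal (∫ t in (0:ℝ)..S, ‖R t‖ ^ 2) := by
    have e1 : ∫⁻ s, ‖Q s‖ₑ ^ 2 = ∫⁻ s, ‖Q0 s‖ₑ ^ 2 := by
      have := lintegral_neg_eq_self (fun s => ‖Q0 s‖ₑ ^ 2) (μ := (volume : Measure ℝ))
      exact this
    have i1 : IntegrableOn (fun s => ‖R s‖ ^ 2) (Ioc 0 S) :=
      ((hR.norm.pow 2).integrableOn_Icc (a := (0:ℝ)) (b := S)).mono_set Ioc_subset_Icc_self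
    rw [e1, intervalIntegral.integral_of_le hS, ofReal_integral_eq_lintegral_ofReal i1
      (Eventually.of_forall fun _ => by positivity), ← lintegral_indicator measurableSet_Ioc]
    refine lintegral_congr fun s => ?_
    simp only [hQ0, indicator_apply]
    split_ifs with hs
    · rw [enorm_sq_ofReal]
    · simp
  have k3 : ENNReal.ofReal (∫ y in (0:ℝ)..T, ‖∫ t in (0:ℝ)..S, e (t + y) * R t‖ ^ 2) ≤
      ∫⁻ y, ‖h y‖ₑ ^ 2 := by
    have e1 : ∫ y in (0:ℝ)..T, ‖∫ t in (0:ℝ)..S, e (t + y) * R t‖ ^ 2 =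
        ∫ y in (0:ℝ)..T, ‖h y‖ ^ 2 := by
      refine intervalIntegral.integral_congr_ae (Eventually.of_forall fun y hy => ?_)
      rw [uIoc_of_le hT] at hy
      rw [hval y]
      congr 2
      refine intervalIntegral.integral_congr_ae (Eventually.of_forall fun t ht => ?_)
      rw [uIoc_of_le hS] at ht
      have : t + y ∈ Ioc 0 (2 * T) := ⟨by linarith [hy.1, ht.1], by linarith [hy.2, ht.2]⟩
      simp only [hE]
      rw [indicator_of_mem this]
    have i1 : IntegrableOn (fun s => ‖h s‖ ^ 2) (Ioc 0 T) :=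
      ((memLp_two_iff_integrable_sq_norm ih.aestronglyMeasurable).1 mh).integrableOn
    rw [e1, intervalIntegral.integral_of_le hT, ofReal_integral_eq_lintegral_ofReal i1
      (Eventually.of_forall fun _ => by positivity)]
    refine (setLIntegral_le_lintegral _ _).trans (le_of_eq (lintegral_congr fun y => ?_))
    rw [enorm_sq_ofReal]
  have k4 : ENNReal.ofReal (∫ y in (0:ℝ)..T, ‖∫ t in (0:ℝ)..S, e (t + y) * R t‖ ^ 2) ≤
      ENNReal.ofReal (M ^ 2 * ∫ t in (0:ℝ)..S, ‖R t‖ ^ 2) := by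
    rw [ENNReal.ofReal_mul (by positivity), ← k2]
    exact k3.trans k1
  rwa [ENNReal.ofReal_le_ofReal_iff] at k4
  exact mul_nonneg (by positivity) (intervalIntegral.integral_nonneg hS fun _ _ => by positivity)

end

end Pool.Agent.Y752.KP
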