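import Pool.Agent.Y752.KP.Ka
import Pool.Agent.Y752.KP.Op
import Pool.Agent.TH406.GF.REPA

set_option autoImplicit false

/-! Replacement of the shifted factors on one block. -/

namespace Pool.Agent.Y752.KP

open Complex Filter Topology MeasureTheory Set
open Pool.Agent.TH612.GS (z mP)
open Pool.Agent.TH521.GS (cs lint1 mor tonelli)
open scoped ENNReal

noncomputable section

lemma mPu (k : ℕ) {T : ℝ} (hT : 0 ≤ T) : mP (Fin k) T univ = ENNReal.ofReal (T ^ k) := by
  unfold mP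
  rw [Measure.pi_univ]
  simp only [Measure.restrict_apply MeasurableSet.univ, univ_inter, Real.volume_Icc, sub_zero]
  rw [Finset.prod_const, Finset.card_univ, Fintype.card_fin, ENNReal.ofReal_pow hT]

/-- from the mean square to the mean -/
lemma l1_of_l2 {k : ℕ} {H B : ℝ} (hH : 0 ≤ H) (hB : 0 < B) {F : (Fin k → ℝ) → ℝ}
    (hF : Continuous F)
    (h : ∫⁻ β, ENNReal.ofReal (F β ^ 2) ∂(mP (Fin k) H) ≤ ENNReal.ofReal (H ^ k * B ^ 2)) :
    ∫⁻ β, ENNReal.ofReal (F β) ∂(mP (Fin k) H) ≤ ENNReal.ofReal (H ^ k * B) := by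
  have hHk : 0 ≤ H ^ k := by positivity
  calc ∫⁻ β, ENNReal.ofReal (F β) ∂(mP (Fin k) H)
      ≤ ∫⁻ β, (ENNReal.ofReal ((2 * B)⁻¹) * ENNReal.ofReal (F β ^ 2) + ENNReal.ofReal (B / 2))
          ∂(mP (Fin k) H) := by
        refine lintegral_mono fun β => ?_
        rw [← ENNReal.ofReal_mul (by positivity), ← ENNReal.ofReal_add (by positivity) (by positivity)]
        refine ENNReal.ofReal_le_ofReal ?_
        have h1 : 0 ≤ (2 * B)⁻¹ * (F β - B) ^ 2 := by positivity
        have h2 : (2 * B)⁻¹ * (F β - B) ^ 2 = (2 * B)⁻¹ * F β ^ 2 + B / 2 - F β := by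
          field_simp
          ring
        linarith
    _ = ENNReal.ofReal ((2 * B)⁻¹) * ∫⁻ β, ENNReal.ofReal (F β ^ 2) ∂(mP (Fin k) H) +
          ENNReal.ofReal (B / 2) * mP (Fin k) H univ := by
        have hm : Measurable fun β => ENNReal.ofReal (F β ^ 2) := mor (by fun_prop)
        rw [lintegral_add_left (hm.const_mul _), lintegral_const_mul _ hm, lintegral_const]
    _ ≤ ENNReal.ofReal ((2 * B)⁻¹) * ENNReal.ofReal (H ^ k * B ^ 2) +
          ENNReal.ofReal (B / 2) * ENNReal.ofReal (H ^ k) := by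
        rw [mPu k hH]
        gcongr
    _ = ENNReal.ofReal (H ^ k * B) := by
        rw [← ENNReal.ofReal_mul (by positivity), ← ENNReal.ofReal_mul (by positivity),
          ← ENNReal.ofReal_add (by positivity) (by positivity)]
        congr 1
        field_simp
        ring

/-- first moments of products of shifted functions -/
lemma l1_prod {k : ℕ} {H V : ℝ} (hH : 0 ≤ H) (hV : 0 ≤ V) {a b : ℝ} (hab : a ≤ b) {w : ℝ → ℝ}
    (hw : Continuous w) (hw0 : ∀ t, 0 ≤ w t) {F : ℝ → ℝ} (hF : Continuous F) (hF0 : ∀ t, 0 ≤ F t)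
    (h : ∀ t ∈ Icc a b, ∫ y in (0:ℝ)..H, F (t + y) ≤ V) :
    ∫⁻ β, ENNReal.ofReal (∫ t in a..b, w t * ∏ l : Fin k, F (t + β l)) ∂(mP (Fin k) H) ≤
      ENNReal.ofReal (V ^ k * ∫ t in a..b, w t) := by
  have : IsFiniteMeasure (mP (Fin k) H) := ⟨by rw [mPu k hH]; exact ENNReal.ofReal_lt_top⟩
  refine tonelli (mP (Fin k) H) hw hw0 (G := fun t β => ∏ l : Fin k, F (t + β l)) ?_ ?_ hab
    (by positivity) ?_
  · simp only [Function.uncurry_def]
    fun_prop
  · intro t β
    exact Finset.prod_nonneg fun _ _ => hF0 _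
  · intro t ht
    have h1 := Pool.Agent.TH521.GS.pt hH hV t k (fun _ u => ((Real.sqrt (F u) : ℝ) : ℂ))
      (fun _ => Complex.continuous_ofReal.comp (Real.continuous_sqrt.comp hF)) ?_
    · refine le_trans (le_of_eq (lintegral_congr fun β => ?_)) h1
      congr 1
      refine Finset.prod_congr rfl fun l _ => ?_
      rw [Complex.norm_real, Real.norm_of_nonneg (Real.sqrt_nonneg _), Real.sq_sqrt (hF0 _)]
    · intro _
      refine le_trans (le_of_eq (intervalIntegral.integral_congr fun y _ => ?_)) (h t ht)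
      simp only [Complex.norm_real, Real.norm_of_nonneg (Real.sqrt_nonneg _)]
      exact Real.sq_sqrt (hF0 _)

/-- the operator on a block -/
lemma op_blk {C T : ℝ} {Y : ℕ} (hY1 : 1 ≤ Y) (hC : 1 ≤ C) (hT : 1000 ≤ T)
    (hKA : ∀ A B lam : ℝ, 0 ≤ A → A ≤ B → B ≤ 3 * T →
      ‖∫ u in A..B, (f2 u - gY Y u) * ee lam u‖ ≤
      C * Real.log T ^ 5 * ((B - A) / Real.sqrt Y + T ^ (9 / 10 : ℝ) * (Y : ℝ) ^ 2))
    {a H S : ℝ} (ha : 0 ≤ a) (hH : 0 ≤ H) (haH : a + 2 * H ≤ 3 * T) (hS : 0 ≤ S) (hSH : S ≤ H)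
    (R : ℝ → ℂ) (hR : Continuous R) :
    ∫ y in (0:ℝ)..H, ‖∫ t in (0:ℝ)..S, (f2 (a + (t + y)) - gY Y (a + (t + y))) * R t‖ ^ 2 ≤
      (2 * C * Real.log T ^ 5 * (H / Real.sqrt Y + T ^ (9 / 10 : ℝ) * (Y : ℝ) ^ 2)) ^ 2 *
        ∫ t in (0:ℝ)..S, ‖R t‖ ^ 2 := by
  have cg := gY_cont Y
  have cf := f2_cont
  have hLg : 0 ≤ Real.log T := Real.log_nonneg (by linarith)
  have hT0 : 0 ≤ T := by linarith
  refine op_gen (fun u => f2 (a + u) - gY Y (a + u)) (by fun_prop) hH hS hSH (by positivity) ?_ R hR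
  intro lam
  have e1 : ∫ u in (0:ℝ)..(2 * H), (f2 (a + u) - gY Y (a + u)) * ee lam u =
      ee lam (-a) * ∫ u in a..(a + 2 * H), (f2 u - gY Y u) * ee lam u := by
    have h1 := intervalIntegral.integral_comp_add_left (a := (0:ℝ)) (b := 2 * H)
      (fun u => (f2 u - gY Y u) * ee lam (u - a)) a
    rw [add_zero] at h1
    rw [← intervalIntegral.integral_const_mul]
    have h2 : ∀ u, ee lam (u - a) = ee lam (-a) * ee lam u := by
      intro u
      unfold ee
      rw [← exp_add]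
      congr 1
      push_cast
      ring
    have h3 : ∫ u in a..(a + 2 * H), ee lam (-a) * ((f2 u - gY Y u) * ee lam u) =
        ∫ u in a..(a + 2 * H), (f2 u - gY Y u) * ee lam (u - a) := by
      refine intervalIntegral.integral_congr fun u _ => ?_
      simp only [h2]
      ring
    rw [h3, ← h1]
    refine intervalIntegral.integral_congr fun u _ => ?_
    simp only [add_sub_cancel_left]
  rw [e1, norm_mul, ee_norm, one_mul]
  refine (hKA a (a + 2 * H) lam ha (by linarith) haH).trans ?_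
  have h2 : (a + 2 * H - a) / Real.sqrt Y = 2 * (H / Real.sqrt Y) := by ring
  rw [h2]
  have h3 : 0 ≤ H / Real.sqrt Y := div_nonneg hH (Real.sqrt_nonneg _)
  have h4 : 0 ≤ T ^ (9 / 10 : ℝ) * (Y : ℝ) ^ 2 := by positivity
  have h5 : 0 ≤ C * Real.log T ^ 5 := by positivity
  nlinarith

end

end Pool.Agent.Y752.KP
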