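import Pool.Agent.Y752.KP.Blk

set_option autoImplicit false

/-! Replacement of the shifted factors: the bound on one block. -/

namespace Pool.Agent.Y752.KP

open Complex Filter Topology MeasureTheory Set
open Pool.Agent.TH612.GS (z mP)
open Pool.Agent.TH521.GS (cs lint1 mor tonelli)
open scoped ENNReal

noncomputable section

lemma int_cont {X : Type} [TopologicalSpace X] [FirstCountableTopology X] {F : X → ℝ → ℂ}
    (hF : Continuous (Function.uncurry F)) (a b : ℝ) : Continuous fun x => ∫ t in a..b, F x t :=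
  intervalIntegral.continuous_parametric_intervalIntegral_of_continuous' hF a b

lemma blk_bound {k : ℕ} {C T H W : ℝ} {Y : ℕ} (hY1 : 1 ≤ Y) (hC : 1 ≤ C) (hT : 1000 ≤ T)
    (hYT : (Y : ℝ) + 1 ≤ T)
    (hKA : ∀ A B lam : ℝ, 0 ≤ A → A ≤ B → B ≤ 3 * T →
      ‖∫ u in A..B, (f2 u - gY Y u) * ee lam u‖ ≤
      C * Real.log T ^ 5 * ((B - A) / Real.sqrt Y + T ^ (9 / 10 : ℝ) * (Y : ℝ) ^ 2))
    (hfs : ∀ A B : ℝ, 0 ≤ A → A ≤ B → B ≤ 3 * T →
      ∫ u in A..B, ‖z u‖ ^ 2 ≤ C * Real.log T ^ 5 * ((B - A) + T ^ (9 / 10 : ℝ)))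
    (hH9 : T ^ (9 / 10 : ℝ) ≤ H) (hHT : H ≤ T) (hY6 : (Y : ℝ) ^ 6 ≤ H)
    (hW : 9 * Real.log T ^ 2 ≤ W) {a S : ℝ} (ha : 0 ≤ a) (haS : a + S ≤ T) (hS : 0 ≤ S)
    (hSH : S ≤ H) :
    ∫⁻ β, ENNReal.ofReal ‖∫ t in a..(a + S), f2 t * (∏ l : Fin k, f2 (t + β l) -
      ∏ l : Fin k, gY Y (t + β l))‖ ∂(mP (Fin k) H) ≤
    ENNReal.ofReal (H ^ k * (2 ^ k * (2 * C * Real.log T ^ 5 *
      (H / Real.sqrt Y + T ^ (9 / 10 : ℝ) * (Y : ℝ) ^ 2)) * W ^ k +
      2 * (9 * C * Real.log T ^ 5) ^ k * ((∫ u in a..(a + 2 * H), (‖z u‖ ^ 2) ^ 2) / W))) := by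
  have cz := z_cont
  have cg := gY_cont Y
  have cf := f2_cont
  have hT0 : 0 < T := by linarith
  have hT9 : 0 < T ^ (9 / 10 : ℝ) := by positivity
  have hH0 : 0 < H := hT9.trans_le hH9
  have hLg1 : 1 ≤ Real.log T := by
    rw [Real.le_log_iff_exp_le hT0]
    have := Real.exp_one_lt_d9
    linarith
  have hYr : (1:ℝ) ≤ Y := by exact_mod_cast hY1
  have hW1 : 1 ≤ W := by nlinarith
  have hLp : 0 < Real.log T ^ 5 := by positivity
  set M : ℝ := 2 * C * Real.log T ^ 5 * (H / Real.sqrt Y + T ^ (9 / 10 : ℝ) * (Y : ℝ) ^ 2) with hM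
  have hsY : 0 < Real.sqrt Y := Real.sqrt_pos.2 (by linarith)
  have hMp : 0 < M := by positivity
  set Fi : ℝ := ∫ u in a..(a + 2 * H), (‖z u‖ ^ 2) ^ 2 with hFi
  have hFi0 : 0 ≤ Fi := intervalIntegral.integral_nonneg (by linarith) fun _ _ => by positivity
  have haT : a ≤ T := by linarith
  have cD : Continuous fun β : Fin k → ℝ => ‖∫ t in a..(a + S), f2 t * (∏ l : Fin k, f2 (t + β l) -
      ∏ l : Fin k, gY Y (t + β l))‖ := by
    refine (int_cont (F := fun (β : Fin k → ℝ) t => f2 t * (∏ l : Fin k, f2 (t + β l) -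
      ∏ l : Fin k, gY Y (t + β l))) ?_ _ _).norm
    simp only [Function.uncurry_def]
    fun_prop
  rcases Nat.eq_zero_or_pos k with hk0 | hkpos
  · subst hk0
    simp
  by_cases hgood : Fi ≤ H * W ^ 2
  · -- good blocks
    have hHW : 0 ≤ H * W ^ 2 := by positivity
    have key := Pool.Agent.TH406.GF.t_REPA (Fin k) (fun t => f2 (a + t)) (fun _ t => f2 (a + t))
      (fun _ t => gY Y (a + t)) H S (M ^ 2) (H * W ^ 2) (H * W ^ 2) hS hSH (by positivity) hHW hHW
      (by fun_prop) (fun _ => by fun_prop) (fun _ => by fun_prop) ?_ ?_ ?_ ?_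
    · have hB : 0 < 2 ^ k * M * W ^ k := by positivity
      have h2 : ∫⁻ β, ENNReal.ofReal (‖∫ t in a..(a + S), f2 t * (∏ l : Fin k, f2 (t + β l) -
          ∏ l : Fin k, gY Y (t + β l))‖ ^ 2) ∂(mP (Fin k) H) ≤
          ENNReal.ofReal (H ^ k * (2 ^ k * M * W ^ k) ^ 2) := by
        refine le_trans (le_of_eq (lintegral_congr fun β => ?_)) (key.trans (le_of_eq ?_))
        · congr 3
          have h1 := intervalIntegral.integral_comp_add_left (a := (0:ℝ)) (b := S)
            (fun t => f2 t * (∏ l : Fin k, f2 (t + β l) - ∏ l : Fin k, gY Y (t + β l))) a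
          rw [add_zero] at h1
          rw [← h1]
          refine intervalIntegral.integral_congr fun t _ => ?_
          simp only [add_assoc]
        · congr 1
          rw [Fintype.card_fin]
          obtain ⟨n, rfl⟩ : ∃ n, k = n + 1 := ⟨k - 1, by omega⟩
          simp only [Nat.add_sub_cancel]
          have : (4:ℝ) ^ (n + 1) = (2 ^ (n + 1)) ^ 2 := by
            rw [← pow_mul, mul_comm, pow_mul]; norm_num
          rw [this]
          ring
      refine (l1_of_l2 hH0.le hB cD h2).trans (ENNReal.ofReal_le_ofReal ?_)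
      have h3 : 0 ≤ 2 * (9 * C * Real.log T ^ 5) ^ k * (Fi / W) := by positivity
      have h4 : 0 ≤ H ^ k := by positivity
      nlinarith
    · intro _ R hR
      exact op_blk hY1 hC hT hKA ha hH0.le (by linarith) hS hSH R hR
    · intro _ t ht
      refine le_trans ?_ hgood
      have h1 := intervalIntegral.integral_comp_add_left (a := (0:ℝ)) (b := H)
        (fun u => ‖f2 u‖ ^ 2) (a + t)
      rw [add_zero] at h1
      have h2 : ∫ y in (0:ℝ)..H, ‖f2 (a + (t + y))‖ ^ 2 = ∫ y in (0:ℝ)..H, ‖f2 (a + t + y)‖ ^ 2 := by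
        simp only [add_assoc]
      rw [h2, h1]
      simp only [f2_norm]
      exact intervalIntegral.integral_mono_interval (by linarith [ht.1]) (by linarith)
        (by linarith [ht.2]) (Eventually.of_forall fun u => by simp only [Pi.zero_apply]; positivity)
        (Continuous.intervalIntegrable (by fun_prop) _ _)
    · intro _ t ht
      have h1 := intervalIntegral.integral_comp_add_left (a := (0:ℝ)) (b := H)
        (fun u => ‖gY Y u‖ ^ 2) (a + t)
      rw [add_zero] at h1
      have h2 : ∫ y in (0:ℝ)..H, ‖gY Y (a + (t + y))‖ ^ 2 = ∫ y in (0:ℝ)..H, ‖gY Y (a + t + y)‖ ^ 2 := by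
        simp only [add_assoc]
      rw [h2, h1]
      refine (g_ms (T := T) (by linarith) hY1 hYT (A := a + t) (B := a + t + H)
        (by linarith [ht.1]) (by linarith [ht.2]) (by linarith)).trans ?_
      have h3 : 80 * Real.log T ^ 4 ≤ W ^ 2 := by
        calc 80 * Real.log T ^ 4 ≤ (9 * Real.log T ^ 2) ^ 2 := by
              have : 0 ≤ Real.log T ^ 4 := by positivity
              nlinarith
          _ ≤ W ^ 2 := by gcongr
      calc 80 * (a + t + H - (a + t)) * Real.log T ^ 4 = H * (80 * Real.log T ^ 4) := by ring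
        _ ≤ H * W ^ 2 := by gcongr
    · refine le_trans ?_ hgood
      have h1 := intervalIntegral.integral_comp_add_left (a := (0:ℝ)) (b := S)
        (fun u => ‖f2 u‖ ^ 2) a
      rw [add_zero] at h1
      rw [h1]
      simp only [f2_norm]
      exact intervalIntegral.integral_mono_interval le_rfl (by linarith)
        (by linarith) (Eventually.of_forall fun u => by simp only [Pi.zero_apply]; positivity)
        (Continuous.intervalIntegrable (by fun_prop) _ _)
  · -- bad blocks
    push Not at hgood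
    set V : ℝ := H * (9 * C * Real.log T ^ 5) with hV
    have hV0 : 0 ≤ V := by positivity
    set I1 : ℝ := ∫ t in a..(a + S), ‖z t‖ ^ 2 with hI1
    have hI10 : 0 ≤ I1 := intervalIntegral.integral_nonneg (by linarith) fun _ _ => by positivity
    have L15 : Real.log T ^ 2 ≤ Real.log T ^ 5 := pow_le_pow_right₀ hLg1 (by norm_num)
    have hC5 : Real.log T ^ 5 ≤ C * Real.log T ^ 5 := by nlinarith
    have m1 := l1_prod (k := k) hH0.le hV0 (show a ≤ a + S by linarith) (w := fun t => ‖z t‖ ^ 2)
      (by fun_prop) (fun _ => by positivity) (F := fun t => ‖z t‖ ^ 2) (by fun_prop)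
      (fun _ => by positivity) (by
        intro t ht
        have h1 := intervalIntegral.integral_comp_add_left (a := (0:ℝ)) (b := H)
          (fun u => ‖z u‖ ^ 2) t
        rw [add_zero] at h1
        rw [h1]
        refine (hfs t (t + H) (by linarith [ht.1]) (by linarith) (by linarith [ht.2])).trans ?_
        have h2 : t + H - t + T ^ (9 / 10 : ℝ) ≤ 2 * H := by linarith
        have h3 : 0 ≤ C * Real.log T ^ 5 := by positivity
        calc C * Real.log T ^ 5 * (t + H - t + T ^ (9 / 10 : ℝ)) ≤ C * Real.log T ^ 5 * (2 * H) := by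
              gcongr
          _ ≤ V := by
              rw [hV]
              nlinarith)
    have m2 := l1_prod (k := k) hH0.le hV0 (show a ≤ a + S by linarith) (w := fun t => ‖z t‖ ^ 2)
      (by fun_prop) (fun _ => by positivity) (F := fun t => ‖gY Y t‖) (by fun_prop)
      (fun _ => norm_nonneg _) (by
        intro t ht
        have h1 := intervalIntegral.integral_comp_add_left (a := (0:ℝ)) (b := H)
          (fun u => ‖gY Y u‖) t
        rw [add_zero] at h1
        rw [h1]
        have h2 := cs (A := t) (B := t + H) (by linarith) (h := fun u => ‖gY Y u‖) (by fun_prop)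
        have h3 := g_ms (T := T) (by linarith) hY1 hYT (A := t) (B := t + H)
          (by linarith [ht.1]) (by linarith [ht.2]) (by linarith)
        have h4 : (∫ u in t..(t + H), ‖gY Y u‖) ^ 2 ≤ (9 * H * Real.log T ^ 2) ^ 2 := by
          refine h2.trans ?_
          calc (t + H - t) * ∫ u in t..(t + H), ‖gY Y u‖ ^ 2
              ≤ (t + H - t) * (80 * (t + H - t) * Real.log T ^ 4) := by
                refine mul_le_mul_of_nonneg_left h3 (by linarith)
            _ = 80 * H ^ 2 * Real.log T ^ 4 := by ring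
            _ ≤ 81 * H ^ 2 * Real.log T ^ 4 := by
                have : 0 ≤ H ^ 2 * Real.log T ^ 4 := by positivity
                nlinarith
            _ = _ := by ring
        have h5 : ∫ u in t..(t + H), ‖gY Y u‖ ≤ 9 * H * Real.log T ^ 2 :=
          (le_abs_self _).trans (abs_le_of_sq_le_sq h4 (by positivity))
        refine h5.trans ?_
        rw [hV]
        have : 9 * H * Real.log T ^ 2 ≤ 9 * H * (C * Real.log T ^ 5) := by
          have : Real.log T ^ 2 ≤ C * Real.log T ^ 5 := L15.trans hC5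
          gcongr
        linarith)
    have cs1 : I1 ≤ Fi / W := by
      have h2 := cs (A := a) (B := a + S) (by linarith) (h := fun u => ‖z u‖ ^ 2) (by fun_prop)
      have h3 : ∫ t in a..(a + S), (‖z t‖ ^ 2) ^ 2 ≤ Fi :=
        intervalIntegral.integral_mono_interval le_rfl (by linarith)
          (by linarith) (Eventually.of_forall fun u => by simp only [Pi.zero_apply]; positivity)
          (Continuous.intervalIntegrable (by fun_prop) _ _)
      have h4 : I1 ^ 2 ≤ H * Fi := by
        refine h2.trans ?_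
        have : 0 ≤ ∫ t in a..(a + S), (‖z t‖ ^ 2) ^ 2 :=
          intervalIntegral.integral_nonneg (by linarith) fun _ _ => by positivity
        calc (a + S - a) * ∫ t in a..(a + S), (‖z t‖ ^ 2) ^ 2
            ≤ H * ∫ t in a..(a + S), (‖z t‖ ^ 2) ^ 2 := by
              refine mul_le_mul_of_nonneg_right (by linarith) this
          _ ≤ H * Fi := by gcongr
      have h5 : H ≤ Fi / W ^ 2 := by
        rw [le_div_iff₀ (by positivity)]
        exact hgood.le
      have h6 : I1 ^ 2 ≤ (Fi / W) ^ 2 := by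
        refine h4.trans ?_
        calc H * Fi ≤ Fi / W ^ 2 * Fi := by gcongr
          _ = (Fi / W) ^ 2 := by ring
      exact (le_abs_self _).trans (abs_le_of_sq_le_sq h6 (by positivity))
    have hpt : ∀ β : Fin k → ℝ, ‖∫ t in a..(a + S), f2 t * (∏ l : Fin k, f2 (t + β l) -
        ∏ l : Fin k, gY Y (t + β l))‖ ≤
        (∫ t in a..(a + S), ‖z t‖ ^ 2 * ∏ l : Fin k, ‖z (t + β l)‖ ^ 2) +
        ∫ t in a..(a + S), ‖z t‖ ^ 2 * ∏ l : Fin k, ‖gY Y (t + β l)‖ := by
      intro β
      rw [← intervalIntegral.integral_add (Continuous.intervalIntegrable (by fun_prop) _ _)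
        (Continuous.intervalIntegrable (by fun_prop) _ _)]
      refine intervalIntegral.norm_integral_le_of_norm_le (by linarith) ?_
        (Continuous.intervalIntegrable (by fun_prop) _ _)
      refine Eventually.of_forall fun t _ => ?_
      rw [norm_mul, f2_norm, ← mul_add]
      refine mul_le_mul_of_nonneg_left ((norm_sub_le _ _).trans ?_) (by positivity)
      rw [norm_prod, norm_prod]
      simp only [f2_norm]
      exact le_rfl
    have n1 : ∀ β : Fin k → ℝ, 0 ≤ ∫ t in a..(a + S), ‖z t‖ ^ 2 * ∏ l : Fin k, ‖z (t + β l)‖ ^ 2 :=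
      fun β => intervalIntegral.integral_nonneg (by linarith) fun _ _ =>
        mul_nonneg (by positivity) (Finset.prod_nonneg fun _ _ => by positivity)
    have n2 : ∀ β : Fin k → ℝ, 0 ≤ ∫ t in a..(a + S), ‖z t‖ ^ 2 * ∏ l : Fin k, ‖gY Y (t + β l)‖ :=
      fun β => intervalIntegral.integral_nonneg (by linarith) fun _ _ =>
        mul_nonneg (by positivity) (Finset.prod_nonneg fun _ _ => norm_nonneg _)
    have hm : Measurable fun β : Fin k → ℝ => ENNReal.ofReal
        (∫ t in a..(a + S), ‖z t‖ ^ 2 * ∏ l : Fin k, ‖z (t + β l)‖ ^ 2) := by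
      refine mor ?_
      refine intervalIntegral.continuous_parametric_intervalIntegral_of_continuous' ?_ _ _
      simp only [Function.uncurry_def]
      fun_prop
    calc ∫⁻ β, ENNReal.ofReal ‖∫ t in a..(a + S), f2 t * (∏ l : Fin k, f2 (t + β l) -
          ∏ l : Fin k, gY Y (t + β l))‖ ∂(mP (Fin k) H)
        ≤ ∫⁻ β, (ENNReal.ofReal (∫ t in a..(a + S), ‖z t‖ ^ 2 * ∏ l : Fin k, ‖z (t + β l)‖ ^ 2) +
          ENNReal.ofReal (∫ t in a..(a + S), ‖z t‖ ^ 2 * ∏ l : Fin k, ‖gY Y (t + β l)‖))
          ∂(mP (Fin k) H) := by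
          refine lintegral_mono fun β => ?_
          rw [← ENNReal.ofReal_add (n1 β) (n2 β)]
          exact ENNReal.ofReal_le_ofReal (hpt β)
      _ ≤ ENNReal.ofReal (V ^ k * I1) + ENNReal.ofReal (V ^ k * I1) := by
          rw [lintegral_add_left hm]
          exact add_le_add m1 m2
      _ = ENNReal.ofReal (2 * V ^ k * I1) := by
          rw [← ENNReal.ofReal_add (by positivity) (by positivity)]
          congr 1
          ring
      _ ≤ _ := by
          refine ENNReal.ofReal_le_ofReal ?_
          have h1 : 2 * V ^ k * I1 ≤ 2 * V ^ k * (Fi / W) := by gcongr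
          have h2 : 2 * V ^ k * (Fi / W) = H ^ k * (2 * (9 * C * Real.log T ^ 5) ^ k * (Fi / W)) := by
            rw [hV, mul_pow]
            ring
          have h3 : 0 ≤ H ^ k * (2 ^ k * M * W ^ k) := by positivity
          rw [h2] at h1
          refine h1.trans ?_
          rw [mul_add]
          linarith

end

end Pool.Agent.Y752.KP
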