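import Pool.Agent.H448R2.GC.K1

set_option autoImplicit false

/-! The smooth cutoffs `cu`: harmonic sums and oscillatory integrals. -/

namespace Pool.Agent.Y752.KP

open Complex Filter Topology MeasureTheory Set
open Pool.Agent.H448R2.GC

noncomputable section

/-- harmonic sums -/
lemma har0 {x : ℝ} (hx : 1 ≤ x) :
    |∑ g ∈ Finset.Icc 1 ⌊x⌋₊, (g : ℝ)⁻¹ - (Real.log x + Real.eulerMascheroniConstant)| ≤ 2 / x := by
  have hx0 : 0 < x := by linarith
  set n := ⌊x⌋₊ with hn
  have hn1 : 1 ≤ n := Nat.le_floor (by exact_mod_cast hx)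
  have hn0 : (0:ℝ) < n := by exact_mod_cast hn1
  have hnx : (n : ℝ) ≤ x := Nat.floor_le hx0.le
  have hxn : x < n + 1 := Nat.lt_floor_add_one x
  have hH : ((harmonic n : ℚ) : ℝ) = ∑ g ∈ Finset.Icc 1 n, (g : ℝ)⁻¹ := by
    rw [harmonic_eq_sum_Icc]
    push_cast
    rfl
  have h1 := Real.eulerMascheroniSeq_lt_eulerMascheroniConstant n
  have h2 := Real.eulerMascheroniConstant_lt_eulerMascheroniSeq' n
  rw [Real.eulerMascheroniSeq] at h1
  rw [Real.eulerMascheroniSeq', if_neg (by omega)] at h2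
  rw [← hH]
  have h3 : Real.log n ≤ Real.log x := Real.log_le_log hn0 hnx
  have h4 : Real.log x ≤ Real.log (n + 1) := Real.log_le_log hx0 hxn.le
  have h5 : Real.log (n + 1) - Real.log n ≤ 1 / n := by
    rw [← Real.log_div (by positivity) hn0.ne']
    have := Real.log_le_sub_one_of_pos (show (0:ℝ) < ((n:ℝ) + 1) / n by positivity)
    refine this.trans (le_of_eq ?_)
    field_simp
    ring
  have h6 : (1:ℝ) / n ≤ 2 / x := by
    rw [div_le_div_iff₀ hn0 hx0]
    have : (1:ℝ) ≤ n := by exact_mod_cast hn1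
    linarith
  rw [abs_le]
  constructor <;> linarith

/-- harmonic sums with a smooth cutoff -/
lemma har (k : ℕ) {c : ℝ} (hc : 0 < c) : ∀ {D : ℝ}, 0 ≤ D → ∀ {G : ℕ}, Real.exp (D + k * c) ≤ G →
    |∑ g ∈ Finset.Icc 1 G, (g : ℝ)⁻¹ * cu k c (Real.log g - D) -
      (D + k * c / 2 + Real.eulerMascheroniConstant)| ≤ 2 * Real.exp (-D) := by
  induction k with
  | zero =>
    intro D hD G hG
    have hx : 1 ≤ Real.exp D := Real.one_le_exp hD
    have h := har0 hx
    have hG' : ⌊Real.exp D⌋₊ ≤ G := by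
      rw [← Nat.floor_natCast (R := ℝ) G]
      refine Nat.floor_le_floor ?_
      simpa using hG
    have e : ∑ g ∈ Finset.Icc 1 G, (g : ℝ)⁻¹ * cu 0 c (Real.log g - D) =
        ∑ g ∈ Finset.Icc 1 ⌊Real.exp D⌋₊, (g : ℝ)⁻¹ := by
      have hsub : Finset.Icc 1 ⌊Real.exp D⌋₊ ⊆ Finset.Icc 1 G := Finset.Icc_subset_Icc le_rfl hG'
      rw [← Finset.sum_subset hsub]
      · refine Finset.sum_congr rfl fun g hg => ?_
        obtain ⟨hg1, hg2⟩ := Finset.mem_Icc.1 hg
        have hg0 : (0:ℝ) < g := by exact_mod_cast hg1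
        have : Real.log g - D ≤ 0 := by
          rw [sub_nonpos, Real.log_le_iff_le_exp hg0]
          exact (Nat.cast_le.2 hg2).trans (Nat.floor_le (Real.exp_pos D).le)
        rw [cu, if_pos this, mul_one]
      · intro g hg hg'
        obtain ⟨hg1, hg2⟩ := Finset.mem_Icc.1 hg
        have hg0 : (0:ℝ) < g := by exact_mod_cast hg1
        have h3 : ⌊Real.exp D⌋₊ < g := by
          by_contra h4
          exact hg' (Finset.mem_Icc.2 ⟨hg1, by omega⟩)
        have : ¬ (Real.log g - D ≤ 0) := by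
          rw [sub_nonpos, Real.log_le_iff_le_exp hg0]
          intro h5
          have := Nat.le_floor h5
          omega
        rw [cu, if_neg this, mul_zero]
    rw [e]
    rw [Real.log_exp] at h
    simp only [Nat.cast_zero, zero_mul, zero_div, add_zero]
    refine h.trans (le_of_eq ?_)
    rw [Real.exp_neg]
    ring
  | succ k ih =>
    intro D hD G hG
    have hint : ∀ g : ℕ, IntervalIntegrable (fun τ : ℝ => cu k c (Real.log g - (D + τ))) volume 0 c := by
      intro g
      have hm : Monotone (fun τ : ℝ => cu k c (Real.log g - (D + τ))) := by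
        intro a b hab
        exact cu_anti k c hc (by linarith)
      exact hm.intervalIntegrable
    have e1 : ∑ g ∈ Finset.Icc 1 G, (g : ℝ)⁻¹ * cu (k + 1) c (Real.log g - D) =
        (1 / c) * ∫ τ in (0:ℝ)..c, ∑ g ∈ Finset.Icc 1 G, (g : ℝ)⁻¹ * cu k c (Real.log g - (D + τ)) := by
      rw [intervalIntegral.integral_finsetSum fun g _ => (hint g).const_mul _, Finset.mul_sum]
      refine Finset.sum_congr rfl fun g _ => ?_
      rw [intervalIntegral.integral_const_mul, cu]
      have : (fun τ : ℝ => cu k c (Real.log g - (D + τ))) = fun τ => cu k c (Real.log g - D - τ) := by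
        funext τ
        congr 1
        ring
      rw [this]
      ring
    have e2 : D + ((k + 1 : ℕ) : ℝ) * c / 2 + Real.eulerMascheroniConstant =
        (1 / c) * ∫ τ in (0:ℝ)..c, (D + τ + k * c / 2 + Real.eulerMascheroniConstant) := by
      have : ∫ τ in (0:ℝ)..c, (D + τ + k * c / 2 + Real.eulerMascheroniConstant) =
          ∫ τ in (0:ℝ)..c, ((D + k * c / 2 + Real.eulerMascheroniConstant) + τ) := by
        refine intervalIntegral.integral_congr fun τ _ => ?_
        ring
      rw [this, intervalIntegral.integral_add (by simp) (by simp)]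
      simp only [intervalIntegral.integral_const, integral_id, smul_eq_mul]
      push_cast
      field_simp
      ring
    have hI1 : IntervalIntegrable (fun τ : ℝ => ∑ g ∈ Finset.Icc 1 G, (g : ℝ)⁻¹ *
        cu k c (Real.log g - (D + τ))) volume 0 c := by
      have := IntervalIntegrable.sum (Finset.Icc 1 G) (f := fun g : ℕ => fun τ : ℝ => (g : ℝ)⁻¹ *
        cu k c (Real.log g - (D + τ))) fun g _ => (hint g).const_mul _
      simpa [Finset.sum_fn] using this
    have hI2 : IntervalIntegrable (fun τ : ℝ => (D + τ + k * c / 2 + Real.eulerMascheroniConstant))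
        volume 0 c := by
      refine Continuous.intervalIntegrable ?_ _ _
      fun_prop
    rw [e1, e2, ← mul_sub, ← intervalIntegral.integral_sub hI1 hI2, abs_mul,
      abs_of_pos (by positivity : 0 < 1 / c)]
    have hb : ‖∫ τ in (0:ℝ)..c, (∑ g ∈ Finset.Icc 1 G, (g : ℝ)⁻¹ * cu k c (Real.log g - (D + τ)) -
        (D + τ + k * c / 2 + Real.eulerMascheroniConstant))‖ ≤ 2 * Real.exp (-D) * |c - 0| := by
      refine intervalIntegral.norm_integral_le_of_norm_le_const fun τ hτ => ?_
      rw [uIoc_of_le hc.le] at hτ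
      rw [Real.norm_eq_abs]
      refine (ih (D := D + τ) (by linarith [hτ.1]) (G := G) ?_).trans ?_
      · refine le_trans (Real.exp_le_exp.2 ?_) hG
        push_cast
        linarith [hτ.2]
      · have : Real.exp (-(D + τ)) ≤ Real.exp (-D) := Real.exp_le_exp.2 (by linarith [hτ.1])
        linarith
    rw [Real.norm_eq_abs, sub_zero, abs_of_pos hc] at hb
    calc 1 / c * |∫ τ in (0:ℝ)..c, (∑ g ∈ Finset.Icc 1 G, (g : ℝ)⁻¹ * cu k c (Real.log g - (D + τ)) -
        (D + τ + k * c / 2 + Real.eulerMascheroniConstant))| ≤ 1 / c * (2 * Real.exp (-D) * c) := by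
          gcongr
      _ = 2 * Real.exp (-D) := by field_simp

/-- oscillatory integrals with a monotone smooth weight -/
lemma osc {w w' : ℝ → ℝ} {A B θ : ℝ} (hAB : A ≤ B) (hθ : θ ≠ 0)
    (hw : ∀ u ∈ Icc A B, HasDerivAt w (w' u) u) (hw' : ContinuousOn w' (Icc A B))
    (hpos : ∀ u ∈ Icc A B, 0 ≤ w' u) (h0 : 0 ≤ w A) (h1 : w B ≤ 1) :
    ‖∫ u in A..B, (w u : ℂ) * exp (I * (θ * u : ℝ))‖ ≤ 3 / |θ| := by
  have hθc : (θ : ℂ) ≠ 0 := by exact_mod_cast hθ
  have hI : uIcc A B = Icc A B := uIcc_of_le hAB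
  have hcw' : IntervalIntegrable w' volume A B := by
    refine ContinuousOn.intervalIntegrable ?_
    rwa [hI]
  have hcw'c : IntervalIntegrable (fun u => (w' u : ℂ)) volume A B := by
    refine ContinuousOn.intervalIntegrable ?_
    rw [hI]
    exact Complex.continuous_ofReal.comp_continuousOn hw'
  have hv : ∀ u : ℝ, HasDerivAt (fun u : ℝ => exp (I * (θ * u : ℝ)) / (I * θ)) (exp (I * (θ * u : ℝ))) u := by
    intro u
    have h2 : HasDerivAt (fun u : ℝ => (I * (θ * u : ℝ) : ℂ)) (I * θ) u := by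
      have h3 := ((hasDerivAt_id u).const_mul θ).ofReal_comp.const_mul I
      simpa using h3
    have h4 := h2.cexp.div_const (I * θ)
    refine h4.congr_deriv ?_
    have : (I * θ : ℂ) ≠ 0 := mul_ne_zero I_ne_zero hθc
    field_simp
  have hwc : ∀ u ∈ uIcc A B, HasDerivAt (fun u => (w u : ℂ)) (w' u : ℂ) u := by
    intro u hu
    rw [hI] at hu
    exact (hw u hu).ofReal_comp
  have key := intervalIntegral.integral_mul_deriv_eq_deriv_mul (u := fun u => (w u : ℂ))
    (v := fun u : ℝ => exp (I * (θ * u : ℝ)) / (I * θ)) (u' := fun u => (w' u : ℂ))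
    (v' := fun u : ℝ => exp (I * (θ * u : ℝ))) hwc (fun u _ => hv u) hcw'c
    (Continuous.intervalIntegrable (by fun_prop) _ _)
  rw [key]
  have hn : ∀ u : ℝ, ‖exp (I * (θ * u : ℝ)) / (I * θ)‖ = 1 / |θ| := by
    intro u
    rw [norm_div, norm_mul, norm_I, one_mul, mul_comm I, norm_exp_ofReal_mul_I,
      Complex.norm_real, Real.norm_eq_abs]
  have hAm : A ∈ Icc A B := ⟨le_rfl, hAB⟩
  have hBm : B ∈ Icc A B := ⟨hAB, le_rfl⟩
  have hint : ∫ u in A..B, w' u = w B - w A :=
    intervalIntegral.integral_eq_sub_of_hasDerivAt (fun u hu => hw u (by rwa [hI] at hu)) hcw'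
  have hmono : w A ≤ w B := by
    have : 0 ≤ ∫ u in A..B, w' u := intervalIntegral.integral_nonneg hAB hpos
    linarith
  have b1 : ‖(w B : ℂ) * (exp (I * (θ * B : ℝ)) / (I * θ))‖ ≤ 1 / |θ| := by
    rw [norm_mul, hn, Complex.norm_real, Real.norm_eq_abs, abs_of_nonneg (by linarith)]
    have : 0 ≤ 1 / |θ| := by positivity
    nlinarith
  have b2 : ‖(w A : ℂ) * (exp (I * (θ * A : ℝ)) / (I * θ))‖ ≤ 1 / |θ| := by
    rw [norm_mul, hn, Complex.norm_real, Real.norm_eq_abs, abs_of_nonneg h0]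
    have : 0 ≤ 1 / |θ| := by positivity
    nlinarith
  have b3 : ‖∫ u in A..B, (w' u : ℂ) * (exp (I * (θ * u : ℝ)) / (I * θ))‖ ≤ 1 / |θ| := by
    have c1 : ‖∫ u in A..B, (w' u : ℂ) * (exp (I * (θ * u : ℝ)) / (I * θ))‖ ≤
        ∫ u in A..B, w' u * (1 / |θ|) := by
      refine intervalIntegral.norm_integral_le_of_norm_le hAB ?_ (hcw'.mul_const _)
      refine Eventually.of_forall fun u hu => ?_
      rw [norm_mul, hn, Complex.norm_real, Real.norm_eq_abs, abs_of_nonneg (hpos u ⟨hu.1.le, hu.2⟩)]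
    refine c1.trans ?_
    rw [intervalIntegral.integral_mul_const, hint]
    have : 0 ≤ 1 / |θ| := by positivity
    nlinarith
  calc _ ≤ 1 / |θ| + 1 / |θ| + 1 / |θ| := (norm_sub_le _ _).trans
        (add_le_add ((norm_sub_le _ _).trans (add_le_add b1 b2)) b3)
    _ = 3 / |θ| := by ring

/-- the same for the weight of the second sum -/
lemma osc_cu (k : ℕ) {c β A B θ : ℝ} (hc : 0 < c) (hA : 0 < A) (hAB : A ≤ B) (hθ : θ ≠ 0) :
    ‖∫ u in A..B, (cu (k + 2) c (β - Real.log u) : ℂ) * exp (I * (θ * u : ℝ))‖ ≤ 3 / |θ| := by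
  have hpos : ∀ u ∈ Icc A B, 0 < u := fun u hu => hA.trans_le hu.1
  refine osc (w := fun u => cu (k + 2) c (β - Real.log u))
    (w' := fun u => (cu (k + 1) c (β - Real.log u) - cu (k + 1) c (β - Real.log u - c)) / c *
      (-(u⁻¹))) hAB hθ ?_ ?_ ?_ ?_ ?_
  · intro u hu
    have h1 : HasDerivAt (fun u : ℝ => β - Real.log u) (-(u⁻¹)) u := by
      have := (Real.hasDerivAt_log (hpos u hu).ne').const_sub β
      exact this
    exact HasDerivAt.comp (h₂ := cu (k + 2) c) (h := fun u : ℝ => β - Real.log u) u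
      (cu_deriv k c (β - Real.log u) hc) h1
  · have hcu := cu_cont k c hc
    have h1 : ContinuousOn (fun u : ℝ => β - Real.log u) (Icc A B) := by
      refine continuousOn_const.sub (Real.continuousOn_log.mono fun u hu => ?_)
      simpa using (hpos u hu).ne'
    refine ContinuousOn.mul (ContinuousOn.div_const (ContinuousOn.sub ?_ ?_) _) ?_
    · exact hcu.comp_continuousOn h1
    · exact hcu.comp_continuousOn (h1.sub continuousOn_const)
    · exact (continuousOn_id.inv₀ fun u hu => (hpos u hu).ne').neg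
  · intro u hu
    have h1 : cu (k + 1) c (β - Real.log u) ≤ cu (k + 1) c (β - Real.log u - c) :=
      cu_anti (k + 1) c hc (by linarith)
    have h2 : 0 < u⁻¹ := inv_pos.2 (hpos u hu)
    have h3 : (cu (k + 1) c (β - Real.log u) - cu (k + 1) c (β - Real.log u - c)) / c ≤ 0 :=
      div_nonpos_of_nonpos_of_nonneg (by linarith) hc.le
    nlinarith
  · exact cu_nonneg _ _ _ hc
  · exact cu_le_one _ _ _ hc

end

end Pool.Agent.Y752.KP
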