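import Pool.Agent.Y752.KP.ThmA2

set_option autoImplicit false
set_option linter.unusedSectionVars false

/-! Expansion of products of main functions. -/

namespace Pool.Agent.Y752.KP

open Complex Filter Topology MeasureTheory Set

noncomputable section

variable {ι : Type} [Fintype ι] [DecidableEq ι]

/-- tuples of reduced pairs -/
def QQ (Yv : ι → ℕ) : Finset (ι → ℕ × ℕ) := Fintype.piFinset fun j => qs (Yv j)

lemma mem_QQ {Yv : ι → ℕ} {q : ι → ℕ × ℕ} : q ∈ QQ Yv ↔ ∀ j, q j ∈ qs (Yv j) := by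
  unfold QQ
  rw [Fintype.mem_piFinset]

/-- weight of a tuple -/
def wtp (q : ι → ℕ × ℕ) : ℝ := ∏ j, wt (q j)

/-- character of a tuple -/
def phc (c : ι → ℝ) (q : ι → ℕ × ℕ) : ℂ := ∏ j, ee (fr (q j)) (c j)

/-- total frequency -/
def Lam (q : ι → ℕ × ℕ) : ℝ := ∑ j, fr (q j)

/-- logarithm of the height -/
def lh (q : ℕ × ℕ) : ℝ := Real.log (q.1 * q.2)

lemma ee_arg (θ u v : ℝ) : ee θ (u + v) = ee θ u * ee θ v := by
  unfold ee
  rw [← exp_add]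
  congr 1
  push_cast
  ring

lemma ee_sum (s : Finset ι) (θ : ι → ℝ) (u : ℝ) : ∏ j ∈ s, ee (θ j) u = ee (∑ j ∈ s, θ j) u := by
  induction s using Finset.induction_on with
  | empty => simp [ee_zero]
  | insert j s hj ih => rw [Finset.prod_insert hj, Finset.sum_insert hj, ee_add, ih]

lemma gY_eq2 (Y : ℕ) (u : ℝ) : gY Y u = ∑ q ∈ qs Y, ((wt q * (Lw u - lh q) : ℝ) : ℂ) * ee (fr q) u := by
  unfold gY Lw fr lh
  refine Finset.sum_congr rfl fun q _ => ?_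
  push_cast
  ring

lemma expand (Yv : ι → ℕ) (c : ι → ℝ) (t : ℝ) : ∏ j, gY (Yv j) (t + c j) =
    ∑ q ∈ QQ Yv, ((wtp q : ℝ) : ℂ) * phc c q *
      (((∏ j, (Lw (t + c j) - lh (q j)) : ℝ) : ℂ) * ee (Lam q) t) := by
  simp only [gY_eq2]
  rw [Finset.prod_univ_sum]
  refine Finset.sum_congr rfl fun q _ => ?_
  unfold wtp phc Lam
  rw [← ee_sum, Finset.prod_mul_distrib]
  have h1 : ∏ j, ee (fr (q j)) (t + c j) = (∏ j, ee (fr (q j)) (c j)) * ∏ j, ee (fr (q j)) t := by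
    rw [← Finset.prod_mul_distrib]
    refine Finset.prod_congr rfl fun j _ => ?_
    rw [ee_arg, mul_comm]
  rw [h1]
  push_cast
  rw [Finset.prod_mul_distrib]
  ring

lemma phc_norm (c : ι → ℝ) (q : ι → ℕ × ℕ) : ‖phc c q‖ = 1 := by
  unfold phc
  rw [norm_prod]
  simp only [ee_norm, Finset.prod_const_one]

lemma wtp_nonneg (q : ι → ℕ × ℕ) : 0 ≤ wtp q := Finset.prod_nonneg fun _ _ => wt_nonneg _

lemma wtp_le_one {Yv : ι → ℕ} {q : ι → ℕ × ℕ} (hq : q ∈ QQ Yv) : wtp q ≤ 1 := by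
  unfold wtp
  refine Finset.prod_le_one (fun _ _ => wt_nonneg _) fun j _ => ?_
  obtain ⟨a, b, _, _⟩ := qs_bd (mem_QQ.1 hq j)
  exact wt_le_one a b

lemma QQ_card (Yv : ι → ℕ) : ((QQ Yv).card : ℝ) ≤ ∏ j, (Yv j : ℝ) ^ 2 := by
  unfold QQ
  rw [Fintype.card_piFinset]
  push_cast
  exact Finset.prod_le_prod (fun _ _ => by positivity) fun j _ => qs_card _

lemma lh_bd {T : ℝ} {Y : ℕ} (hYT : (Y : ℝ) ≤ T) {q : ℕ × ℕ} (hq : q ∈ qs Y) :
    |lh q| ≤ Real.log T := by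
  obtain ⟨h1, h2⟩ := log_h hq
  unfold lh
  rw [abs_of_nonneg h1]
  refine h2.trans ?_
  rcases Nat.eq_zero_or_pos Y with hY | hY
  · subst hY
    exfalso
    obtain ⟨a, _, c, _⟩ := qs_bd hq
    omega
  · exact Real.log_le_log (by exact_mod_cast hY) hYT

/-- a term of the expansion against a function with small Fourier transform -/
lemma term_bd {T M : ℝ} (hT : 7 ≤ T) {Yv : ι → ℕ} (hYT : ∀ j, (Yv j : ℝ) ≤ T) {c : ι → ℝ}
    (hc : ∀ j, 0 ≤ c j ∧ c j ≤ 2 * T) {q : ι → ℕ × ℕ} (hq : q ∈ QQ Yv) (φ : ℝ → ℂ)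
    (hφ : Continuous φ) (hM : ∀ y ∈ Icc 0 T, ‖∫ u in (0:ℝ)..y, φ u‖ ≤ M) :
    ‖∫ t in (0:ℝ)..T, ((wtp q : ℝ) : ℂ) * phc c q * (((∏ j, (Lw (t + c j) - lh (q j)) : ℝ) : ℂ) *
      φ t)‖ ≤ (9 * Real.log T) ^ Fintype.card ι * M := by
  have h1 := ibp hT c (fun j => lh (q j)) Finset.univ (fun j _ => hc j)
    (fun j _ => lh_bd (hYT j) (mem_QQ.1 hq j)) φ M hφ hM T ⟨by linarith, le_rfl⟩
  rw [intervalIntegral.integral_const_mul, norm_mul, norm_mul, phc_norm, mul_one,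
    Complex.norm_real, Real.norm_of_nonneg (wtp_nonneg q)]
  rw [Finset.card_univ] at h1
  calc wtp q * _ ≤ 1 * _ := mul_le_mul_of_nonneg_right (wtp_le_one hq) (norm_nonneg _)
    _ ≤ _ := by rw [one_mul]; exact h1

/-- E2: replacement of the unshifted factor -/
lemma e2_bd {T M : ℝ} (hT : 7 ≤ T) {Yv : ι → ℕ} (hYT : ∀ j, (Yv j : ℝ) ≤ T) {c : ι → ℝ}
    (hc : ∀ j, 0 ≤ c j ∧ c j ≤ 2 * T) (φ : ℝ → ℂ) (hφ : Continuous φ)
    (hM : ∀ lam, ∀ y ∈ Icc 0 T, ‖∫ u in (0:ℝ)..y, φ u * ee lam u‖ ≤ M) :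
    ‖∫ t in (0:ℝ)..T, φ t * ∏ j, gY (Yv j) (t + c j)‖ ≤
      (∏ j, (Yv j : ℝ) ^ 2) * ((9 * Real.log T) ^ Fintype.card ι * M) := by
  have hM0 : 0 ≤ M := (norm_nonneg _).trans (hM 0 0 ⟨le_rfl, by linarith⟩)
  have hL : 0 ≤ Real.log T := Real.log_nonneg (by linarith)
  have hcL := Lw_cont
  have e1 : ∀ t, φ t * ∏ j, gY (Yv j) (t + c j) = ∑ q ∈ QQ Yv, ((wtp q : ℝ) : ℂ) * phc c q *
      (((∏ j, (Lw (t + c j) - lh (q j)) : ℝ) : ℂ) * (φ t * ee (Lam q) t)) := by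
    intro t
    rw [expand, Finset.mul_sum]
    refine Finset.sum_congr rfl fun q _ => ?_
    ring
  simp only [e1]
  have hcont : ∀ q : ι → ℕ × ℕ, Continuous fun t => φ t * ee (Lam q) t := fun q => hφ.mul (ee_cont _)
  rw [intervalIntegral.integral_finsetSum]
  · refine (norm_sum_le _ _).trans ?_
    refine (Finset.sum_le_card_nsmul _ _ ((9 * Real.log T) ^ Fintype.card ι * M)
      fun q hq => ?_).trans ?_
    · exact term_bd hT hYT hc hq _ (hcont q) (fun y hy => hM (Lam q) y hy)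
    · rw [nsmul_eq_mul]
      exact mul_le_mul_of_nonneg_right (QQ_card Yv) (by positivity)
  · intro q _
    refine Continuous.intervalIntegrable ?_ _ _
    refine continuous_const.mul (Continuous.mul (Complex.continuous_ofReal.comp ?_) (hcont q))
    refine continuous_finsetProd _ fun j _ => Continuous.sub (hcL.comp (by fun_prop)) continuous_const

/-- the diagonal tuples -/
def DD (Yv : ι → ℕ) : Finset (ι → ℕ × ℕ) :=
  (QQ Yv).filter fun q => (∏ j : ι, (q j).1) = ∏ j : ι, (q j).2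

lemma Lam_eq {Yv : ι → ℕ} {q : ι → ℕ × ℕ} (hq : q ∈ QQ Yv) :
    Lam q = Real.log ((∏ j, (q j).1 : ℕ) : ℝ) - Real.log ((∏ j, (q j).2 : ℕ) : ℝ) := by
  unfold Lam fr
  push_cast
  have h1 : ∀ j ∈ (Finset.univ : Finset ι), ((q j).1 : ℝ) ≠ 0 := by
    intro j _
    obtain ⟨a, _, _, _⟩ := qs_bd (mem_QQ.1 hq j)
    exact_mod_cast (by omega : (q j).1 ≠ 0)
  have h2 : ∀ j ∈ (Finset.univ : Finset ι), ((q j).2 : ℝ) ≠ 0 := by
    intro j _
    obtain ⟨_, a, _, _⟩ := qs_bd (mem_QQ.1 hq j)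
    exact_mod_cast (by omega : (q j).2 ≠ 0)
  rw [Real.log_prod h1, Real.log_prod h2, Finset.sum_sub_distrib]

lemma Lam_sep {Yv : ι → ℕ} {q : ι → ℕ × ℕ} (hq : q ∈ QQ Yv)
    (h : (∏ j : ι, (q j).1) ≠ ∏ j : ι, (q j).2) :
    (∏ j : ι, (Yv j : ℝ))⁻¹ ≤ |Lam q| := by
  rw [Lam_eq hq]
  have a0 : 0 < ∏ j, (q j).1 := Finset.prod_pos fun j _ => by
    obtain ⟨a, _, _, _⟩ := qs_bd (mem_QQ.1 hq j)
    omega
  have b0 : 0 < ∏ j, (q j).2 := Finset.prod_pos fun j _ => by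
    obtain ⟨_, a, _, _⟩ := qs_bd (mem_QQ.1 hq j)
    omega
  have a1 : ((∏ j, (q j).1 : ℕ) : ℝ) ≤ ∏ j, (Yv j : ℝ) := by
    push_cast
    refine Finset.prod_le_prod (fun _ _ => by positivity) fun j _ => ?_
    obtain ⟨_, _, a, _⟩ := qs_bd (mem_QQ.1 hq j)
    exact_mod_cast a
  have b1 : ((∏ j, (q j).2 : ℕ) : ℝ) ≤ ∏ j, (Yv j : ℝ) := by
    push_cast
    refine Finset.prod_le_prod (fun _ _ => by positivity) fun j _ => ?_
    obtain ⟨_, _, _, a⟩ := qs_bd (mem_QQ.1 hq j)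
    exact_mod_cast a
  refine le_trans ?_ (log_sub_ge (by exact_mod_cast a0) (by exact_mod_cast b0) a1 b1)
  have hP : 0 ≤ ∏ j, (Yv j : ℝ) := Finset.prod_nonneg fun _ _ => by positivity
  rw [inv_eq_one_div]
  refine div_le_div_of_nonneg_right ?_ hP
  have h5 : ((∏ j, (q j).1 : ℕ) : ℤ) - ((∏ j, (q j).2 : ℕ) : ℤ) ≠ 0 := by
    intro h6
    exact h (by exact_mod_cast sub_eq_zero.1 h6)
  have h6 := Int.one_le_abs h5
  have h7 : ((|((∏ j, (q j).1 : ℕ) : ℤ) - ((∏ j, (q j).2 : ℕ) : ℤ)| : ℤ) : ℝ) =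
      |((∏ j, (q j).1 : ℕ) : ℝ) - ((∏ j, (q j).2 : ℕ) : ℝ)| := by
    rw [Int.cast_abs, Int.cast_sub, Int.cast_natCast, Int.cast_natCast]
  rw [← h7]
  exact_mod_cast h6

/-- the weight integrals -/
def WA (c : ι → ℝ) (T : ℝ) (A : Finset ι) : ℝ := ∫ t in (0:ℝ)..T, ∏ j ∈ A, Lw (t + c j)

/-- the diagonal sums -/
def SB (Yv : ι → ℕ) (c : ι → ℝ) (B : Finset ι) : ℂ :=
  ∑ q ∈ DD Yv, ((wtp q * ∏ j ∈ B, (-lh (q j)) : ℝ) : ℂ) * phc c q

/-- the diagonal part -/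
lemma diag_eq (Yv : ι → ℕ) (c : ι → ℝ) (T : ℝ) :
    ∑ q ∈ DD Yv, ((wtp q : ℝ) : ℂ) * phc c q *
      ∫ t in (0:ℝ)..T, ((∏ j, (Lw (t + c j) - lh (q j)) : ℝ) : ℂ) =
    ∑ A ∈ (Finset.univ : Finset ι).powerset, ((WA c T A : ℝ) : ℂ) * SB Yv c (Finset.univ \ A) := by
  have hcL := Lw_cont
  have h1 : ∀ q : ι → ℕ × ℕ, ∫ t in (0:ℝ)..T, ((∏ j, (Lw (t + c j) - lh (q j)) : ℝ) : ℂ) =
      ∑ A ∈ (Finset.univ : Finset ι).powerset, ((WA c T A : ℝ) : ℂ) *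
        ((∏ j ∈ Finset.univ \ A, (-lh (q j)) : ℝ) : ℂ) := by
    intro q
    rw [intervalIntegral.integral_ofReal]
    have h2 : ∀ t : ℝ, ∏ j, (Lw (t + c j) - lh (q j)) = ∑ A ∈ (Finset.univ : Finset ι).powerset,
        (∏ j ∈ A, Lw (t + c j)) * ∏ j ∈ Finset.univ \ A, (-lh (q j)) := by
      intro t
      simp only [sub_eq_add_neg]
      exact Finset.prod_add _ _ _
    simp only [h2]
    rw [intervalIntegral.integral_finsetSum]
    · push_cast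
      refine Finset.sum_congr rfl fun A _ => ?_
      rw [intervalIntegral.integral_mul_const]
      unfold WA
      push_cast
      ring
    · intro A _
      refine Continuous.intervalIntegrable (Continuous.mul ?_ continuous_const) _ _
      exact continuous_finsetProd _ fun j _ => hcL.comp (by fun_prop)
  simp only [h1, Finset.mul_sum]
  rw [Finset.sum_comm]
  refine Finset.sum_congr rfl fun A _ => ?_
  unfold SB
  rw [Finset.mul_sum]
  refine Finset.sum_congr rfl fun q _ => ?_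
  push_cast
  ring

/-- E3: the integral of the product of main functions -/
lemma e3_bd {T : ℝ} (hT : 7 ≤ T) {Yv : ι → ℕ} (hYT : ∀ j, (Yv j : ℝ) ≤ T) {c : ι → ℝ}
    (hc : ∀ j, 0 ≤ c j ∧ c j ≤ 2 * T) :
    ‖(∫ t in (0:ℝ)..T, ∏ j, gY (Yv j) (t + c j)) -
      ∑ A ∈ (Finset.univ : Finset ι).powerset, ((WA c T A : ℝ) : ℂ) * SB Yv c (Finset.univ \ A)‖ ≤
      (∏ j, (Yv j : ℝ) ^ 2) * ((9 * Real.log T) ^ Fintype.card ι * (4 * ∏ j, (Yv j : ℝ))) := by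
  have hL : 0 ≤ Real.log T := Real.log_nonneg (by linarith)
  have hcL := Lw_cont
  have hP : 0 ≤ ∏ j, (Yv j : ℝ) := Finset.prod_nonneg fun _ _ => by positivity
  have hw : ∀ q : ι → ℕ × ℕ, Continuous fun t => ((∏ j, (Lw (t + c j) - lh (q j)) : ℝ) : ℂ) := by
    intro q
    refine Complex.continuous_ofReal.comp ?_
    exact continuous_finsetProd _ fun j _ => Continuous.sub (hcL.comp (by fun_prop)) continuous_const
  have hterm : ∀ q : ι → ℕ × ℕ, Continuous fun t => ((wtp q : ℝ) : ℂ) * phc c q *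
      (((∏ j, (Lw (t + c j) - lh (q j)) : ℝ) : ℂ) * ee (Lam q) t) := fun q =>
    continuous_const.mul ((hw q).mul (ee_cont _))
  have e1 : ∫ t in (0:ℝ)..T, ∏ j, gY (Yv j) (t + c j) = ∑ q ∈ QQ Yv, ∫ t in (0:ℝ)..T,
      ((wtp q : ℝ) : ℂ) * phc c q * (((∏ j, (Lw (t + c j) - lh (q j)) : ℝ) : ℂ) * ee (Lam q) t) := by
    simp only [expand]
    rw [intervalIntegral.integral_finsetSum]
    intro q _
    exact (hterm q).intervalIntegrable _ _
  have e2 : ∑ q ∈ QQ Yv, ∫ t in (0:ℝ)..T, ((wtp q : ℝ) : ℂ) * phc c q *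
      (((∏ j, (Lw (t + c j) - lh (q j)) : ℝ) : ℂ) * ee (Lam q) t) =
      (∑ q ∈ DD Yv, ((wtp q : ℝ) : ℂ) * phc c q *
      ∫ t in (0:ℝ)..T, ((∏ j, (Lw (t + c j) - lh (q j)) : ℝ) : ℂ)) +
      ∑ q ∈ (QQ Yv).filter (fun q => ¬ (∏ j : ι, (q j).1) = ∏ j : ι, (q j).2), ∫ t in (0:ℝ)..T,
        ((wtp q : ℝ) : ℂ) * phc c q * (((∏ j, (Lw (t + c j) - lh (q j)) : ℝ) : ℂ) *
          ee (Lam q) t) := by
    rw [← Finset.sum_filter_add_sum_filter_not (QQ Yv) (fun q => (∏ j : ι, (q j).1) = ∏ j : ι, (q j).2)]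
    congr 1
    unfold DD
    refine Finset.sum_congr rfl fun q hq => ?_
    obtain ⟨h1, h2⟩ := Finset.mem_filter.1 hq
    have h3 : Lam q = 0 := by
      rw [Lam_eq h1, h2, sub_self]
    rw [intervalIntegral.integral_const_mul]
    simp only [h3, ee_zero, mul_one]
  rw [e1, e2, diag_eq, add_sub_cancel_left]
  refine (norm_sum_le _ _).trans ?_
  refine (Finset.sum_le_card_nsmul _ _ ((9 * Real.log T) ^ Fintype.card ι *
    (4 * ∏ j, (Yv j : ℝ))) fun q hq => ?_).trans ?_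
  · obtain ⟨h1, h2⟩ := Finset.mem_filter.1 hq
    refine term_bd hT hYT hc h1 _ (ee_cont _) fun y hy => ?_
    refine (int_ee hy.1 (Lam q)).trans ?_
    have hsep := Lam_sep h1 h2
    have hPp : 0 < ∏ j, (Yv j : ℝ) := by
      refine Finset.prod_pos fun j _ => ?_
      obtain ⟨a, _, b, _⟩ := qs_bd (mem_QQ.1 h1 j)
      exact_mod_cast (by omega : 0 < Yv j)
    have h3 := ker_le_inv (L := y - 0) (by linarith [hy.1]) (inv_pos.2 hPp) hsep
    rw [inv_inv] at h3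
    linarith
  · rw [nsmul_eq_mul]
    refine mul_le_mul_of_nonneg_right ?_ (by positivity)
    refine le_trans ?_ (QQ_card Yv)
    exact_mod_cast Finset.card_filter_le _ _

end

end Pool.Agent.Y752.KP
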