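import Pool.Agent.Y752.KP.To4

set_option autoImplicit false
set_option linter.unusedSectionVars false

/-! The Euler product over the small primes against the diagonal sum. -/

namespace Pool.Agent.Y752.KP

open Complex Filter Topology MeasureTheory Set
open Pool.Agent.TH612.GS (mP)
open scoped ENNReal

noncomputable section

variable {ι : Type} [Fintype ι] [DecidableEq ι]

/-- the local factor -/
def locS (c : ι → ℝ) (p : ℕ) : ℝ :=
  ∫ θ in (0:ℝ)..1, ∏ j, ((1 - 1 / (p : ℝ)) / ‖1 - yp p (c j) θ‖ ^ 2)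

lemma one_sub_yp {p : ℕ} (hp : p.Prime) (c θ : ℝ) : 1 / 5 ≤ ‖1 - yp p c θ‖ := by
  have h1 := norm_sub_norm_le (1:ℂ) (yp p c θ)
  rw [norm_one, yp_norm] at h1
  have h2 : (Real.sqrt p)⁻¹ ≤ 3 / 4 := by
    rw [sp_sq hp]
    have h3 := sp_le hp
    have h4 := sp_pos hp
    nlinarith
  linarith

lemma loc_lim {p : ℕ} (hp : p.Prime) (c : ι → ℝ) :
    Tendsto (fun M : ℕ => ∫ θ in (0:ℝ)..1, ∏ j, PMf M p (c j) θ) atTop (𝓝 ((locS c p : ℝ) : ℂ)) := by
  set r : ℝ := (Real.sqrt p)⁻¹ with hr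
  have hr0 : 0 ≤ r := by positivity
  have hr1 : r ≤ 3 / 4 := by
    rw [hr, sp_sq hp]
    have h3 := sp_le hp
    have h4 := sp_pos hp
    nlinarith
  have hr2 : r ^ 2 = 1 / (p : ℝ) := by
    rw [hr, inv_pow, Real.sq_sqrt (by positivity), one_div]
  set B : ℝ := 2 / (1 - r) with hB
  have hpos : 0 < 1 - r := by linarith
  have hB1 : 1 ≤ B := by
    rw [hB, le_div_iff₀ hpos]
    linarith
  set n := Fintype.card ι with hn
  have hcont1 : ∀ M, Continuous fun θ => ∏ j, PMf M p (c j) θ := fun M =>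
    continuous_finsetProd _ fun j _ => PMf_cont M p (c j)
  have hne : ∀ (j : ι) (θ : ℝ), ‖1 - yp p (c j) θ‖ ^ 2 ≠ 0 := by
    intro j θ
    have := one_sub_yp hp (c j) θ
    positivity
  have hcont2 : Continuous fun θ => ∏ j, ((1 - 1 / (p : ℝ)) / ‖1 - yp p (c j) θ‖ ^ 2) := by
    refine continuous_finsetProd _ fun j _ => ?_
    exact continuous_const.div ((continuous_const.sub (yp_cont p (c j))).norm.pow 2) (hne j)
  have hdiff : ∀ M : ℕ, ∀ θ : ℝ, ‖∏ j, PMf M p (c j) θ -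
      ((∏ j, ((1 - 1 / (p : ℝ)) / ‖1 - yp p (c j) θ‖ ^ 2) : ℝ) : ℂ)‖ ≤
      n * B ^ n * (2 * r ^ (M + 1) / (1 - r)) := by
    intro M θ
    have h1 := prod_diffC (Finset.univ : Finset ι) (fun j => PMf M p (c j) θ)
      (fun j => (((1 - 1 / (p : ℝ)) / ‖1 - yp p (c j) θ‖ ^ 2 : ℝ) : ℂ)) (B := B)
      (D := 2 * r ^ (M + 1) / (1 - r)) hB1
      (fun j _ => poisson_bd M (yp_norm p (c j) θ) (by linarith)) (fun j _ => by
        rw [Complex.norm_real, Real.norm_eq_abs, ← hr2, abs_of_nonneg (by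
          refine div_nonneg ?_ (by positivity)
          nlinarith)]
        have h2 : 1 - r ≤ ‖1 - yp p (c j) θ‖ := by
          have := norm_sub_norm_le (1:ℂ) (yp p (c j) θ)
          rw [norm_one, yp_norm] at this
          exact this
        have h3 : (1 - r) ^ 2 ≤ ‖1 - yp p (c j) θ‖ ^ 2 := by gcongr
        calc (1 - r ^ 2) / ‖1 - yp p (c j) θ‖ ^ 2 ≤ (1 - r ^ 2) / (1 - r) ^ 2 := by
              refine div_le_div_of_nonneg_left (by nlinarith) (by positivity) h3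
          _ ≤ B := by
              rw [hB, div_le_div_iff₀ (by positivity) hpos]
              nlinarith)
      (by positivity) (fun j _ => by
        have := poisson M (yp_norm p (c j) θ) (by linarith : (Real.sqrt p)⁻¹ < 1)
        rw [← hr, hr2] at this
        exact this)
    rw [Finset.card_univ] at h1
    have e1 : ((∏ j, ((1 - 1 / (p : ℝ)) / ‖1 - yp p (c j) θ‖ ^ 2) : ℝ) : ℂ) =
        ∏ j, (((1 - 1 / (p : ℝ)) / ‖1 - yp p (c j) θ‖ ^ 2 : ℝ) : ℂ) := by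
      rw [Complex.ofReal_prod]
    rw [e1]
    exact h1
  rw [tendsto_iff_norm_sub_tendsto_zero]
  refine squeeze_zero (fun _ => norm_nonneg _) (g := fun M : ℕ => n * B ^ n * (2 * r ^ (M + 1) / (1 - r)))
    (fun M => ?_) ?_
  · unfold locS
    have e2 : ((∫ θ in (0:ℝ)..1, ∏ j, ((1 - 1 / (p : ℝ)) / ‖1 - yp p (c j) θ‖ ^ 2) : ℝ) : ℂ) =
        ∫ θ in (0:ℝ)..1, ((∏ j, ((1 - 1 / (p : ℝ)) / ‖1 - yp p (c j) θ‖ ^ 2) : ℝ) : ℂ) :=
      (intervalIntegral.integral_ofReal).symm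
    have hcont3 : Continuous fun θ : ℝ =>
        ((∏ j, ((1 - 1 / (p : ℝ)) / ‖1 - yp p (c j) θ‖ ^ 2) : ℝ) : ℂ) :=
      Complex.continuous_ofReal.comp hcont2
    rw [e2, ← intervalIntegral.integral_sub ((hcont1 M).intervalIntegrable _ _)
      (hcont3.intervalIntegrable _ _)]
    have h2 := intervalIntegral.norm_integral_le_of_norm_le_const (a := (0:ℝ)) (b := 1)
      (fun θ _ => hdiff M θ)
    simpa using h2
  · have h3 : Tendsto (fun M : ℕ => r ^ (M + 1)) atTop (𝓝 0) :=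
      (tendsto_pow_atTop_nhds_zero_of_lt_one hr0 (by linarith)).comp (tendsto_add_atTop_nat 1)
    have h4 := ((h3.const_mul 2).div_const (1 - r)).const_mul ((n : ℝ) * B ^ n)
    simpa using h4

theorem tor_main {m Y : ℕ} (hY : 1 ≤ Y) (Yv : ι → ℕ) (hYv : ∀ j, Y ≤ Yv j) (c : ι → ℝ) :
    ‖((∏ p : Pr m, locS c p : ℝ) : ℂ) - ∑ q ∈ DS m Yv, ((wtp q : ℝ) : ℂ) * phc c q‖ ≤
      Fintype.card ι * Zm m ^ Fintype.card ι * ((Y : ℝ) ^ (-(1 / 4) : ℝ) * Zm m) := by
  have h1 : Tendsto (fun M : ℕ => ∏ p : Pr m, ∫ θ in (0:ℝ)..1, ∏ j, PMf M p (c j) θ) atTop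
      (𝓝 (∏ p : Pr m, ((locS c p : ℝ) : ℂ))) :=
    tendsto_finsetProd _ fun p _ => loc_lim (Pr_prime p) c
  rw [Complex.ofReal_prod]
  refine le_of_tendsto ((h1.sub_const _).norm) ?_
  filter_upwards [eventually_ge_atTop (∑ j, Yv j)] with M hM
  refine tor_diff hY Yv hYv (fun j => ?_) c
  have h2 : Yv j ≤ ∑ j, Yv j := Finset.single_le_sum (fun _ _ => Nat.zero_le _) (Finset.mem_univ j)
  have h3 : M + 1 < 2 ^ (M + 1) := Nat.lt_two_pow_self
  omega

/-- the standard form of the Euler factor -/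
lemma yp_std {p : ℕ} (hp : p.Prime) (c θ : ℝ) :
    ‖1 - yp p c θ‖ = ‖1 - exp (2 * Real.pi * I * θ) * (p : ℂ) ^ (-(1 / 2 + I * c) : ℂ)‖ := by
  rw [← Complex.norm_conj (1 - yp p c θ), map_sub, map_one]
  congr 2
  unfold yp
  rw [map_mul, map_mul, Complex.conj_ofReal, ee_conj, ee_conj, npow hp.one_le, neg_neg]
  have h1 : exp (2 * Real.pi * I * θ) = ee (2 * Real.pi) θ := by
    unfold ee
    congr 1
    push_cast
    ring
  rw [h1]
  ring

end

end Pool.Agent.Y752.KP
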