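import Pool.Agent.Y752.KP.ThmB
import Pool.Agent.Y752.KP.To5

set_option autoImplicit false
set_option linter.unusedSectionVars false

/-! Mean squares of the diagonal sums and the Euler product. -/

namespace Pool.Agent.Y752.KP

open Complex Filter Topology MeasureTheory Set
open Pool.Agent.TH612.GS (z mP)
open scoped ENNReal

noncomputable section

lemma SB_eq (k Y' Y : ℕ) (β : Fin k → ℝ) (B : Finset (Fin (k + 1))) : SB (Yve k Y' Y) (cve β) B =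
    ∑ q ∈ DD (Yve k Y' Y), ((wtp q * ∏ j ∈ B, (-lh (q j)) : ℝ) : ℂ) * phc (cve β) q := rfl

open Classical in
lemma rest_eq (k m Y' Y : ℕ) (β : Fin k → ℝ) : SB (Yve k Y' Y) (cve β) ∅ -
    ∑ q ∈ DS m (Yve k Y' Y), ((wtp q : ℝ) : ℂ) * phc (cve β) q =
    ∑ q ∈ DD (Yve k Y' Y) \ DS m (Yve k Y' Y),
      ((wtp q * ∏ j ∈ (∅ : Finset (Fin (k + 1))), (-lh (q j)) : ℝ) : ℂ) * phc (cve β) q := by
  unfold SB
  rw [sub_eq_iff_eq_add, ← Finset.sum_sdiff (DS_sub m (Yve k Y' Y))]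
  simp only [Finset.prod_empty, mul_one]

lemma big_N {k m Y' Y : ℕ} {q : Fin (k + 1) → ℕ × ℕ} (h1 : q ∈ DD (Yve k Y' Y))
    (h2 : q ∉ DS m (Yve k Y' Y)) : m + 1 ≤ Nv q := by
  have h3 := mem_QQ.1 (Finset.mem_filter.1 h1).1
  have h4 : ∃ j, ¬ sm m (q j) := by
    by_contra hcon
    push Not at hcon
    exact h2 (Finset.mem_filter.2 ⟨Fintype.mem_piFinset.2 fun j => mem_smq.2 ⟨h3 j, hcon j⟩,
      (Finset.mem_filter.1 h1).2⟩)
  obtain ⟨j, hj⟩ := h4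
  obtain ⟨d1, d2⟩ := DD_dvd h1 j
  have h5 : ∃ r, r ∣ Nv q ∧ m < r := by
    unfold sm at hj
    rw [not_and_or] at hj
    rcases hj with hj | hj
    · unfold smn at hj
      push Not at hj
      obtain ⟨r, _, hr2, hr3⟩ := hj
      exact ⟨r, hr2.trans d1, hr3⟩
    · unfold smn at hj
      push Not at hj
      obtain ⟨r, _, hr2, hr3⟩ := hj
      exact ⟨r, hr2.trans d2, hr3⟩
  obtain ⟨r, hr1, hr2⟩ := h5
  have := Nat.le_of_dvd (Nv_pos h1) hr1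
  omega

theorem ms_all (k : ℕ) {δ : ℝ} (hδ : 0 < δ) (hδ1 : δ * (1000 * ((k : ℝ) + 1)) ≤ 1) :
    ∃ C T₀ : ℝ, 1 ≤ C ∧ 1000 ≤ T₀ ∧ ∀ T : ℝ, T₀ ≤ T → ∀ H : ℝ, T ^ (9 / 10 : ℝ) ≤ H →
    ∀ Y Y' : ℕ, T ^ δ ≤ Y → (Y : ℝ) ≤ 2 * T ^ δ → T ^ ((4 * k + 2) * δ) ≤ Y' →
    (Y' : ℝ) ≤ 2 * T ^ ((4 * k + 2) * δ) →
    (∀ B : Finset (Fin (k + 1)), ∫⁻ β, ENNReal.ofReal (‖SB (Yve k Y' Y) (cve β) B‖ ^ 2)
      ∂(mP (Fin k) H) ≤ ENNReal.ofReal (H ^ k * C)) ∧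
    ∫⁻ β, ENNReal.ofReal (‖SB (Yve k Y' Y) (cve β) ∅ -
      ∑ q ∈ DS ⌊Real.log T⌋₊ (Yve k Y' Y), ((wtp q : ℝ) : ℂ) * phc (cve β) q‖ ^ 2)
      ∂(mP (Fin k) H) ≤ ENNReal.ofReal (H ^ k * (C * Real.log T ^ (-(9 / 10) : ℝ))) := by
  have hk0 : (0:ℝ) ≤ k := by positivity
  have hδ40 : δ ≤ 1 / 40 := by nlinarith
  have hδ'0 : 0 < (4 * (k : ℝ) + 2) * δ := by positivity
  have hδ'40 : (4 * (k : ℝ) + 2) * δ ≤ 1 / 40 := by nlinarith
  obtain ⟨C, hC, htail⟩ := tail_sum (Fin (k + 1))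
  obtain ⟨T2, hT2, hYs⟩ := Y_size hδ hδ40
  obtain ⟨T3, hT3, hYs'⟩ := Y_size hδ'0 hδ'40
  obtain ⟨T4, hT4, hfin⟩ := logpow (16 ^ (k + 2)) (2 * k + 3) (show (0:ℝ) < 3 / 10 by norm_num)
  refine ⟨C + 1, max T2 (max T3 T4), by linarith, hT2.trans (le_max_left _ _), ?_⟩
  intro T hT H hH9 Y Y' hY1 hY2 hY1' hY2'
  have a2 : T2 ≤ T := (le_max_left _ _).trans hT
  have a3 : T3 ≤ T := ((le_max_left _ _).trans (le_max_right _ _)).trans hT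
  have a4 : T4 ≤ T := ((le_max_right _ _).trans (le_max_right _ _)).trans hT
  obtain ⟨y1, y2, y3, y4⟩ := hYs T a2 Y hY1 hY2
  obtain ⟨y1', y2', y3', y4'⟩ := hYs' T a3 Y' hY1' hY2'
  have hT1000 : 1000 ≤ T := hT2.trans a2
  have hTp : 0 < T := by linarith
  have hT1' : 1 ≤ T := by linarith
  have hLg1 : 1 ≤ Real.log T := by
    rw [Real.le_log_iff_exp_le hTp]
    have := Real.exp_one_lt_d9
    linarith
  set L := Real.log T with hL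
  have hHp : 0 < H := (Real.rpow_pos_of_pos hTp _).trans_le hH9
  have hYr : (1:ℝ) ≤ Y := by exact_mod_cast y1
  have r1 : ∀ a b : ℝ, T ^ a * T ^ b = T ^ (a + b) := fun a b => (Real.rpow_add hTp a b).symm
  have hY2T : ∀ j : Fin (k + 1), ((Yve k Y' Y j : ℕ) : ℝ) ≤ T := by
    intro j
    unfold Yve
    refine Fin.cases ?_ (fun l => ?_) j
    · simp only [Fin.cons_zero]; linarith
    · simp only [Fin.cons_succ]; linarith
  -- the off-diagonal remainder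
  have hR : 4 * (Y : ℝ) ^ 2 / H * ((∏ j, ((Yve k Y' Y j : ℕ) : ℝ) ^ 2) *
      L ^ Fintype.card (Fin (k + 1))) ^ 2 ≤ L ^ (-(9 / 10) : ℝ) := by
    rw [prod_Yve k Y' Y (fun n => (n : ℝ) ^ 2), Fintype.card_fin]
    have g1 : (Y' : ℝ) * (Y : ℝ) ^ k ≤ 2 ^ (k + 1) * T ^ ((5 * k + 2) * δ) := by
      calc (Y' : ℝ) * (Y : ℝ) ^ k ≤ (2 * T ^ ((4 * k + 2) * δ)) * (2 * T ^ δ) ^ k := by gcongr
        _ = 2 ^ (k + 1) * (T ^ ((4 * k + 2) * δ) * (T ^ δ) ^ k) := by rw [mul_pow]; ring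
        _ = _ := by
            rw [← Real.rpow_natCast (T ^ δ) k, ← Real.rpow_mul hTp.le, r1]
            congr 2
            ring
    have g2 : 4 * (Y : ℝ) ^ 2 / H ≤ 16 * T ^ (2 * δ - 9 / 10) := by
      rw [div_le_iff₀ hHp]
      calc 4 * (Y : ℝ) ^ 2 ≤ 4 * (2 * T ^ δ) ^ 2 := by gcongr
        _ = 16 * T ^ (2 * δ) := by
            rw [mul_pow, ← Real.rpow_natCast (T ^ δ), ← Real.rpow_mul hTp.le]
            push_cast
            rw [mul_comm δ 2]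
            ring
        _ = 16 * T ^ (2 * δ - 9 / 10) * T ^ (9 / 10 : ℝ) := by
            rw [mul_assoc, r1]
            congr 2
            ring
        _ ≤ 16 * T ^ (2 * δ - 9 / 10) * H := by gcongr
    have hTL : L ^ (9 / 10 : ℝ) ≤ L := by
      calc L ^ (9 / 10 : ℝ) ≤ L ^ (1:ℝ) := Real.rpow_le_rpow_of_exponent_le hLg1 (by norm_num)
        _ = L := Real.rpow_one L
    have hLp : 0 < L := by linarith
    have g3 : 16 * T ^ (2 * δ - 9 / 10) * ((2 ^ (k + 1) * T ^ ((5 * k + 2) * δ)) ^ 2 *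
        L ^ (k + 1)) ^ 2 * L ^ (9 / 10 : ℝ) ≤ 1 := by
      calc 16 * T ^ (2 * δ - 9 / 10) * ((2 ^ (k + 1) * T ^ ((5 * k + 2) * δ)) ^ 2 *
            L ^ (k + 1)) ^ 2 * L ^ (9 / 10 : ℝ)
          ≤ 16 * T ^ (2 * δ - 9 / 10) * ((2 ^ (k + 1) * T ^ ((5 * k + 2) * δ)) ^ 2 *
            L ^ (k + 1)) ^ 2 * L := by gcongr
        _ = (16 ^ (k + 2) * L ^ (2 * k + 3)) * (T ^ (2 * δ - 9 / 10) *
            (T ^ ((5 * k + 2) * δ)) ^ 4) := by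
            have : (16:ℝ) ^ (k + 2) = 16 * ((2 ^ (k + 1)) ^ 2) ^ 2 := by
              have h4 : (16:ℝ) = 2 ^ 4 := by norm_num
              rw [h4, ← pow_mul, ← pow_mul, ← pow_mul, ← pow_add]
              congr 1
              ring
            rw [this]
            ring
        _ = (16 ^ (k + 2) * L ^ (2 * k + 3)) * T ^ ((2 * δ - 9 / 10) + (5 * k + 2) * δ * 4) := by
            rw [← Real.rpow_natCast (T ^ ((5 * k + 2) * δ)) 4, ← Real.rpow_mul hTp.le, r1]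
            norm_num
        _ ≤ T ^ (3 / 10 : ℝ) * T ^ (-(3 / 10) : ℝ) := by
            have h5 := hfin T a4
            have h6 : T ^ ((2 * δ - 9 / 10) + (5 * k + 2) * δ * 4) ≤ T ^ (-(3 / 10) : ℝ) := by
              refine Real.rpow_le_rpow_of_exponent_le hT1' ?_
              nlinarith
            gcongr
        _ = 1 := by rw [r1]; norm_num
    rw [Real.rpow_neg hLp.le, ← one_div, le_div_iff₀ (by positivity)]
    refine le_trans ?_ g3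
    have g4 : (Y' : ℝ) ^ 2 * ((Y : ℝ) ^ 2) ^ k ≤ (2 ^ (k + 1) * T ^ ((5 * k + 2) * δ)) ^ 2 := by
      calc (Y' : ℝ) ^ 2 * ((Y : ℝ) ^ 2) ^ k = ((Y' : ℝ) * (Y : ℝ) ^ k) ^ 2 := by ring
        _ ≤ _ := by gcongr
    gcongr
  have hLp : 0 < L := by linarith
  have hL1 : L ^ (-(9 / 10) : ℝ) ≤ 1 := Real.rpow_le_one_of_one_le_of_nonpos hLg1 (by norm_num)
  constructor
  · intro B
    simp only [SB_eq]
    refine (ms_D y1 (Finset.Subset.refl _) (fun q => wtp q * ∏ j ∈ B, (-lh (q j))) hHp).trans ?_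
    refine ENNReal.ofReal_le_ofReal (mul_le_mul_of_nonneg_left ?_ (by positivity))
    have h1 := htail (Yve k Y' Y) B 1 le_rfl (DD (Yve k Y' Y)) (Finset.Subset.refl _)
      (fun q hq => by exact_mod_cast Nv_pos hq)
    rw [Real.one_rpow, mul_one] at h1
    have h2 := sum_abs (T := T) hY2T B (Finset.Subset.refl (DD (Yve k Y' Y))) hLg1
    have h3 : 4 * (Y : ℝ) ^ 2 / H * (∑ q ∈ DD (Yve k Y' Y), |wtp q * ∏ j ∈ B, (-lh (q j))|) ^ 2 ≤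
        4 * (Y : ℝ) ^ 2 / H * ((∏ j, ((Yve k Y' Y j : ℕ) : ℝ) ^ 2) *
          L ^ Fintype.card (Fin (k + 1))) ^ 2 := by
      have : 0 ≤ ∑ q ∈ DD (Yve k Y' Y), |wtp q * ∏ j ∈ B, (-lh (q j))| :=
        Finset.sum_nonneg fun _ _ => abs_nonneg _
      gcongr
    linarith
  · classical
    simp only [rest_eq]
    refine (ms_D y1 Finset.sdiff_subset (fun q => wtp q *
      ∏ j ∈ (∅ : Finset (Fin (k + 1))), (-lh (q j))) hHp).trans ?_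
    refine ENNReal.ofReal_le_ofReal (mul_le_mul_of_nonneg_left ?_ (by positivity))
    have h1 := htail (Yve k Y' Y) ∅ L hLg1 (DD (Yve k Y' Y) \ DS ⌊L⌋₊ (Yve k Y' Y))
      Finset.sdiff_subset (fun q hq => by
        obtain ⟨q1, q2⟩ := Finset.mem_sdiff.1 hq
        have h2 := big_N q1 q2
        have h3 := (Nat.lt_floor_add_one L).le
        refine h3.trans ?_
        exact_mod_cast h2)
    have h2 := sum_abs (T := T) hY2T ∅
      (Finset.sdiff_subset : DD (Yve k Y' Y) \ DS ⌊L⌋₊ (Yve k Y' Y) ⊆ DD (Yve k Y' Y)) hLg1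
    have h3 : 4 * (Y : ℝ) ^ 2 / H * (∑ q ∈ DD (Yve k Y' Y) \ DS ⌊L⌋₊ (Yve k Y' Y),
        |wtp q * ∏ j ∈ (∅ : Finset (Fin (k + 1))), (-lh (q j))|) ^ 2 ≤
        4 * (Y : ℝ) ^ 2 / H * ((∏ j, ((Yve k Y' Y j : ℕ) : ℝ) ^ 2) *
          L ^ Fintype.card (Fin (k + 1))) ^ 2 := by
      have : 0 ≤ ∑ q ∈ DD (Yve k Y' Y) \ DS ⌊L⌋₊ (Yve k Y' Y),
          |wtp q * ∏ j ∈ (∅ : Finset (Fin (k + 1))), (-lh (q j))| :=
        Finset.sum_nonneg fun _ _ => abs_nonneg _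
      gcongr
    rw [add_mul, one_mul]
    linarith

/-- the truncation of the Euler product is harmless -/
theorem eul_small (k : ℕ) {δ : ℝ} (hδ : 0 < δ) : ∃ T₀ : ℝ, 1000 ≤ T₀ ∧ ∀ T : ℝ, T₀ ≤ T →
    ∀ Y : ℕ, T ^ δ ≤ Y →
    ((k + 1 : ℕ) : ℝ) * Zm ⌊Real.log T⌋₊ ^ (k + 1) * ((Y : ℝ) ^ (-(1 / 4) : ℝ) * Zm ⌊Real.log T⌋₊) ≤
      1 / 8 * Real.log T ^ (-(1 / 4) : ℝ) := by
  obtain ⟨T1, hT1, h1⟩ := logpow (8 * ((k : ℝ) + 1)) 1 (show 0 < δ / 8 by positivity)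
  set K : ℝ := (168 * ((k : ℝ) + 2) / δ) ^ 4 with hK
  refine ⟨max T1 (Real.exp K), hT1.trans (le_max_left _ _), fun T hT Y hY => ?_⟩
  have hT1000 : 1000 ≤ T := (hT1.trans (le_max_left _ _)).trans hT
  have hTp : 0 < T := by linarith
  have hLg1 : 1 ≤ Real.log T := by
    rw [Real.le_log_iff_exp_le hTp]
    have := Real.exp_one_lt_d9
    linarith
  set L := Real.log T with hL
  have hLp : 0 < L := by linarith
  have hLK : K ≤ L := by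
    rw [hL, Real.le_log_iff_exp_le hTp]
    exact (le_max_right _ _).trans hT
  have hTe : T = Real.exp L := by rw [hL, Real.exp_log hTp]
  have hpow : ∀ a : ℝ, T ^ a = Real.exp (a * L) := fun a => by
    rw [Real.rpow_def_of_pos hTp, mul_comm]
  have h2 : 168 * ((k : ℝ) + 2) / δ ≤ L ^ (1 / 4 : ℝ) := by
    have h3 : (0:ℝ) ≤ 168 * ((k : ℝ) + 2) / δ := by positivity
    calc 168 * ((k : ℝ) + 2) / δ = ((168 * ((k : ℝ) + 2) / δ) ^ 4) ^ (1 / 4 : ℝ) := by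
          rw [← Real.rpow_natCast, ← Real.rpow_mul h3]
          norm_num
      _ ≤ L ^ (1 / 4 : ℝ) := Real.rpow_le_rpow (by positivity) hLK (by norm_num)
  have h4 : L ^ (3 / 4 : ℝ) * L ^ (1 / 4 : ℝ) = L := by
    rw [← Real.rpow_add hLp]; norm_num
  have h5 : 21 * ((k : ℝ) + 2) * L ^ (3 / 4 : ℝ) ≤ δ / 8 * L := by
    have h6 : 168 * ((k : ℝ) + 2) ≤ L ^ (1 / 4 : ℝ) * δ := by
      rwa [div_le_iff₀ hδ] at h2
    have h7 : 0 < L ^ (3 / 4 : ℝ) := by positivity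
    calc 21 * ((k : ℝ) + 2) * L ^ (3 / 4 : ℝ) = 1 / 8 * (168 * ((k : ℝ) + 2)) * L ^ (3 / 4 : ℝ) := by ring
      _ ≤ 1 / 8 * (L ^ (1 / 4 : ℝ) * δ) * L ^ (3 / 4 : ℝ) := by gcongr
      _ = δ / 8 * (L ^ (3 / 4 : ℝ) * L ^ (1 / 4 : ℝ)) := by ring
      _ = _ := by rw [h4]
  have hfl : ((⌊L⌋₊ : ℕ) : ℝ) ≤ L := Nat.floor_le hLp.le
  have hZ : Zm ⌊L⌋₊ ^ (k + 2) ≤ T ^ (δ / 8) := by
    unfold Zm
    rw [← Real.exp_nat_mul, hpow]
    refine Real.exp_le_exp.2 ?_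
    have h8 : ((⌊L⌋₊ : ℕ) : ℝ) ^ (3 / 4 : ℝ) ≤ L ^ (3 / 4 : ℝ) :=
      Real.rpow_le_rpow (by positivity) hfl (by norm_num)
    calc ((k + 2 : ℕ) : ℝ) * (21 * ((⌊L⌋₊ : ℕ) : ℝ) ^ (3 / 4 : ℝ))
        ≤ ((k + 2 : ℕ) : ℝ) * (21 * L ^ (3 / 4 : ℝ)) := by gcongr
      _ = 21 * ((k : ℝ) + 2) * L ^ (3 / 4 : ℝ) := by push_cast; ring
      _ ≤ _ := h5
  have hY4 : (Y : ℝ) ^ (-(1 / 4) : ℝ) ≤ T ^ (-(δ / 4)) := by
    calc (Y : ℝ) ^ (-(1 / 4) : ℝ) ≤ (T ^ δ) ^ (-(1 / 4) : ℝ) :=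
          Real.rpow_le_rpow_of_nonpos (by positivity) hY (by norm_num)
      _ = _ := by
          rw [← Real.rpow_mul hTp.le]
          congr 1
          ring
  have hfin := h1 T ((le_max_left _ _).trans hT)
  rw [pow_one] at hfin
  have hLq : L ^ (1 / 4 : ℝ) ≤ L := by
    calc L ^ (1 / 4 : ℝ) ≤ L ^ (1:ℝ) := Real.rpow_le_rpow_of_exponent_le hLg1 (by norm_num)
      _ = L := Real.rpow_one L
  have hLq0 : 0 < L ^ (1 / 4 : ℝ) := by positivity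
  have hZ0 : 0 < Zm ⌊L⌋₊ := by unfold Zm; positivity
  calc ((k + 1 : ℕ) : ℝ) * Zm ⌊L⌋₊ ^ (k + 1) * ((Y : ℝ) ^ (-(1 / 4) : ℝ) * Zm ⌊L⌋₊)
      = ((k : ℝ) + 1) * (Zm ⌊L⌋₊ ^ (k + 2) * (Y : ℝ) ^ (-(1 / 4) : ℝ)) := by
        push_cast
        ring
    _ ≤ ((k : ℝ) + 1) * (T ^ (δ / 8) * T ^ (-(δ / 4))) := by gcongr
    _ = ((k : ℝ) + 1) * T ^ (-(δ / 8)) := by
        rw [← Real.rpow_add hTp]
        congr 2
        ring
    _ ≤ 1 / 8 * L ^ (-(1 / 4) : ℝ) := by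
        rw [Real.rpow_neg hTp.le, Real.rpow_neg hLp.le, ← div_eq_mul_inv, ← div_eq_mul_inv,
          div_le_div_iff₀ (by positivity) hLq0]
        have h9 : 8 * ((k : ℝ) + 1) * L ^ (1 / 4 : ℝ) ≤ T ^ (δ / 8) := by
          refine le_trans ?_ hfin
          gcongr
        linarith

end

end Pool.Agent.Y752.KP
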