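import Pool.Agent.Y752.KP.Fin1

set_option autoImplicit false
set_option linter.unusedSectionVars false

/-! The final inequality for good shifts. -/

namespace Pool.Agent.Y752.KP

open Complex Filter Topology MeasureTheory Set
open Pool.Agent.TH612.GS (z mP)
open scoped ENNReal

noncomputable section

lemma det {k : ℕ} {T L s : ℝ} (hT : 1 ≤ T) (hL : L = s ^ 4)
    (hs : 4 * (2 ^ (k + 1) * 2 ^ k + (k + 1 : ℕ) * 4 * 2 ^ (k + 1) + 2) ≤ s)
    {X P : ℂ} {S D0 : ℂ} {W : Finset (Fin (k + 1)) → ℝ} {SS : Finset (Fin (k + 1)) → ℂ}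
    (hD : ‖X - P‖ ≤ T)
    (hE : ‖P - ∑ A ∈ (Finset.univ : Finset (Fin (k + 1))).powerset, ((W A : ℝ) : ℂ) *
      SS (Finset.univ \ A)‖ ≤ T)
    (hSB : ∀ B, ‖SS B‖ ≤ s ^ 2) (hrest : ‖SS ∅ - D0‖ ≤ 1 / (8 * s)) (heul : ‖S - D0‖ ≤ 1 / (8 * s))
    (hW : ∀ A, |W A| ≤ T * (2 * L) ^ A.card)
    (hWm : |W Finset.univ - T * L ^ (k + 1)| ≤ T * ((k + 1 : ℕ) * 4 * 2 ^ (k + 1) * L ^ k)) :
    ‖X - ((T * L ^ (k + 1) : ℝ) : ℂ) * S‖ ≤ T * (L ^ k * s ^ 3) := by
  have hc0 : (0:ℝ) ≤ 2 ^ (k + 1) * 2 ^ k + (k + 1 : ℕ) * 4 * 2 ^ (k + 1) := by positivity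
  have hs1 : 1 ≤ s := by linarith
  have hL1 : 1 ≤ L := by rw [hL]; exact one_le_pow₀ hs1
  set c1 : ℝ := 2 ^ (k + 1) * 2 ^ k + (k + 1 : ℕ) * 4 * 2 ^ (k + 1) with hc1
  have hsplit : ∑ A ∈ (Finset.univ : Finset (Fin (k + 1))).powerset, ((W A : ℝ) : ℂ) *
      SS (Finset.univ \ A) = ((W Finset.univ : ℝ) : ℂ) * SS ∅ +
      ∑ A ∈ (Finset.univ : Finset (Fin (k + 1))).powerset.erase Finset.univ, ((W A : ℝ) : ℂ) *
        SS (Finset.univ \ A) := by
    rw [← Finset.add_sum_erase _ _ (Finset.mem_powerset_self (Finset.univ : Finset (Fin (k + 1)))),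
      Finset.sdiff_self]
  have hrem : ‖∑ A ∈ (Finset.univ : Finset (Fin (k + 1))).powerset.erase Finset.univ,
      ((W A : ℝ) : ℂ) * SS (Finset.univ \ A)‖ ≤ 2 ^ (k + 1) * (T * (2 ^ k * L ^ k) * s ^ 2) := by
    refine (norm_sum_le _ _).trans ?_
    refine (Finset.sum_le_card_nsmul _ _ (T * (2 ^ k * L ^ k) * s ^ 2) fun A hA => ?_).trans ?_
    · rw [norm_mul, Complex.norm_real, Real.norm_eq_abs]
      have h1 : A.card ≤ k := by
        have h2 := (Finset.mem_erase.1 hA).1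
        have h3 : A.card < (Finset.univ : Finset (Fin (k + 1))).card :=
          Finset.card_lt_card (Finset.ssubset_univ_iff.2 h2)
        rw [Finset.card_univ, Fintype.card_fin] at h3
        omega
      have h4 : (2 * L) ^ A.card ≤ (2 * L) ^ k := pow_le_pow_right₀ (by linarith) h1
      rw [← mul_pow]
      refine mul_le_mul ((hW A).trans ?_) (hSB _) (norm_nonneg _) (by positivity)
      gcongr
    · rw [nsmul_eq_mul]
      refine mul_le_mul_of_nonneg_right ?_ (by positivity)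
      have h5 : ((Finset.univ : Finset (Fin (k + 1))).powerset.erase Finset.univ).card ≤ 2 ^ (k + 1) := by
        refine (Finset.card_le_card (Finset.erase_subset _ _)).trans ?_
        rw [Finset.card_powerset, Finset.card_univ, Fintype.card_fin]
      exact_mod_cast h5
  have e1 : X - ((T * L ^ (k + 1) : ℝ) : ℂ) * S = (X - P) +
      (P - ∑ A ∈ (Finset.univ : Finset (Fin (k + 1))).powerset, ((W A : ℝ) : ℂ) *
        SS (Finset.univ \ A)) +
      (∑ A ∈ (Finset.univ : Finset (Fin (k + 1))).powerset.erase Finset.univ, ((W A : ℝ) : ℂ) *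
        SS (Finset.univ \ A)) +
      ((W Finset.univ - T * L ^ (k + 1) : ℝ) : ℂ) * SS ∅ +
      ((T * L ^ (k + 1) : ℝ) : ℂ) * (SS ∅ - D0) - ((T * L ^ (k + 1) : ℝ) : ℂ) * (S - D0) := by
    rw [hsplit]
    push_cast
    ring
  have hTL : 0 ≤ T * L ^ (k + 1) := by positivity
  have n4 : ‖((W Finset.univ - T * L ^ (k + 1) : ℝ) : ℂ) * SS ∅‖ ≤
      T * ((k + 1 : ℕ) * 4 * 2 ^ (k + 1) * L ^ k) * s ^ 2 := by
    rw [norm_mul, Complex.norm_real, Real.norm_eq_abs]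
    exact mul_le_mul hWm (hSB _) (norm_nonneg _) (by positivity)
  have n5 : ‖((T * L ^ (k + 1) : ℝ) : ℂ) * (SS ∅ - D0)‖ ≤ T * L ^ (k + 1) * (1 / (8 * s)) := by
    rw [norm_mul, Complex.norm_real, Real.norm_of_nonneg hTL]
    exact mul_le_mul_of_nonneg_left hrest hTL
  have n6 : ‖((T * L ^ (k + 1) : ℝ) : ℂ) * (S - D0)‖ ≤ T * L ^ (k + 1) * (1 / (8 * s)) := by
    rw [norm_mul, Complex.norm_real, Real.norm_of_nonneg hTL]
    exact mul_le_mul_of_nonneg_left heul hTL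
  rw [e1]
  have hs0 : 0 < s := by linarith
  have e2 : T * L ^ (k + 1) * (1 / (8 * s)) = T * (L ^ k * s ^ 3) / 8 := by
    rw [pow_succ, hL]
    field_simp
  rw [e2] at n5 n6
  refine (norm_sub_le _ _).trans ?_
  refine (add_le_add ((norm_add_le _ _).trans (add_le_add ((norm_add_le _ _).trans (add_le_add
    ((norm_add_le _ _).trans (add_le_add ((norm_add_le _ _).trans (add_le_add hD hE)) hrem)) n4)) n5))
    n6).trans ?_
  have hLk : 1 ≤ L ^ k := one_le_pow₀ hL1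
  have hTLk : T * 1 ≤ T * L ^ k := mul_le_mul_of_nonneg_left hLk (by linarith)
  have h7 : T + T + 2 ^ (k + 1) * (T * (2 ^ k * L ^ k) * s ^ 2) +
      T * ((k + 1 : ℕ) * 4 * 2 ^ (k + 1) * L ^ k) * s ^ 2 ≤ T * L ^ k * (2 + c1 * s ^ 2) := by
    rw [hc1]
    nlinarith
  have h8 : 2 + c1 * s ^ 2 ≤ s ^ 3 / 4 := by
    have h9 : 1 ≤ s ^ 2 := one_le_pow₀ hs1
    have h10 : 4 * (c1 + 2) * s ^ 2 ≤ s * s ^ 2 := mul_le_mul_of_nonneg_right hs (by positivity)
    nlinarith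
  have h11 : T * L ^ k * (2 + c1 * s ^ 2) ≤ T * L ^ k * (s ^ 3 / 4) :=
    mul_le_mul_of_nonneg_left h8 (by positivity)
  have h12 : 0 ≤ T * (L ^ k * s ^ 3) := by positivity
  nlinarith

/-- Markov with squares -/
lemma markov2 {k : ℕ} {H A a : ℝ} (ha : 0 < a) {F : (Fin k → ℝ) → ℝ}
    (hF : Continuous F) (h : ∫⁻ β, ENNReal.ofReal (F β ^ 2) ∂(mP (Fin k) H) ≤
      ENNReal.ofReal (H ^ k * A)) :
    mP (Fin k) H {β | a < F β} ≤ ENNReal.ofReal (H ^ k * (A / a ^ 2)) := by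
  have h1 := meas_ge_le_lintegral_div (μ := mP (Fin k) H) (f := fun β => ENNReal.ofReal (F β ^ 2))
    (Pool.Agent.TH521.GS.mor (by fun_prop)).aemeasurable (ε := ENNReal.ofReal (a ^ 2))
    (by rw [Ne, ENNReal.ofReal_eq_zero]; have : 0 < a ^ 2 := by positivity
        linarith) ENNReal.ofReal_ne_top
  refine (measure_mono ?_).trans (h1.trans ?_)
  · intro β hβ
    have h2 : a < F β := hβ
    refine ENNReal.ofReal_le_ofReal ?_
    gcongr
  · refine (ENNReal.div_le_div_right h _).trans (le_of_eq ?_)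
    rw [← ENNReal.ofReal_div_of_pos (by positivity)]
    congr 1
    ring

lemma markov1 {k : ℕ} {H A a : ℝ} (ha : 0 < a) {F : (Fin k → ℝ) → ℝ}
    (hF : Continuous F) (h : ∫⁻ β, ENNReal.ofReal (F β) ∂(mP (Fin k) H) ≤
      ENNReal.ofReal (H ^ k * A)) :
    mP (Fin k) H {β | a < F β} ≤ ENNReal.ofReal (H ^ k * (A / a)) := by
  have h1 := meas_ge_le_lintegral_div (μ := mP (Fin k) H) (f := fun β => ENNReal.ofReal (F β))
    (Pool.Agent.TH521.GS.mor hF).aemeasurable (ε := ENNReal.ofReal a)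
    (by rw [Ne, ENNReal.ofReal_eq_zero]; linarith) ENNReal.ofReal_ne_top
  refine (measure_mono ?_).trans (h1.trans ?_)
  · intro β hβ
    have h2 : a < F β := hβ
    exact ENNReal.ofReal_le_ofReal h2.le
  · refine (ENNReal.div_le_div_right h _).trans (le_of_eq ?_)
    rw [← ENNReal.ofReal_div_of_pos ha]
    congr 1
    ring

lemma phc_cont {k : ℕ} (q : Fin (k + 1) → ℕ × ℕ) : Continuous fun β : Fin k → ℝ => phc (cve β) q := by
  simp only [phc_cve]
  exact continuous_finsetProd _ fun l _ => (ee_cont _).comp (continuous_apply l)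

lemma SB_cont {k : ℕ} (Yv : Fin (k + 1) → ℕ) (B : Finset (Fin (k + 1))) :
    Continuous fun β : Fin k → ℝ => SB Yv (cve β) B := by
  unfold SB
  exact continuous_finsetSum _ fun q _ => continuous_const.mul (phc_cont q)

/-- numerical conditions for large `T` -/
lemma large (k : ℕ) {C κ : ℝ} (hκ : 0 < κ) : ∃ T₀ : ℝ, 1000 ≤ T₀ ∧ ∀ T : ℝ, T₀ ≤ T →
    4 * (2 ^ (k + 1) * 2 ^ k + (k + 1 : ℕ) * 4 * 2 ^ (k + 1) + 2) ≤ Real.log T ^ (1 / 4 : ℝ) ∧
    T ^ (-κ) + 2 ^ (k + 1) * (C / (Real.log T ^ (1 / 4 : ℝ)) ^ 4) +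
      64 * (C * Real.log T ^ (-(9 / 10) : ℝ)) * (Real.log T ^ (1 / 4 : ℝ)) ^ 2 ≤
      Real.log T ^ (-(1 / 4) : ℝ) := by
  have t1 : Tendsto (fun T : ℝ => Real.log T ^ (1 / 4 : ℝ)) atTop atTop :=
    (tendsto_rpow_atTop (by norm_num)).comp Real.tendsto_log_atTop
  have t2 : Tendsto (fun T : ℝ => Real.log T ^ (3 / 20 : ℝ)) atTop atTop :=
    (tendsto_rpow_atTop (by norm_num)).comp Real.tendsto_log_atTop
  obtain ⟨T1, h1⟩ := eventually_atTop.1 (t1.eventually_ge_atTop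
    (max (4 * (2 ^ (k + 1) * 2 ^ k + (k + 1 : ℕ) * 4 * 2 ^ (k + 1) + 2)) (3 * (2 ^ (k + 1) * |C|))))
  obtain ⟨T2, h2⟩ := eventually_atTop.1 (t2.eventually_ge_atTop (3 * (64 * |C|)))
  obtain ⟨T3, hT3, h3⟩ := logpow 3 1 hκ
  refine ⟨max T3 (max T1 T2), hT3.trans (le_max_left _ _), fun T hT => ?_⟩
  have a1 : T1 ≤ T := ((le_max_left _ _).trans (le_max_right _ _)).trans hT
  have a2 : T2 ≤ T := ((le_max_right _ _).trans (le_max_right _ _)).trans hT
  have a3 : T3 ≤ T := (le_max_left _ _).trans hT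
  have hT1000 : 1000 ≤ T := hT3.trans a3
  have hTp : 0 < T := by linarith
  have hLg1 : 1 ≤ Real.log T := by
    rw [Real.le_log_iff_exp_le hTp]
    have := Real.exp_one_lt_d9
    linarith
  have b1 := h1 T a1
  have b2 := h2 T a2
  have b3 := h3 T a3
  rw [pow_one] at b3
  set L := Real.log T with hL
  have hLp : 0 < L := by linarith
  set s := L ^ (1 / 4 : ℝ) with hs
  have hs1 : 1 ≤ s := Real.one_le_rpow hLg1 (by norm_num)
  have hs4 : s ^ 4 = L := by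
    rw [hs, ← Real.rpow_natCast, ← Real.rpow_mul hLp.le]; norm_num
  have hsinv : L ^ (-(1 / 4) : ℝ) = 1 / s := by rw [Real.rpow_neg hLp.le, ← hs, inv_eq_one_div]
  refine ⟨(le_max_left _ _).trans b1, ?_⟩
  have hs0 : 0 < s := by linarith
  have c1 : T ^ (-κ) ≤ 1 / (3 * s) := by
    rw [Real.rpow_neg hTp.le, ← one_div]
    refine one_div_le_one_div_of_le (by positivity) (le_trans ?_ b3)
    have : s ≤ s ^ 4 := by
      calc s = s ^ 1 := (pow_one s).symm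
        _ ≤ s ^ 4 := pow_le_pow_right₀ hs1 (by norm_num)
    rw [hs4] at this
    linarith
  have c2 : 2 ^ (k + 1) * (C / s ^ 4) ≤ 1 / (3 * s) := by
    have h4 : 3 * (2 ^ (k + 1) * |C|) ≤ s := (le_max_right _ _).trans b1
    have h5 : C ≤ |C| := le_abs_self C
    have h6 : 2 ^ (k + 1) * C ≤ s / 3 := by
      have : (2:ℝ) ^ (k + 1) * C ≤ 2 ^ (k + 1) * |C| := by gcongr
      linarith
    have h7 : 2 ^ (k + 1) * (C / s ^ 4) = 2 ^ (k + 1) * C / s ^ 4 := by ring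
    rw [h7, div_le_div_iff₀ (by positivity) (by positivity)]
    calc 2 ^ (k + 1) * C * (3 * s) ≤ s / 3 * (3 * s) := by gcongr
      _ = s ^ 2 := by ring
      _ ≤ s ^ 4 := pow_le_pow_right₀ hs1 (by norm_num)
      _ = 1 * s ^ 4 := (one_mul _).symm
  have c3 : 64 * (C * L ^ (-(9 / 10) : ℝ)) * s ^ 2 ≤ 1 / (3 * s) := by
    have h5 : C ≤ |C| := le_abs_self C
    have e1 : L ^ (-(9 / 10) : ℝ) * s ^ 2 * s = L ^ (-(3 / 20) : ℝ) := by
      have e2 : s ^ 2 * s = L ^ (3 / 4 : ℝ) := by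
        rw [← pow_succ, hs, ← Real.rpow_natCast, ← Real.rpow_mul hLp.le]; norm_num
      rw [mul_assoc, e2, ← Real.rpow_add hLp]; norm_num
    rw [le_div_iff₀ (by positivity)]
    calc 64 * (C * L ^ (-(9 / 10) : ℝ)) * s ^ 2 * (3 * s)
        = 3 * (64 * C) * (L ^ (-(9 / 10) : ℝ) * s ^ 2 * s) := by ring
      _ = 3 * (64 * C) * L ^ (-(3 / 20) : ℝ) := by rw [e1]
      _ ≤ 3 * (64 * |C|) * L ^ (-(3 / 20) : ℝ) := by gcongr
      _ ≤ L ^ (3 / 20 : ℝ) * L ^ (-(3 / 20) : ℝ) := by gcongr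
      _ = 1 := by rw [← Real.rpow_add hLp]; norm_num
  have e3 : L ^ (-(1 / 4) : ℝ) = 1 / (3 * s) + 1 / (3 * s) + 1 / (3 * s) := by
    rw [hsinv]
    field_simp
    norm_num
  rw [e3]
  linarith

end

end Pool.Agent.Y752.KP
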