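import Pool.Agent.Y752.KP.Fin2
import Pool.Agent.TH612.GS.Asm3

set_option autoImplicit false
set_option linter.unusedSectionVars false

/-! The main theorem. -/

namespace Pool.Agent.Y752.KP

open Complex Filter Topology MeasureTheory Set
open Pool.Agent.TH612.GS (z mP)
open scoped ENNReal

noncomputable section

/-- the Euler product over the primes up to `log T` -/
def ES {k : ℕ} (T : ℝ) (β : Fin k → ℝ) : ℝ := ∏ p : Pr ⌊Real.log T⌋₊, locS (cve β) p

theorem fin_main (k : ℕ) {η : ℝ} (hη : 0 < η) : ∃ T₀ : ℝ, 1000 ≤ T₀ ∧ ∀ T : ℝ, T₀ ≤ T →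
    ∀ H : ℝ, T ^ (9 / 10 + η) ≤ H → H ≤ T →
    mP (Fin k) H {β | (∀ l, 0 ≤ β l ∧ β l ≤ H) ∧ T * (Real.log T ^ k * (Real.log T ^ (1 / 4 : ℝ)) ^ 3) <
      ‖(∫ t in (0:ℝ)..T, f2 t * ∏ l, f2 (t + β l)) -
        ((T * Real.log T ^ (k + 1) : ℝ) : ℂ) * ((ES T β : ℝ) : ℂ)‖} ≤
      ENNReal.ofReal (H ^ k * Real.log T ^ (-(1 / 4) : ℝ)) := by
  set δ : ℝ := min η 1 / (1000 * ((k : ℝ) + 1)) with hδdef
  have hk1 : (0:ℝ) < 1000 * ((k : ℝ) + 1) := by positivity
  have hmin : 0 < min η 1 := lt_min hη one_pos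
  have hδ : 0 < δ := div_pos hmin hk1
  have hδ1 : δ * (1000 * ((k : ℝ) + 1)) ≤ 1 := by
    rw [hδdef, div_mul_cancel₀ _ hk1.ne']
    exact min_le_right _ _
  have hδη' : δ * (1000 * ((k : ℝ) + 1)) ≤ η := by
    rw [hδdef, div_mul_cancel₀ _ hk1.ne']
    exact min_le_left _ _
  have hk0 : (0:ℝ) ≤ k := by positivity
  have hδ40 : δ ≤ 1 / 40 := by nlinarith
  have hδη : 5 / 2 * δ ≤ η := by nlinarith
  obtain ⟨κ1, T1, hκ1, hT1, hA⟩ := thmA k hδ hδ40 hδη
  obtain ⟨κ2, T2, hκ2, hT2, hB⟩ := thmB k hδ hδ1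
  obtain ⟨C, T3, hC, hT3, hM⟩ := ms_all k hδ hδ1
  obtain ⟨T4, hT4, hE⟩ := eul_small k hδ
  obtain ⟨T5, hT5, hLar⟩ := large k (C := C) hκ1
  refine ⟨max T1 (max T2 (max T3 (max T4 T5))), hT1.trans (le_max_left _ _), ?_⟩
  intro T hT H hH9 hHT
  have a1 : T1 ≤ T := (le_max_left _ _).trans hT
  have a2 : T2 ≤ T := ((le_max_left _ _).trans (le_max_right _ _)).trans hT
  have a3 : T3 ≤ T := (((le_max_left _ _).trans (le_max_right _ _)).trans (le_max_right _ _)).trans hT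
  have a4 : T4 ≤ T := ((((le_max_left _ _).trans (le_max_right _ _)).trans (le_max_right _ _)).trans
    (le_max_right _ _)).trans hT
  have a5 : T5 ≤ T := ((((le_max_right _ _).trans (le_max_right _ _)).trans (le_max_right _ _)).trans
    (le_max_right _ _)).trans hT
  have hT1000 : 1000 ≤ T := hT1.trans a1
  have hTp : 0 < T := by linarith
  have hT1' : 1 ≤ T := by linarith
  have hLg1 : 1 ≤ Real.log T := by
    rw [Real.le_log_iff_exp_le hTp]
    have := Real.exp_one_lt_d9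
    linarith
  have hH9' : T ^ (9 / 10 : ℝ) ≤ H :=
    (Real.rpow_le_rpow_of_exponent_le hT1' (by linarith)).trans hH9
  have hHp : 0 < H := (Real.rpow_pos_of_pos hTp _).trans_le hH9'
  -- the levels
  have hcl : ∀ a : ℝ, 0 ≤ a → T ^ a ≤ (⌈T ^ a⌉₊ : ℕ) ∧ ((⌈T ^ a⌉₊ : ℕ) : ℝ) ≤ 2 * T ^ a := by
    intro a ha
    refine ⟨Nat.le_ceil _, ?_⟩
    have h1 := (Nat.ceil_lt_add_one (show 0 ≤ T ^ a by positivity)).le
    have h2 : 1 ≤ T ^ a := Real.one_le_rpow hT1' ha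
    linarith
  set Y : ℕ := ⌈T ^ δ⌉₊ with hY
  set Y' : ℕ := ⌈T ^ ((4 * (k : ℝ) + 2) * δ)⌉₊ with hY'
  obtain ⟨y1, y2⟩ := hcl δ hδ.le
  obtain ⟨y1', y2'⟩ := hcl ((4 * (k : ℝ) + 2) * δ) (by positivity)
  have hYY' : Y ≤ Y' := by
    refine Nat.ceil_le_ceil ?_
    refine Real.rpow_le_rpow_of_exponent_le hT1' ?_
    nlinarith
  have hYpos : 1 ≤ Y := by
    have h1 : (1:ℝ) ≤ Y := (Real.one_le_rpow hT1' hδ.le).trans y1
    exact_mod_cast h1
  have hA' := hA T a1 H hH9 hHT Y y1 y2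
  obtain ⟨hM1, hM2⟩ := hM T a3 H hH9' Y Y' y1 y2 y1' y2'
  obtain ⟨hl1, hl2⟩ := hLar T a5
  have hE' := hE T a4 Y y1
  set L := Real.log T with hL
  have hLp : 0 < L := by linarith
  set s := L ^ (1 / 4 : ℝ) with hs
  have hs1 : 1 ≤ s := Real.one_le_rpow hLg1 (by norm_num)
  have hs0 : 0 < s := by linarith
  have hs4 : L = s ^ 4 := by
    rw [hs, ← Real.rpow_natCast, ← Real.rpow_mul hLp.le]; norm_num
  have cf := f2_cont
  have cg := gY_cont Y
  -- the exceptional sets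
  set D : (Fin k → ℝ) → ℝ := fun β => ‖∫ t in (0:ℝ)..T, f2 t * (∏ l : Fin k, f2 (t + β l) -
    ∏ l : Fin k, gY Y (t + β l))‖ with hD
  have cD : Continuous D := by
    refine (int_cont (F := fun (β : Fin k → ℝ) t => f2 t * (∏ l : Fin k, f2 (t + β l) -
      ∏ l : Fin k, gY Y (t + β l))) ?_ _ _).norm
    simp only [Function.uncurry_def]
    fun_prop
  set Rst : (Fin k → ℝ) → ℝ := fun β => ‖SB (Yve k Y' Y) (cve β) ∅ -
      ∑ q ∈ DS ⌊L⌋₊ (Yve k Y' Y), ((wtp q : ℝ) : ℂ) * phc (cve β) q‖ with hRst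
  have cR : Continuous Rst :=
    ((SB_cont _ _).sub (continuous_finsetSum _ fun q _ => continuous_const.mul (phc_cont q))).norm
  have m1 : mP (Fin k) H {β | T < D β} ≤ ENNReal.ofReal (H ^ k * T ^ (-κ1)) := by
    have := markov1 (k := k) (H := H) (A := T * T ^ (-κ1)) (a := T) hTp cD
      (by rw [← mul_assoc]; exact hA')
    refine this.trans (le_of_eq ?_)
    congr 2
    field_simp
  have m2 : ∀ B : Finset (Fin (k + 1)), mP (Fin k) H {β | s ^ 2 < ‖SB (Yve k Y' Y) (cve β) B‖} ≤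
      ENNReal.ofReal (H ^ k * (C / s ^ 4)) := by
    intro B
    have := markov2 (k := k) (H := H) (A := C) (a := s ^ 2) (by positivity) (SB_cont _ B).norm (hM1 B)
    refine this.trans (le_of_eq ?_)
    congr 3
    ring
  have m3 : mP (Fin k) H {β | 1 / (8 * s) < Rst β} ≤
      ENNReal.ofReal (H ^ k * (64 * (C * L ^ (-(9 / 10) : ℝ)) * s ^ 2)) := by
    have := markov2 (k := k) (H := H) (A := C * L ^ (-(9 / 10) : ℝ)) (a := 1 / (8 * s))
      (by positivity) cR hM2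
    refine this.trans (le_of_eq ?_)
    congr 2
    field_simp
    ring
  have hsub : {β : Fin k → ℝ | (∀ l, 0 ≤ β l ∧ β l ≤ H) ∧ T * (L ^ k * s ^ 3) <
      ‖(∫ t in (0:ℝ)..T, f2 t * ∏ l, f2 (t + β l)) -
        ((T * L ^ (k + 1) : ℝ) : ℂ) * ((ES T β : ℝ) : ℂ)‖} ⊆
      ({β | T < D β} ∪ ⋃ B ∈ (Finset.univ : Finset (Finset (Fin (k + 1)))),
        {β | s ^ 2 < ‖SB (Yve k Y' Y) (cve β) B‖}) ∪ {β | 1 / (8 * s) < Rst β} := by
    rintro β ⟨hβ, hbad⟩
    by_contra hcon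
    simp only [mem_union, mem_ofPred_eq, mem_iUnion, Finset.mem_univ, exists_prop, true_and,
      not_or, not_exists, not_lt] at hcon
    obtain ⟨⟨c1, c2⟩, c3⟩ := hcon
    refine absurd hbad (not_lt.2 ?_)
    have hβT : ∀ l, 0 ≤ β l ∧ β l ≤ T := fun l => ⟨(hβ l).1, (hβ l).2.trans hHT⟩
    have hc2 : ∀ j : Fin (k + 1), 0 ≤ cve β j ∧ cve β j ≤ 2 * T := by
      intro j
      unfold cve
      refine Fin.cases ?_ (fun l => ?_) j
      · simp only [Fin.cons_zero]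
        constructor <;> linarith
      · simp only [Fin.cons_succ]
        exact ⟨(hβ l).1, by linarith [(hβT l).2]⟩
    refine det (k := k) hT1' hs4 hl1 (P := ∫ t in (0:ℝ)..T, f2 t * ∏ l, gY Y (t + β l))
      (D0 := ∑ q ∈ DS ⌊L⌋₊ (Yve k Y' Y), ((wtp q : ℝ) : ℂ) * phc (cve β) q)
      (W := fun A => WA (cve β) T A) (SS := fun B => SB (Yve k Y' Y) (cve β) B)
      ?_ ?_ c2 c3 ?_ (fun A => WA_bd (by linarith) hc2 A) ?_
    · have e1 : (∫ t in (0:ℝ)..T, f2 t * ∏ l, f2 (t + β l)) -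
          (∫ t in (0:ℝ)..T, f2 t * ∏ l, gY Y (t + β l)) = ∫ t in (0:ℝ)..T, f2 t *
            (∏ l : Fin k, f2 (t + β l) - ∏ l : Fin k, gY Y (t + β l)) := by
        rw [← intervalIntegral.integral_sub (Continuous.intervalIntegrable (by fun_prop) _ _)
          (Continuous.intervalIntegrable (by fun_prop) _ _)]
        refine intervalIntegral.integral_congr fun t _ => ?_
        ring
      rw [e1]
      exact c1
    · refine (hB T a2 Y Y' y1 y2 y1' y2' β hβT).trans ?_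
      have : T ^ (-κ2) ≤ 1 := Real.rpow_le_one_of_one_le_of_nonpos hT1' (by linarith)
      nlinarith
    · have h1 := tor_main (m := ⌊L⌋₊) hYpos (Yve k Y' Y) (fun j => by
        unfold Yve
        refine Fin.cases ?_ (fun l => ?_) j
        · simp only [Fin.cons_zero]; exact hYY'
        · simp only [Fin.cons_succ]; exact le_rfl) (cve β)
      rw [Fintype.card_fin] at h1
      refine h1.trans (hE'.trans (le_of_eq ?_))
      rw [Real.rpow_neg hLp.le, ← hs]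
      field_simp
    · have := WA_main (ι := Fin (k + 1)) hT1000 hc2
      rw [Fintype.card_fin] at this
      simpa using this
  refine (measure_mono hsub).trans ?_
  refine (measure_union_le _ _).trans ((add_le_add ((measure_union_le _ _).trans (add_le_add m1
    (measure_biUnion_finset_le _ _))) m3).trans ?_)
  have hsum : ∑ B ∈ (Finset.univ : Finset (Finset (Fin (k + 1)))),
      mP (Fin k) H {β | s ^ 2 < ‖SB (Yve k Y' Y) (cve β) B‖} ≤
      ENNReal.ofReal (H ^ k * (2 ^ (k + 1) * (C / s ^ 4))) := by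
    refine (Finset.sum_le_sum fun B _ => m2 B).trans (le_of_eq ?_)
    rw [Finset.sum_const, Finset.card_univ, Fintype.card_finset, Fintype.card_fin,
      nsmul_eq_mul]
    have h3 : ((2 ^ (k + 1) : ℕ) : ℝ≥0∞) = ENNReal.ofReal (2 ^ (k + 1)) := by
      rw [ENNReal.ofReal_pow (by norm_num)]
      simp
    rw [h3, ← ENNReal.ofReal_mul (by positivity)]
    congr 1
    ring
  refine (add_le_add (add_le_add le_rfl hsum) le_rfl).trans ?_
  have hHk : 0 ≤ H ^ k := by positivity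
  rw [← ENNReal.ofReal_add (by positivity) (by positivity),
    ← ENNReal.ofReal_add (by positivity) (by positivity)]
  refine ENNReal.ofReal_le_ofReal ?_
  calc H ^ k * T ^ (-κ1) + H ^ k * (2 ^ (k + 1) * (C / s ^ 4)) +
        H ^ k * (64 * (C * L ^ (-(9 / 10) : ℝ)) * s ^ 2)
      = H ^ k * (T ^ (-κ1) + 2 ^ (k + 1) * (C / s ^ 4) + 64 * (C * L ^ (-(9 / 10) : ℝ)) * s ^ 2) := by
        ring
    _ ≤ H ^ k * L ^ (-(1 / 4) : ℝ) := by gcongr

end

end Pool.Agent.Y752.KP
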