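import Pool.Agent.Y752.KP.Ibp
import Pool.Agent.TH158.FM.Main

set_option autoImplicit false

/-! Mean squares of the main function and of the square of zeta. -/

namespace Pool.Agent.Y752.KP

open Complex Filter Topology MeasureTheory Set
open Pool.Agent.TH612.GS (z)

noncomputable section

/-- the frequency of a pair -/
def fr (q : ℕ × ℕ) : ℝ := Real.log q.1 - Real.log q.2

def P0 (Y : ℕ) (u : ℝ) : ℂ := ∑ q ∈ qs Y, ((wt q : ℝ) : ℂ) * ee (fr q) u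

def P1 (Y : ℕ) (u : ℝ) : ℂ := ∑ q ∈ qs Y, ((wt q * Real.log (q.1 * q.2) : ℝ) : ℂ) * ee (fr q) u

lemma P0_cont (Y : ℕ) : Continuous (P0 Y) :=
  continuous_finsetSum _ fun _ _ => continuous_const.mul (ee_cont _)

lemma P1_cont (Y : ℕ) : Continuous (P1 Y) :=
  continuous_finsetSum _ fun _ _ => continuous_const.mul (ee_cont _)

lemma gY_eq (Y : ℕ) (u : ℝ) : gY Y u = (Lw u : ℂ) * P0 Y u - P1 Y u := by
  unfold gY P0 P1 Lw fr
  rw [Finset.mul_sum, ← Finset.sum_sub_distrib]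
  refine Finset.sum_congr rfl fun q _ => ?_
  push_cast
  ring

lemma fr_sep {Y : ℕ} (hY : 1 ≤ Y) {p q : ℕ × ℕ} (hp : p ∈ qs Y) (hq : q ∈ qs Y) (h : p ≠ q) :
    ((Y : ℝ) ^ 2)⁻¹ ≤ |fr p - fr q| := by
  obtain ⟨p1, p2, pc, pY⟩ := mem_qs.1 hp
  obtain ⟨q1, q2, qc, qY⟩ := mem_qs.1 hq
  obtain ⟨_, _, pa, pb⟩ := qs_bd hp
  obtain ⟨_, _, qa, qb⟩ := qs_bd hq
  have hne : p.1 * q.2 ≠ q.1 * p.2 := by
    intro he
    apply h
    have h1 : p.1 ∣ q.1 := pc.dvd_of_dvd_mul_right (he ▸ Dvd.intro _ rfl)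
    have h2 : q.1 ∣ p.1 := qc.dvd_of_dvd_mul_right (he.symm ▸ Dvd.intro _ rfl)
    have h3 : p.1 = q.1 := Nat.dvd_antisymm h1 h2
    have h4 : p.2 = q.2 := by
      rw [h3] at he
      exact (Nat.eq_of_mul_eq_mul_left (by omega) he).symm
    exact Prod.ext h3 h4
  have e1 : fr p - fr q = Real.log ((p.1 * q.2 : ℕ) : ℝ) - Real.log ((q.1 * p.2 : ℕ) : ℝ) := by
    unfold fr
    push_cast
    rw [Real.log_mul (by positivity) (by positivity), Real.log_mul (by positivity) (by positivity)]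
    ring
  rw [e1]
  have b1 : (((p.1 * q.2 : ℕ) : ℝ)) ≤ (Y : ℝ) ^ 2 := by
    have : p.1 * q.2 ≤ Y ^ 2 := by rw [sq]; exact Nat.mul_le_mul pa qb
    exact_mod_cast this
  have b2 : (((q.1 * p.2 : ℕ) : ℝ)) ≤ (Y : ℝ) ^ 2 := by
    have : q.1 * p.2 ≤ Y ^ 2 := by rw [sq]; exact Nat.mul_le_mul qa pb
    exact_mod_cast this
  have p0 : (0:ℝ) < ((p.1 * q.2 : ℕ) : ℝ) := by exact_mod_cast Nat.mul_pos p1 q2
  have q0 : (0:ℝ) < ((q.1 * p.2 : ℕ) : ℝ) := by exact_mod_cast Nat.mul_pos q1 p2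
  refine le_trans ?_ (log_sub_ge p0 q0 b1 b2)
  rw [inv_eq_one_div]
  refine div_le_div_of_nonneg_right ?_ (by positivity)
  have h5 : ((p.1 * q.2 : ℕ) : ℤ) - ((q.1 * p.2 : ℕ) : ℤ) ≠ 0 := by
    intro h6
    apply hne
    exact_mod_cast sub_eq_zero.1 h6
  have h6 := Int.one_le_abs h5
  have h7 : ((|((p.1 * q.2 : ℕ) : ℤ) - ((q.1 * p.2 : ℕ) : ℤ)| : ℤ) : ℝ) =
      |((p.1 * q.2 : ℕ) : ℝ) - ((q.1 * p.2 : ℕ) : ℝ)| := by push_cast; rfl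
  rw [← h7]
  exact_mod_cast h6

lemma wt_sq (q : ℕ × ℕ) : wt q ^ 2 = (q.1 : ℝ)⁻¹ * (q.2 : ℝ)⁻¹ := by
  unfold wt
  rw [inv_pow, Real.sq_sqrt (by positivity), mul_inv]

lemma sum_wt_sq (Y : ℕ) : ∑ q ∈ qs Y, wt q ^ 2 ≤ (1 + Real.log (Y + 1)) ^ 2 := by
  have h1 : qs Y ⊆ (Finset.Icc 1 Y) ×ˢ (Finset.Icc 1 Y) := by
    intro q hq
    obtain ⟨a, b, c, d⟩ := qs_bd hq
    simp only [Finset.mem_product, Finset.mem_Icc]
    exact ⟨⟨a, c⟩, b, d⟩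
  refine (Finset.sum_le_sum_of_subset_of_nonneg h1 fun _ _ _ => sq_nonneg _).trans ?_
  rw [Finset.sum_product]
  have h2 : ∑ x ∈ Finset.Icc 1 Y, ∑ y ∈ Finset.Icc 1 Y, wt (x, y) ^ 2 =
      (∑ x ∈ Finset.Icc 1 Y, (x : ℝ)⁻¹) * ∑ y ∈ Finset.Icc 1 Y, (y : ℝ)⁻¹ := by
    rw [Finset.sum_mul_sum]
    exact Finset.sum_congr rfl fun x _ => Finset.sum_congr rfl fun y _ => wt_sq (x, y)
  rw [h2, ← sq]
  have := har_le Y
  have h0 : 0 ≤ ∑ x ∈ Finset.Icc 1 Y, (x : ℝ)⁻¹ := Finset.sum_nonneg fun _ _ => by positivity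
  gcongr

lemma sum_wt (Y : ℕ) : ∑ q ∈ qs Y, |wt q| ≤ (Y : ℝ) ^ 2 := by
  refine le_trans (Finset.sum_le_card_nsmul _ _ 1 fun q hq => ?_) ?_
  · obtain ⟨a, b, _, _⟩ := qs_bd hq
    rw [abs_of_nonneg (wt_nonneg q)]
    exact wt_le_one a b
  · rw [nsmul_eq_mul, mul_one]
    exact qs_card Y

lemma log_h {Y : ℕ} {q : ℕ × ℕ} (hq : q ∈ qs Y) : 0 ≤ Real.log (q.1 * q.2) ∧
    Real.log (q.1 * q.2) ≤ Real.log Y := by
  obtain ⟨h1, h2, _, h4⟩ := mem_qs.1 hq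
  have a1 : (1:ℝ) ≤ q.1 := by exact_mod_cast h1
  have a2 : (1:ℝ) ≤ q.2 := by exact_mod_cast h2
  have a3 : (1:ℝ) ≤ (q.1 : ℝ) * q.2 := by nlinarith
  exact ⟨Real.log_nonneg a3, Real.log_le_log (by linarith) (by exact_mod_cast h4)⟩

lemma g_ms {T : ℝ} (hT : 7 ≤ T) {Y : ℕ} (hY : 1 ≤ Y) (hYT : (Y : ℝ) + 1 ≤ T) {A B : ℝ}
    (hA : 0 ≤ A) (hB : B ≤ 3 * T) (hAB : (Y : ℝ) ^ 6 ≤ B - A) :
    ∫ u in A..B, ‖gY Y u‖ ^ 2 ≤ 80 * (B - A) * Real.log T ^ 4 := by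
  have hYr : (1:ℝ) ≤ Y := by exact_mod_cast hY
  have hAB' : A ≤ B := by
    have : (0:ℝ) ≤ (Y : ℝ) ^ 6 := by positivity
    linarith
  set Lg := Real.log T with hLg
  have hLg1 : 1 ≤ Lg := by
    rw [hLg, Real.le_log_iff_exp_le (by linarith)]
    have := Real.exp_one_lt_d9
    linarith
  have hY1 : Real.log (Y + 1) ≤ Lg := Real.log_le_log (by linarith) hYT
  have hY2 : Real.log Y ≤ Lg := Real.log_le_log (by linarith) (by linarith)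
  have hY0 : 0 ≤ Real.log (Y + 1) := Real.log_nonneg (by linarith)
  have hY3 : 0 ≤ Real.log Y := Real.log_nonneg hYr
  have hδ : 0 < ((Y : ℝ) ^ 2)⁻¹ := by positivity
  have sep : ∀ p ∈ qs Y, ∀ q ∈ qs Y, p ≠ q → ((Y : ℝ) ^ 2)⁻¹ ≤ |fr p - fr q| :=
    fun p hp q hq h => fr_sep hY hp hq h
  have m0 := msq (qs Y) wt fr hδ hAB' sep
  have m1 := msq (qs Y) (fun q => wt q * Real.log (q.1 * q.2)) fr hδ hAB' sep
  have s0 := sum_wt_sq Y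
  have s0' : ∑ q ∈ qs Y, wt q ^ 2 ≤ 4 * Lg ^ 2 := by
    refine s0.trans ?_
    have : (1 + Real.log ((Y : ℝ) + 1)) ^ 2 ≤ (2 * Lg) ^ 2 := by
      gcongr
      linarith
    linarith
  have s1 : ∑ q ∈ qs Y, (wt q * Real.log (q.1 * q.2)) ^ 2 ≤ 4 * Lg ^ 4 := by
    calc ∑ q ∈ qs Y, (wt q * Real.log (q.1 * q.2)) ^ 2 ≤ ∑ q ∈ qs Y, wt q ^ 2 * Lg ^ 2 := by
          refine Finset.sum_le_sum fun q hq => ?_
          rw [mul_pow]
          have := log_h hq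
          have h2 : Real.log (q.1 * q.2) ^ 2 ≤ Lg ^ 2 := by
            have := this.1
            gcongr
            linarith
          exact mul_le_mul_of_nonneg_left h2 (sq_nonneg _)
      _ = (∑ q ∈ qs Y, wt q ^ 2) * Lg ^ 2 := by rw [Finset.sum_mul]
      _ ≤ (4 * Lg ^ 2) * Lg ^ 2 := by gcongr
      _ = _ := by ring
  have t0 := sum_wt Y
  have t1 : ∑ q ∈ qs Y, |wt q * Real.log (q.1 * q.2)| ≤ (Y : ℝ) ^ 2 * Lg := by
    calc ∑ q ∈ qs Y, |wt q * Real.log (q.1 * q.2)| ≤ ∑ q ∈ qs Y, |wt q| * Lg := by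
          refine Finset.sum_le_sum fun q hq => ?_
          rw [abs_mul]
          have := log_h hq
          rw [abs_of_nonneg this.1]
          exact mul_le_mul_of_nonneg_left (by linarith) (abs_nonneg _)
      _ = (∑ q ∈ qs Y, |wt q|) * Lg := by rw [Finset.sum_mul]
      _ ≤ _ := by gcongr
  have e0 : 4 / ((Y : ℝ) ^ 2)⁻¹ = 4 * (Y : ℝ) ^ 2 := by field_simp
  have n0 : 0 ≤ ∑ q ∈ qs Y, |wt q| := Finset.sum_nonneg fun _ _ => abs_nonneg _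
  have n1 : 0 ≤ ∑ q ∈ qs Y, |wt q * Real.log (q.1 * q.2)| :=
    Finset.sum_nonneg fun _ _ => abs_nonneg _
  have hBA : 0 ≤ B - A := by linarith
  have i0 : ∫ u in A..B, ‖P0 Y u‖ ^ 2 ≤ 8 * (B - A) * Lg ^ 2 := by
    refine m0.trans ?_
    rw [e0]
    have h1 : (B - A) * ∑ q ∈ qs Y, wt q ^ 2 ≤ (B - A) * (4 * Lg ^ 2) := by gcongr
    have h2 : 4 * (Y : ℝ) ^ 2 * (∑ q ∈ qs Y, |wt q|) ^ 2 ≤ 4 * (Y : ℝ) ^ 2 * ((Y : ℝ) ^ 2) ^ 2 := by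
      gcongr
    have h3 : 4 * (Y : ℝ) ^ 2 * ((Y : ℝ) ^ 2) ^ 2 = 4 * (Y : ℝ) ^ 6 := by ring
    have h4 : 4 * (Y : ℝ) ^ 6 ≤ 4 * (B - A) * Lg ^ 2 := by
      have : (B - A) * 1 ≤ (B - A) * Lg ^ 2 :=
        mul_le_mul_of_nonneg_left (one_le_pow₀ hLg1) hBA
      linarith
    linarith
  have i1 : ∫ u in A..B, ‖P1 Y u‖ ^ 2 ≤ 8 * (B - A) * Lg ^ 4 := by
    refine m1.trans ?_
    rw [e0]
    have h1 : (B - A) * ∑ q ∈ qs Y, (wt q * Real.log (q.1 * q.2)) ^ 2 ≤ (B - A) * (4 * Lg ^ 4) := by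
      gcongr
    have h2 : 4 * (Y : ℝ) ^ 2 * (∑ q ∈ qs Y, |wt q * Real.log (q.1 * q.2)|) ^ 2 ≤
        4 * (Y : ℝ) ^ 2 * ((Y : ℝ) ^ 2 * Lg) ^ 2 := by gcongr
    have h3 : 4 * (Y : ℝ) ^ 2 * ((Y : ℝ) ^ 2 * Lg) ^ 2 = 4 * (Y : ℝ) ^ 6 * Lg ^ 2 := by ring
    have h4 : 4 * (Y : ℝ) ^ 6 * Lg ^ 2 ≤ 4 * (B - A) * Lg ^ 4 := by
      have : Lg ^ 2 ≤ Lg ^ 4 := pow_le_pow_right₀ hLg1 (by norm_num)
      have h5 : 4 * (Y : ℝ) ^ 6 ≤ 4 * (B - A) := by linarith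
      exact mul_le_mul h5 this (by positivity) (by linarith)
    linarith
  have cP0 := P0_cont Y
  have cP1 := P1_cont Y
  have hpt : ∀ u ∈ Icc A B, ‖gY Y u‖ ^ 2 ≤ 8 * Lg ^ 2 * ‖P0 Y u‖ ^ 2 + 2 * ‖P1 Y u‖ ^ 2 := by
    intro u hu
    have hL := Lw_bd hT (hA.trans hu.1) (hu.2.trans hB)
    rw [gY_eq]
    have h1 : ‖(Lw u : ℂ) * P0 Y u - P1 Y u‖ ≤ 2 * Lg * ‖P0 Y u‖ + ‖P1 Y u‖ := by
      refine (norm_sub_le _ _).trans ?_
      rw [norm_mul, Complex.norm_real, Real.norm_eq_abs]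
      have := mul_le_mul_of_nonneg_right hL (norm_nonneg (P0 Y u))
      linarith
    calc ‖(Lw u : ℂ) * P0 Y u - P1 Y u‖ ^ 2 ≤ (2 * Lg * ‖P0 Y u‖ + ‖P1 Y u‖) ^ 2 := by gcongr
      _ ≤ 2 * (2 * Lg * ‖P0 Y u‖) ^ 2 + 2 * ‖P1 Y u‖ ^ 2 := by
          nlinarith [sq_nonneg (2 * Lg * ‖P0 Y u‖ - ‖P1 Y u‖)]
      _ = _ := by ring
  have cg := gY_cont Y
  calc ∫ u in A..B, ‖gY Y u‖ ^ 2
      ≤ ∫ u in A..B, (8 * Lg ^ 2 * ‖P0 Y u‖ ^ 2 + 2 * ‖P1 Y u‖ ^ 2) :=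
        intervalIntegral.integral_mono_on hAB' (Continuous.intervalIntegrable (by fun_prop) _ _)
          (Continuous.intervalIntegrable (by fun_prop) _ _) hpt
    _ = 8 * Lg ^ 2 * (∫ u in A..B, ‖P0 Y u‖ ^ 2) + 2 * ∫ u in A..B, ‖P1 Y u‖ ^ 2 := by
        rw [intervalIntegral.integral_add (Continuous.intervalIntegrable (by fun_prop) _ _)
          (Continuous.intervalIntegrable (by fun_prop) _ _), intervalIntegral.integral_const_mul,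
          intervalIntegral.integral_const_mul]
    _ ≤ 8 * Lg ^ 2 * (8 * (B - A) * Lg ^ 2) + 2 * (8 * (B - A) * Lg ^ 4) := by gcongr
    _ = 80 * (B - A) * Lg ^ 4 := by ring

/-- crude pointwise bound -/
lemma g_sup {T : ℝ} (hT : 7 ≤ T) {Y : ℕ} (hY : 1 ≤ Y) (hYT : (Y : ℝ) + 1 ≤ T) {u : ℝ}
    (hu0 : 0 ≤ u) (hu : u ≤ 3 * T) : ‖gY Y u‖ ≤ 3 * (Y : ℝ) ^ 2 * Real.log T := by
  have hYr : (1:ℝ) ≤ Y := by exact_mod_cast hY
  have hL := Lw_bd hT hu0 hu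
  have hLg : 0 ≤ Real.log T := Real.log_nonneg (by linarith)
  have hY2 : Real.log Y ≤ Real.log T := Real.log_le_log (by linarith) (by linarith)
  unfold gY
  refine (norm_sum_le _ _).trans ?_
  calc ∑ q ∈ qs Y, ‖((wt q * (Real.log ((1 + |u|) / (2 * Real.pi)) - Real.log (q.1 * q.2) +
        2 * Real.eulerMascheroniConstant) : ℝ) : ℂ) * ee (Real.log q.1 - Real.log q.2) u‖
      ≤ ∑ _q ∈ qs Y, 3 * Real.log T := by
        refine Finset.sum_le_sum fun q hq => ?_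
        obtain ⟨a, b, _, _⟩ := qs_bd hq
        have h1 := wt_le_one a b
        have h2 := wt_nonneg q
        have h3 := log_h hq
        rw [norm_mul, ee_norm, mul_one, Complex.norm_real, Real.norm_eq_abs, abs_mul,
          abs_of_nonneg h2]
        have e1 : Real.log ((1 + |u|) / (2 * Real.pi)) - Real.log (q.1 * q.2) +
          2 * Real.eulerMascheroniConstant = Lw u - Real.log (q.1 * q.2) := by unfold Lw; ring
        rw [e1]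
        have h4 : |Lw u - Real.log (q.1 * q.2)| ≤ 3 * Real.log T := by
          have := abs_sub (Lw u) (Real.log (q.1 * q.2))
          rw [abs_of_nonneg h3.1] at this
          linarith
        calc wt q * |Lw u - Real.log (q.1 * q.2)| ≤ 1 * |Lw u - Real.log (q.1 * q.2)| :=
              mul_le_mul_of_nonneg_right h1 (abs_nonneg _)
          _ ≤ _ := by linarith
    _ = (qs Y).card * (3 * Real.log T) := by rw [Finset.sum_const, nsmul_eq_mul]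
    _ ≤ (Y : ℝ) ^ 2 * (3 * Real.log T) := by
        have := qs_card Y
        gcongr
    _ = _ := by ring

/-- fourth moment of zeta -/
lemma z_four {T : ℝ} (hT : 1000 ≤ T) : ∫ u in (0:ℝ)..T, (‖z u‖ ^ 2) ^ 2 ≤ T * Real.log T ^ 4 := by
  have h1 := Pool.Agent.TH158.FM.fourth_all T hT
  have h2 : ∫ u in (0:ℝ)..T, (‖z u‖ ^ 2) ^ 2 =
      ∫ t in (0:ℝ)..T, ‖riemannZeta (Pool.Agent.TH158.FM.pt (1 / 2) t)‖ ^ 4 := by
    refine intervalIntegral.integral_congr fun u _ => ?_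
    have e1 : (1 / 2 + I * u : ℂ) = ((1 / 2 : ℝ) : ℂ) + (u : ℂ) * I := by
      push_cast; ring
    simp only [z, Pool.Agent.TH158.FM.pt]
    rw [e1, ← pow_mul]
  rw [h2]
  have h3 : 0 ≤ T * Real.log T ^ 4 := by
    have : 0 ≤ T := by linarith
    positivity
  linarith

end

end Pool.Agent.Y752.KP
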