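import Pool.Agent.Y752.KP.Kl4

set_option autoImplicit false

/-! Integration by parts against products of logarithms, and mean squares of exponential sums. -/

namespace Pool.Agent.Y752.KP

open Complex Filter Topology MeasureTheory Set

noncomputable section

/-- the logarithmic weight -/
def Lw (u : ℝ) : ℝ := Real.log ((1 + |u|) / (2 * Real.pi)) + 2 * Real.eulerMascheroniConstant

lemma Lw_cont : Continuous Lw := by
  unfold Lw
  refine Continuous.add (Continuous.log (by fun_prop) fun u => ?_) continuous_const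
  have : 0 ≤ |u| := abs_nonneg u
  positivity

lemma Lw_bd {T u : ℝ} (hT : 7 ≤ T) (hu0 : 0 ≤ u) (hu : u ≤ 3 * T) : |Lw u| ≤ 2 * Real.log T := by
  have hpi1 := Real.pi_gt_three
  have hpi2 := Real.pi_lt_d2
  have hg1 := Real.one_half_lt_eulerMascheroniConstant
  have hg2 := Real.eulerMascheroniConstant_lt_two_thirds
  have hl : (9 / 5 : ℝ) ≤ Real.log T := by
    have h1 : Real.log 7 ≤ Real.log T := Real.log_le_log (by norm_num) hT
    have h2 : (9 / 5 : ℝ) ≤ Real.log 7 := by
      rw [Real.le_log_iff_exp_le (by norm_num)]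
      have h3 : Real.exp (9 / 5) = Real.exp 1 * Real.exp (4 / 5) := by
        rw [← Real.exp_add]; norm_num
      have h4 : Real.exp (4 / 5) * Real.exp (1 / 5) = Real.exp 1 := by
        rw [← Real.exp_add]; norm_num
      have h5 : (6 / 5 : ℝ) ≤ Real.exp (1 / 5) := by
        have := Real.add_one_le_exp (1 / 5); linarith
      have h6 := Real.exp_one_lt_d9
      have h7 : 0 < Real.exp (4 / 5) := Real.exp_pos _
      have h8 : Real.exp (4 / 5) ≤ 2.7182818286 * (5 / 6) := by nlinarith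
      have h9 := Real.exp_pos 1
      rw [h3]
      nlinarith
    linarith
  unfold Lw
  rw [abs_of_nonneg hu0, abs_le]
  constructor
  · have h1 : -(2:ℝ) ≤ Real.log ((1 + u) / (2 * Real.pi)) := by
      rw [Real.le_log_iff_exp_le (by positivity)]
      have h2 : Real.exp (-2) ≤ 1 / (2 * Real.pi) := by
        rw [Real.exp_neg, ← one_div]
        refine one_div_le_one_div_of_le (by positivity) ?_
        have h3 : Real.exp 2 = Real.exp 1 * Real.exp 1 := by rw [← Real.exp_add]; norm_num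
        have h4 := Real.exp_one_gt_d9
        rw [h3]
        nlinarith
      refine h2.trans ?_
      gcongr
      linarith
    linarith
  · have h1 : Real.log ((1 + u) / (2 * Real.pi)) ≤ Real.log T := by
      refine Real.log_le_log (by positivity) ?_
      rw [div_le_iff₀ (by positivity)]
      nlinarith
    linarith

lemma ibp1 {v v' : ℝ → ℝ} {φ : ℝ → ℂ} {T a M : ℝ} (hφ : Continuous φ)
    (hv : ∀ u ∈ Icc 0 T, HasDerivAt v (v' u) u) (hv' : ContinuousOn v' (Icc 0 T))
    (hpos : ∀ u ∈ Icc 0 T, 0 ≤ v' u) (ha : ∀ u ∈ Icc 0 T, |v u| ≤ a)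
    (hM : ∀ x ∈ Icc 0 T, ‖∫ u in (0:ℝ)..x, φ u‖ ≤ M) :
    ∀ x ∈ Icc 0 T, ‖∫ u in (0:ℝ)..x, (v u : ℂ) * φ u‖ ≤ 3 * a * M := by
  intro x hx
  have hx0 : (0:ℝ) ≤ x := hx.1
  have hT0 : (0:ℝ) ≤ T := hx0.trans hx.2
  have hsub : Icc 0 x ⊆ Icc 0 T := Icc_subset_Icc_right hx.2
  have hI : uIcc 0 x = Icc 0 x := uIcc_of_le hx0
  have h0m : (0:ℝ) ∈ Icc 0 T := ⟨le_rfl, hT0⟩
  have ha0 : 0 ≤ a := (abs_nonneg _).trans (ha 0 h0m)
  have hM0 : 0 ≤ M := (norm_nonneg _).trans (hM 0 h0m)
  have iv' : IntervalIntegrable v' volume 0 x := by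
    refine ContinuousOn.intervalIntegrable ?_
    rw [hI]; exact hv'.mono hsub
  have iv'c : IntervalIntegrable (fun u => (v' u : ℂ)) volume 0 x := by
    refine ContinuousOn.intervalIntegrable ?_
    rw [hI]; exact Complex.continuous_ofReal.comp_continuousOn (hv'.mono hsub)
  set Φ : ℝ → ℂ := fun y => ∫ u in (0:ℝ)..y, φ u with hΦ
  have hΦd : ∀ y, HasDerivAt Φ (φ y) y := fun y =>
    intervalIntegral.integral_hasDerivAt_right (hφ.intervalIntegrable _ _)
      (hφ.stronglyMeasurableAtFilter _ _) hφ.continuousAt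
  have hΦc : Continuous Φ := continuous_iff_continuousAt.2 fun y => (hΦd y).continuousAt
  have key := intervalIntegral.integral_mul_deriv_eq_deriv_mul (a := (0:ℝ)) (b := x)
    (u := fun u => (v u : ℂ)) (v := Φ) (u' := fun u => (v' u : ℂ)) (v' := φ)
    (fun u hu => (hv u (hsub (by rwa [hI] at hu))).ofReal_comp) (fun u _ => hΦd u) iv'c
    (hφ.intervalIntegrable _ _)
  rw [key]
  have hΦ0 : Φ 0 = 0 := by simp [hΦ]
  rw [hΦ0, mul_zero, sub_zero]
  have b1 : ‖(v x : ℂ) * Φ x‖ ≤ a * M := by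
    rw [norm_mul, Complex.norm_real, Real.norm_eq_abs]
    exact mul_le_mul (ha x hx) (hM x hx) (norm_nonneg _) ha0
  have hint : ∫ u in (0:ℝ)..x, v' u = v x - v 0 :=
    intervalIntegral.integral_eq_sub_of_hasDerivAt
      (fun u hu => hv u (hsub (by rwa [hI] at hu))) iv'
  have b2 : ‖∫ u in (0:ℝ)..x, (v' u : ℂ) * Φ u‖ ≤ 2 * a * M := by
    have c1 : ‖∫ u in (0:ℝ)..x, (v' u : ℂ) * Φ u‖ ≤ ∫ u in (0:ℝ)..x, v' u * M := by
      refine intervalIntegral.norm_integral_le_of_norm_le hx0 ?_ (iv'.mul_const _)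
      refine Eventually.of_forall fun u hu => ?_
      have hu' : u ∈ Icc 0 T := hsub (Ioc_subset_Icc_self hu)
      rw [norm_mul, Complex.norm_real, Real.norm_eq_abs, abs_of_nonneg (hpos u hu')]
      exact mul_le_mul_of_nonneg_left (hM u hu') (hpos u hu')
    refine c1.trans ?_
    rw [intervalIntegral.integral_mul_const, hint]
    have h1 := (abs_le.1 (ha x hx)).2
    have h2 := (abs_le.1 (ha 0 h0m)).1
    exact mul_le_mul_of_nonneg_right (by linarith) hM0
  calc _ ≤ a * M + 2 * a * M := (norm_sub_le _ _).trans (add_le_add b1 b2)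
    _ = 3 * a * M := by ring

/-- integration by parts against a product of logarithmic weights -/
lemma ibp {ι : Type} [DecidableEq ι] {T : ℝ} (hT : 7 ≤ T) (c x : ι → ℝ) (s : Finset ι)
    (hc : ∀ j ∈ s, 0 ≤ c j ∧ c j ≤ 2 * T) (hx : ∀ j ∈ s, |x j| ≤ Real.log T) :
    ∀ (φ : ℝ → ℂ) (M : ℝ), Continuous φ → (∀ y ∈ Icc 0 T, ‖∫ u in (0:ℝ)..y, φ u‖ ≤ M) →
    ∀ y ∈ Icc 0 T, ‖∫ u in (0:ℝ)..y, ((∏ j ∈ s, (Lw (u + c j) - x j) : ℝ) : ℂ) * φ u‖ ≤
      (9 * Real.log T) ^ s.card * M := by
  induction s using Finset.induction_on with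
  | empty =>
    intro φ M _ hM y hy
    simpa using hM y hy
  | insert j s hj ih =>
    intro φ M hφ hM y hy
    have hcj := hc j (Finset.mem_insert_self j s)
    have hxj := hx j (Finset.mem_insert_self j s)
    have hc' : ∀ i ∈ s, 0 ≤ c i ∧ c i ≤ 2 * T := fun i hi => hc i (Finset.mem_insert_of_mem hi)
    have hx' : ∀ i ∈ s, |x i| ≤ Real.log T := fun i hi => hx i (Finset.mem_insert_of_mem hi)
    have hcont : Continuous fun u => ((Lw (u + c j) - x j : ℝ) : ℂ) * φ u := by
      have := Lw_cont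
      exact (Complex.continuous_ofReal.comp (by fun_prop)).mul hφ
    have hstep : ∀ y ∈ Icc 0 T, ‖∫ u in (0:ℝ)..y, ((Lw (u + c j) - x j : ℝ) : ℂ) * φ u‖ ≤
        9 * Real.log T * M := by
      have h1 := ibp1 (v := fun u => Real.log ((1 + (u + c j)) / (2 * Real.pi)) +
        2 * Real.eulerMascheroniConstant - x j) (v' := fun u => (1 + (u + c j))⁻¹)
        (T := T) (a := 3 * Real.log T) (M := M) hφ ?_ ?_ ?_ ?_ hM
      · intro y hy
        have h2 := h1 y hy
        have e1 : ∫ u in (0:ℝ)..y, ((Lw (u + c j) - x j : ℝ) : ℂ) * φ u =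
            ∫ u in (0:ℝ)..y, ((Real.log ((1 + (u + c j)) / (2 * Real.pi)) +
              2 * Real.eulerMascheroniConstant - x j : ℝ) : ℂ) * φ u := by
          refine intervalIntegral.integral_congr fun u hu => ?_
          rw [uIcc_of_le hy.1] at hu
          have : 0 ≤ u + c j := by linarith [hu.1, hcj.1]
          simp only [Lw, abs_of_nonneg this]
        rw [e1]
        refine h2.trans (le_of_eq ?_)
        ring
      · intro u hu
        have hp : 0 < 1 + (u + c j) := by linarith [hu.1, hcj.1]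
        have h2 : HasDerivAt (fun u : ℝ => (1 + (u + c j)) / (2 * Real.pi)) (1 / (2 * Real.pi)) u := by
          have h3 : HasDerivAt (fun u : ℝ => 1 + (u + c j)) 1 u := by
            simpa using ((hasDerivAt_id u).add_const (c j)).const_add 1
          exact h3.div_const _
        have h4 := (h2.log (by positivity)).add_const (2 * Real.eulerMascheroniConstant)
        have h5 := h4.sub_const (x j)
        refine h5.congr_deriv ?_
        field_simp
      · refine ContinuousOn.inv₀ (by fun_prop) fun u hu => ?_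
        have hp : 0 < 1 + (u + c j) := by linarith [hu.1, hcj.1]
        exact hp.ne'
      · intro u hu
        have hp : 0 < 1 + (u + c j) := by linarith [hu.1, hcj.1]
        exact inv_nonneg.2 hp.le
      · intro u hu
        have h2 := Lw_bd hT (show 0 ≤ u + c j by linarith [hu.1, hcj.1]) (by linarith [hu.2, hcj.2])
        have hn : 0 ≤ u + c j := by linarith [hu.1, hcj.1]
        unfold Lw at h2
        rw [abs_of_nonneg hn] at h2
        have h3 := abs_sub (Real.log ((1 + (u + c j)) / (2 * Real.pi)) +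
          2 * Real.eulerMascheroniConstant) (x j)
        linarith
    have h3 := ih hc' hx' (fun u => ((Lw (u + c j) - x j : ℝ) : ℂ) * φ u) _ hcont hstep y hy
    have e2 : ∫ u in (0:ℝ)..y, ((∏ i ∈ insert j s, (Lw (u + c i) - x i) : ℝ) : ℂ) * φ u =
        ∫ u in (0:ℝ)..y, ((∏ i ∈ s, (Lw (u + c i) - x i) : ℝ) : ℂ) *
          (((Lw (u + c j) - x j : ℝ) : ℂ) * φ u) := by
      refine intervalIntegral.integral_congr fun u _ => ?_
      simp only [Finset.prod_insert hj]
      push_cast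
      ring
    rw [e2, Finset.card_insert_of_notMem hj, pow_succ]
    refine h3.trans (le_of_eq ?_)
    ring

/-- mean square of an exponential sum -/
lemma msq {κ : Type} [DecidableEq κ] (s : Finset κ) (x : κ → ℝ) (lam : κ → ℝ) {δ A B : ℝ}
    (hδ : 0 < δ) (hAB : A ≤ B) (hsep : ∀ p ∈ s, ∀ q ∈ s, p ≠ q → δ ≤ |lam p - lam q|) :
    ∫ u in A..B, ‖∑ q ∈ s, (x q : ℂ) * ee (lam q) u‖ ^ 2 ≤
      (B - A) * ∑ q ∈ s, x q ^ 2 + 4 / δ * (∑ q ∈ s, |x q|) ^ 2 := by
  have e1 : ((∫ u in A..B, ‖∑ q ∈ s, (x q : ℂ) * ee (lam q) u‖ ^ 2 : ℝ) : ℂ) =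
      ∑ p ∈ s, ∑ q ∈ s, ((x p * x q : ℝ) : ℂ) * ∫ u in A..B, ee (lam p - lam q) u := by
    rw [← intervalIntegral.integral_ofReal]
    have h1 : ∀ u : ℝ, ((‖∑ q ∈ s, (x q : ℂ) * ee (lam q) u‖ ^ 2 : ℝ) : ℂ) =
        ∑ p ∈ s, ∑ q ∈ s, ((x p * x q : ℝ) : ℂ) * ee (lam p - lam q) u := by
      intro u
      rw [← Complex.normSq_eq_norm_sq, Complex.normSq_eq_conj_mul_self, mul_comm, map_sum,
        Finset.sum_mul_sum]
      refine Finset.sum_congr rfl fun p _ => Finset.sum_congr rfl fun q _ => ?_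
      rw [map_mul, Complex.conj_ofReal, ee_conj, sub_eq_add_neg, ee_add]
      push_cast
      ring
    simp only [h1]
    have hi : ∀ p q, IntervalIntegrable (fun u => ((x p * x q : ℝ) : ℂ) * ee (lam p - lam q) u)
        volume A B := fun p q => (continuous_const.mul (ee_cont _)).intervalIntegrable _ _
    rw [intervalIntegral.integral_finsetSum]
    · refine Finset.sum_congr rfl fun p _ => ?_
      rw [intervalIntegral.integral_finsetSum fun q _ => hi p q]
      refine Finset.sum_congr rfl fun q _ => ?_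
      rw [intervalIntegral.integral_const_mul]
    · intro p _
      refine Continuous.intervalIntegrable ?_ _ _
      exact continuous_finsetSum _ fun q _ => continuous_const.mul (ee_cont _)
  have e2 : ∫ u in A..B, ‖∑ q ∈ s, (x q : ℂ) * ee (lam q) u‖ ^ 2 ≤
      ∑ p ∈ s, ∑ q ∈ s, |x p| * |x q| * ‖∫ u in A..B, ee (lam p - lam q) u‖ := by
    have h0 : 0 ≤ ∫ u in A..B, ‖∑ q ∈ s, (x q : ℂ) * ee (lam q) u‖ ^ 2 :=
      intervalIntegral.integral_nonneg hAB fun _ _ => by positivity
    have h1 : ∫ u in A..B, ‖∑ q ∈ s, (x q : ℂ) * ee (lam q) u‖ ^ 2 =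
        ‖((∫ u in A..B, ‖∑ q ∈ s, (x q : ℂ) * ee (lam q) u‖ ^ 2 : ℝ) : ℂ)‖ := by
      rw [Complex.norm_real, Real.norm_of_nonneg h0]
    rw [h1, e1]
    refine (norm_sum_le _ _).trans (Finset.sum_le_sum fun p _ => (norm_sum_le _ _).trans
      (Finset.sum_le_sum fun q _ => ?_))
    rw [norm_mul, Complex.norm_real, Real.norm_eq_abs, abs_mul]
  refine e2.trans ?_
  have e3 : ∀ p ∈ s, ∀ q ∈ s, |x p| * |x q| * ‖∫ u in A..B, ee (lam p - lam q) u‖ ≤
      (if p = q then (B - A) * x p ^ 2 else 0) + 4 / δ * (|x p| * |x q|) := by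
    intro p hp q hq
    have hxx : 0 ≤ |x p| * |x q| := by positivity
    by_cases h : p = q
    · subst h
      rw [if_pos rfl]
      have h1 : ‖∫ u in A..B, ee (lam p - lam p) u‖ ≤ B - A := by
        have := intervalIntegral.norm_integral_le_of_norm_le_const (a := A) (b := B)
          (f := ee (lam p - lam p)) (C := 1) (fun u _ => (ee_norm _ u).le)
        rwa [one_mul, abs_of_nonneg (by linarith)] at this
      have h2 : |x p| * |x p| = x p ^ 2 := by rw [← abs_mul, ← sq, abs_of_nonneg (sq_nonneg _)]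
      have h3 : 0 ≤ 4 / δ * (|x p| * |x p|) := by positivity
      have h4 := mul_le_mul_of_nonneg_left h1 hxx
      rw [h2] at h4 h3 ⊢
      linarith
    · rw [if_neg h, zero_add]
      have h1 := int_ee hAB (lam p - lam q)
      have h2 := ker_le_inv (L := B - A) (by linarith) hδ (hsep p hp q hq h)
      have h3 : ‖∫ u in A..B, ee (lam p - lam q) u‖ ≤ 4 / δ := by
        rw [div_eq_mul_inv]
        linarith
      have h4 := mul_le_mul_of_nonneg_left h3 hxx
      linarith
  refine (Finset.sum_le_sum fun p hp => Finset.sum_le_sum fun q hq => e3 p hp q hq).trans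
    (le_of_eq ?_)
  simp only [Finset.sum_add_distrib, Finset.sum_ite_eq]
  congr 1
  · rw [Finset.mul_sum]
    exact Finset.sum_congr rfl fun p hp => by rw [if_pos hp]
  · rw [sq, Finset.sum_mul_sum, Finset.mul_sum]
    exact Finset.sum_congr rfl fun p _ => by rw [Finset.mul_sum]

end

end Pool.Agent.Y752.KP
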