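import Pool.Agent.Y752.KP.Gb

set_option autoImplicit false

/-! The Fourier transform of the difference on arbitrary intervals, and short mean squares. -/

namespace Pool.Agent.Y752.KP

open Complex Filter Topology MeasureTheory Set
open Pool.Agent.TH612.GS (z)

noncomputable section

/-- the square of zeta -/
def f2 (u : ℝ) : ℂ := ((‖z u‖ ^ 2 : ℝ) : ℂ)

lemma f2_cont : Continuous f2 := by
  have := z_cont
  unfold f2
  exact Complex.continuous_ofReal.comp (by fun_prop)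

lemma f2_norm (u : ℝ) : ‖f2 u‖ = ‖z u‖ ^ 2 := by
  unfold f2
  rw [Complex.norm_real, Real.norm_of_nonneg (by positivity)]

lemma ee_zero (u : ℝ) : ee 0 u = 1 := by
  unfold ee
  simp

theorem KA : ∃ C T₀ : ℝ, 1 ≤ C ∧ 1000 ≤ T₀ ∧ ∀ T : ℝ, T₀ ≤ T → ∀ Y : ℕ, 1 ≤ Y →
    (Y : ℝ) ≤ T ^ (1 / 20 : ℝ) → ∀ A B lam : ℝ, 0 ≤ A → A ≤ B → B ≤ 3 * T →
    ‖∫ u in A..B, (f2 u - gY Y u) * ee lam u‖ ≤
      C * Real.log T ^ 5 * ((B - A) / Real.sqrt Y + T ^ (9 / 10 : ℝ) * (Y : ℝ) ^ 2) := by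
  obtain ⟨C1, T1, hC1, hT1, hKL⟩ := KL
  obtain ⟨C3, T3, hC3, hT3, hSM⟩ := Pool.Agent.TH570.GS.t_SM
  refine ⟨64 * C1 + 2 * C3 + 6 + 1, max 1000 (max T1 ((2 * T3) ^ 2)), by linarith, le_max_left _ _, ?_⟩
  intro T hT Y hY1 hY A B lam hA hAB hB
  have hT1000 : 1000 ≤ T := (le_max_left _ _).trans hT
  have hTT1 : T1 ≤ T := ((le_max_left _ _).trans (le_max_right _ _)).trans hT
  have hTT3 : (2 * T3) ^ 2 ≤ T := ((le_max_right _ _).trans (le_max_right _ _)).trans hT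
  have hT0 : 0 < T := by linarith
  have hT1' : 1 ≤ T := by linarith
  have hYr : (1:ℝ) ≤ Y := by exact_mod_cast hY1
  set Lg := Real.log T with hLg
  have hLg1 : 1 ≤ Lg := by
    rw [hLg, Real.le_log_iff_exp_le hT0]
    have := Real.exp_one_lt_d9
    linarith
  have hl2 : Real.log (2 * T) ≤ 2 * Lg := by
    rw [Real.log_mul (by norm_num) hT0.ne']
    have := Real.log_two_lt_d9
    linarith
  have hl20 : 0 ≤ Real.log (2 * T) := Real.log_nonneg (by linarith)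
  set A0 : ℝ := (2 * T) ^ (9 / 10 : ℝ) with hA0
  have hA0p : 0 < A0 := by positivity
  have hA0le : A0 ≤ 2 * T ^ (9 / 10 : ℝ) := by
    rw [hA0, Real.mul_rpow (by norm_num) hT0.le]
    have : (2:ℝ) ^ (9 / 10 : ℝ) ≤ 2 ^ (1:ℝ) := Real.rpow_le_rpow_of_exponent_le (by norm_num) (by norm_num)
    rw [Real.rpow_one] at this
    gcongr
  have hT9 : 0 < T ^ (9 / 10 : ℝ) := by positivity
  have hT9' : T ^ (9 / 10 : ℝ) ≤ A0 := Real.rpow_le_rpow hT0.le (by linarith) (by norm_num)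
  have hT9T : T ^ (9 / 10 : ℝ) ≤ T := by
    calc T ^ (9 / 10 : ℝ) ≤ T ^ (1:ℝ) := Real.rpow_le_rpow_of_exponent_le hT1' (by norm_num)
      _ = T := Real.rpow_one T
  have hA0T : A0 ≤ 2 * T := by linarith
  have hA0T3 : 2 * T3 ≤ A0 := by
    have h1 : 2 * T3 ≤ T ^ (1 / 2 : ℝ) := by
      rw [← Real.sqrt_eq_rpow]
      exact Real.le_sqrt_of_sq_le hTT3
    have h2 : T ^ (1 / 2 : ℝ) ≤ T ^ (9 / 10 : ℝ) :=
      Real.rpow_le_rpow_of_exponent_le hT1' (by norm_num)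
    linarith
  have hY1T : (Y : ℝ) + 1 ≤ T := by
    have h1 : T ^ (1 / 20 : ℝ) ≤ T ^ (1 / 2 : ℝ) :=
      Real.rpow_le_rpow_of_exponent_le hT1' (by norm_num)
    have h2 : T ^ (1 / 2 : ℝ) * T ^ (1 / 2 : ℝ) = T := by
      rw [← Real.rpow_add hT0]; norm_num
    have h3 : 2 ≤ T ^ (1 / 2 : ℝ) := by
      rw [← Real.sqrt_eq_rpow]
      exact Real.le_sqrt_of_sq_le (by linarith)
    nlinarith
  have cz := z_cont
  have cg := gY_cont Y
  have cf := f2_cont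
  have ce := ee_cont lam
  have L15 : Lg ≤ Lg ^ 5 := by
    calc Lg = Lg ^ 1 := (pow_one _).symm
      _ ≤ Lg ^ 5 := pow_le_pow_right₀ hLg1 (by norm_num)
  have hLp : 0 < Lg ^ 5 := by positivity
  have hY2 : 1 ≤ (Y : ℝ) ^ 2 := one_le_pow₀ hYr
  -- the initial part
  have init : ∀ c ∈ Icc 0 A0, ∀ A' ∈ Icc 0 c, ‖∫ u in A'..c, (f2 u - gY Y u) * ee lam u‖ ≤
      (2 * C3 + 6) * Lg ^ 5 * (T ^ (9 / 10 : ℝ) * (Y : ℝ) ^ 2) := by
    intro c hc A' hA'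
    have h1 : ‖∫ u in A'..c, (f2 u - gY Y u) * ee lam u‖ ≤ ∫ u in A'..c, (‖z u‖ ^ 2 +
        3 * (Y : ℝ) ^ 2 * Lg) := by
      refine intervalIntegral.norm_integral_le_of_norm_le hA'.2 ?_
        (Continuous.intervalIntegrable (by fun_prop) _ _)
      refine Eventually.of_forall fun u hu => ?_
      rw [norm_mul, ee_norm, mul_one]
      refine (norm_sub_le _ _).trans (add_le_add (f2_norm u).le ?_)
      exact g_sup (by linarith) hY1 hY1T (hA'.1.trans hu.1.le) (by linarith [hu.2, hc.2])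
    have h2 : ∫ u in A'..c, (‖z u‖ ^ 2 + 3 * (Y : ℝ) ^ 2 * Lg) ≤
        ∫ u in (0:ℝ)..(2 * (A0 / 2)), (‖z u‖ ^ 2 + 3 * (Y : ℝ) ^ 2 * Lg) := by
      refine intervalIntegral.integral_mono_interval hA'.1 hA'.2 (by linarith [hc.2])
        (Eventually.of_forall fun u => ?_) (Continuous.intervalIntegrable (by fun_prop) _ _)
      simp only [Pi.zero_apply]
      positivity
    have h3 := hSM (A0 / 2) (by linarith)
    have h4 : ∫ u in (0:ℝ)..(2 * (A0 / 2)), (‖z u‖ ^ 2 + 3 * (Y : ℝ) ^ 2 * Lg) ≤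
        C3 * (A0 / 2) * Real.log (A0 / 2) + A0 * (3 * (Y : ℝ) ^ 2 * Lg) := by
      rw [intervalIntegral.integral_add (Continuous.intervalIntegrable (by fun_prop) _ _)
        intervalIntegrable_const, intervalIntegral.integral_const, smul_eq_mul]
      refine add_le_add h3 (le_of_eq ?_)
      ring
    have h5 : Real.log (A0 / 2) ≤ Lg := Real.log_le_log (by positivity) (by linarith)
    have h6 : C3 * (A0 / 2) * Real.log (A0 / 2) ≤ C3 * T ^ (9 / 10 : ℝ) * Lg := by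
      have h7 : C3 * (A0 / 2) * Real.log (A0 / 2) ≤ C3 * (A0 / 2) * Lg := by gcongr
      have h8 : C3 * (A0 / 2) * Lg ≤ C3 * T ^ (9 / 10 : ℝ) * Lg := by
        gcongr
        linarith
      linarith
    have h7 : A0 * (3 * (Y : ℝ) ^ 2 * Lg) ≤ 2 * T ^ (9 / 10 : ℝ) * (3 * (Y : ℝ) ^ 2 * Lg) := by
      gcongr
    have h8 : C3 * T ^ (9 / 10 : ℝ) * Lg ≤ C3 * (T ^ (9 / 10 : ℝ) * (Y : ℝ) ^ 2) * Lg ^ 5 := by
      calc C3 * T ^ (9 / 10 : ℝ) * Lg = C3 * (T ^ (9 / 10 : ℝ) * 1) * Lg := by ring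
        _ ≤ C3 * (T ^ (9 / 10 : ℝ) * (Y : ℝ) ^ 2) * Lg ^ 5 := by gcongr
    have h9 : 2 * T ^ (9 / 10 : ℝ) * (3 * (Y : ℝ) ^ 2 * Lg) ≤
        6 * (T ^ (9 / 10 : ℝ) * (Y : ℝ) ^ 2) * Lg ^ 5 := by
      calc 2 * T ^ (9 / 10 : ℝ) * (3 * (Y : ℝ) ^ 2 * Lg) = 6 * (T ^ (9 / 10 : ℝ) * (Y : ℝ) ^ 2) * Lg := by
            ring
        _ ≤ _ := by gcongr
    have h10 : 0 ≤ C3 * (T ^ (9 / 10 : ℝ) * (Y : ℝ) ^ 2) * Lg ^ 5 := by positivity
    nlinarith
  -- the far part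
  have far : ∀ c, A0 ≤ c → c ≤ B → ‖∫ u in c..B, (f2 u - gY Y u) * ee lam u‖ ≤
      64 * C1 * Lg ^ 5 * ((B - c) / Real.sqrt Y + T ^ (9 / 10 : ℝ) * (Y : ℝ) ^ 2) := by
    intro c hc hcB
    have hYT' : (Y : ℝ) ≤ (2 * T) ^ (1 / 20 : ℝ) :=
      hY.trans (Real.rpow_le_rpow hT0.le (by linarith) (by norm_num))
    have h1 := hKL (2 * T) (by linarith) Y hY1 hYT' c B lam hc hcB (by linarith)
    refine h1.trans ?_
    have h2 : Real.log (2 * T) ^ 5 ≤ 32 * Lg ^ 5 := by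
      calc Real.log (2 * T) ^ 5 ≤ (2 * Lg) ^ 5 := by gcongr
        _ = _ := by ring
    have h3 : (2 * T) ^ (9 / 10 : ℝ) ≤ 2 * (T ^ (9 / 10 : ℝ) * (Y : ℝ) ^ 2) := by
      refine hA0le.trans ?_
      nlinarith
    have h4 : 0 ≤ (B - c) / Real.sqrt Y := div_nonneg (by linarith) (Real.sqrt_nonneg _)
    calc C1 * Real.log (2 * T) ^ 5 * ((B - c) / Real.sqrt Y + (2 * T) ^ (9 / 10 : ℝ))
        ≤ C1 * (32 * Lg ^ 5) * (2 * ((B - c) / Real.sqrt Y) + 2 * (T ^ (9 / 10 : ℝ) * (Y : ℝ) ^ 2)) := by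
          gcongr
          linarith
      _ = _ := by ring
  have hnn : 0 ≤ (B - A) / Real.sqrt Y := div_nonneg (by linarith) (Real.sqrt_nonneg _)
  have hp2 : 0 < T ^ (9 / 10 : ℝ) * (Y : ℝ) ^ 2 := by positivity
  by_cases hcase : A0 ≤ A
  · refine (far A hcase hAB).trans ?_
    gcongr
    linarith
  · push Not at hcase
    by_cases hB0 : B ≤ A0
    · refine (init B ⟨hA.trans hAB, hB0⟩ A ⟨hA, hAB⟩).trans ?_
      calc (2 * C3 + 6) * Lg ^ 5 * (T ^ (9 / 10 : ℝ) * (Y : ℝ) ^ 2)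
          ≤ (64 * C1 + 2 * C3 + 6 + 1) * Lg ^ 5 * (T ^ (9 / 10 : ℝ) * (Y : ℝ) ^ 2) :=
            mul_le_mul_of_nonneg_right (mul_le_mul_of_nonneg_right (by linarith) hLp.le) hp2.le
        _ ≤ _ := by
            gcongr
            linarith
    · push Not at hB0
      have hint : ∀ a b : ℝ, IntervalIntegrable (fun u => (f2 u - gY Y u) * ee lam u) volume a b :=
        fun a b => Continuous.intervalIntegrable (by fun_prop) _ _
      rw [← intervalIntegral.integral_add_adjacent_intervals (hint A A0) (hint A0 B)]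
      refine (norm_add_le _ _).trans ?_
      have h1 := init A0 ⟨hA0p.le, le_rfl⟩ A ⟨hA, hcase.le⟩
      have h2 := far A0 le_rfl hB0.le
      have h3 : (B - A0) / Real.sqrt Y ≤ (B - A) / Real.sqrt Y :=
        div_le_div_of_nonneg_right (by linarith) (Real.sqrt_nonneg _)
      have h4 : 64 * C1 * Lg ^ 5 * ((B - A0) / Real.sqrt Y + T ^ (9 / 10 : ℝ) * (Y : ℝ) ^ 2) ≤
          64 * C1 * Lg ^ 5 * ((B - A) / Real.sqrt Y + T ^ (9 / 10 : ℝ) * (Y : ℝ) ^ 2) := by gcongr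
      have h5 : (2 * C3 + 6) * Lg ^ 5 * (T ^ (9 / 10 : ℝ) * (Y : ℝ) ^ 2) ≤
          (2 * C3 + 6) * Lg ^ 5 * ((B - A) / Real.sqrt Y + T ^ (9 / 10 : ℝ) * (Y : ℝ) ^ 2) := by
        gcongr
        linarith
      have h6 : 0 ≤ Lg ^ 5 * ((B - A) / Real.sqrt Y + T ^ (9 / 10 : ℝ) * (Y : ℝ) ^ 2) := by positivity
      have e7 : (64 * C1 + 2 * C3 + 6 + 1) * Lg ^ 5 *
          ((B - A) / Real.sqrt Y + T ^ (9 / 10 : ℝ) * (Y : ℝ) ^ 2) =
          64 * C1 * Lg ^ 5 * ((B - A) / Real.sqrt Y + T ^ (9 / 10 : ℝ) * (Y : ℝ) ^ 2) +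
          (2 * C3 + 6) * Lg ^ 5 * ((B - A) / Real.sqrt Y + T ^ (9 / 10 : ℝ) * (Y : ℝ) ^ 2) +
          Lg ^ 5 * ((B - A) / Real.sqrt Y + T ^ (9 / 10 : ℝ) * (Y : ℝ) ^ 2) := by ring
      rw [e7]
      linarith

/-- mean square of zeta on short intervals -/
theorem f_short : ∃ C T₀ : ℝ, 1 ≤ C ∧ 1000 ≤ T₀ ∧ ∀ T : ℝ, T₀ ≤ T → ∀ A B : ℝ, 0 ≤ A → A ≤ B →
    B ≤ 3 * T → ∫ u in A..B, ‖z u‖ ^ 2 ≤ C * Real.log T ^ 5 * ((B - A) + T ^ (9 / 10 : ℝ)) := by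
  obtain ⟨C, T₀, hC, hT₀, hKA⟩ := KA
  refine ⟨C + 3, T₀, by linarith, hT₀, fun T hT A B hA hAB hB => ?_⟩
  have hT1000 : 1000 ≤ T := hT₀.trans hT
  have hT0 : 0 < T := by linarith
  have hLg1 : 1 ≤ Real.log T := by
    rw [Real.le_log_iff_exp_le hT0]
    have := Real.exp_one_lt_d9
    linarith
  have h1 := hKA T hT 1 le_rfl (by
    rw [Nat.cast_one]
    exact Real.one_le_rpow (by linarith) (by norm_num)) A B 0 hA hAB hB
  simp only [Nat.cast_one, Real.sqrt_one, div_one, one_pow, mul_one, ee_zero] at h1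
  have cz := z_cont
  have cg := gY_cont 1
  have cf := f2_cont
  have e1 : ((∫ u in A..B, ‖z u‖ ^ 2 : ℝ) : ℂ) = (∫ u in A..B, (f2 u - gY 1 u)) + ∫ u in A..B, gY 1 u := by
    rw [← intervalIntegral.integral_ofReal, ← intervalIntegral.integral_add
      (Continuous.intervalIntegrable (by fun_prop) _ _) (cg.intervalIntegrable _ _)]
    refine intervalIntegral.integral_congr fun u _ => ?_
    simp only [f2, sub_add_cancel]
  have h2 : ‖∫ u in A..B, gY 1 u‖ ≤ 3 * Real.log T * (B - A) := by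
    have h3 : ∀ u ∈ Set.uIoc A B, ‖gY 1 u‖ ≤ 3 * Real.log T := by
      intro u hu
      rw [uIoc_of_le hAB] at hu
      have := g_sup (T := T) (by linarith) (Y := 1) le_rfl (by norm_num; linarith)
        (hA.trans hu.1.le) (hu.2.trans hB)
      simpa using this
    have h4 := intervalIntegral.norm_integral_le_of_norm_le_const h3
    rwa [abs_of_nonneg (by linarith)] at h4
  have h0 : 0 ≤ ∫ u in A..B, ‖z u‖ ^ 2 := intervalIntegral.integral_nonneg hAB fun _ _ => by positivity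
  have h3 : ∫ u in A..B, ‖z u‖ ^ 2 = ‖((∫ u in A..B, ‖z u‖ ^ 2 : ℝ) : ℂ)‖ := by
    rw [Complex.norm_real, Real.norm_of_nonneg h0]
  rw [h3, e1]
  refine (norm_add_le _ _).trans ?_
  have L15 : Real.log T ≤ Real.log T ^ 5 := by
    calc Real.log T = Real.log T ^ 1 := (pow_one _).symm
      _ ≤ Real.log T ^ 5 := pow_le_pow_right₀ hLg1 (by norm_num)
  have h4 : 3 * Real.log T * (B - A) ≤ 3 * Real.log T ^ 5 * ((B - A) + T ^ (9 / 10 : ℝ)) := by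
    have : 0 < T ^ (9 / 10 : ℝ) := by positivity
    have hBA : 0 ≤ B - A := by linarith
    gcongr
    linarith
  have e5 : (C + 3) * Real.log T ^ 5 * ((B - A) + T ^ (9 / 10 : ℝ)) =
      C * Real.log T ^ 5 * ((B - A) + T ^ (9 / 10 : ℝ)) +
      3 * Real.log T ^ 5 * ((B - A) + T ^ (9 / 10 : ℝ)) := by ring
  rw [e5]
  linarith

end

end Pool.Agent.Y752.KP
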