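import Pool.Agent.Y752.KP.Sp

set_option autoImplicit false

/-! Double sums over the ratios of integers. -/

namespace Pool.Agent.Y752.KP

open Finset

noncomputable section

/-- the weight `(q_1 q_2)^{-1/2}` -/
def wt (q : ℕ × ℕ) : ℝ := (Real.sqrt ((q.1 : ℝ) * q.2))⁻¹

lemma wt_nonneg (q : ℕ × ℕ) : 0 ≤ wt q := by unfold wt; positivity

/-- coprime pairs -/
def cop (X N : ℕ) : Finset (ℕ × ℕ) := ((Icc 1 X) ×ˢ (Icc 1 N)).filter (fun q => q.1.Coprime q.2)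

lemma mem_cop {X N : ℕ} {q : ℕ × ℕ} : q ∈ cop X N ↔
    (1 ≤ q.1 ∧ q.1 ≤ X) ∧ (1 ≤ q.2 ∧ q.2 ≤ N) ∧ q.1.Coprime q.2 := by
  unfold cop
  simp only [Finset.mem_filter, Finset.mem_product, Finset.mem_Icc]
  tauto

/-- the multiples of a reduced pair -/
def mul (X N : ℕ) (q : ℕ × ℕ) : Finset ℕ := (Icc 1 N).filter (fun g => g * q.1 ≤ X ∧ g * q.2 ≤ N)

theorem regroup {M : Type} [AddCommMonoid M] (X N : ℕ) (F : ℕ → ℕ → M) :
    ∑ p ∈ Icc 1 X ×ˢ Icc 1 N, F p.1 p.2 =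
      ∑ q ∈ cop X N, ∑ g ∈ mul X N q, F (g * q.1) (g * q.2) := by
  rw [Finset.sum_sigma']
  refine Finset.sum_bij' (fun p _ => (⟨(p.1 / p.1.gcd p.2, p.2 / p.1.gcd p.2), p.1.gcd p.2⟩ :
      (_ : ℕ × ℕ) × ℕ)) (fun s _ => (s.2 * s.1.1, s.2 * s.1.2)) ?_ ?_ ?_ ?_ ?_
  · intro p hp
    simp only [Finset.mem_product, Finset.mem_Icc] at hp
    obtain ⟨⟨h1, h2⟩, h3, h4⟩ := hp
    have hg : 0 < p.1.gcd p.2 := Nat.gcd_pos_of_pos_left _ (by omega)
    have d1 := Nat.gcd_dvd_left p.1 p.2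
    have d2 := Nat.gcd_dvd_right p.1 p.2
    have e1 : p.1.gcd p.2 * (p.1 / p.1.gcd p.2) = p.1 := Nat.mul_div_cancel' d1
    have e2 : p.1.gcd p.2 * (p.2 / p.1.gcd p.2) = p.2 := Nat.mul_div_cancel' d2
    rw [Finset.mem_sigma]
    constructor
    · rw [mem_cop]
      refine ⟨⟨?_, ?_⟩, ⟨?_, ?_⟩, Nat.coprime_div_gcd_div_gcd hg⟩
      · exact Nat.div_pos (Nat.le_of_dvd (by omega) d1) hg
      · exact (Nat.div_le_self _ _).trans h2
      · exact Nat.div_pos (Nat.le_of_dvd (by omega) d2) hg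
      · exact (Nat.div_le_self _ _).trans h4
    · unfold mul
      simp only [Finset.mem_filter, Finset.mem_Icc]
      refine ⟨⟨hg, (Nat.le_of_dvd (by omega) d2).trans h4⟩, ?_, ?_⟩
      · rw [e1]; exact h2
      · rw [e2]; exact h4
  · intro s hs
    rw [Finset.mem_sigma, mem_cop] at hs
    obtain ⟨⟨⟨a1, a2⟩, ⟨b1, b2⟩, hc⟩, hm⟩ := hs
    unfold mul at hm
    simp only [Finset.mem_filter, Finset.mem_Icc] at hm
    obtain ⟨⟨g1, g2⟩, m1, m2⟩ := hm
    simp only [Finset.mem_product, Finset.mem_Icc]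
    exact ⟨⟨Nat.mul_pos g1 a1, m1⟩, Nat.mul_pos g1 b1, m2⟩
  · intro p hp
    have d1 := Nat.gcd_dvd_left p.1 p.2
    have d2 := Nat.gcd_dvd_right p.1 p.2
    have e1 : p.1.gcd p.2 * (p.1 / p.1.gcd p.2) = p.1 := Nat.mul_div_cancel' d1
    have e2 : p.1.gcd p.2 * (p.2 / p.1.gcd p.2) = p.2 := Nat.mul_div_cancel' d2
    exact Prod.ext e1 e2
  · intro s hs
    rw [Finset.mem_sigma, mem_cop] at hs
    obtain ⟨⟨⟨a1, a2⟩, ⟨b1, b2⟩, hc⟩, hm⟩ := hs
    unfold mul at hm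
    simp only [Finset.mem_filter, Finset.mem_Icc] at hm
    obtain ⟨⟨g1, g2⟩, m1, m2⟩ := hm
    obtain ⟨⟨a, b⟩, g⟩ := s
    simp only at *
    have e : (g * a).gcd (g * b) = g := by rw [Nat.gcd_mul_left, hc.gcd_eq_one, mul_one]
    rw [e, Nat.mul_div_cancel_left _ g1, Nat.mul_div_cancel_left _ g1]
  · intro p hp
    have d1 := Nat.gcd_dvd_left p.1 p.2
    have d2 := Nat.gcd_dvd_right p.1 p.2
    have e1 : p.1.gcd p.2 * (p.1 / p.1.gcd p.2) = p.1 := Nat.mul_div_cancel' d1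
    have e2 : p.1.gcd p.2 * (p.2 / p.1.gcd p.2) = p.2 := Nat.mul_div_cancel' d2
    simp only
    rw [e1, e2]

lemma pow_log {a : ℕ} (ha : 1 ≤ a) : 2 ^ Nat.log 2 a ≤ a ∧ a < 2 * 2 ^ Nat.log 2 a := by
  refine ⟨Nat.pow_log_le_self 2 (by omega), ?_⟩
  have := Nat.lt_pow_succ_log_self (b := 2) (by norm_num) a
  rw [pow_succ] at this
  omega

/-- the sum over the reduced ratios -/
lemma cop_sum (X N : ℕ) {L Y : ℝ} (hL : 0 ≤ L) (hY : 0 < Y) (x : ℝ) :
    ∑ q ∈ (cop X N).filter (fun q => Y < (q.1 : ℝ) * q.2), wt q * ker L (Real.log q.1 - Real.log q.2 - x) ≤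
      ((Nat.log 2 X + 1) * (Nat.log 2 N + 1) : ℕ) * (4 * L / Real.sqrt Y +
        8 * Real.sqrt ((X : ℝ) * N) * (1 + Real.log ((X : ℝ) * N + 1))) := by
  classical
  set P := (cop X N).filter (fun q => Y < (q.1 : ℝ) * q.2) with hP
  set R := (range (Nat.log 2 X + 1)) ×ˢ (range (Nat.log 2 N + 1)) with hR
  have hmaps : ∀ q ∈ P, (Nat.log 2 q.1, Nat.log 2 q.2) ∈ R := by
    intro q hq
    have h1 := mem_cop.1 (Finset.mem_filter.1 hq).1
    rw [hR]
    simp only [Finset.mem_product, Finset.mem_range]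
    exact ⟨Nat.lt_succ_of_le (Nat.log_mono_right h1.1.2), Nat.lt_succ_of_le (Nat.log_mono_right h1.2.1.2)⟩
  rw [← Finset.sum_fiberwise_of_maps_to hmaps]
  have hYs : 0 < Real.sqrt Y := Real.sqrt_pos.2 hY
  have hlogn : 0 ≤ Real.log ((X : ℝ) * N + 1) := Real.log_nonneg (by
    have : (0:ℝ) ≤ (X : ℝ) * N := by positivity
    linarith)
  have hbd : ∀ r ∈ R, ∑ q ∈ P.filter (fun q => (Nat.log 2 q.1, Nat.log 2 q.2) = r),
      wt q * ker L (Real.log q.1 - Real.log q.2 - x) ≤ 4 * L / Real.sqrt Y +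
        8 * Real.sqrt ((X : ℝ) * N) * (1 + Real.log ((X : ℝ) * N + 1)) := by
    intro r _
    obtain ⟨i, j⟩ := r
    set s := P.filter (fun q => (Nat.log 2 q.1, Nat.log 2 q.2) = (i, j)) with hs
    rcases s.eq_empty_or_nonempty with he | ⟨q0, hq0⟩
    · rw [he, Finset.sum_empty]
      positivity
    have hmem : ∀ q ∈ s, q.1.Coprime q.2 ∧ 2 ^ i ≤ q.1 ∧ q.1 < 2 * 2 ^ i ∧ 2 ^ j ≤ q.2 ∧ q.2 < 2 * 2 ^ j ∧
        Y < (q.1 : ℝ) * q.2 ∧ q.1 ≤ X ∧ q.2 ≤ N := by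
      intro q hq
      obtain ⟨hq1, hq2⟩ := Finset.mem_filter.1 hq
      obtain ⟨hq3, hq4⟩ := Finset.mem_filter.1 hq1
      obtain ⟨⟨a1, a2⟩, ⟨b1, b2⟩, hc⟩ := mem_cop.1 hq3
      have e1 : Nat.log 2 q.1 = i := congrArg Prod.fst hq2
      have e2 : Nat.log 2 q.2 = j := congrArg Prod.snd hq2
      have h1 := pow_log a1
      have h2 := pow_log b1
      rw [e1] at h1
      rw [e2] at h2
      exact ⟨hc, h1.1, h1.2, h2.1, h2.2, hq4, a2, b2⟩
    set A : ℕ := 2 ^ i with hA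
    set B : ℕ := 2 ^ j with hB
    have hA1 : 1 ≤ A := Nat.one_le_two_pow
    have hB1 : 1 ≤ B := Nat.one_le_two_pow
    have hAr : (1:ℝ) ≤ A := by exact_mod_cast hA1
    have hBr : (1:ℝ) ≤ B := by exact_mod_cast hB1
    obtain ⟨_, c1, c2, c3, c4, c5, c6, c7⟩ := hmem q0 hq0
    have hXN : (A : ℝ) * B ≤ X * N := by
      have : A * B ≤ X * N := Nat.mul_le_mul (c1.trans c6) (c3.trans c7)
      exact_mod_cast this
    have hYAB : Y / 4 ≤ (A : ℝ) * B := by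
      have h1 : q0.1 * q0.2 ≤ (2 * A) * (2 * B) := Nat.mul_le_mul c2.le c4.le
      have h2 : ((q0.1 * q0.2 : ℕ) : ℝ) ≤ (((2 * A) * (2 * B) : ℕ) : ℝ) := by exact_mod_cast h1
      push_cast at h2
      linarith
    have hAB0 : (0:ℝ) < (A : ℝ) * B := by positivity
    have hsq : 0 < Real.sqrt ((A : ℝ) * B) := Real.sqrt_pos.2 hAB0
    have h1 : ∑ q ∈ s, wt q * ker L (Real.log q.1 - Real.log q.2 - x) ≤
        (Real.sqrt ((A : ℝ) * B))⁻¹ * ∑ q ∈ s, ker L (Real.log q.1 - Real.log q.2 - x) := by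
      rw [Finset.mul_sum]
      refine Finset.sum_le_sum fun q hq => ?_
      obtain ⟨_, d1, d2, d3, d4, _⟩ := hmem q hq
      refine mul_le_mul_of_nonneg_right ?_ (ker_nonneg hL _)
      unfold wt
      have : (A : ℝ) * B ≤ (q.1 : ℝ) * q.2 := by
        have : A * B ≤ q.1 * q.2 := Nat.mul_le_mul d1 d3
        exact_mod_cast this
      have h2 : Real.sqrt ((A : ℝ) * B) ≤ Real.sqrt ((q.1 : ℝ) * q.2) := Real.sqrt_le_sqrt this
      gcongr
    refine h1.trans ?_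
    have h2 := block hA1 hB1 hL x s fun q hq => by
      obtain ⟨d0, d1, d2, d3, d4, _⟩ := hmem q hq
      exact ⟨d0, d1, d2, d3, d4⟩
    have h3 : Real.log ((A : ℝ) * B + 1) ≤ Real.log ((X : ℝ) * N + 1) :=
      Real.log_le_log (by positivity) (by linarith)
    have h4 : (Real.sqrt ((A : ℝ) * B))⁻¹ ≤ 2 / Real.sqrt Y := by
      rw [inv_eq_one_div, div_le_div_iff₀ hsq hYs, one_mul]
      have : Real.sqrt Y = 2 * Real.sqrt (Y / 4) := by
        rw [show Y / 4 = Y / 2 ^ 2 by norm_num, Real.sqrt_div' _ (by positivity)]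
        rw [Real.sqrt_sq (by norm_num)]
        ring
      rw [this]
      have := Real.sqrt_le_sqrt hYAB
      linarith
    have h5 : (Real.sqrt ((A : ℝ) * B))⁻¹ * ((A : ℝ) * B) ≤ Real.sqrt ((X : ℝ) * N) := by
      have e : (Real.sqrt ((A : ℝ) * B))⁻¹ * ((A : ℝ) * B) = Real.sqrt ((A : ℝ) * B) := by
        rw [inv_mul_eq_div, Real.div_sqrt]
      rw [e]
      exact Real.sqrt_le_sqrt hXN
    calc (Real.sqrt ((A : ℝ) * B))⁻¹ * ∑ q ∈ s, ker L (Real.log q.1 - Real.log q.2 - x)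
        ≤ (Real.sqrt ((A : ℝ) * B))⁻¹ * (2 * L + 8 * ((A : ℝ) * B) * (1 + Real.log (A * B + 1))) := by
          gcongr
      _ ≤ (Real.sqrt ((A : ℝ) * B))⁻¹ * (2 * L + 8 * ((A : ℝ) * B) * (1 + Real.log (X * N + 1))) := by
          gcongr
      _ = (Real.sqrt ((A : ℝ) * B))⁻¹ * (2 * L) + 8 * ((Real.sqrt ((A : ℝ) * B))⁻¹ * ((A : ℝ) * B)) *
            (1 + Real.log (X * N + 1)) := by ring
      _ ≤ 2 / Real.sqrt Y * (2 * L) + 8 * Real.sqrt ((X : ℝ) * N) * (1 + Real.log (X * N + 1)) := by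
          gcongr
      _ = _ := by ring
  refine (Finset.sum_le_card_nsmul R _ _ hbd).trans (le_of_eq ?_)
  rw [hR, Finset.card_product, Finset.card_range, Finset.card_range, nsmul_eq_mul]

/-- the sum over all the pairs with a large reduced product -/
theorem pair_sum (X N : ℕ) {L Y : ℝ} (hL : 0 ≤ L) (hY : 0 < Y) (x : ℝ) :
    ∑ p ∈ Icc 1 X ×ˢ Icc 1 N, (if Y < ((p.1 / p.1.gcd p.2 : ℕ) : ℝ) * ((p.2 / p.1.gcd p.2 : ℕ) : ℝ) then
      wt p * ker L (Real.log p.1 - Real.log p.2 - x) else 0) ≤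
      (1 + Real.log (N + 1)) * (((Nat.log 2 X + 1) * (Nat.log 2 N + 1) : ℕ) *
      (4 * L / Real.sqrt Y + 8 * Real.sqrt ((X : ℝ) * N) * (1 + Real.log ((X : ℝ) * N + 1)))) := by
  rw [regroup X N (fun m n => if Y < ((m / m.gcd n : ℕ) : ℝ) * ((n / m.gcd n : ℕ) : ℝ) then
      wt (m, n) * ker L (Real.log m - Real.log n - x) else 0)]
  have h1 : ∀ q ∈ cop X N, ∑ g ∈ mul X N q,
      (if Y < ((g * q.1 / (g * q.1).gcd (g * q.2) : ℕ) : ℝ) *
        ((g * q.2 / (g * q.1).gcd (g * q.2) : ℕ) : ℝ) then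
        wt (g * q.1, g * q.2) * ker L (Real.log ((g * q.1 : ℕ) : ℝ) - Real.log ((g * q.2 : ℕ) : ℝ) - x) else 0) ≤
      (1 + Real.log (N + 1)) * (if Y < (q.1 : ℝ) * q.2 then
        wt q * ker L (Real.log q.1 - Real.log q.2 - x) else 0) := by
    intro q hq
    obtain ⟨⟨a1, a2⟩, ⟨b1, b2⟩, hc⟩ := mem_cop.1 hq
    have a1r : (0:ℝ) < q.1 := by exact_mod_cast a1
    have b1r : (0:ℝ) < q.2 := by exact_mod_cast b1
    have hterm : ∀ g ∈ mul X N q,
      (if Y < ((g * q.1 / (g * q.1).gcd (g * q.2) : ℕ) : ℝ) *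
        ((g * q.2 / (g * q.1).gcd (g * q.2) : ℕ) : ℝ) then
        wt (g * q.1, g * q.2) * ker L (Real.log ((g * q.1 : ℕ) : ℝ) - Real.log ((g * q.2 : ℕ) : ℝ) - x) else 0) =
      (g : ℝ)⁻¹ * (if Y < (q.1 : ℝ) * q.2 then
        wt q * ker L (Real.log q.1 - Real.log q.2 - x) else 0) := by
      intro g hg
      unfold mul at hg
      have hg1 : 1 ≤ g := (Finset.mem_Icc.1 (Finset.mem_filter.1 hg).1).1
      have hgr : (0:ℝ) < g := by exact_mod_cast hg1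
      have e : (g * q.1).gcd (g * q.2) = g := by rw [Nat.gcd_mul_left, hc.gcd_eq_one, mul_one]
      rw [e, Nat.mul_div_cancel_left _ hg1, Nat.mul_div_cancel_left _ hg1]
      split_ifs
      · have e1 : wt (g * q.1, g * q.2) = (g : ℝ)⁻¹ * wt q := by
          unfold wt
          push_cast
          rw [show (g : ℝ) * q.1 * (g * q.2) = g ^ 2 * ((q.1 : ℝ) * q.2) by ring,
            Real.sqrt_mul (by positivity), Real.sqrt_sq hgr.le, mul_inv]
        have e2 : Real.log ((g * q.1 : ℕ) : ℝ) - Real.log ((g * q.2 : ℕ) : ℝ) =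
            Real.log q.1 - Real.log q.2 := by
          push_cast
          rw [Real.log_mul hgr.ne' a1r.ne', Real.log_mul hgr.ne' b1r.ne']
          ring
        rw [e1, e2]
        ring
      · simp
    rw [Finset.sum_congr rfl hterm, ← Finset.sum_mul]
    refine mul_le_mul_of_nonneg_right ?_ ?_
    · refine le_trans ?_ (har_le N)
      refine Finset.sum_le_sum_of_subset_of_nonneg (Finset.filter_subset _ _) fun g _ _ => ?_
      positivity
    · split_ifs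
      · exact mul_nonneg (wt_nonneg _) (ker_nonneg hL _)
      · exact le_rfl
  refine (Finset.sum_le_sum h1).trans ?_
  rw [← Finset.mul_sum, ← Finset.sum_filter]
  have hlog : 0 ≤ 1 + Real.log (N + 1) := by
    have : 0 ≤ Real.log ((N : ℝ) + 1) := Real.log_nonneg (by
      have : (0:ℝ) ≤ N := by positivity
      linarith)
    linarith
  exact mul_le_mul_of_nonneg_left (cop_sum X N hL hY x) hlog

end

end Pool.Agent.Y752.KP
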