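import Pool.Agent.Y752.KP.Cu
import Pool.Agent.Y752.KP.Sp2
import Pool.Agent.TH75.AFE2
import Pool.Agent.TH612.GS.Stm3

set_option autoImplicit false

/-! The square of zeta through the approximate functional equation. -/

namespace Pool.Agent.Y752.KP

open Complex Filter Topology MeasureTheory Set
open Pool.Agent.H448R2.GC (cu cs XX)
open Pool.Agent.TH612.GS (z PN zN)

noncomputable section

/-- the exponentials -/
def ee (θ u : ℝ) : ℂ := exp (I * (θ * u : ℝ))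

lemma ee_norm (θ u : ℝ) : ‖ee θ u‖ = 1 := by
  unfold ee
  rw [mul_comm, norm_exp_ofReal_mul_I]

lemma ee_add (θ φ u : ℝ) : ee (θ + φ) u = ee θ u * ee φ u := by
  unfold ee
  rw [← exp_add]
  congr 1
  push_cast
  ring

lemma ee_cont (θ : ℝ) : Continuous (ee θ) := by
  unfold ee
  fun_prop

lemma ee_conj (θ u : ℝ) : (starRingEnd ℂ) (ee θ u) = ee (-θ) u := by
  unfold ee
  rw [← exp_conj, map_mul, conj_I, conj_ofReal]
  congr 1
  push_cast
  ring

lemma npow {n : ℕ} (hn : 1 ≤ n) (u : ℝ) :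
    (n : ℂ) ^ (-(1 / 2 + I * u) : ℂ) = ((Real.sqrt n)⁻¹ : ℝ) * ee (-Real.log n) u := by
  have hn0 : (0:ℝ) < n := by exact_mod_cast hn
  have hnc : (n : ℂ) ≠ 0 := by exact_mod_cast hn0.ne'
  rw [neg_add, cpow_add _ _ hnc]
  congr 1
  · rw [← Real.rpow_neg_one, Real.sqrt_eq_rpow, ← Real.rpow_mul hn0.le, Complex.ofReal_cpow hn0.le]
    push_cast
    congr 1
    norm_num
  · rw [cpow_def_of_ne_zero hnc]
    unfold ee
    congr 1
    rw [← Complex.ofReal_natCast, ← Complex.ofReal_log hn0.le]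
    push_cast
    ring

lemma npow' {n : ℕ} (hn : 1 ≤ n) (u : ℝ) :
    (n : ℂ) ^ (-(1 / 2 - I * u) : ℂ) = ((Real.sqrt n)⁻¹ : ℝ) * ee (Real.log n) u := by
  have h := npow hn (-u)
  have e1 : (-(1 / 2 - I * u) : ℂ) = -(1 / 2 + I * ((-u : ℝ) : ℂ)) := by push_cast; ring
  rw [e1, h]
  congr 1
  unfold ee
  congr 1
  push_cast
  ring

/-- the first sum -/
def D1 (k : ℕ) (c D : ℝ) (N : ℕ) (u : ℝ) : ℂ :=
  ∑ n ∈ Finset.Icc 1 N, ((cu k c (Real.log n - D) * (Real.sqrt n)⁻¹ : ℝ) : ℂ) * ee (-Real.log n) u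

/-- the second sum -/
def E2 (k : ℕ) (c D M : ℝ) (N : ℕ) (u : ℝ) : ℂ :=
  ∑ n ∈ Finset.Icc 1 N, ((cu k c (Real.log n - (Real.log (u / (2 * Real.pi)) - D - M)) *
    (Real.sqrt n)⁻¹ : ℝ) : ℂ) * ee (Real.log n) u

lemma z_conj_fe {u : ℝ} : XX (1 - (1 / 2 + I * u)) * (starRingEnd ℂ) (z u) = z u := by
  have h1 := Pool.Agent.H448R2.GC.zeta_fe (1 - (1 / 2 + I * u)) (by simp; norm_num) (by
    intro h
    have := congrArg Complex.re h
    simp at this)
  have e1 : (1 - (1 - (1 / 2 + I * u)) : ℂ) = 1 / 2 + I * u := by ring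
  have e2 : riemannZeta (1 - (1 / 2 + I * u)) = (starRingEnd ℂ) (z u) := by
    unfold z
    rw [← riemannZeta_conj]
    congr 1
    apply Complex.ext <;> simp
    norm_num
  rw [e1, e2] at h1
  rw [← h1]
  rfl

/-- the smoothed sum over a fixed range -/
theorem cs_ext (k : ℕ) (c D : ℝ) (hc : 0 < c) (N : ℕ) (hN : Real.exp (D + k * c) ≤ N) (s : ℂ) :
    cs k c D s = ∑ m ∈ Finset.Icc 1 N, (cu k c (Real.log m - D) : ℂ) * (m : ℂ) ^ (-s) := by
  unfold cs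
  refine Finset.sum_subset ?_ ?_
  · intro m hm
    rw [Finset.mem_Icc] at hm ⊢
    refine ⟨hm.1, ?_⟩
    have h1 : (m : ℝ) ≤ Real.exp (D + k * c) :=
      le_trans (by exact_mod_cast hm.2) (Nat.floor_le (Real.exp_pos _).le)
    exact_mod_cast h1.trans hN
  · intro m hm hm'
    rw [Finset.mem_Icc] at hm hm'
    have h1 : ⌊Real.exp (D + k * c)⌋₊ < m := by
      by_contra h
      exact hm' ⟨hm.1, by omega⟩
    have h2 : Real.exp (D + k * c) < m := (Nat.floor_lt (Real.exp_pos _).le).1 h1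
    have hm0 : (0 : ℝ) < m := by exact_mod_cast hm.1
    have h3 : D + k * c < Real.log m := (Real.lt_log_iff_exp_lt hm0).2 h2
    rw [Pool.Agent.H448R2.GC.cu_zero k c _ hc (by linarith)]
    simp

theorem afe : ∃ (k : ℕ) (T₀ : ℝ), 3 ≤ T₀ ∧ ∀ T : ℝ, T₀ ≤ T → ∀ N : ℕ, T ^ (3 / 5 : ℝ) ≤ N →
    ∀ u : ℝ, T ^ (9 / 10 : ℝ) ≤ u → u ≤ 2 * T →
    ‖((‖z u‖ ^ 2 : ℝ) : ℂ) - ((starRingEnd ℂ) (z u) *
      D1 (k + 2) (9 / 1000 * Real.log T / (k + 2 : ℕ)) (9 / 20 * Real.log T) N u +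
      z u * E2 (k + 2) (9 / 1000 * Real.log T / (k + 2 : ℕ)) (9 / 20 * Real.log T)
        (9 / 1000 * Real.log T) N u)‖ ≤ T ^ (-(9 / 50) : ℝ) * ‖z u‖ := by
  obtain ⟨k₀, hk⟩ := Pool.Agent.TH75.AFE1.main (1 / 100) (by norm_num) (by norm_num)
  obtain ⟨T₁, h1⟩ := hk (k₀ + 2) (by omega)
  refine ⟨k₀, max 3 (max 1 T₁ ^ (2:ℕ)), le_max_left _ _, fun T hT N hN u hu1 hu2 => ?_⟩
  have hT3 : 3 ≤ T := (le_max_left _ _).trans hT
  have hT0 : 0 < T := by linarith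
  have hTT : T₁ ≤ T ^ (9 / 10 : ℝ) := by
    have h2 : (max 1 T₁) ^ (2:ℕ) ≤ T := (le_max_right _ _).trans hT
    have h3 : (1:ℝ) ≤ max 1 T₁ := le_max_left _ _
    have h4 : max 1 T₁ ≤ T ^ (1 / 2 : ℝ) := by
      rw [← Real.sqrt_eq_rpow]
      exact Real.le_sqrt_of_sq_le h2
    have h5 : T ^ (1 / 2 : ℝ) ≤ T ^ (9 / 10 : ℝ) :=
      Real.rpow_le_rpow_of_exponent_le (by linarith) (by norm_num)
    exact (le_max_right _ _).trans (h4.trans h5)
  have hL : 0 < Real.log T := Real.log_pos (by linarith)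
  have hlogb : Real.log (T ^ (9 / 10 : ℝ)) = 9 / 10 * Real.log T := Real.log_rpow hT0 _
  have hu0 : 0 < u := (Real.rpow_pos_of_pos hT0 _).trans_le hu1
  have h2 := h1 (T ^ (9 / 10 : ℝ)) hTT u (by
    have : 0 < T ^ (9 / 10 : ℝ) := Real.rpow_pos_of_pos hT0 _
    linarith) (9 / 20 * Real.log T) (by positivity) (by rw [hlogb]; linarith) _ rfl
  rw [hlogb] at h2
  set c : ℝ := 9 / 1000 * Real.log T / (k₀ + 2 : ℕ) with hc
  have ec : 1 / 100 * (9 / 10 * Real.log T) / ((k₀ + 2 : ℕ) : ℝ) = c := by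
    rw [hc]
    ring
  have em : 1 / 100 * (9 / 10 * Real.log T) = 9 / 1000 * Real.log T := by ring
  have hkr : (0:ℝ) < ((k₀ + 2 : ℕ) : ℝ) := by positivity
  have hc0 : 0 < c := by rw [hc]; positivity
  have hkc : ((k₀ + 2 : ℕ) : ℝ) * c = 9 / 1000 * Real.log T := by
    rw [hc]
    field_simp
  rw [ec, em] at h2
  have es : (((1 / 2 : ℝ) : ℂ) + (u : ℂ) * I) = 1 / 2 + I * u := by push_cast; ring
  rw [es] at h2
  have hN0 : T ^ (3 / 5 : ℝ) = Real.exp (3 / 5 * Real.log T) := by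
    rw [Real.rpow_def_of_pos hT0, mul_comm]
  have hpi : (2:ℝ) ≤ 2 * Real.pi := by linarith [Real.two_le_pi]
  have c1 : cs (k₀ + 2) c (9 / 20 * Real.log T) (1 / 2 + I * u) =
      D1 (k₀ + 2) c (9 / 20 * Real.log T) N u := by
    rw [cs_ext (k₀ + 2) c _ hc0 N]
    · unfold D1
      refine Finset.sum_congr rfl fun n hn => ?_
      rw [npow (Finset.mem_Icc.1 hn).1]
      push_cast
      ring
    · refine le_trans ?_ hN
      rw [hN0]
      refine Real.exp_le_exp.2 ?_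
      rw [hkc]
      linarith
  have c2 : cs (k₀ + 2) c (Real.log (u / (2 * Real.pi)) - 9 / 20 * Real.log T - 9 / 1000 * Real.log T)
      (1 - (1 / 2 + I * u)) = E2 (k₀ + 2) c (9 / 20 * Real.log T) (9 / 1000 * Real.log T) N u := by
    rw [cs_ext (k₀ + 2) c _ hc0 N]
    · unfold E2
      refine Finset.sum_congr rfl fun n hn => ?_
      have e3 : (-(1 - (1 / 2 + I * u)) : ℂ) = -(1 / 2 - I * u) := by ring
      rw [e3, npow' (Finset.mem_Icc.1 hn).1]
      push_cast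
      ring
    · refine le_trans ?_ hN
      rw [hN0]
      refine Real.exp_le_exp.2 ?_
      rw [hkc]
      have h3 : Real.log (u / (2 * Real.pi)) ≤ Real.log T := by
        refine Real.log_le_log (by positivity) ?_
        rw [div_le_iff₀ (by positivity)]
        nlinarith [Real.two_le_pi]
      linarith
  rw [c1, c2] at h2
  have hz : riemannZeta (1 / 2 + I * u) = z u := rfl
  rw [hz] at h2
  have hTb : (T ^ (9 / 10 : ℝ)) ^ (-(1 / 5) : ℝ) = T ^ (-(9 / 50) : ℝ) := by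
    rw [← Real.rpow_mul hT0.le]
    norm_num
  rw [hTb] at h2
  have e4 : ((‖z u‖ ^ 2 : ℝ) : ℂ) = (starRingEnd ℂ) (z u) * z u := by
    rw [mul_comm, Complex.mul_conj, Complex.normSq_eq_norm_sq]
  have e5 := z_conj_fe (u := u)
  have e6 : ((‖z u‖ ^ 2 : ℝ) : ℂ) - ((starRingEnd ℂ) (z u) *
      D1 (k₀ + 2) c (9 / 20 * Real.log T) N u +
      z u * E2 (k₀ + 2) c (9 / 20 * Real.log T) (9 / 1000 * Real.log T) N u) =
      (starRingEnd ℂ) (z u) * (z u - D1 (k₀ + 2) c (9 / 20 * Real.log T) N u -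
        XX (1 - (1 / 2 + I * u)) *
        E2 (k₀ + 2) c (9 / 20 * Real.log T) (9 / 1000 * Real.log T) N u) := by
    rw [e4]
    linear_combination
      (E2 (k₀ + 2) c (9 / 20 * Real.log T) (9 / 1000 * Real.log T) N u) * e5
  rw [e6, norm_mul, Complex.norm_conj, mul_comm]
  exact mul_le_mul_of_nonneg_right h2 (norm_nonneg _)

end

end Pool.Agent.Y752.KP
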