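import Pool.Agent.Y752.KP.Kl1

set_option autoImplicit false

/-! The main part and the off-diagonal part of the products of two Dirichlet polynomials. -/

namespace Pool.Agent.Y752.KP

open Complex Filter Topology MeasureTheory Set
open Pool.Agent.H448R2.GC (cu cs XX cu_zero cu_nonneg cu_le_one)
open Pool.Agent.TH612.GS (z PN zN)

noncomputable section

/-- reduced pairs with product at most `Y` -/
def qs (Y : ℕ) : Finset (ℕ × ℕ) := (cop Y Y).filter (fun q => q.1 * q.2 ≤ Y)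

lemma mem_qs {Y : ℕ} {q : ℕ × ℕ} : q ∈ qs Y ↔ 1 ≤ q.1 ∧ 1 ≤ q.2 ∧ q.1.Coprime q.2 ∧ q.1 * q.2 ≤ Y := by
  unfold qs
  rw [Finset.mem_filter, mem_cop]
  constructor
  · rintro ⟨⟨⟨h1, _⟩, ⟨h2, _⟩, h3⟩, h4⟩
    exact ⟨h1, h2, h3, h4⟩
  · rintro ⟨h1, h2, h3, h4⟩
    refine ⟨⟨⟨h1, ?_⟩, ⟨h2, ?_⟩, h3⟩, h4⟩
    · exact (Nat.le_mul_of_pos_right _ h2).trans h4
    · exact (Nat.le_mul_of_pos_left _ h1).trans h4

lemma qs_bd {Y : ℕ} {q : ℕ × ℕ} (h : q ∈ qs Y) : 1 ≤ q.1 ∧ 1 ≤ q.2 ∧ q.1 ≤ Y ∧ q.2 ≤ Y := by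
  obtain ⟨h1, h2, _, h4⟩ := mem_qs.1 h
  exact ⟨h1, h2, (Nat.le_mul_of_pos_right _ h2).trans h4, (Nat.le_mul_of_pos_left _ h1).trans h4⟩

lemma cop_filter {X N Y : ℕ} (hX : Y ≤ X) (hN : Y ≤ N) :
    (cop X N).filter (fun q => q.1 * q.2 ≤ Y) = qs Y := by
  ext q
  rw [mem_qs, Finset.mem_filter, mem_cop]
  constructor
  · rintro ⟨⟨⟨h1, _⟩, ⟨h2, _⟩, h3⟩, h4⟩
    exact ⟨h1, h2, h3, h4⟩
  · rintro ⟨h1, h2, h3, h4⟩
    have a1 : q.1 ≤ Y := (Nat.le_mul_of_pos_right _ h2).trans h4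
    have a2 : q.2 ≤ Y := (Nat.le_mul_of_pos_left _ h1).trans h4
    exact ⟨⟨⟨h1, a1.trans hX⟩, ⟨h2, a2.trans hN⟩, h3⟩, h4⟩

/-- the product of the reduced pair -/
def rp (p : ℕ × ℕ) : ℕ := (p.1 / p.1.gcd p.2) * (p.2 / p.1.gcd p.2)

lemma wt_le_one {q : ℕ × ℕ} (h1 : 1 ≤ q.1) (h2 : 1 ≤ q.2) : wt q ≤ 1 := by
  unfold wt
  have a1 : (1:ℝ) ≤ q.1 := by exact_mod_cast h1
  have a2 : (1:ℝ) ≤ q.2 := by exact_mod_cast h2
  have : 1 ≤ Real.sqrt ((q.1 : ℝ) * q.2) := by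
    rw [Real.one_le_sqrt]
    nlinarith
  exact inv_le_one_of_one_le₀ this

lemma wt_mul {g : ℕ} (hg : 1 ≤ g) (q : ℕ × ℕ) : wt (g * q.1, g * q.2) = (g : ℝ)⁻¹ * wt q := by
  have hgr : (0:ℝ) < g := by exact_mod_cast hg
  unfold wt
  push_cast
  rw [show (g : ℝ) * q.1 * (g * q.2) = g ^ 2 * ((q.1 : ℝ) * q.2) by ring,
    Real.sqrt_mul (by positivity), Real.sqrt_sq hgr.le, mul_inv]

/-- the pairs with a small reduced product -/
lemma on_part {X N Y : ℕ} (hX : Y ≤ X) (hN : Y ≤ N) (φ : ℕ → ℂ) (K : ℝ → ℂ) :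
    ∑ p ∈ Finset.Icc 1 X ×ˢ Finset.Icc 1 N, (if Y < rp p then 0 else
      (wt p : ℂ) * φ p.2 * K (Real.log p.1 - Real.log p.2)) =
    ∑ q ∈ qs Y, (wt q : ℂ) * K (Real.log q.1 - Real.log q.2) *
      ∑ g ∈ mul X N q, (g : ℂ)⁻¹ * φ (g * q.2) := by
  rw [regroup X N (fun m n => if Y < rp (m, n) then (0:ℂ) else
    (wt (m, n) : ℂ) * φ n * K (Real.log m - Real.log n)), ← cop_filter hX hN, Finset.sum_filter]
  refine Finset.sum_congr rfl fun q hq => ?_
  obtain ⟨⟨a1, a2⟩, ⟨b1, b2⟩, hc⟩ := mem_cop.1 hq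
  have a1r : (0:ℝ) < q.1 := by exact_mod_cast a1
  have b1r : (0:ℝ) < q.2 := by exact_mod_cast b1
  have hterm : ∀ g ∈ mul X N q, (if Y < rp (g * q.1, g * q.2) then (0:ℂ) else
      (wt (g * q.1, g * q.2) : ℂ) * φ (g * q.2) *
        K (Real.log ((g * q.1 : ℕ) : ℝ) - Real.log ((g * q.2 : ℕ) : ℝ))) =
      if Y < q.1 * q.2 then (0:ℂ) else (wt q : ℂ) * K (Real.log q.1 - Real.log q.2) *
        ((g : ℂ)⁻¹ * φ (g * q.2)) := by
    intro g hg
    unfold mul at hg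
    have hg1 : 1 ≤ g := (Finset.mem_Icc.1 (Finset.mem_filter.1 hg).1).1
    have hgr : (0:ℝ) < g := by exact_mod_cast hg1
    have e : (g * q.1).gcd (g * q.2) = g := by rw [Nat.gcd_mul_left, hc.gcd_eq_one, mul_one]
    have e0 : rp (g * q.1, g * q.2) = q.1 * q.2 := by
      unfold rp
      simp only
      rw [e, Nat.mul_div_cancel_left _ hg1, Nat.mul_div_cancel_left _ hg1]
    rw [e0]
    split_ifs
    · rfl
    · have e2 : Real.log ((g * q.1 : ℕ) : ℝ) - Real.log ((g * q.2 : ℕ) : ℝ) =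
          Real.log q.1 - Real.log q.2 := by
        push_cast
        rw [Real.log_mul hgr.ne' a1r.ne', Real.log_mul hgr.ne' b1r.ne']
        ring
      rw [wt_mul hg1, e2]
      push_cast
      ring
  rw [Finset.sum_congr rfl hterm]
  by_cases h : q.1 * q.2 ≤ Y
  · rw [if_pos h, Finset.mul_sum]
    refine Finset.sum_congr rfl fun g _ => ?_
    rw [if_neg (by omega)]
  · rw [if_neg h]
    refine Finset.sum_eq_zero fun g _ => ?_
    rw [if_pos (by omega)]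

/-- the main function -/
def gY (Y : ℕ) (u : ℝ) : ℂ :=
  ∑ q ∈ qs Y, ((wt q * (Real.log ((1 + |u|) / (2 * Real.pi)) - Real.log (q.1 * q.2) +
    2 * Real.eulerMascheroniConstant) : ℝ) : ℂ) * ee (Real.log q.1 - Real.log q.2) u

lemma qs_swap {M : Type} [AddCommMonoid M] (Y : ℕ) (F : ℕ × ℕ → M) :
    ∑ q ∈ qs Y, F q = ∑ q ∈ qs Y, F q.swap := by
  refine Finset.sum_bij' (fun q _ => q.swap) (fun q _ => q.swap) ?_ ?_ ?_ ?_ ?_
  · intro q hq
    obtain ⟨h1, h2, h3, h4⟩ := mem_qs.1 hq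
    exact mem_qs.2 ⟨h2, h1, h3.symm, by rw [Prod.fst_swap, Prod.snd_swap, mul_comm]; exact h4⟩
  · intro q hq
    obtain ⟨h1, h2, h3, h4⟩ := mem_qs.1 hq
    exact mem_qs.2 ⟨h2, h1, h3.symm, by rw [Prod.fst_swap, Prod.snd_swap, mul_comm]; exact h4⟩
  · intro q _; exact q.swap_swap
  · intro q _; exact q.swap_swap
  · intro q _; rw [q.swap_swap]

lemma wt_swap (q : ℕ × ℕ) : wt q.swap = wt q := by
  unfold wt
  rw [Prod.fst_swap, Prod.snd_swap, mul_comm]

lemma qs_card (Y : ℕ) : ((qs Y).card : ℝ) ≤ (Y : ℝ) ^ 2 := by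
  have h : (qs Y).card ≤ Y * Y := by
    unfold qs cop
    refine (Finset.card_filter_le _ _).trans ((Finset.card_filter_le _ _).trans ?_)
    rw [Finset.card_product, Nat.card_Icc]
    simp
  have : ((qs Y).card : ℝ) ≤ ((Y * Y : ℕ) : ℝ) := by exact_mod_cast h
  push_cast at this
  nlinarith

/-- the harmonic sum over the multiples -/
lemma mul_sum {X N Y : ℕ} (k : ℕ) {c D : ℝ} (hc : 0 < c) {q : ℕ × ℕ} (hq : q ∈ qs Y)
    (hD : Real.log Y ≤ D) (hN : Real.exp (D + k * c) ≤ N) (hX : Y * Real.exp (D + k * c) ≤ X) :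
    |∑ g ∈ mul X N q, (g : ℝ)⁻¹ * cu k c (Real.log ((g * q.2 : ℕ) : ℝ) - D) -
      (D - Real.log q.2 + k * c / 2 + Real.eulerMascheroniConstant)| ≤ 2 * (Y * Real.exp (-D)) := by
  obtain ⟨a1, b1, a2, b2⟩ := qs_bd hq
  have b1r : (0:ℝ) < q.2 := by exact_mod_cast b1
  have a1r : (0:ℝ) < q.1 := by exact_mod_cast a1
  have hY1 : (1:ℝ) ≤ Y := by exact_mod_cast b1.trans b2
  have hlq : Real.log q.2 ≤ Real.log Y := Real.log_le_log b1r (by exact_mod_cast b2)
  have hlq0 : 0 ≤ Real.log q.2 := Real.log_nonneg (by exact_mod_cast b1)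
  have hkc : 0 ≤ (k:ℝ) * c := by positivity
  have e1 : ∑ g ∈ mul X N q, (g : ℝ)⁻¹ * cu k c (Real.log ((g * q.2 : ℕ) : ℝ) - D) =
      ∑ g ∈ Finset.Icc 1 N, (g : ℝ)⁻¹ * cu k c (Real.log g - (D - Real.log q.2)) := by
    unfold mul
    rw [Finset.sum_filter]
    refine Finset.sum_congr rfl fun g hg => ?_
    have hg1 : 1 ≤ g := (Finset.mem_Icc.1 hg).1
    have hgr : (0:ℝ) < g := by exact_mod_cast hg1
    have e2 : Real.log ((g * q.2 : ℕ) : ℝ) - D = Real.log g - (D - Real.log q.2) := by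
      push_cast
      rw [Real.log_mul hgr.ne' b1r.ne']
      ring
    rw [e2]
    split_ifs with h
    · rfl
    · rw [cu_zero k c _ hc, mul_zero]
      have h3 : Real.exp (D + k * c) < g * q.2 := by
        by_contra hcon
        push Not at hcon
        apply h
        constructor
        · have : ((g * q.1 : ℕ) : ℝ) ≤ X := by
            push_cast
            refine le_trans ?_ hX
            have h5 : (g : ℝ) ≤ Real.exp (D + k * c) := by
              refine le_trans ?_ hcon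
              have : (1:ℝ) ≤ q.2 := by exact_mod_cast b1
              nlinarith
            have h6 : (q.1 : ℝ) ≤ Y := by exact_mod_cast a2
            rw [mul_comm]
            gcongr
          exact_mod_cast this
        · have : ((g * q.2 : ℕ) : ℝ) ≤ N := by
            push_cast
            exact hcon.trans hN
          exact_mod_cast this
      have h4 : D + k * c < Real.log (g * q.2) := by
        rw [Real.lt_log_iff_exp_lt (by positivity)]
        exact h3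
      rw [Real.log_mul hgr.ne' b1r.ne'] at h4
      linarith
  rw [e1]
  have h1 := har k hc (D := D - Real.log q.2) (by linarith) (G := N) (by
    refine le_trans (Real.exp_le_exp.2 ?_) hN
    linarith)
  have e3 : Real.exp (-(D - Real.log q.2)) = q.2 * Real.exp (-D) := by
    rw [neg_sub, sub_eq_add_neg, Real.exp_add, Real.exp_log b1r]
  rw [e3] at h1
  refine h1.trans ?_
  have : (q.2 : ℝ) ≤ Y := by exact_mod_cast b2
  gcongr

end

end Pool.Agent.Y752.KP
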