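import Pool.Agent.Y752.KP.Kl2

set_option autoImplicit false

/-! The Fourier transform of the square of zeta: the parts. -/

namespace Pool.Agent.Y752.KP

open Complex Filter Topology MeasureTheory Set
open Pool.Agent.H448R2.GC (cu cs XX cu_zero cu_nonneg cu_le_one cu_cont)
open Pool.Agent.TH612.GS (z PN zN)

noncomputable section

lemma le_ker {v L θ : ℝ} (hL : 0 ≤ L) (h1 : v ≤ L) (h2 : θ ≠ 0 → v ≤ 3 / |θ|) : v ≤ 4 * ker L θ := by
  unfold ker
  rw [← mul_div_assoc, le_div_iff₀ (by positivity)]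
  rcases eq_or_ne θ 0 with h | h
  · rw [h, abs_zero, mul_zero, add_zero, mul_one]
    linarith
  · have h3 := h2 h
    have hθ : 0 < |θ| := abs_pos.2 h
    rw [le_div_iff₀ hθ] at h3
    nlinarith [mul_le_mul_of_nonneg_left h3 hL]

lemma int_ee {A B : ℝ} (hAB : A ≤ B) (θ : ℝ) : ‖∫ u in A..B, ee θ u‖ ≤ 4 * ker (B - A) θ := by
  refine le_ker (by linarith) ?_ fun hθ => ?_
  · have := intervalIntegral.norm_integral_le_of_norm_le_const (a := A) (b := B) (f := ee θ) (C := 1)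
      fun u _ => (ee_norm θ u).le
    rwa [one_mul, abs_of_nonneg (by linarith)] at this
  · have h := osc (w := fun _ => 1) (w' := fun _ => 0) hAB hθ (fun u _ => hasDerivAt_const u (1:ℝ))
      continuousOn_const (fun _ _ => le_rfl) zero_le_one le_rfl
    simpa [ee] using h

lemma int_cu (k : ℕ) {c β A B : ℝ} (hc : 0 < c) (hA : 0 < A) (hAB : A ≤ B) (θ : ℝ) :
    ‖∫ u in A..B, (cu (k + 2) c (β - Real.log u) : ℂ) * ee θ u‖ ≤ 4 * ker (B - A) θ := by
  refine le_ker (by linarith) ?_ fun hθ => osc_cu k hc hA hAB hθ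
  have := intervalIntegral.norm_integral_le_of_norm_le_const (a := A) (b := B)
    (f := fun u => (cu (k + 2) c (β - Real.log u) : ℂ) * ee θ u) (C := 1)
    fun u _ => by
      rw [norm_mul, ee_norm, mul_one, Complex.norm_real, Real.norm_eq_abs,
        abs_of_nonneg (cu_nonneg _ _ _ hc)]
      exact cu_le_one _ _ _ hc
  rwa [one_mul, abs_of_nonneg (by linarith)] at this

lemma inv_sqrt_sum (N : ℕ) : ∑ n ∈ Finset.Icc 1 N, (Real.sqrt n)⁻¹ ≤ 2 * Real.sqrt N := by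
  induction N with
  | zero => simp
  | succ n ih =>
    rw [Finset.sum_Icc_succ_top (by omega)]
    have h1 : (0:ℝ) < Real.sqrt ((n + 1 : ℕ) : ℝ) := Real.sqrt_pos.2 (by positivity)
    have h2 : 0 ≤ Real.sqrt (n : ℝ) := Real.sqrt_nonneg _
    have h3 : Real.sqrt (n : ℝ) ≤ Real.sqrt ((n + 1 : ℕ) : ℝ) := Real.sqrt_le_sqrt (by push_cast; linarith)
    have h4 : Real.sqrt ((n + 1 : ℕ) : ℝ) ^ 2 = n + 1 := by
      rw [Real.sq_sqrt (by positivity)]; push_cast; ring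
    have h5 : Real.sqrt (n : ℝ) ^ 2 = n := Real.sq_sqrt (by positivity)
    have h6 : (Real.sqrt ((n + 1 : ℕ) : ℝ))⁻¹ ≤ 2 * (Real.sqrt ((n + 1 : ℕ) : ℝ) - Real.sqrt n) := by
      rw [inv_le_iff_one_le_mul₀ h1]
      nlinarith
    linarith

lemma D1_norm (k : ℕ) {c : ℝ} (hc : 0 < c) (D : ℝ) (N : ℕ) (u : ℝ) : ‖D1 k c D N u‖ ≤ 2 * Real.sqrt N := by
  unfold D1
  refine (norm_sum_le _ _).trans (le_trans ?_ (inv_sqrt_sum N))
  refine Finset.sum_le_sum fun n _ => ?_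
  rw [norm_mul, ee_norm, mul_one, Complex.norm_real, Real.norm_eq_abs, abs_mul,
    abs_of_nonneg (cu_nonneg _ _ _ hc), abs_of_nonneg (by positivity)]
  exact mul_le_of_le_one_left (by positivity) (cu_le_one _ _ _ hc)

lemma E2_norm (k : ℕ) {c : ℝ} (hc : 0 < c) (D M : ℝ) (N : ℕ) (u : ℝ) :
    ‖E2 k c D M N u‖ ≤ 2 * Real.sqrt N := by
  unfold E2
  refine (norm_sum_le _ _).trans (le_trans ?_ (inv_sqrt_sum N))
  refine Finset.sum_le_sum fun n _ => ?_
  rw [norm_mul, ee_norm, mul_one, Complex.norm_real, Real.norm_eq_abs, abs_mul,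
    abs_of_nonneg (cu_nonneg _ _ _ hc), abs_of_nonneg (by positivity)]
  exact mul_le_of_le_one_left (by positivity) (cu_le_one _ _ _ hc)

lemma D1_cont (k : ℕ) (c D : ℝ) (N : ℕ) : Continuous (D1 k c D N) := by
  unfold D1
  exact continuous_finsetSum _ fun n _ => continuous_const.mul (ee_cont _)

lemma E2_cont (k : ℕ) {c : ℝ} (hc : 0 < c) (D M : ℝ) (N : ℕ) :
    ContinuousOn (E2 (k + 1) c D M N) (Ioi 0) := by
  unfold E2
  refine continuousOn_finsetSum _ fun n _ => ContinuousOn.mul ?_ (ee_cont _).continuousOn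
  refine Complex.continuous_ofReal.comp_continuousOn (ContinuousOn.mul ?_ continuousOn_const)
  refine (cu_cont k c hc).comp_continuousOn (continuousOn_const.sub ((ContinuousOn.sub ?_
    continuousOn_const).sub continuousOn_const))
  refine Real.continuousOn_log.comp (by fun_prop) fun u hu => ?_
  have : (0:ℝ) < u := hu
  have : 0 < u / (2 * Real.pi) := by positivity
  exact this.ne'

lemma PN_eq (X : ℕ) (u : ℝ) : PN X u =
    ∑ m ∈ Finset.Icc 1 X, (((Real.sqrt m)⁻¹ : ℝ) : ℂ) * ee (-Real.log m) u := by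
  unfold PN zN
  refine Finset.sum_congr rfl fun m hm => ?_
  exact npow (Finset.mem_Icc.1 hm).1 u

lemma PN_conj (X : ℕ) (u : ℝ) : (starRingEnd ℂ) (PN X u) =
    ∑ m ∈ Finset.Icc 1 X, (((Real.sqrt m)⁻¹ : ℝ) : ℂ) * ee (Real.log m) u := by
  rw [PN_eq, map_sum]
  refine Finset.sum_congr rfl fun m hm => ?_
  rw [map_mul, conj_ofReal, ee_conj, neg_neg]

lemma wt_eq (p : ℕ × ℕ) : wt p = (Real.sqrt p.1)⁻¹ * (Real.sqrt p.2)⁻¹ := by
  unfold wt
  rw [Real.sqrt_mul (by positivity), mul_inv]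

/-- the terms of the first product -/
def F1 (k : ℕ) (c D lam : ℝ) (p : ℕ × ℕ) (u : ℝ) : ℂ :=
  (wt p : ℂ) * (cu k c (Real.log p.2 - D) : ℂ) * ee (Real.log p.1 - Real.log p.2 + lam) u

/-- the terms of the second product -/
def F2 (k : ℕ) (c D M lam : ℝ) (p : ℕ × ℕ) (u : ℝ) : ℂ :=
  (wt p : ℂ) * (cu k c (Real.log p.2 - (Real.log (u / (2 * Real.pi)) - D - M)) : ℂ) *
    ee (-(Real.log p.1 - Real.log p.2) + lam) u

lemma prod1 (k : ℕ) (c D lam : ℝ) (X N : ℕ) (u : ℝ) :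
    (starRingEnd ℂ) (PN X u) * D1 k c D N u * ee lam u =
      ∑ p ∈ Finset.Icc 1 X ×ˢ Finset.Icc 1 N, F1 k c D lam p u := by
  rw [PN_conj, D1, Finset.sum_mul_sum, ← Finset.sum_product', Finset.sum_mul]
  refine Finset.sum_congr rfl fun p _ => ?_
  unfold F1
  rw [wt_eq, ee_add, sub_eq_add_neg (Real.log (p.1 : ℝ)) (Real.log (p.2 : ℝ)), ee_add]
  push_cast
  ring

lemma prod2 (k : ℕ) (c D M lam : ℝ) (X N : ℕ) (u : ℝ) :
    PN X u * E2 k c D M N u * ee lam u =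
      ∑ p ∈ Finset.Icc 1 X ×ˢ Finset.Icc 1 N, F2 k c D M lam p u := by
  rw [PN_eq, E2, Finset.sum_mul_sum, ← Finset.sum_product', Finset.sum_mul]
  refine Finset.sum_congr rfl fun p _ => ?_
  unfold F2
  rw [wt_eq, ee_add, neg_sub, sub_eq_add_neg (Real.log (p.2 : ℝ)) (Real.log (p.1 : ℝ)), ee_add]
  push_cast
  ring

lemma F1_int (k : ℕ) {c : ℝ} (hc : 0 < c) (D lam : ℝ) (p : ℕ × ℕ) {A B : ℝ} (hAB : A ≤ B) :
    ‖∫ u in A..B, F1 k c D lam p u‖ ≤
      4 * (wt p * ker (B - A) (Real.log p.1 - Real.log p.2 - -lam)) := by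
  unfold F1
  rw [intervalIntegral.integral_const_mul, norm_mul, norm_mul, Complex.norm_real, Complex.norm_real,
    Real.norm_eq_abs, Real.norm_eq_abs, abs_of_nonneg (wt_nonneg p), abs_of_nonneg (cu_nonneg _ _ _ hc)]
  have h1 := int_ee hAB (Real.log p.1 - Real.log p.2 + lam)
  have h2 := cu_le_one k c (Real.log p.2 - D) hc
  have h3 := cu_nonneg k c (Real.log p.2 - D) hc
  have h4 := wt_nonneg p
  rw [sub_neg_eq_add]
  calc wt p * cu k c (Real.log p.2 - D) * ‖∫ u in A..B, ee (Real.log p.1 - Real.log p.2 + lam) u‖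
      ≤ wt p * 1 * (4 * ker (B - A) (Real.log p.1 - Real.log p.2 + lam)) := by gcongr
    _ = _ := by ring

lemma F2_int (k : ℕ) {c : ℝ} (hc : 0 < c) (D M lam : ℝ) (p : ℕ × ℕ) {A B : ℝ} (hA : 0 < A)
    (hAB : A ≤ B) : ‖∫ u in A..B, F2 (k + 2) c D M lam p u‖ ≤
      4 * (wt p * ker (B - A) (Real.log p.1 - Real.log p.2 - lam)) := by
  have e1 : ∫ u in A..B, F2 (k + 2) c D M lam p u = (wt p : ℂ) *
      ∫ u in A..B, (cu (k + 2) c ((Real.log p.2 + Real.log (2 * Real.pi) + D + M) - Real.log u) : ℂ) *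
        ee (-(Real.log p.1 - Real.log p.2) + lam) u := by
    rw [← intervalIntegral.integral_const_mul]
    refine intervalIntegral.integral_congr fun u hu => ?_
    rw [uIcc_of_le hAB] at hu
    have hu0 : 0 < u := hA.trans_le hu.1
    unfold F2
    have e2 : Real.log p.2 - (Real.log (u / (2 * Real.pi)) - D - M) =
        (Real.log p.2 + Real.log (2 * Real.pi) + D + M) - Real.log u := by
      rw [Real.log_div hu0.ne' (by positivity)]
      ring
    simp only [e2]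
    ring
  rw [e1, norm_mul, Complex.norm_real, Real.norm_eq_abs, abs_of_nonneg (wt_nonneg p)]
  have h1 := int_cu k (β := Real.log p.2 + Real.log (2 * Real.pi) + D + M) hc hA hAB
    (-(Real.log p.1 - Real.log p.2) + lam)
  have h2 : ker (B - A) (-(Real.log p.1 - Real.log p.2) + lam) =
      ker (B - A) (Real.log p.1 - Real.log p.2 - lam) := by
    unfold ker
    rw [← abs_neg]
    congr 4
    ring
  rw [h2] at h1
  have h4 := wt_nonneg p
  calc _ ≤ wt p * (4 * ker (B - A) (Real.log p.1 - Real.log p.2 - lam)) := by gcongr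
    _ = _ := by ring

/-- the main part, pointwise -/
lemma main_part {X N Y : ℕ} (k : ℕ) {c D M lam u : ℝ} (hc : 0 < c) (hY1 : 1 ≤ Y) (hYX : Y ≤ X)
    (hYN : Y ≤ N) (hD : Real.log Y ≤ D) (hN : Real.exp (D + k * c) ≤ N)
    (hX : Y * Real.exp (D + k * c) ≤ X) (hu : 1 ≤ u)
    (hD' : Real.log Y ≤ Real.log (u / (2 * Real.pi)) - D - M)
    (hN' : Real.exp ((Real.log (u / (2 * Real.pi)) - D - M) + k * c) ≤ N)
    (hX' : Y * Real.exp ((Real.log (u / (2 * Real.pi)) - D - M) + k * c) ≤ X) (hM : k * c = M) :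
    ‖(∑ p ∈ Finset.Icc 1 X ×ˢ Finset.Icc 1 N, (if Y < rp p then 0 else F1 k c D lam p u)) +
      (∑ p ∈ Finset.Icc 1 X ×ˢ Finset.Icc 1 N, (if Y < rp p then 0 else F2 k c D M lam p u)) -
      gY Y u * ee lam u‖ ≤
    (Y : ℝ) ^ 2 * (2 * (Y * Real.exp (-D)) +
      2 * (Y * Real.exp (-(Real.log (u / (2 * Real.pi)) - D - M))) + 1 / u) := by
  set D' : ℝ := Real.log (u / (2 * Real.pi)) - D - M with hD'd
  have hu0 : 0 < u := by linarith
  have e1 : ∑ p ∈ Finset.Icc 1 X ×ˢ Finset.Icc 1 N, (if Y < rp p then 0 else F1 k c D lam p u) =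
      ∑ q ∈ qs Y, (wt q : ℂ) * ee (Real.log q.1 - Real.log q.2 + lam) u *
        ∑ g ∈ mul X N q, (g : ℂ)⁻¹ * (cu k c (Real.log ((g * q.2 : ℕ) : ℝ) - D) : ℂ) := by
    have := on_part hYX hYN (fun n => (cu k c (Real.log n - D) : ℂ)) (fun x => ee (x + lam) u)
    rw [← this]
    rfl
  have e2 : ∑ p ∈ Finset.Icc 1 X ×ˢ Finset.Icc 1 N, (if Y < rp p then 0 else F2 k c D M lam p u) =
      ∑ q ∈ qs Y, (wt q : ℂ) * ee (-(Real.log q.1 - Real.log q.2) + lam) u *
        ∑ g ∈ mul X N q, (g : ℂ)⁻¹ * (cu k c (Real.log ((g * q.2 : ℕ) : ℝ) - D') : ℂ) := by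
    have := on_part hYX hYN (fun n => (cu k c (Real.log n - D') : ℂ)) (fun x => ee (-x + lam) u)
    rw [← this]
    rfl
  rw [e1, e2, qs_swap Y (fun q => (wt q : ℂ) * ee (-(Real.log q.1 - Real.log q.2) + lam) u *
        ∑ g ∈ mul X N q, (g : ℂ)⁻¹ * (cu k c (Real.log ((g * q.2 : ℕ) : ℝ) - D') : ℂ))]
  unfold gY
  rw [Finset.sum_mul, ← Finset.sum_add_distrib, ← Finset.sum_sub_distrib]
  have hterm : ∀ q ∈ qs Y, ‖(wt q : ℂ) * ee (Real.log q.1 - Real.log q.2 + lam) u *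
        (∑ g ∈ mul X N q, (g : ℂ)⁻¹ * (cu k c (Real.log ((g * q.2 : ℕ) : ℝ) - D) : ℂ)) +
      (wt q.swap : ℂ) * ee (-(Real.log q.swap.1 - Real.log q.swap.2) + lam) u *
        (∑ g ∈ mul X N q.swap, (g : ℂ)⁻¹ * (cu k c (Real.log ((g * q.swap.2 : ℕ) : ℝ) - D') : ℂ)) -
      ((wt q * (Real.log ((1 + |u|) / (2 * Real.pi)) - Real.log (q.1 * q.2) +
        2 * Real.eulerMascheroniConstant) : ℝ) : ℂ) * ee (Real.log q.1 - Real.log q.2) u * ee lam u‖ ≤
      2 * (Y * Real.exp (-D)) + 2 * (Y * Real.exp (-D')) + 1 / u := by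
    intro q hq
    obtain ⟨a1, b1, a2, b2⟩ := qs_bd hq
    have a1r : (0:ℝ) < q.1 := by exact_mod_cast a1
    have b1r : (0:ℝ) < q.2 := by exact_mod_cast b1
    have hqs : q.swap ∈ qs Y := by
      obtain ⟨h1, h2, h3, h4⟩ := mem_qs.1 hq
      exact mem_qs.2 ⟨h2, h1, h3.symm, by rw [Prod.fst_swap, Prod.snd_swap, mul_comm]; exact h4⟩
    have m1 := mul_sum k hc hq hD hN hX
    have m2 := mul_sum k hc hqs hD' hN' hX'
    set S1 : ℝ := ∑ g ∈ mul X N q, (g : ℝ)⁻¹ * cu k c (Real.log ((g * q.2 : ℕ) : ℝ) - D) with hS1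
    set S2 : ℝ := ∑ g ∈ mul X N q.swap, (g : ℝ)⁻¹ * cu k c (Real.log ((g * q.swap.2 : ℕ) : ℝ) - D')
      with hS2
    have c1 : ∑ g ∈ mul X N q, (g : ℂ)⁻¹ * (cu k c (Real.log ((g * q.2 : ℕ) : ℝ) - D) : ℂ) = (S1 : ℂ) := by
      rw [hS1]
      push_cast
      rfl
    have c2 : ∑ g ∈ mul X N q.swap, (g : ℂ)⁻¹ * (cu k c (Real.log ((g * q.swap.2 : ℕ) : ℝ) - D') : ℂ) =
        (S2 : ℂ) := by
      rw [hS2]
      push_cast
      rfl
    rw [c1, c2, wt_swap]
    have c3 : -(Real.log q.swap.1 - Real.log q.swap.2) + lam = Real.log q.1 - Real.log q.2 + lam := by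
      rw [Prod.fst_swap, Prod.snd_swap]
      ring
    rw [c3]
    have c4 : (wt q : ℂ) * ee (Real.log q.1 - Real.log q.2 + lam) u * (S1 : ℂ) +
        (wt q : ℂ) * ee (Real.log q.1 - Real.log q.2 + lam) u * (S2 : ℂ) -
        ((wt q * (Real.log ((1 + |u|) / (2 * Real.pi)) - Real.log (q.1 * q.2) +
        2 * Real.eulerMascheroniConstant) : ℝ) : ℂ) * ee (Real.log q.1 - Real.log q.2) u * ee lam u =
        ((wt q * (S1 + S2 - (Real.log ((1 + |u|) / (2 * Real.pi)) - Real.log (q.1 * q.2) +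
        2 * Real.eulerMascheroniConstant)) : ℝ) : ℂ) * ee (Real.log q.1 - Real.log q.2 + lam) u := by
      rw [ee_add]
      push_cast
      ring
    rw [c4, norm_mul, ee_norm, mul_one, Complex.norm_real, Real.norm_eq_abs, abs_mul,
      abs_of_nonneg (wt_nonneg q)]
    have hw := wt_le_one a1 b1
    have hw0 := wt_nonneg q
    rw [Prod.snd_swap] at m2
    have hlog : Real.log ((1 + |u|) / (2 * Real.pi)) - Real.log (u / (2 * Real.pi)) ≤ 1 / u ∧
        0 ≤ Real.log ((1 + |u|) / (2 * Real.pi)) - Real.log (u / (2 * Real.pi)) := by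
      rw [abs_of_pos hu0, Real.log_div (by positivity) (by positivity),
        Real.log_div hu0.ne' (by positivity)]
      have h1 : Real.log (1 + u) - Real.log u = Real.log ((1 + u) / u) := by
        rw [Real.log_div (by positivity) hu0.ne']
      constructor
      · have h2 := Real.log_le_sub_one_of_pos (show 0 < (1 + u) / u by positivity)
        have h3 : (1 + u) / u - 1 = 1 / u := by field_simp; ring
        linarith
      · have h2 : 0 ≤ Real.log ((1 + u) / u) := Real.log_nonneg (by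
          rw [le_div_iff₀ hu0]; linarith)
        linarith
    have hl2 : Real.log (q.1 * q.2) = Real.log q.1 + Real.log q.2 := Real.log_mul a1r.ne' b1r.ne'
    have key : |S1 + S2 - (Real.log ((1 + |u|) / (2 * Real.pi)) - Real.log (q.1 * q.2) +
        2 * Real.eulerMascheroniConstant)| ≤ 2 * (Y * Real.exp (-D)) + 2 * (Y * Real.exp (-D')) + 1 / u := by
      rw [abs_le] at m1 m2 ⊢
      rw [hl2]
      constructor
      · linarith [m1.1, m2.1, hlog.1, hlog.2]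
      · linarith [m1.2, m2.2, hlog.1, hlog.2]
    calc wt q * _ ≤ 1 * (2 * (Y * Real.exp (-D)) + 2 * (Y * Real.exp (-D')) + 1 / u) := by
          gcongr
      _ = _ := one_mul _
  refine (norm_sum_le _ _).trans ((Finset.sum_le_card_nsmul _ _ _ hterm).trans ?_)
  rw [nsmul_eq_mul]
  have := qs_card Y
  have h0 : 0 ≤ 2 * ((Y:ℝ) * Real.exp (-D)) + 2 * ((Y:ℝ) * Real.exp (-D')) + 1 / u := by positivity
  gcongr

end

end Pool.Agent.Y752.KP
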