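import Pool.Agent.Y752.KP.Kl3
import Pool.Agent.TH321.GF.AQ
import Pool.Agent.TH570.GS.SM
import Pool.Agent.TH612.GS.Z

set_option autoImplicit false

/-! The Fourier transform of the square of zeta minus its main part is small. -/

namespace Pool.Agent.Y752.KP

open Complex Filter Topology MeasureTheory Set
open Pool.Agent.H448R2.GC (cu cs XX cu_zero cu_nonneg cu_le_one cu_cont)
open Pool.Agent.TH612.GS (z PN zN)

noncomputable section

lemma z_cont : Continuous z := Pool.Agent.TH612.GS.z_cont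
lemma PN_cont (N : ℕ) : Continuous (PN N) := Pool.Agent.TH612.GS.PN_cont N

lemma gY_cont (Y : ℕ) : Continuous (gY Y) := by
  unfold gY
  refine continuous_finsetSum _ fun q _ => Continuous.mul ?_ (ee_cont _)
  refine Complex.continuous_ofReal.comp (continuous_const.mul ?_)
  refine Continuous.add (Continuous.sub ?_ continuous_const) continuous_const
  refine Continuous.log (by fun_prop) fun u => ?_
  have : 0 ≤ |u| := abs_nonneg u
  positivity

lemma F1_cont (k : ℕ) (c D lam : ℝ) (p : ℕ × ℕ) : Continuous (F1 k c D lam p) := by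
  unfold F1
  exact continuous_const.mul (ee_cont _)

lemma F2_contOn (k : ℕ) {c : ℝ} (hc : 0 < c) (D M lam : ℝ) (p : ℕ × ℕ) :
    ContinuousOn (F2 (k + 1) c D M lam p) (Ioi 0) := by
  unfold F2
  refine ContinuousOn.mul (continuousOn_const.mul ?_) (ee_cont _).continuousOn
  refine Complex.continuous_ofReal.comp_continuousOn ?_
  refine (cu_cont k c hc).comp_continuousOn (continuousOn_const.sub ((ContinuousOn.sub ?_
    continuousOn_const).sub continuousOn_const))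
  refine Real.continuousOn_log.comp (by fun_prop) fun u hu => ?_
  have : (0:ℝ) < u := hu
  have : 0 < u / (2 * Real.pi) := by positivity
  exact this.ne'

lemma rp_iff (Y : ℕ) (p : ℕ × ℕ) : (Y : ℝ) < ((p.1 / p.1.gcd p.2 : ℕ) : ℝ) *
    ((p.2 / p.1.gcd p.2 : ℕ) : ℝ) ↔ Y < rp p := by
  unfold rp
  constructor
  · intro h; exact_mod_cast h
  · intro h; exact_mod_cast h

/-- the off-diagonal part -/
lemma off_part {X N Y : ℕ} (hY : 1 ≤ Y) (lam : ℝ) {A B : ℝ} (hAB : A ≤ B)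
    (F : ℕ × ℕ → ℝ → ℂ) (hF : ∀ p, IntervalIntegrable (F p) volume A B)
    (hb : ∀ p, ‖∫ u in A..B, F p u‖ ≤ 4 * (wt p * ker (B - A) (Real.log p.1 - Real.log p.2 - lam))) :
    ‖∫ u in A..B, ∑ p ∈ Finset.Icc 1 X ×ˢ Finset.Icc 1 N, (if Y < rp p then F p u else 0)‖ ≤
      4 * ((1 + Real.log (N + 1)) * (((Nat.log 2 X + 1) * (Nat.log 2 N + 1) : ℕ) *
      (4 * (B - A) / Real.sqrt Y + 8 * Real.sqrt ((X : ℝ) * N) * (1 + Real.log ((X : ℝ) * N + 1))))) := by
  have hY0 : (0:ℝ) < Y := by exact_mod_cast hY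
  have h1 := pair_sum X N (L := B - A) (by linarith) hY0 lam
  have hi : ∀ p ∈ Finset.Icc 1 X ×ˢ Finset.Icc 1 N,
      IntervalIntegrable (fun u => if Y < rp p then F p u else 0) volume A B := by
    intro p _
    by_cases h : Y < rp p
    · simp only [if_pos h]; exact hF p
    · simp only [if_neg h]; exact intervalIntegrable_const
  rw [intervalIntegral.integral_finsetSum hi]
  refine (norm_sum_le _ _).trans (le_trans ?_ (mul_le_mul_of_nonneg_left h1 (by norm_num)))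
  rw [Finset.mul_sum]
  refine Finset.sum_le_sum fun p _ => ?_
  by_cases h : Y < rp p
  · simp only [if_pos h, if_pos ((rp_iff Y p).2 h)]
    exact hb p
  · simp only [if_neg h, if_neg (fun h2 => h ((rp_iff Y p).1 h2))]
    simp

lemma natlog_le {n : ℕ} (hn : 1 ≤ n) : (Nat.log 2 n : ℝ) ≤ 2 * Real.log n := by
  have h1 : (2:ℝ) ^ Nat.log 2 n ≤ n := by exact_mod_cast Nat.pow_log_le_self 2 (by omega)
  have h2 := Real.log_le_log (by positivity) h1
  rw [Real.log_pow] at h2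
  have h3 := Real.log_two_gt_d9
  have h4 : (0:ℝ) ≤ Nat.log 2 n := by positivity
  nlinarith

/-- the size of the bound of the off-diagonal part -/
lemma off_size {T : ℝ} (hTe : Real.exp 6 ≤ T) {X N Y : ℕ} (hY1 : 1 ≤ Y) (hX1' : 1 ≤ X)
    (hX2 : (X : ℝ) ≤ 4 * T) (hN1' : 1 ≤ N) (hN2 : (N : ℝ) ≤ 2 * T ^ (3 / 5 : ℝ)) {A B : ℝ}
    (hAB : A ≤ B) :
    4 * ((1 + Real.log (N + 1)) * (((Nat.log 2 X + 1) * (Nat.log 2 N + 1) : ℕ) *
      (4 * (B - A) / Real.sqrt Y + 8 * Real.sqrt ((X : ℝ) * N) * (1 + Real.log ((X : ℝ) * N + 1))))) ≤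
      4 * 28224 * Real.log T ^ 5 * ((B - A) / Real.sqrt Y + T ^ (9 / 10 : ℝ)) := by
  have hT0 : 0 < T := (Real.exp_pos 6).trans_le hTe
  have hT7 : 7 ≤ T := by
    have := Real.add_one_le_exp 6
    linarith
  have hT1' : 1 ≤ T := by linarith
  set Lg := Real.log T with hLg
  have hLg6 : 6 ≤ Lg := by rwa [hLg, Real.le_log_iff_exp_le hT0]
  have hYr : (1:ℝ) ≤ Y := by exact_mod_cast hY1
  have hp1 : ∀ a : ℝ, 0 ≤ a → 1 ≤ T ^ a := fun a ha => Real.one_le_rpow hT1' ha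
  have hTT35 : T ^ (3 / 5 : ℝ) ≤ T := by
    calc T ^ (3 / 5 : ℝ) ≤ T ^ (1:ℝ) := Real.rpow_le_rpow_of_exponent_le hT1' (by norm_num)
      _ = T := Real.rpow_one T
  have hLg1 : 1 ≤ Lg := by linarith
  have hL5 : ∀ j : ℕ, j ≤ 5 → Lg ^ j ≤ Lg ^ 5 := fun j hj => pow_le_pow_right₀ hLg1 hj
  have hT910 : ∀ a : ℝ, a ≤ 9 / 10 → T ^ a ≤ T ^ (9 / 10 : ℝ) := fun a ha =>
    Real.rpow_le_rpow_of_exponent_le hT1' ha
  have hNlog : Real.log (N + 1) ≤ 3 * Lg := by
    have h1 : (N : ℝ) + 1 ≤ T ^ (3:ℝ) := by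
      have : T ^ (3:ℝ) = T * T * T := by
        rw [show (3:ℝ) = ((3:ℕ):ℝ) by norm_num, Real.rpow_natCast]; ring
      rw [this]
      nlinarith [mul_le_mul hT7 hT7 (by norm_num) hT0.le]
    have := Real.log_le_log (by positivity) h1
    rwa [Real.log_rpow hT0] at this
  have hNl : (Nat.log 2 N : ℝ) ≤ 6 * Lg := by
    have h1 := natlog_le hN1'
    have h2 : Real.log N ≤ Real.log (N + 1) :=
      Real.log_le_log (by exact_mod_cast hN1') (by linarith)
    linarith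
  have hXl : (Nat.log 2 X : ℝ) ≤ 6 * Lg := by
    have h1 := natlog_le hX1'
    have h2 : Real.log X ≤ 3 * Lg := by
      have h1 : (X : ℝ) ≤ T ^ (3:ℝ) := by
        have : T ^ (3:ℝ) = T * T * T := by
          rw [show (3:ℝ) = ((3:ℕ):ℝ) by norm_num, Real.rpow_natCast]; ring
        rw [this]
        nlinarith [mul_le_mul hT7 hT7 (by norm_num) hT0.le]
      have := Real.log_le_log (by exact_mod_cast hX1') h1
      rwa [Real.log_rpow hT0] at this
    linarith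
  have hXN : (X : ℝ) * N ≤ 9 * T ^ (8 / 5 : ℝ) := by
    calc (X : ℝ) * N ≤ (4 * T) * (2 * T ^ (3 / 5 : ℝ)) := by gcongr
      _ = 8 * (T ^ (1:ℝ) * T ^ (3 / 5 : ℝ)) := by rw [Real.rpow_one]; ring
      _ = 8 * T ^ (8 / 5 : ℝ) := by rw [← Real.rpow_add hT0]; norm_num
      _ ≤ _ := by
        have : 0 < T ^ (8 / 5 : ℝ) := by positivity
        linarith
  have hsqXN : Real.sqrt ((X : ℝ) * N) ≤ 3 * T ^ (9 / 10 : ℝ) := by
    have h1 : Real.sqrt ((X : ℝ) * N) ≤ 3 * T ^ (4 / 5 : ℝ) := by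
      refine Real.sqrt_le_iff.2 ⟨by positivity, hXN.trans (le_of_eq ?_)⟩
      rw [mul_pow, ← Real.rpow_natCast (T ^ (4 / 5 : ℝ)) 2, ← Real.rpow_mul hT0.le]
      norm_num
    have h2 := hT910 (4 / 5) (by norm_num)
    linarith
  have hXNlog : Real.log ((X : ℝ) * N + 1) ≤ 5 * Lg := by
    have h1 : (X : ℝ) * N + 1 ≤ T ^ (5:ℝ) := by
      have e : T ^ (5:ℝ) = T ^ (2:ℝ) * (T * T * T) := by
        rw [show (5:ℝ) = ((5:ℕ):ℝ) by norm_num, show (2:ℝ) = ((2:ℕ):ℝ) by norm_num,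
          Real.rpow_natCast, Real.rpow_natCast]; ring
      have h2 : T ^ (8 / 5 : ℝ) ≤ T ^ (2:ℝ) := Real.rpow_le_rpow_of_exponent_le hT1' (by norm_num)
      have h3 : 1 ≤ T ^ (2:ℝ) := hp1 2 (by norm_num)
      have h4 : (10:ℝ) ≤ T * T * T := by nlinarith [mul_le_mul hT7 hT7 (by norm_num) hT0.le]
      have h5 : (X : ℝ) * N + 1 ≤ 10 * T ^ (2:ℝ) := by linarith
      have h6 : 0 < T ^ (2:ℝ) := by linarith
      rw [e]
      calc (X : ℝ) * N + 1 ≤ 10 * T ^ (2:ℝ) := h5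
        _ ≤ (T * T * T) * T ^ (2:ℝ) := mul_le_mul_of_nonneg_right h4 h6.le
        _ = _ := by ring
    have := Real.log_le_log (by positivity) h1
    rwa [Real.log_rpow hT0] at this
  have hYs : 0 < Real.sqrt Y := Real.sqrt_pos.2 (by linarith)
  have a1 : 1 + Real.log (N + 1) ≤ 4 * Lg := by linarith
  have a2 : (((Nat.log 2 X + 1) * (Nat.log 2 N + 1) : ℕ) : ℝ) ≤ (7 * Lg) * (7 * Lg) := by
    push_cast
    gcongr <;> linarith
  have hBA : 0 ≤ (B - A) / Real.sqrt Y := div_nonneg (by linarith) hYs.le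
  have a3 : 4 * (B - A) / Real.sqrt Y ≤ 8 * ((B - A) / Real.sqrt Y) := by
    rw [mul_div_assoc]
    linarith
  have a4 : 8 * Real.sqrt ((X : ℝ) * N) * (1 + Real.log ((X : ℝ) * N + 1)) ≤
      8 * (3 * T ^ (9 / 10 : ℝ)) * (6 * Lg) := by
    have h0 : 0 ≤ Real.log ((X : ℝ) * N + 1) := Real.log_nonneg (by
      have : (0:ℝ) ≤ (X : ℝ) * N := by positivity
      linarith)
    gcongr
    linarith
  have a5 : 0 ≤ 1 + Real.log ((N : ℝ) + 1) := by
    have : 0 ≤ Real.log ((N : ℝ) + 1) := Real.log_nonneg (by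
      have : (0:ℝ) ≤ (N : ℝ) := by positivity
      linarith)
    linarith
  have a7 : 0 ≤ 4 * (B - A) / Real.sqrt Y + 8 * Real.sqrt ((X : ℝ) * N) *
      (1 + Real.log ((X : ℝ) * N + 1)) := by
    have h0 : 0 ≤ Real.log ((X : ℝ) * N + 1) := Real.log_nonneg (by
      have : (0:ℝ) ≤ (X : ℝ) * N := by positivity
      linarith)
    have : 0 ≤ B - A := by linarith
    positivity
  have a6 : 4 * (B - A) / Real.sqrt Y + 8 * Real.sqrt ((X : ℝ) * N) *
      (1 + Real.log ((X : ℝ) * N + 1)) ≤ 144 * Lg * ((B - A) / Real.sqrt Y + T ^ (9 / 10 : ℝ)) := by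
    refine (add_le_add a3 a4).trans ?_
    have h1 : 8 * ((B - A) / Real.sqrt Y) ≤ 144 * Lg * ((B - A) / Real.sqrt Y) := by
      have : (8:ℝ) ≤ 144 * Lg := by linarith
      gcongr
    have h2 : 8 * (3 * T ^ (9 / 10 : ℝ)) * (6 * Lg) = 144 * Lg * T ^ (9 / 10 : ℝ) := by ring
    linarith
  calc _ ≤ 4 * ((4 * Lg) * (((7 * Lg) * (7 * Lg)) *
        (144 * Lg * ((B - A) / Real.sqrt Y + T ^ (9 / 10 : ℝ))))) := by gcongr
    _ = 4 * 28224 * Lg ^ 4 * ((B - A) / Real.sqrt Y + T ^ (9 / 10 : ℝ)) := by ring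
    _ ≤ 4 * 28224 * Lg ^ 5 * ((B - A) / Real.sqrt Y + T ^ (9 / 10 : ℝ)) := by
        have := hL5 4 (by norm_num)
        gcongr

/-- the main part, pointwise -/
lemma main_size {T : ℝ} (hTe : Real.exp 6 ≤ T) (kk : ℕ) {c D M lam : ℝ} (hc0 : 0 < c)
    (hkc : (kk : ℝ) * c = M) (hD : D = 9 / 20 * Real.log T) (hM : M = 9 / 1000 * Real.log T)
    {X N Y : ℕ} (hY1 : 1 ≤ Y) (hYX : Y ≤ X) (hYN : Y ≤ N) (hY : (Y : ℝ) ≤ T ^ (1 / 20 : ℝ))
    (hX1 : 2 * T ≤ X) (hN1 : T ^ (3 / 5 : ℝ) ≤ N) {u : ℝ} (hu9 : T ^ (9 / 10 : ℝ) ≤ u)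
    (huT : u ≤ 2 * T) :
    ‖(∑ p ∈ Finset.Icc 1 X ×ˢ Finset.Icc 1 N, (if Y < rp p then 0 else F1 kk c D lam p u)) +
      (∑ p ∈ Finset.Icc 1 X ×ˢ Finset.Icc 1 N, (if Y < rp p then 0 else F2 kk c D M lam p u)) -
      gY Y u * ee lam u‖ ≤ 38 * T ^ (-(1 / 4) : ℝ) := by
  have hT0 : 0 < T := (Real.exp_pos 6).trans_le hTe
  have hT7 : 7 ≤ T := by
    have := Real.add_one_le_exp 6
    linarith
  have hT1' : 1 ≤ T := by linarith
  set Lg := Real.log T with hLg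
  have hLg6 : 6 ≤ Lg := by rwa [hLg, Real.le_log_iff_exp_le hT0]
  have hpow : ∀ a : ℝ, T ^ a = Real.exp (a * Lg) := fun a => by
    rw [Real.rpow_def_of_pos hT0, mul_comm]
  have hTexp : T = Real.exp Lg := by rw [hLg, Real.exp_log hT0]
  have hYr : (1:ℝ) ≤ Y := by exact_mod_cast hY1
  have hYlog : Real.log Y ≤ 1 / 20 * Lg := by
    have := Real.log_le_log (by linarith) hY
    rwa [Real.log_rpow hT0] at this
  have hLg1 : 1 ≤ Lg := by linarith
  have hlog2pi : Real.log (2 * Real.pi) ≤ 2 := by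
    rw [Real.log_le_iff_le_exp (by positivity)]
    have h1 : Real.exp 2 = Real.exp 1 * Real.exp 1 := by rw [← Real.exp_add]; norm_num
    have h2 := Real.exp_one_gt_d9
    have h3 := Real.pi_lt_d2
    rw [h1]
    nlinarith
  have hlog2pi0 : 0 ≤ Real.log (2 * Real.pi) := Real.log_nonneg (by linarith [Real.two_le_pi])
  have hu0 : 0 < u := (Real.rpow_pos_of_pos hT0 _).trans_le hu9
  have hu1 : 1 ≤ u := (Real.one_le_rpow (by linarith) (by norm_num)).trans hu9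
  have hul : 9 / 10 * Lg ≤ Real.log u := by
    have := Real.log_le_log (by positivity) hu9
    rwa [Real.log_rpow hT0] at this
  have hul2 : Real.log (u / (2 * Real.pi)) ≤ Lg := by
    refine Real.log_le_log (by positivity) ?_
    rw [div_le_iff₀ (by positivity)]
    nlinarith [Real.two_le_pi]
  have hul3 : 9 / 10 * Lg - 2 ≤ Real.log (u / (2 * Real.pi)) := by
    rw [Real.log_div hu0.ne' (by positivity)]
    linarith
  have eN : T ^ (3 / 5 : ℝ) = Real.exp (3 / 5 * Lg) := hpow _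
  have hXe : Real.exp Lg ≤ X := by rw [← hTexp]; linarith
  have hYe : (Y : ℝ) ≤ Real.exp (1 / 20 * Lg) := by rw [← hpow]; exact hY
  have q1 : Real.exp (D + (kk : ℝ) * c) ≤ N := by
    refine le_trans ?_ hN1
    rw [eN]
    refine Real.exp_le_exp.2 ?_
    rw [hkc, hD, hM]
    linarith
  have q2 : (Y : ℝ) * Real.exp (D + (kk : ℝ) * c) ≤ X := by
    refine le_trans ?_ hXe
    refine (mul_le_mul_of_nonneg_right hYe (Real.exp_pos _).le).trans ?_
    rw [← Real.exp_add]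
    refine Real.exp_le_exp.2 ?_
    rw [hkc, hD, hM]
    linarith
  have q3 : Real.exp ((Real.log (u / (2 * Real.pi)) - D - M) + (kk : ℝ) * c) ≤ N := by
    refine le_trans ?_ hN1
    rw [eN]
    refine Real.exp_le_exp.2 ?_
    rw [hkc, hD]
    linarith
  have q4 : (Y : ℝ) * Real.exp ((Real.log (u / (2 * Real.pi)) - D - M) + (kk : ℝ) * c) ≤ X := by
    refine le_trans ?_ hXe
    refine (mul_le_mul_of_nonneg_right hYe (Real.exp_pos _).le).trans ?_
    rw [← Real.exp_add]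
    refine Real.exp_le_exp.2 ?_
    rw [hkc, hD]
    linarith
  have mp := main_part (lam := lam) kk hc0 hY1 hYX hYN (D := D) (M := M) (by rw [hD]; linarith) q1 q2 hu1
    (by rw [hD, hM]; linarith) q3 q4 hkc
  refine mp.trans ?_
  have r1 : Real.exp (-D) ≤ Real.exp 2 * Real.exp (-(44 / 100 * Lg)) := by
    rw [← Real.exp_add]
    refine Real.exp_le_exp.2 ?_
    rw [hD]
    linarith
  have r2 : Real.exp (-(Real.log (u / (2 * Real.pi)) - D - M)) ≤
      Real.exp 2 * Real.exp (-(44 / 100 * Lg)) := by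
    rw [← Real.exp_add]
    refine Real.exp_le_exp.2 ?_
    rw [hD, hM]
    linarith
  have r3 : 1 / u ≤ Y * (Real.exp 2 * Real.exp (-(44 / 100 * Lg))) := by
    have h1 : 1 / u ≤ Real.exp (-(9 / 10 * Lg)) := by
      rw [Real.exp_neg, ← hpow, one_div]
      gcongr
    have h2 : Real.exp (-(9 / 10 * Lg)) ≤ Real.exp 2 * Real.exp (-(44 / 100 * Lg)) := by
      rw [← Real.exp_add]
      refine Real.exp_le_exp.2 ?_
      linarith
    have h3 : 0 < Real.exp 2 * Real.exp (-(44 / 100 * Lg)) := by positivity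
    nlinarith
  have r4 : Real.exp 2 ≤ 38 / 5 := by
    have h1 : Real.exp 2 = Real.exp 1 * Real.exp 1 := by rw [← Real.exp_add]; norm_num
    have h2 := Real.exp_one_lt_d9
    have h3 := Real.exp_pos 1
    rw [h1]
    nlinarith
  have r5 : (Y : ℝ) ^ 3 ≤ Real.exp (3 / 20 * Lg) := by
    calc (Y : ℝ) ^ 3 ≤ Real.exp (1 / 20 * Lg) ^ 3 := by gcongr
      _ = Real.exp (3 / 20 * Lg) := by
        rw [← Real.exp_nat_mul]
        congr 1
        push_cast
        ring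
  have r6 : Real.exp (3 / 20 * Lg) * Real.exp (-(44 / 100 * Lg)) ≤
      T ^ (-(1 / 4) : ℝ) := by
    rw [← Real.exp_add, hpow]
    refine Real.exp_le_exp.2 ?_
    linarith
  have e2p : 0 < Real.exp 2 := Real.exp_pos 2
  have eLp : 0 < Real.exp (-(44 / 100 * Lg)) := Real.exp_pos _
  calc (Y : ℝ) ^ 2 * (2 * (Y * Real.exp (-D)) +
        2 * (Y * Real.exp (-(Real.log (u / (2 * Real.pi)) - D - M))) + 1 / u)
      ≤ (Y : ℝ) ^ 2 * (2 * (Y * (Real.exp 2 * Real.exp (-(44 / 100 * Lg)))) +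
        2 * (Y * (Real.exp 2 * Real.exp (-(44 / 100 * Lg)))) +
        Y * (Real.exp 2 * Real.exp (-(44 / 100 * Lg)))) := by gcongr
    _ = 5 * Real.exp 2 * ((Y : ℝ) ^ 3 * Real.exp (-(44 / 100 * Lg))) := by ring
    _ ≤ 5 * (38 / 5) * (Real.exp (3 / 20 * Lg) * Real.exp (-(44 / 100 * Lg))) := by gcongr
    _ ≤ 5 * (38 / 5) * T ^ (-(1 / 4) : ℝ) := by gcongr
    _ = _ := by ring

theorem KL : ∃ C T₀ : ℝ, 0 < C ∧ 3 ≤ T₀ ∧ ∀ T : ℝ, T₀ ≤ T → ∀ Y : ℕ, 1 ≤ Y →
    (Y : ℝ) ≤ T ^ (1 / 20 : ℝ) → ∀ A B lam : ℝ, T ^ (9 / 10 : ℝ) ≤ A → A ≤ B → B ≤ 2 * T →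
    ‖∫ u in A..B, (((‖z u‖ ^ 2 : ℝ) : ℂ) - gY Y u) * ee lam u‖ ≤
      C * Real.log T ^ 5 * ((B - A) / Real.sqrt Y + T ^ (9 / 10 : ℝ)) := by
  obtain ⟨k, T1, hT1, hafe⟩ := afe
  obtain ⟨C2, T2, hC2, hT2, hAQ⟩ := Pool.Agent.TH321.GF.t_AQ
  obtain ⟨C3, T3, hC3, hT3, hSM⟩ := Pool.Agent.TH570.GS.t_SM
  refine ⟨(2 + C3) + 8 * C2 + 2 * (4 * 28224) + 76, max (Real.exp 6) (max T1 (max T2 T3)),
    by positivity, ?_, ?_⟩
  · refine le_trans ?_ (le_max_left _ _)
    have := Real.add_one_le_exp 6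
    linarith
  intro T hT Y hY1 hY A B lam hA hAB hB
  have hTe : Real.exp 6 ≤ T := (le_max_left _ _).trans hT
  have hTT1 : T1 ≤ T := ((le_max_left _ _).trans (le_max_right _ _)).trans hT
  have hTT2 : T2 ≤ T := (((le_max_left _ _).trans (le_max_right _ _)).trans (le_max_right _ _)).trans hT
  have hTT3 : T3 ≤ T := (((le_max_right _ _).trans (le_max_right _ _)).trans (le_max_right _ _)).trans hT
  have hT0 : 0 < T := (Real.exp_pos 6).trans_le hTe
  have hT7 : 7 ≤ T := by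
    have := Real.add_one_le_exp 6
    linarith
  have hT1' : 1 ≤ T := by linarith
  set Lg := Real.log T with hLg
  have hLg6 : 6 ≤ Lg := by rwa [hLg, Real.le_log_iff_exp_le hT0]
  have hpow : ∀ a : ℝ, T ^ a = Real.exp (a * Lg) := fun a => by
    rw [Real.rpow_def_of_pos hT0, mul_comm]
  have hTexp : T = Real.exp Lg := by rw [hLg, Real.exp_log hT0]
  set kk : ℕ := k + 2 with hkk
  set c : ℝ := 9 / 1000 * Lg / (kk : ℕ) with hc
  set D : ℝ := 9 / 20 * Lg with hD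
  set M : ℝ := 9 / 1000 * Lg with hM
  have hkr : (0:ℝ) < ((kk : ℕ) : ℝ) := by positivity
  have hc0 : 0 < c := by rw [hc]; positivity
  have hkc : ((kk : ℕ) : ℝ) * c = M := by
    rw [hc, hM]
    field_simp
  set X : ℕ := ⌈2 * T⌉₊ with hX
  set N : ℕ := ⌈T ^ (3 / 5 : ℝ)⌉₊ with hN
  have hX1 : 2 * T ≤ X := Nat.le_ceil _
  have hX2 : (X : ℝ) ≤ 4 * T := by
    have := Nat.ceil_lt_add_one (show 0 ≤ 2 * T by linarith)
    linarith
  have hN1 : T ^ (3 / 5 : ℝ) ≤ N := Nat.le_ceil _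
  have hp1 : ∀ a : ℝ, 0 ≤ a → 1 ≤ T ^ a := fun a ha => Real.one_le_rpow hT1' ha
  have hN2 : (N : ℝ) ≤ 2 * T ^ (3 / 5 : ℝ) := by
    have := Nat.ceil_lt_add_one (show 0 ≤ T ^ (3 / 5 : ℝ) by positivity)
    have := hp1 (3 / 5) (by norm_num)
    linarith
  have hN1' : 1 ≤ N := by
    have := (hp1 (3 / 5) (by norm_num)).trans hN1
    exact_mod_cast this
  have hX1' : 1 ≤ X := by
    have : (1:ℝ) ≤ X := by linarith
    exact_mod_cast this
  have hYr : (1:ℝ) ≤ Y := by exact_mod_cast hY1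
  have hYlog : Real.log Y ≤ 1 / 20 * Lg := by
    have := Real.log_le_log (by linarith) hY
    rwa [Real.log_rpow hT0] at this
  have hYN : Y ≤ N := by
    have h1 : (Y : ℝ) ≤ N := by
      refine (hY.trans ?_).trans hN1
      exact Real.rpow_le_rpow_of_exponent_le hT1' (by norm_num)
    exact_mod_cast h1
  have hTT35 : T ^ (3 / 5 : ℝ) ≤ T := by
    calc T ^ (3 / 5 : ℝ) ≤ T ^ (1:ℝ) := Real.rpow_le_rpow_of_exponent_le hT1' (by norm_num)
      _ = T := Real.rpow_one T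
  have hNX : N ≤ X := by
    have h1 : (N : ℝ) ≤ X := by linarith
    exact_mod_cast h1
  have hYX : Y ≤ X := hYN.trans hNX
  have hA0 : 0 < A := (Real.rpow_pos_of_pos hT0 _).trans_le hA
  have hA1 : 1 ≤ A := (hp1 (9 / 10) (by norm_num)).trans hA
  have hI : uIcc A B = Icc A B := uIcc_of_le hAB
  have hIpos : Icc A B ⊆ Ioi 0 := fun u hu => hA0.trans_le hu.1
  -- the pieces
  set d1 : ℝ → ℂ := D1 kk c D N with hd1
  set e2 : ℝ → ℂ := E2 kk c D M N with he2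
  have cz : Continuous z := z_cont
  have czc : Continuous fun u => (starRingEnd ℂ) (z u) := Complex.continuous_conj.comp cz
  have cP : Continuous (PN X) := PN_cont X
  have cPc : Continuous fun u => (starRingEnd ℂ) (PN X u) := Complex.continuous_conj.comp cP
  have cd1 : Continuous d1 := D1_cont kk c D N
  have ce2 : ContinuousOn e2 (Ioi 0) := E2_cont (k + 1) hc0 D M N
  have ii : ∀ {f : ℝ → ℂ}, ContinuousOn f (Ioi 0) → IntervalIntegrable f volume A B := by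
    intro f hf
    refine ContinuousOn.intervalIntegrable ?_
    rw [hI]
    exact hf.mono hIpos
  have cee : Continuous (ee lam) := ee_cont lam
  have cz2 : Continuous fun u => ((‖z u‖ ^ 2 : ℝ) : ℂ) := Complex.continuous_ofReal.comp (by fun_prop)
  have i1 : IntervalIntegrable (fun u => (((‖z u‖ ^ 2 : ℝ) : ℂ) - ((starRingEnd ℂ) (z u) * d1 u +
      z u * e2 u)) * ee lam u) volume A B :=
    ii ((cz2.continuousOn.sub ((czc.mul cd1).continuousOn.add (cz.continuousOn.mul ce2))).mul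
      cee.continuousOn)
  have i2 : IntervalIntegrable (fun u => (((starRingEnd ℂ) (z u) - (starRingEnd ℂ) (PN X u)) * d1 u +
      (z u - PN X u) * e2 u) * ee lam u) volume A B :=
    ii (((((czc.sub cPc).mul cd1).continuousOn).add ((cz.sub cP).continuousOn.mul ce2)).mul
      cee.continuousOn)
  set G1 : ℝ → ℂ := fun u => ∑ p ∈ Finset.Icc 1 X ×ˢ Finset.Icc 1 N,
    (if Y < rp p then F1 kk c D lam p u else 0) with hG1
  set G2 : ℝ → ℂ := fun u => ∑ p ∈ Finset.Icc 1 X ×ˢ Finset.Icc 1 N,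
    (if Y < rp p then F2 kk c D M lam p u else 0) with hG2
  set H : ℝ → ℂ := fun u => (∑ p ∈ Finset.Icc 1 X ×ˢ Finset.Icc 1 N,
      (if Y < rp p then 0 else F1 kk c D lam p u)) +
      (∑ p ∈ Finset.Icc 1 X ×ˢ Finset.Icc 1 N, (if Y < rp p then 0 else F2 kk c D M lam p u)) -
      gY Y u * ee lam u with hH
  have cF1 : ∀ p, Continuous (F1 kk c D lam p) := fun p => F1_cont kk c D lam p
  have cF2 : ∀ p, ContinuousOn (F2 kk c D M lam p) (Ioi 0) := fun p => F2_contOn (k + 1) hc0 D M lam p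
  have cG1 : Continuous G1 := by
    refine continuous_finsetSum _ fun p _ => ?_
    split_ifs
    · exact cF1 p
    · exact continuous_const
  have cG2 : ContinuousOn G2 (Ioi 0) := by
    refine continuousOn_finsetSum _ fun p _ => ?_
    split_ifs
    · exact cF2 p
    · exact continuousOn_const
  have cH : ContinuousOn H (Ioi 0) := by
    refine ContinuousOn.sub (ContinuousOn.add ?_ ?_) ((gY_cont Y).mul cee).continuousOn
    · refine continuousOn_finsetSum _ fun p _ => ?_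
      split_ifs
      · exact continuousOn_const
      · exact (cF1 p).continuousOn
    · refine continuousOn_finsetSum _ fun p _ => ?_
      split_ifs
      · exact continuousOn_const
      · exact cF2 p
  have hdec : ∀ u, (((‖z u‖ ^ 2 : ℝ) : ℂ) - gY Y u) * ee lam u =
      (((‖z u‖ ^ 2 : ℝ) : ℂ) - ((starRingEnd ℂ) (z u) * d1 u + z u * e2 u)) * ee lam u +
      (((starRingEnd ℂ) (z u) - (starRingEnd ℂ) (PN X u)) * d1 u + (z u - PN X u) * e2 u) * ee lam u +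
      (G1 u + G2 u + H u) := by
    intro u
    have p1 := prod1 kk c D lam X N u
    have p2 := prod2 kk c D M lam X N u
    have s1 : ∀ F : ℕ × ℕ → ℂ, (∑ p ∈ Finset.Icc 1 X ×ˢ Finset.Icc 1 N, (if Y < rp p then F p else 0)) +
        (∑ p ∈ Finset.Icc 1 X ×ˢ Finset.Icc 1 N, (if Y < rp p then 0 else F p)) =
        ∑ p ∈ Finset.Icc 1 X ×ˢ Finset.Icc 1 N, F p := by
      intro F
      rw [← Finset.sum_add_distrib]
      refine Finset.sum_congr rfl fun p _ => ?_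
      split_ifs <;> simp
    have s2 := s1 (fun p => F1 kk c D lam p u)
    have s3 := s1 (fun p => F2 kk c D M lam p u)
    have s4 : G1 u + G2 u + H u = (starRingEnd ℂ) (PN X u) * d1 u * ee lam u +
        PN X u * e2 u * ee lam u - gY Y u * ee lam u := by
      rw [hd1, he2, p1, p2, ← s2, ← s3]
      simp only [hG1, hG2, hH]
      ring
    rw [s4]
    ring
  have hsum : ∫ u in A..B, (((‖z u‖ ^ 2 : ℝ) : ℂ) - gY Y u) * ee lam u =
      (∫ u in A..B, (((‖z u‖ ^ 2 : ℝ) : ℂ) - ((starRingEnd ℂ) (z u) * d1 u + z u * e2 u)) * ee lam u) +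
      (∫ u in A..B, (((starRingEnd ℂ) (z u) - (starRingEnd ℂ) (PN X u)) * d1 u +
        (z u - PN X u) * e2 u) * ee lam u) +
      ((∫ u in A..B, G1 u) + (∫ u in A..B, G2 u) + ∫ u in A..B, H u) := by
    rw [← intervalIntegral.integral_add (cG1.intervalIntegrable _ _) (ii cG2),
      ← intervalIntegral.integral_add ((cG1.intervalIntegrable _ _).add (ii cG2)) (ii cH),
      ← intervalIntegral.integral_add i1 i2, ← intervalIntegral.integral_add (i1.add i2)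
        (((cG1.intervalIntegrable _ _).add (ii cG2)).add (ii cH))]
    exact intervalIntegral.integral_congr fun u _ => hdec u
  -- sizes
  have hLg1 : 1 ≤ Lg := by linarith
  have hL5 : ∀ j : ℕ, j ≤ 5 → Lg ^ j ≤ Lg ^ 5 := fun j hj => pow_le_pow_right₀ hLg1 hj
  have hT910 : ∀ a : ℝ, a ≤ 9 / 10 → T ^ a ≤ T ^ (9 / 10 : ℝ) := fun a ha =>
    Real.rpow_le_rpow_of_exponent_le hT1' ha
  have hsqN : Real.sqrt N ≤ 2 * T ^ (3 / 10 : ℝ) := by
    refine Real.sqrt_le_iff.2 ⟨by positivity, hN2.trans ?_⟩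
    rw [mul_pow, ← Real.rpow_natCast (T ^ (3 / 10 : ℝ)) 2, ← Real.rpow_mul hT0.le]
    norm_num
    have := hp1 (3 / 5) (by norm_num)
    linarith
  have hBig0 : 0 ≤ (B - A) / Real.sqrt Y := div_nonneg (by linarith) (Real.sqrt_nonneg _)
  have hT9 : 0 < T ^ (9 / 10 : ℝ) := by positivity
  -- piece 1
  have b1 : ‖∫ u in A..B, (((‖z u‖ ^ 2 : ℝ) : ℂ) - ((starRingEnd ℂ) (z u) * d1 u + z u * e2 u)) *
      ee lam u‖ ≤ (2 + C3) * Lg ^ 5 * T ^ (9 / 10 : ℝ) := by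
    have c1 : ‖∫ u in A..B, (((‖z u‖ ^ 2 : ℝ) : ℂ) - ((starRingEnd ℂ) (z u) * d1 u + z u * e2 u)) *
      ee lam u‖ ≤ ∫ u in A..B, T ^ (-(9 / 50) : ℝ) * (1 + ‖z u‖ ^ 2) := by
      refine intervalIntegral.norm_integral_le_of_norm_le hAB ?_
        (Continuous.intervalIntegrable (by fun_prop) _ _)
      refine Eventually.of_forall fun u hu => ?_
      rw [norm_mul, ee_norm, mul_one]
      refine (hafe T hTT1 N hN1 u (hA.trans hu.1.le) (hu.2.trans hB)).trans ?_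
      refine mul_le_mul_of_nonneg_left ?_ (by positivity)
      nlinarith [norm_nonneg (z u), sq_nonneg (‖z u‖ - 1)]
    refine c1.trans ?_
    rw [intervalIntegral.integral_const_mul]
    have c2 : ∫ u in A..B, (1 + ‖z u‖ ^ 2) ≤ ∫ u in (0:ℝ)..(2 * T), (1 + ‖z u‖ ^ 2) :=
      intervalIntegral.integral_mono_interval hA0.le hAB hB
        (Eventually.of_forall fun u => by positivity)
        (Continuous.intervalIntegrable (by fun_prop) _ _)
    have c3 : ∫ u in (0:ℝ)..(2 * T), (1 + ‖z u‖ ^ 2) ≤ 2 * T + C3 * T * Lg := by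
      rw [intervalIntegral.integral_add (by simp) (Continuous.intervalIntegrable (by fun_prop) _ _)]
      have := hSM T hTT3
      simp only [intervalIntegral.integral_const, smul_eq_mul, mul_one, sub_zero]
      linarith
    have c4 : T ^ (-(9 / 50) : ℝ) * T ≤ T ^ (9 / 10 : ℝ) := by
      have : T ^ (-(9 / 50) : ℝ) * T = T ^ (41 / 50 : ℝ) := by
        nth_rewrite 2 [← Real.rpow_one T]
        rw [← Real.rpow_add hT0]
        norm_num
      rw [this]
      exact hT910 _ (by norm_num)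
    have c5 : Lg ≤ Lg ^ 5 := by simpa using hL5 1 (by norm_num)
    have c6 : (1:ℝ) ≤ Lg ^ 5 := one_le_pow₀ hLg1
    have hTn : 0 < T ^ (-(9 / 50) : ℝ) := by positivity
    calc T ^ (-(9 / 50) : ℝ) * ∫ u in A..B, (1 + ‖z u‖ ^ 2)
        ≤ T ^ (-(9 / 50) : ℝ) * (2 * T + C3 * T * Lg) := by
          refine mul_le_mul_of_nonneg_left (c2.trans c3) hTn.le
      _ = (2 + C3 * Lg) * (T ^ (-(9 / 50) : ℝ) * T) := by ring
      _ ≤ (2 * Lg ^ 5 + C3 * Lg ^ 5) * T ^ (9 / 10 : ℝ) := by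
          gcongr
          linarith
      _ = _ := by ring
  -- piece 2
  have b2 : ‖∫ u in A..B, (((starRingEnd ℂ) (z u) - (starRingEnd ℂ) (PN X u)) * d1 u +
        (z u - PN X u) * e2 u) * ee lam u‖ ≤ 8 * C2 * Lg ^ 5 * T ^ (9 / 10 : ℝ) := by
    have c1 : ‖∫ u in A..B, (((starRingEnd ℂ) (z u) - (starRingEnd ℂ) (PN X u)) * d1 u +
        (z u - PN X u) * e2 u) * ee lam u‖ ≤ ∫ u in A..B, 4 * Real.sqrt N * ‖z u - PN X u‖ := by
      refine intervalIntegral.norm_integral_le_of_norm_le hAB ?_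
        (Continuous.intervalIntegrable (by fun_prop) _ _)
      refine Eventually.of_forall fun u hu => ?_
      rw [norm_mul, ee_norm, mul_one, ← map_sub]
      refine (norm_add_le _ _).trans ?_
      rw [norm_mul, norm_mul, Complex.norm_conj]
      have h1 := D1_norm kk hc0 D N u
      have h2 := E2_norm kk hc0 D M N u
      have h3 := norm_nonneg (z u - PN X u)
      calc ‖z u - PN X u‖ * ‖d1 u‖ + ‖z u - PN X u‖ * ‖e2 u‖
          ≤ ‖z u - PN X u‖ * (2 * Real.sqrt N) + ‖z u - PN X u‖ * (2 * Real.sqrt N) := by gcongr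
        _ = _ := by ring
    refine c1.trans ?_
    rw [intervalIntegral.integral_const_mul]
    have c2 : ∫ u in A..B, ‖z u - PN X u‖ ≤ ∫ u in (0:ℝ)..(2 * T), ‖z u - PN X u‖ :=
      intervalIntegral.integral_mono_interval hA0.le hAB hB
        (Eventually.of_forall fun u => norm_nonneg _)
        (Continuous.intervalIntegrable (by fun_prop) _ _)
    have c3 := hAQ T X hTT2 hX1 hX2
    have c5 : Lg ≤ Lg ^ 5 := by simpa using hL5 1 (by norm_num)
    have c4 : T ^ (3 / 10 : ℝ) * T ^ (1 / 2 : ℝ) ≤ T ^ (9 / 10 : ℝ) := by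
      rw [← Real.rpow_add hT0]
      exact hT910 _ (by norm_num)
    calc 4 * Real.sqrt N * ∫ u in A..B, ‖z u - PN X u‖
        ≤ 4 * (2 * T ^ (3 / 10 : ℝ)) * (C2 * (T ^ (1 / 2 : ℝ) * Lg)) := by
          have : 0 ≤ ∫ u in A..B, ‖z u - PN X u‖ :=
            intervalIntegral.integral_nonneg hAB fun _ _ => norm_nonneg _
          gcongr
          exact c2.trans c3
      _ = 8 * C2 * Lg * (T ^ (3 / 10 : ℝ) * T ^ (1 / 2 : ℝ)) := by ring
      _ ≤ 8 * C2 * Lg ^ 5 * T ^ (9 / 10 : ℝ) := by gcongr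
  have hoff := off_size hTe hY1 hX1' hX2 hN1' hN2 hAB
  have b3 : ‖∫ u in A..B, G1 u‖ ≤ 4 * 28224 * Lg ^ 5 * ((B - A) / Real.sqrt Y + T ^ (9 / 10 : ℝ)) :=
    (off_part hY1 (-lam) hAB (fun p => F1 kk c D lam p) (fun p => (cF1 p).intervalIntegrable _ _)
      (fun p => F1_int kk hc0 D lam p hAB)).trans hoff
  have b4 : ‖∫ u in A..B, G2 u‖ ≤ 4 * 28224 * Lg ^ 5 * ((B - A) / Real.sqrt Y + T ^ (9 / 10 : ℝ)) :=
    (off_part hY1 lam hAB (fun p => F2 kk c D M lam p) (fun p => ii (cF2 p))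
      (fun p => F2_int k hc0 D M lam p hA0 hAB)).trans hoff
  -- the main part
  have b5 : ‖∫ u in A..B, H u‖ ≤ 76 * Lg ^ 5 * T ^ (9 / 10 : ℝ) := by
    have c1 : ∀ u ∈ Set.uIoc A B, ‖H u‖ ≤ 38 * T ^ (-(1 / 4) : ℝ) := by
      intro u hu
      rw [uIoc_of_le hAB] at hu
      exact main_size hTe kk hc0 hkc hD hM hY1 hYX hYN hY hX1 hN1 (hA.trans hu.1.le)
        (hu.2.trans hB)
    have c2 := intervalIntegral.norm_integral_le_of_norm_le_const c1
    refine c2.trans ?_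
    rw [abs_of_nonneg (by linarith)]
    have c3 : B - A ≤ 2 * T := by linarith
    have c4 : T ^ (-(1 / 4) : ℝ) * T ≤ T ^ (9 / 10 : ℝ) := by
      have : T ^ (-(1 / 4) : ℝ) * T = T ^ (3 / 4 : ℝ) := by
        nth_rewrite 2 [← Real.rpow_one T]
        rw [← Real.rpow_add hT0]
        norm_num
      rw [this]
      exact hT910 _ (by norm_num)
    have c6 : (1:ℝ) ≤ Lg ^ 5 := one_le_pow₀ hLg1
    calc 38 * T ^ (-(1 / 4) : ℝ) * (B - A) ≤ 38 * T ^ (-(1 / 4) : ℝ) * (2 * T) := by gcongr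
      _ = 76 * (T ^ (-(1 / 4) : ℝ) * T) := by ring
      _ ≤ 76 * T ^ (9 / 10 : ℝ) := by gcongr
      _ = 76 * 1 * T ^ (9 / 10 : ℝ) := by ring
      _ ≤ 76 * Lg ^ 5 * T ^ (9 / 10 : ℝ) := by gcongr
  rw [hsum]
  refine (norm_add_le _ _).trans ((add_le_add ((norm_add_le _ _).trans (add_le_add b1 b2))
    ((norm_add_le _ _).trans (add_le_add ((norm_add_le _ _).trans (add_le_add b3 b4)) b5))).trans ?_)
  have hp : 0 ≤ Lg ^ 5 := by positivity
  have e1 : (2 + C3) * Lg ^ 5 * T ^ (9 / 10 : ℝ) ≤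
      (2 + C3) * Lg ^ 5 * ((B - A) / Real.sqrt Y + T ^ (9 / 10 : ℝ)) := by
    gcongr; linarith
  have e2' : 8 * C2 * Lg ^ 5 * T ^ (9 / 10 : ℝ) ≤
      8 * C2 * Lg ^ 5 * ((B - A) / Real.sqrt Y + T ^ (9 / 10 : ℝ)) := by
    gcongr; linarith
  have e3 : 76 * Lg ^ 5 * T ^ (9 / 10 : ℝ) ≤
      76 * Lg ^ 5 * ((B - A) / Real.sqrt Y + T ^ (9 / 10 : ℝ)) := by
    gcongr; linarith
  have e4 : ((2 + C3) + 8 * C2 + 2 * (4 * 28224) + 76) * Lg ^ 5 * ((B - A) / Real.sqrt Y + T ^ (9 / 10 : ℝ)) =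
      (2 + C3) * Lg ^ 5 * ((B - A) / Real.sqrt Y + T ^ (9 / 10 : ℝ)) +
      8 * C2 * Lg ^ 5 * ((B - A) / Real.sqrt Y + T ^ (9 / 10 : ℝ)) +
      (4 * 28224 * Lg ^ 5 * ((B - A) / Real.sqrt Y + T ^ (9 / 10 : ℝ)) +
        4 * 28224 * Lg ^ 5 * ((B - A) / Real.sqrt Y + T ^ (9 / 10 : ℝ)) +
        76 * Lg ^ 5 * ((B - A) / Real.sqrt Y + T ^ (9 / 10 : ℝ))) := by ring
  rw [e4]
  linarith

end

end Pool.Agent.Y752.KP
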