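import Pool.Agent.Y752.KP.Fin3
import Pool.Agent.Helper256.KM.Mertens

set_option autoImplicit false
set_option linter.unusedSectionVars false

/-! A lower bound for the Euler product, and the standard form of the main theorem. -/

namespace Pool.Agent.Y752.KP

open Complex Filter Topology MeasureTheory Set
open Pool.Agent.TH612.GS (z mP)
open scoped ENNReal

noncomputable section

section
variable {ι : Type} [Fintype ι] [DecidableEq ι]

lemma mean_one {n : ℝ} (hn1 : n < 1) (a : ι → ℂ) (ha : ∀ j, ‖a j‖ = n) :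
    ∫ θ in (0:ℝ)..1, ∏ j, (1 - a j * exp (2 * Real.pi * I * θ))⁻¹ = 1 := by
  have hne : ∀ (j : ι) (w : ℂ), ‖w‖ ≤ 1 → 1 - a j * w ≠ 0 := by
    intro j w hw h
    have h1 : a j * w = 1 := (sub_eq_zero.1 h).symm
    have h2 : ‖a j * w‖ = 1 := by rw [h1, norm_one]
    rw [norm_mul, ha j] at h2
    have h3 : 0 ≤ n := (ha j) ▸ norm_nonneg (a j)
    nlinarith [norm_nonneg w]
  have hd : ∀ w : ℂ, ‖w‖ ≤ 1 → DifferentiableAt ℂ (fun w => ∏ j, (1 - a j * w)⁻¹) w := by
    intro w hw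
    refine DifferentiableAt.fun_finsetProd fun j _ => ?_
    refine DifferentiableAt.inv ?_ (hne j w hw)
    fun_prop
  have h1 := circleAverage_of_differentiable_on_off_countable (f := fun w => ∏ j, (1 - a j * w)⁻¹)
    (c := 0) (R := 1) (s := ∅) countable_empty
    (fun w hw => (hd w (by simpa using hw)).continuousAt.continuousWithinAt)
    (fun w hw => hd w (by
      have := hw.1
      rw [Metric.mem_ball, dist_zero_right, abs_one] at this
      exact this.le))
  simp only [mul_zero, sub_zero, inv_one, Finset.prod_const_one] at h1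
  rw [Real.circleAverage_def] at h1
  have h2 := intervalIntegral.integral_comp_mul_left (a := (0:ℝ)) (b := 1)
    (fun φ : ℝ => ∏ j, (1 - a j * circleMap 0 1 φ)⁻¹) (c := 2 * Real.pi)
    (by have := Real.pi_pos; positivity)
  rw [mul_zero, mul_one] at h2
  rw [← h2] at h1
  rw [← h1]
  refine intervalIntegral.integral_congr fun θ _ => ?_
  refine Finset.prod_congr rfl fun j _ => ?_
  congr 3
  simp only [circleMap, zero_add, Complex.ofReal_one, one_mul]
  congr 1
  push_cast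
  ring

lemma loc_low {p : ℕ} (hp : p.Prime) (c : ι → ℝ) :
    (1 - 1 / (p : ℝ)) ^ Fintype.card ι ≤ locS c p := by
  have hp2 : (2:ℝ) ≤ p := by exact_mod_cast hp.two_le
  have hp1 : 0 ≤ 1 - 1 / (p : ℝ) := by
    rw [sub_nonneg, div_le_one (by linarith)]
    linarith
  set a : ι → ℂ := fun j => (((Real.sqrt p)⁻¹ : ℝ) : ℂ) * ee (-Real.log p) (c j) with ha
  have han : ∀ j, ‖a j‖ = (Real.sqrt p)⁻¹ := by
    intro j
    rw [ha]
    simp only [norm_mul, ee_norm, mul_one, Complex.norm_real]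
    rw [Real.norm_of_nonneg (by positivity)]
  have hr : (Real.sqrt p)⁻¹ < 1 := by
    rw [sp_sq hp]
    have h3 := sp_le hp
    have h4 := sp_pos hp
    nlinarith
  have hy : ∀ (j : ι) (θ : ℝ), ‖1 - yp p (c j) θ‖ = ‖1 - a j * exp (2 * Real.pi * I * θ)‖ := by
    intro j θ
    rw [← Complex.norm_conj (1 - yp p (c j) θ), map_sub, map_one]
    congr 2
    unfold yp
    rw [map_mul, map_mul, Complex.conj_ofReal, ee_conj, ee_conj, neg_neg]
    have h1 : exp (2 * Real.pi * I * θ) = ee (2 * Real.pi) θ := by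
      unfold ee
      congr 1
      push_cast
      ring
    rw [h1, ha]
    ring
  set G : ℝ → ℂ := fun θ => ∏ j, (1 - a j * exp (2 * Real.pi * I * θ))⁻¹ with hG
  have hne : ∀ (j : ι) (θ : ℝ), 1 - a j * exp (2 * Real.pi * I * θ) ≠ 0 := by
    intro j θ h
    have h1 := one_sub_yp hp (c j) θ
    rw [hy, h, norm_zero] at h1
    norm_num at h1
  have cG : Continuous G := by
    rw [hG]
    refine continuous_finsetProd _ fun j _ => Continuous.inv₀ (by fun_prop) (hne j)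
  have h1 : ∫ θ in (0:ℝ)..1, G θ = 1 := mean_one hr a han
  have h2 : 1 ≤ ∫ θ in (0:ℝ)..1, ‖G θ‖ := by
    have h3 := intervalIntegral.norm_integral_le_integral_norm (f := G) (μ := volume)
      (zero_le_one (α := ℝ))
    rw [h1, norm_one] at h3
    exact h3
  have h3 := Pool.Agent.TH521.GS.cs (zero_le_one (α := ℝ)) (h := fun θ => ‖G θ‖) cG.norm
  rw [sub_zero, one_mul] at h3
  have h4 : locS c p = (1 - 1 / (p : ℝ)) ^ Fintype.card ι * ∫ θ in (0:ℝ)..1, ‖G θ‖ ^ 2 := by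
    unfold locS
    rw [← intervalIntegral.integral_const_mul]
    refine intervalIntegral.integral_congr fun θ _ => ?_
    simp only [hG]
    rw [Finset.prod_div_distrib, Finset.prod_const, Finset.card_univ, norm_prod, ← Finset.prod_pow,
      div_eq_mul_inv, ← Finset.prod_inv_distrib]
    congr 1
    refine Finset.prod_congr rfl fun j _ => ?_
    rw [hy, norm_inv, inv_pow]
  rw [h4]
  have h5 : 1 ≤ ∫ θ in (0:ℝ)..1, ‖G θ‖ ^ 2 := by nlinarith
  calc (1 - 1 / (p : ℝ)) ^ Fintype.card ι = (1 - 1 / (p : ℝ)) ^ Fintype.card ι * 1 := (mul_one _).symm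
    _ ≤ _ := mul_le_mul_of_nonneg_left h5 (by positivity)

end

lemma euler_low : ∃ C : ℝ, 0 ≤ C ∧ ∀ m : ℕ, 3 ≤ m →
    Real.exp (-C) * ((Real.log m) ^ 2)⁻¹ ≤ ∏ p : Pr m, (1 - 1 / ((p : ℕ) : ℝ)) := by
  obtain ⟨C, hC⟩ := Pool.Agent.Helper256.KM.Mert.mertens_inv
  have hC0 : 0 ≤ C := (abs_nonneg _).trans (hC 3 le_rfl)
  refine ⟨2 * C, by positivity, fun m hm => ?_⟩
  have hmr : (3:ℝ) ≤ m := by exact_mod_cast hm
  have hlog : 0 < Real.log m := Real.log_pos (by linarith)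
  have h1 := (abs_le.1 (hC m hm)).2
  have h2 : ∀ p : Pr m, Real.exp (-(2 * (1 / ((p : ℕ) : ℝ)))) ≤ 1 - 1 / ((p : ℕ) : ℝ) := by
    intro p
    have hp2 : (2:ℝ) ≤ ((p : ℕ) : ℝ) := by exact_mod_cast (Pr_prime p).two_le
    have hx : 1 / ((p : ℕ) : ℝ) ≤ 1 / 2 := one_div_le_one_div_of_le (by norm_num) hp2
    have hx0 : 0 ≤ 1 / ((p : ℕ) : ℝ) := by positivity
    set x := 1 / ((p : ℕ) : ℝ) with hxdef
    have h3 := Real.one_sub_inv_le_log_of_pos (show 0 < 1 - x by linarith)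
    have h4 : -(2 * x) ≤ 1 - (1 - x)⁻¹ := by
      have h5 : (1 - x)⁻¹ ≤ 1 + 2 * x := by
        rw [inv_le_comm₀ (by linarith) (by positivity), inv_le_iff_one_le_mul₀ (by positivity)]
        nlinarith
      linarith
    rw [← Real.exp_log (show 0 < 1 - x by linarith)]
    exact Real.exp_le_exp.2 (h4.trans h3)
  have h6 : ∑ p : Pr m, (1 / ((p : ℕ) : ℝ)) ≤ Real.log (Real.log m) + C := by
    have e1 : ∑ p : Pr m, (1 / ((p : ℕ) : ℝ)) = ∑ p ∈ (Finset.Icc 1 m).filter Nat.Prime, (1 : ℝ) / p := by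
      rw [Finset.sum_coe_sort (Pr m) (fun p : ℕ => 1 / (p : ℝ))]
      refine Finset.sum_congr ?_ fun _ _ => rfl
      ext p
      rw [mem_Pr, Finset.mem_filter, Finset.mem_Icc]
      constructor
      · rintro ⟨a, b⟩; exact ⟨⟨b.one_le, a⟩, b⟩
      · rintro ⟨⟨_, a⟩, b⟩; exact ⟨a, b⟩
    rw [e1]
    linarith
  calc Real.exp (-(2 * C)) * ((Real.log m) ^ 2)⁻¹
      = Real.exp (-(2 * (Real.log (Real.log m) + C))) := by
        have h7 : ((Real.log m) ^ 2)⁻¹ = Real.exp (-(2 * Real.log (Real.log m))) := by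
          rw [Real.exp_neg, two_mul, Real.exp_add, Real.exp_log hlog, sq]
        rw [h7, ← Real.exp_add]
        congr 1
        ring
    _ ≤ Real.exp (-(2 * ∑ p : Pr m, (1 / ((p : ℕ) : ℝ)))) := by
        refine Real.exp_le_exp.2 ?_
        linarith
    _ = ∏ p : Pr m, Real.exp (-(2 * (1 / ((p : ℕ) : ℝ)))) := by
        rw [← Real.exp_sum, Finset.sum_neg_distrib, Finset.mul_sum]
    _ ≤ _ := Finset.prod_le_prod (fun _ _ => (Real.exp_pos _).le) fun p _ => h2 p

/-- the Euler product is not small -/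
lemma ES_low (k : ℕ) : ∃ T₀ : ℝ, 1000 ≤ T₀ ∧ ∀ T : ℝ, T₀ ≤ T → ∀ β : Fin k → ℝ,
    0 < ES T β ∧ Real.log T ^ (-(1 / 4) : ℝ) / ES T β ≤ Real.log T ^ (-(1 / 5) : ℝ) := by
  obtain ⟨C, hC0, hC⟩ := euler_low
  obtain ⟨L1, hL1, h1⟩ := logpow (Real.exp C ^ (k + 1)) (2 * (k + 1)) (show (0:ℝ) < 1 / 20 by norm_num)
  refine ⟨max 1000 (Real.exp L1), le_max_left _ _, fun T hT β => ?_⟩
  have hT1000 : 1000 ≤ T := (le_max_left _ _).trans hT
  have hTp : 0 < T := by linarith
  set L := Real.log T with hL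
  have hLL : L1 ≤ L := by
    rw [hL, Real.le_log_iff_exp_le hTp]
    exact (le_max_right _ _).trans hT
  have hL1000 : 1000 ≤ L := hL1.trans hLL
  have hLp : 0 < L := by linarith
  set m := ⌊L⌋₊ with hm
  have hm3 : 3 ≤ m := by
    rw [hm, Nat.le_floor_iff hLp.le]
    push_cast
    linarith
  have hmr : (3:ℝ) ≤ m := by exact_mod_cast hm3
  have hmL : (m : ℝ) ≤ L := Nat.floor_le hLp.le
  have hlm : 0 < Real.log m := Real.log_pos (by linarith)
  have hlL : Real.log m ≤ Real.log L := Real.log_le_log (by linarith) hmL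
  have hprod := hC m hm3
  have hE : (Real.exp (-C) * ((Real.log m) ^ 2)⁻¹) ^ (k + 1) ≤ ES T β := by
    calc (Real.exp (-C) * ((Real.log m) ^ 2)⁻¹) ^ (k + 1)
        ≤ (∏ p : Pr m, (1 - 1 / ((p : ℕ) : ℝ))) ^ (k + 1) := by gcongr
      _ = ∏ p : Pr m, (1 - 1 / ((p : ℕ) : ℝ)) ^ (k + 1) := by rw [Finset.prod_pow]
      _ ≤ ES T β := by
          unfold ES
          refine Finset.prod_le_prod (fun p _ => ?_) fun p _ => ?_
          · have hp2 : (2:ℝ) ≤ ((p : ℕ) : ℝ) := by exact_mod_cast (Pr_prime p).two_le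
            have : 0 ≤ 1 - 1 / ((p : ℕ) : ℝ) := by
              rw [sub_nonneg, div_le_one (by linarith)]
              linarith
            positivity
          · have := loc_low (Pr_prime p) (cve β)
            rwa [Fintype.card_fin] at this
  have hEp : 0 < ES T β := lt_of_lt_of_le (by positivity) hE
  refine ⟨hEp, ?_⟩
  have h2 := h1 L hLL
  rw [div_le_iff₀ hEp]
  have h3 : (Real.exp (-C) * ((Real.log m) ^ 2)⁻¹) ^ (k + 1) =
      (Real.exp C ^ (k + 1) * Real.log m ^ (2 * (k + 1)))⁻¹ := by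
    rw [mul_pow, Real.exp_neg, inv_pow, inv_pow, ← pow_mul, ← mul_inv]
  have h4 : Real.exp C ^ (k + 1) * Real.log m ^ (2 * (k + 1)) ≤ L ^ (1 / 20 : ℝ) := by
    refine le_trans ?_ h2
    gcongr
  have h5 : (L ^ (1 / 20 : ℝ))⁻¹ ≤ ES T β := by
    refine le_trans ?_ hE
    rw [h3]
    exact inv_anti₀ (by positivity) h4
  calc L ^ (-(1 / 4) : ℝ) = L ^ (-(1 / 5) : ℝ) * (L ^ (1 / 20 : ℝ))⁻¹ := by
        rw [← Real.rpow_neg hLp.le, ← Real.rpow_add hLp]
        norm_num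
    _ ≤ L ^ (-(1 / 5) : ℝ) * ES T β := by gcongr

end

end Pool.Agent.Y752.KP
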