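import Pool.Agent.Y752.KP.Wa

set_option autoImplicit false
set_option linter.unusedSectionVars false

/-! Mean squares over the shifts. -/

namespace Pool.Agent.Y752.KP

open Complex Filter Topology MeasureTheory Set
open Pool.Agent.TH612.GS (z mP)
open Pool.Agent.TH521.GS (mor)
open scoped ENNReal

noncomputable section

/-- mean square of a finite sum of characters in `k` variables -/
lemma msk {κ : Type} [DecidableEq κ] {k : ℕ} (s : Finset κ) (x : κ → ℝ) (lam : κ → Fin k → ℝ)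
    {δ H : ℝ} (hδ : 0 < δ) (hH : 0 < H)
    (hsep : ∀ p ∈ s, ∀ q ∈ s, p ≠ q → ∃ l, δ ≤ |lam p l - lam q l|) :
    ∫⁻ β, ENNReal.ofReal (‖∑ q ∈ s, (x q : ℂ) * ∏ l, ee (lam q l) (β l)‖ ^ 2) ∂(mP (Fin k) H) ≤
      ENNReal.ofReal (H ^ k * (∑ q ∈ s, x q ^ 2 + 4 / (δ * H) * (∑ q ∈ s, |x q|) ^ 2)) := by
  have hfin : IsFiniteMeasure (mP (Fin k) H) := ⟨by rw [mPu k hH.le]; exact ENNReal.ofReal_lt_top⟩
  have hce : ∀ θ : ℝ, Continuous (ee θ) := ee_cont
  have hcont : Continuous fun β : Fin k → ℝ => ‖∑ q ∈ s, (x q : ℂ) * ∏ l, ee (lam q l) (β l)‖ ^ 2 := by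
    refine (Continuous.norm ?_).pow 2
    refine continuous_finsetSum _ fun q _ => continuous_const.mul ?_
    exact continuous_finsetProd _ fun l _ => (hce _).comp (continuous_apply l)
  have hbd : ∀ β : Fin k → ℝ, ‖∑ q ∈ s, (x q : ℂ) * ∏ l, ee (lam q l) (β l)‖ ≤ ∑ q ∈ s, |x q| := by
    intro β
    refine (norm_sum_le _ _).trans (Finset.sum_le_sum fun q _ => ?_)
    rw [norm_mul, norm_prod, Complex.norm_real, Real.norm_eq_abs]
    simp only [ee_norm, Finset.prod_const_one, mul_one]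
    exact le_rfl
  have hint : Integrable (fun β : Fin k → ℝ => ‖∑ q ∈ s, (x q : ℂ) *
      ∏ l, ee (lam q l) (β l)‖ ^ 2) (mP (Fin k) H) := by
    refine (integrable_const ((∑ q ∈ s, |x q|) ^ 2)).mono' hcont.aestronglyMeasurable
      (Eventually.of_forall fun β => ?_)
    rw [Real.norm_of_nonneg (by positivity)]
    have := hbd β
    gcongr
  rw [← ofReal_integral_eq_lintegral_ofReal hint (Eventually.of_forall fun _ => by positivity)]
  refine ENNReal.ofReal_le_ofReal ?_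
  -- the inner integrals
  set I1 : ℝ → ℂ := fun θ => ∫ y, ee θ y ∂(volume.restrict (Icc 0 H)) with hI1
  have hI1n : ∀ θ, ‖I1 θ‖ ≤ H := by
    intro θ
    have h1 : I1 θ = ∫ y in (0:ℝ)..H, ee θ y := by
      rw [hI1, intervalIntegral.integral_of_le hH.le, ← integral_Icc_eq_integral_Ioc]
    rw [h1]
    have := intervalIntegral.norm_integral_le_of_norm_le_const (a := (0:ℝ)) (b := H)
      (f := ee θ) (C := 1) (fun u _ => (ee_norm _ u).le)
    rwa [one_mul, sub_zero, abs_of_nonneg hH.le] at this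
  have hI1s : ∀ θ, δ ≤ |θ| → ‖I1 θ‖ ≤ 4 / δ := by
    intro θ hθ
    have h1 : I1 θ = ∫ y in (0:ℝ)..H, ee θ y := by
      rw [hI1, intervalIntegral.integral_of_le hH.le, ← integral_Icc_eq_integral_Ioc]
    rw [h1]
    have h2 := int_ee hH.le θ
    have h3 := ker_le_inv (L := H - 0) (by linarith) hδ hθ
    rw [div_eq_mul_inv]
    linarith
  have e1 : ((∫ β, ‖∑ q ∈ s, (x q : ℂ) * ∏ l, ee (lam q l) (β l)‖ ^ 2 ∂(mP (Fin k) H) : ℝ) : ℂ) =
      ∑ p ∈ s, ∑ q ∈ s, ((x p * x q : ℝ) : ℂ) * ∏ l, I1 (lam p l - lam q l) := by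
    rw [← integral_complex_ofReal]
    have h1 : ∀ β : Fin k → ℝ, ((‖∑ q ∈ s, (x q : ℂ) * ∏ l, ee (lam q l) (β l)‖ ^ 2 : ℝ) : ℂ) =
        ∑ p ∈ s, ∑ q ∈ s, ((x p * x q : ℝ) : ℂ) * ∏ l, ee (lam p l - lam q l) (β l) := by
      intro β
      rw [← Complex.normSq_eq_norm_sq, Complex.normSq_eq_conj_mul_self, mul_comm, map_sum,
        Finset.sum_mul_sum]
      refine Finset.sum_congr rfl fun p _ => Finset.sum_congr rfl fun q _ => ?_
      have h2 : ∏ l, ee (lam p l - lam q l) (β l) = (∏ l, ee (lam p l) (β l)) *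
          ∏ l, ee (-lam q l) (β l) := by
        rw [← Finset.prod_mul_distrib]
        exact Finset.prod_congr rfl fun l _ => by rw [sub_eq_add_neg, ee_add]
      rw [map_mul, Complex.conj_ofReal, map_prod, h2]
      simp only [ee_conj]
      push_cast
      ring
    simp only [h1]
    have hi : ∀ p q, Integrable (fun β : Fin k → ℝ => ((x p * x q : ℝ) : ℂ) *
        ∏ l, ee (lam p l - lam q l) (β l)) (mP (Fin k) H) := by
      intro p q
      have hc : Continuous (fun β : Fin k → ℝ => ((x p * x q : ℝ) : ℂ) *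
          ∏ l, ee (lam p l - lam q l) (β l)) :=
        continuous_const.mul (continuous_finsetProd _ fun l _ => (hce _).comp (continuous_apply l))
      refine (integrable_const |x p * x q|).mono' hc.aestronglyMeasurable
        (Eventually.of_forall fun β => ?_)
      rw [norm_mul, norm_prod, Complex.norm_real, Real.norm_eq_abs]
      simp only [ee_norm, Finset.prod_const_one, mul_one]
      exact le_rfl
    rw [integral_finsetSum _ fun p _ => integrable_finsetSum _ fun q _ => hi p q]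
    refine Finset.sum_congr rfl fun p _ => ?_
    rw [integral_finsetSum _ fun q _ => hi p q]
    refine Finset.sum_congr rfl fun q _ => ?_
    rw [integral_const_mul]
    congr 1
    unfold mP
    exact integral_fintype_prod_eq_prod (fun l y => ee (lam p l - lam q l) y)
  have h0 : 0 ≤ ∫ β, ‖∑ q ∈ s, (x q : ℂ) * ∏ l, ee (lam q l) (β l)‖ ^ 2 ∂(mP (Fin k) H) :=
    integral_nonneg fun _ => by positivity
  have e2 : ∫ β, ‖∑ q ∈ s, (x q : ℂ) * ∏ l, ee (lam q l) (β l)‖ ^ 2 ∂(mP (Fin k) H) ≤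
      ∑ p ∈ s, ∑ q ∈ s, |x p| * |x q| * ∏ l, ‖I1 (lam p l - lam q l)‖ := by
    have h1 : ∫ β, ‖∑ q ∈ s, (x q : ℂ) * ∏ l, ee (lam q l) (β l)‖ ^ 2 ∂(mP (Fin k) H) =
        ‖((∫ β, ‖∑ q ∈ s, (x q : ℂ) * ∏ l, ee (lam q l) (β l)‖ ^ 2 ∂(mP (Fin k) H) : ℝ) : ℂ)‖ := by
      rw [Complex.norm_real, Real.norm_of_nonneg h0]
    rw [h1, e1]
    refine (norm_sum_le _ _).trans (Finset.sum_le_sum fun p _ => (norm_sum_le _ _).trans
      (Finset.sum_le_sum fun q _ => ?_))
    rw [norm_mul, Complex.norm_real, Real.norm_eq_abs, abs_mul, norm_prod]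
  refine e2.trans ?_
  have e3 : ∀ p ∈ s, ∀ q ∈ s, |x p| * |x q| * ∏ l, ‖I1 (lam p l - lam q l)‖ ≤
      (if p = q then H ^ k * x p ^ 2 else 0) + H ^ k * (4 / (δ * H)) * (|x p| * |x q|) := by
    intro p hp q hq
    have hxx : 0 ≤ |x p| * |x q| := by positivity
    by_cases h : p = q
    · subst h
      rw [if_pos rfl]
      have h1 : ∏ l, ‖I1 (lam p l - lam p l)‖ ≤ H ^ k := by
        calc ∏ l, ‖I1 (lam p l - lam p l)‖ ≤ ∏ _l : Fin k, H :=
              Finset.prod_le_prod (fun _ _ => norm_nonneg _) fun l _ => hI1n _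
          _ = H ^ k := by rw [Finset.prod_const, Finset.card_univ, Fintype.card_fin]
      have h2 : |x p| * |x p| = x p ^ 2 := by rw [← abs_mul, ← sq, abs_of_nonneg (sq_nonneg _)]
      have h3 : 0 ≤ H ^ k * (4 / (δ * H)) * (|x p| * |x p|) := by positivity
      have h4 := mul_le_mul_of_nonneg_left h1 hxx
      rw [h2] at h4 h3 ⊢
      linarith
    · rw [if_neg h, zero_add]
      obtain ⟨l0, hl0⟩ := hsep p hp q hq h
      have h1 : ∏ l, ‖I1 (lam p l - lam q l)‖ ≤ H ^ k * (4 / (δ * H)) := by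
        rw [← Finset.mul_prod_erase Finset.univ _ (Finset.mem_univ l0)]
        have h2 : ∏ l ∈ Finset.univ.erase l0, ‖I1 (lam p l - lam q l)‖ ≤
            ∏ _l ∈ (Finset.univ : Finset (Fin k)).erase l0, H :=
          Finset.prod_le_prod (fun _ _ => norm_nonneg _) fun l _ => hI1n _
        have h3 : H ^ k = H * ∏ _l ∈ (Finset.univ : Finset (Fin k)).erase l0, H := by
          have := Finset.mul_prod_erase (Finset.univ : Finset (Fin k)) (fun _ => H)
            (Finset.mem_univ l0)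
          rw [this, Finset.prod_const, Finset.card_univ, Fintype.card_fin]
        rw [h3]
        calc ‖I1 (lam p l0 - lam q l0)‖ * ∏ l ∈ Finset.univ.erase l0, ‖I1 (lam p l - lam q l)‖
            ≤ (4 / δ) * ∏ _l ∈ (Finset.univ : Finset (Fin k)).erase l0, H := by
              refine mul_le_mul (hI1s _ hl0) h2 (Finset.prod_nonneg fun _ _ => norm_nonneg _)
                (by positivity)
          _ = _ := by field_simp
      have h4 := mul_le_mul_of_nonneg_left h1 hxx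
      linarith
  refine (Finset.sum_le_sum fun p hp => Finset.sum_le_sum fun q hq => e3 p hp q hq).trans
    (le_of_eq ?_)
  simp only [Finset.sum_add_distrib, Finset.sum_ite_eq]
  rw [mul_add]
  congr 1
  · rw [Finset.mul_sum]
    exact Finset.sum_congr rfl fun p hp => by rw [if_pos hp]
  · rw [sq, Finset.sum_mul_sum, Finset.mul_sum, Finset.mul_sum]
    refine Finset.sum_congr rfl fun p _ => ?_
    rw [Finset.mul_sum, Finset.mul_sum]
    exact Finset.sum_congr rfl fun q _ => by ring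

/-- levels -/
def Yve (k : ℕ) (Y' Y : ℕ) : Fin (k + 1) → ℕ := Fin.cons Y' fun _ => Y

/-- shifts -/
def cve {k : ℕ} (β : Fin k → ℝ) : Fin (k + 1) → ℝ := Fin.cons 0 β

lemma phc_cve {k : ℕ} (β : Fin k → ℝ) (q : Fin (k + 1) → ℕ × ℕ) :
    phc (cve β) q = ∏ l : Fin k, ee (fr (q l.succ)) (β l) := by
  unfold phc cve
  rw [Fin.prod_univ_succ]
  simp only [Fin.cons_zero, Fin.cons_succ]
  have : ee (fr (q 0)) 0 = 1 := by
    unfold ee
    simp
  rw [this, one_mul]

lemma tail_ne {k Y' Y : ℕ} {p q : Fin (k + 1) → ℕ × ℕ} (hp : p ∈ DD (Yve k Y' Y))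
    (hq : q ∈ DD (Yve k Y' Y)) (h : p ≠ q) : ∃ l : Fin k, p l.succ ≠ q l.succ := by
  by_contra hcon
  push Not at hcon
  apply h
  obtain ⟨p1, p2⟩ := Finset.mem_filter.1 hp
  obtain ⟨q1, q2⟩ := Finset.mem_filter.1 hq
  have pm := mem_QQ.1 p1
  have qm := mem_QQ.1 q1
  have hzero : p 0 = q 0 := by
    rw [Fin.prod_univ_succ, Fin.prod_univ_succ] at p2 q2
    obtain ⟨a1, a2, ac, _⟩ := mem_qs.1 (pm 0)
    obtain ⟨b1, b2, bc, _⟩ := mem_qs.1 (qm 0)
    have hA : ∏ i : Fin k, (p i.succ).1 = ∏ i : Fin k, (q i.succ).1 :=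
      Finset.prod_congr rfl fun i _ => by rw [hcon i]
    have hB : ∏ i : Fin k, (p i.succ).2 = ∏ i : Fin k, (q i.succ).2 :=
      Finset.prod_congr rfl fun i _ => by rw [hcon i]
    rw [hA, hB] at p2
    have hA0 : 0 < ∏ i : Fin k, (q i.succ).1 := Finset.prod_pos fun i _ => by
      obtain ⟨a, _, _, _⟩ := qs_bd (qm i.succ)
      omega
    have hB0 : 0 < ∏ i : Fin k, (q i.succ).2 := Finset.prod_pos fun i _ => by
      obtain ⟨_, a, _, _⟩ := qs_bd (qm i.succ)
      omega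
    set A := ∏ i : Fin k, (q i.succ).1
    set B := ∏ i : Fin k, (q i.succ).2
    have hx : (p 0).1 * (q 0).2 = (q 0).1 * (p 0).2 := by
      have h1 : ((p 0).1 * (q 0).2) * (A * B) = ((q 0).1 * (p 0).2) * (A * B) := by
        calc ((p 0).1 * (q 0).2) * (A * B) = ((p 0).1 * A) * ((q 0).2 * B) := by ring
          _ = ((p 0).2 * B) * ((q 0).1 * A) := by rw [p2, q2]
          _ = _ := by ring
      exact Nat.eq_of_mul_eq_mul_right (Nat.mul_pos hA0 hB0) h1
    have h1 : (p 0).1 ∣ (q 0).1 := ac.dvd_of_dvd_mul_right (hx ▸ Dvd.intro _ rfl)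
    have h2 : (q 0).1 ∣ (p 0).1 := bc.dvd_of_dvd_mul_right (hx.symm ▸ Dvd.intro _ rfl)
    have h3 : (p 0).1 = (q 0).1 := Nat.dvd_antisymm h1 h2
    have h4 : (p 0).2 = (q 0).2 := by
      rw [h3] at hx
      exact (Nat.eq_of_mul_eq_mul_left (by omega) hx).symm
    exact Prod.ext h3 h4
  funext i
  refine Fin.cases ?_ (fun l => ?_) i
  · exact hzero
  · exact hcon l

/-- mean square of diagonal sums -/
lemma ms_D {k Y' Y : ℕ} (hY : 1 ≤ Y) {s : Finset (Fin (k + 1) → ℕ × ℕ)} (hs : s ⊆ DD (Yve k Y' Y))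
    (x : (Fin (k + 1) → ℕ × ℕ) → ℝ) {H : ℝ} (hH : 0 < H) :
    ∫⁻ β, ENNReal.ofReal (‖∑ q ∈ s, (x q : ℂ) * phc (cve β) q‖ ^ 2) ∂(mP (Fin k) H) ≤
      ENNReal.ofReal (H ^ k * (∑ q ∈ s, x q ^ 2 + 4 * (Y : ℝ) ^ 2 / H * (∑ q ∈ s, |x q|) ^ 2)) := by
  have hYr : (1:ℝ) ≤ Y := by exact_mod_cast hY
  have h1 := msk s x (fun q (l : Fin k) => fr (q l.succ)) (δ := ((Y : ℝ) ^ 2)⁻¹) (H := H)
    (by positivity) hH (by
      intro p hp q hq hpq
      obtain ⟨l, hl⟩ := tail_ne (hs hp) (hs hq) hpq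
      refine ⟨l, ?_⟩
      have hp' := mem_QQ.1 (Finset.mem_filter.1 (hs hp)).1 l.succ
      have hq' := mem_QQ.1 (Finset.mem_filter.1 (hs hq)).1 l.succ
      exact fr_sep hY hp' hq' hl)
  simp only [phc_cve]
  refine h1.trans (le_of_eq ?_)
  congr 3
  field_simp

end

end Pool.Agent.Y752.KP
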