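import Mathlib

set_option autoImplicit false

/-! Sums over well-spaced points and over ratios of integers. -/

namespace Pool.Agent.Y752.KP

open Finset

noncomputable section

lemma inv_sum (S : Finset ℕ) : (∀ j ∈ S, 1 ≤ j) →
    ∑ j ∈ S, (j : ℝ)⁻¹ ≤ ∑ j ∈ Icc 1 S.card, (j : ℝ)⁻¹ := by
  induction S using Finset.induction_on_max with
  | empty => simp
  | insert a S hlt ih =>
    intro h1
    have ha : a ∉ S := fun h => lt_irrefl a (hlt a h)
    rw [Finset.sum_insert ha, Finset.card_insert_of_notMem ha]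
    have h2 := ih fun j hj => h1 j (Finset.mem_insert_of_mem hj)
    have ha1 : 1 ≤ a := h1 a (Finset.mem_insert_self _ _)
    have hsub : S ⊆ Icc 1 (a - 1) := by
      intro j hj
      have := hlt j hj
      have := h1 j (Finset.mem_insert_of_mem hj)
      exact Finset.mem_Icc.2 ⟨this, by omega⟩
    have hc : S.card ≤ a - 1 := by
      have := Finset.card_le_card hsub
      simpa using this
    have h3 : ((S.card + 1 : ℕ) : ℝ) ≤ a := by
      have : S.card + 1 ≤ a := by omega
      exact_mod_cast this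
    rw [Finset.sum_Icc_succ_top (by omega)]
    have h4 : (a : ℝ)⁻¹ ≤ ((S.card + 1 : ℕ) : ℝ)⁻¹ := by
      have : (0:ℝ) < ((S.card + 1 : ℕ) : ℝ) := by positivity
      gcongr
    linarith

lemma har_le (n : ℕ) : ∑ j ∈ Icc 1 n, (j : ℝ)⁻¹ ≤ 1 + Real.log (n + 1) := by
  have h1 := harmonic_le_one_add_log n
  have hH : ((harmonic n : ℚ) : ℝ) = ∑ g ∈ Finset.Icc 1 n, (g : ℝ)⁻¹ := by
    rw [harmonic_eq_sum_Icc]
    push_cast
    rfl
  rw [← hH]
  refine h1.trans ?_
  rcases Nat.eq_zero_or_pos n with hn | hn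
  · subst hn; simp
  · have : Real.log n ≤ Real.log (n + 1) :=
      Real.log_le_log (by exact_mod_cast hn) (by linarith)
    linarith

lemma inv_sum_log (S : Finset ℕ) (h : ∀ j ∈ S, 1 ≤ j) :
    ∑ j ∈ S, (j : ℝ)⁻¹ ≤ 1 + Real.log (S.card + 1) :=
  (inv_sum S h).trans (har_le _)

/-- the kernel -/
def ker (L θ : ℝ) : ℝ := L / (1 + L * |θ|)

lemma ker_nonneg {L : ℝ} (hL : 0 ≤ L) (θ : ℝ) : 0 ≤ ker L θ := by
  unfold ker; positivity

lemma ker_le {L : ℝ} (hL : 0 ≤ L) (θ : ℝ) : ker L θ ≤ L := by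
  unfold ker
  rw [div_le_iff₀ (by positivity)]
  nlinarith [mul_nonneg hL (mul_nonneg hL (abs_nonneg θ))]

lemma ker_le_inv {L θ x : ℝ} (hL : 0 ≤ L) (hx : 0 < x) (h : x ≤ |θ|) : ker L θ ≤ x⁻¹ := by
  unfold ker
  rw [div_le_iff₀ (by positivity), inv_mul_eq_div, le_div_iff₀ hx]
  nlinarith [mul_le_mul_of_nonneg_left h hL]

/-- sums over well-spaced points -/
lemma spaced {ι : Type} [DecidableEq ι] (s : Finset ι) (θ : ι → ℝ) {δ L : ℝ} (hδ : 0 < δ)
    (hL : 0 ≤ L) (hs : ∀ i ∈ s, ∀ j ∈ s, i ≠ j → δ ≤ |θ i - θ j|) (x : ℝ) :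
    ∑ i ∈ s, ker L (θ i - x) ≤ 2 * L + 2 / δ * (1 + Real.log (s.card + 1)) := by
  set f : ι → ℤ := fun i => ⌊(θ i - x) / δ⌋ with hf
  have hinj : ∀ i ∈ s, ∀ j ∈ s, f i = f j → i = j := by
    intro i hi j hj hij
    by_contra hne
    have h1 := hs i hi j hj hne
    have h2 : |(θ i - x) / δ - (θ j - x) / δ| < 1 := by
      have a1 := Int.floor_le ((θ i - x) / δ)
      have a2 := Int.lt_floor_add_one ((θ i - x) / δ)
      have a3 := Int.floor_le ((θ j - x) / δ)
      have a4 := Int.lt_floor_add_one ((θ j - x) / δ)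
      have a5 : ((⌊(θ i - x) / δ⌋ : ℤ) : ℝ) = ((⌊(θ j - x) / δ⌋ : ℤ) : ℝ) := by exact_mod_cast hij
      rw [abs_lt]
      constructor <;> linarith
    rw [← sub_div, sub_sub_sub_cancel_right, abs_div, abs_of_pos hδ, div_lt_one hδ] at h2
    linarith
  have hlo : ∀ i, (f i : ℝ) * δ ≤ θ i - x := by
    intro i
    have := Int.floor_le ((θ i - x) / δ)
    rwa [le_div_iff₀ hδ] at this
  have hhi : ∀ i, θ i - x < ((f i : ℝ) + 1) * δ := by
    intro i
    have := Int.lt_floor_add_one ((θ i - x) / δ)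
    rwa [div_lt_iff₀ hδ] at this
  -- the three parts
  have hsplit : ∑ i ∈ s, ker L (θ i - x) = ∑ i ∈ s.filter (fun i => 1 ≤ f i), ker L (θ i - x) +
      (∑ i ∈ (s.filter (fun i => ¬ 1 ≤ f i)).filter (fun i => f i ≤ -2), ker L (θ i - x) +
      ∑ i ∈ (s.filter (fun i => ¬ 1 ≤ f i)).filter (fun i => ¬ f i ≤ -2), ker L (θ i - x)) := by
    rw [Finset.sum_filter_add_sum_filter_not, Finset.sum_filter_add_sum_filter_not]
  have hlogc : ∀ t : Finset ι, t ⊆ s → Real.log (t.card + 1) ≤ Real.log (s.card + 1) := by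
    intro t ht
    refine Real.log_le_log (by positivity) ?_
    have := Finset.card_le_card ht
    have : (t.card : ℝ) ≤ s.card := by exact_mod_cast this
    linarith
  have p1 : ∑ i ∈ s.filter (fun i => 1 ≤ f i), ker L (θ i - x) ≤
      1 / δ * (1 + Real.log (s.card + 1)) := by
    set t := s.filter (fun i => 1 ≤ f i) with ht
    have hts : t ⊆ s := Finset.filter_subset _ _
    have hinj2 : Set.InjOn (fun i => (f i).toNat) (t : Set ι) := by
      intro i hi j hj hij
      have hi' := (Finset.mem_filter.1 hi).2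
      have hj' := (Finset.mem_filter.1 hj).2
      refine hinj i (hts hi) j (hts hj) ?_
      simp only at hij
      omega
    have e1 : ∑ i ∈ t, ker L (θ i - x) ≤ ∑ i ∈ t, 1 / δ * (((f i).toNat : ℕ) : ℝ)⁻¹ := by
      refine Finset.sum_le_sum fun i hi => ?_
      have hi' := (Finset.mem_filter.1 hi).2
      have hc : (((f i).toNat : ℕ) : ℝ) = (f i : ℝ) := by
        have : (((f i).toNat : ℕ) : ℤ) = f i := Int.toNat_of_nonneg (by omega)
        exact_mod_cast congrArg (fun z : ℤ => (z : ℝ)) this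
      have hfp : (1:ℝ) ≤ (f i : ℝ) := by exact_mod_cast hi'
      rw [hc]
      refine (ker_le_inv hL (x := (f i : ℝ) * δ) (by positivity) ((hlo i).trans (le_abs_self _))).trans
        (le_of_eq ?_)
      rw [mul_inv, one_div]
      ring
    refine e1.trans ?_
    rw [← Finset.mul_sum]
    have e2 : ∑ i ∈ t, (((f i).toNat : ℕ) : ℝ)⁻¹ = ∑ j ∈ t.image (fun i => (f i).toNat), (j : ℝ)⁻¹ := by
      rw [Finset.sum_image hinj2]
    rw [e2]
    have e3 := inv_sum_log (t.image (fun i => (f i).toNat)) (by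
      intro j hj
      obtain ⟨i, hi, rfl⟩ := Finset.mem_image.1 hj
      have hi' := (Finset.mem_filter.1 hi).2
      omega)
    have e4 : (t.image (fun i => (f i).toNat)).card = t.card := Finset.card_image_of_injOn hinj2
    rw [e4] at e3
    have := hlogc t hts
    have h0 : 0 ≤ 1 / δ := by positivity
    nlinarith
  have p2 : ∑ i ∈ (s.filter (fun i => ¬ 1 ≤ f i)).filter (fun i => f i ≤ -2), ker L (θ i - x) ≤
      1 / δ * (1 + Real.log (s.card + 1)) := by
    set t := (s.filter (fun i => ¬ 1 ≤ f i)).filter (fun i => f i ≤ -2) with ht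
    have hts : t ⊆ s := (Finset.filter_subset _ _).trans (Finset.filter_subset _ _)
    have hinj2 : Set.InjOn (fun i => (-(f i) - 1).toNat) (t : Set ι) := by
      intro i hi j hj hij
      have hi' := (Finset.mem_filter.1 hi).2
      have hj' := (Finset.mem_filter.1 hj).2
      refine hinj i (hts hi) j (hts hj) ?_
      simp only at hij
      omega
    have e1 : ∑ i ∈ t, ker L (θ i - x) ≤ ∑ i ∈ t, 1 / δ * (((-(f i) - 1).toNat : ℕ) : ℝ)⁻¹ := by
      refine Finset.sum_le_sum fun i hi => ?_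
      have hi' := (Finset.mem_filter.1 hi).2
      have hc : (((-(f i) - 1).toNat : ℕ) : ℝ) = -(f i : ℝ) - 1 := by
        have : (((-(f i) - 1).toNat : ℕ) : ℤ) = -(f i) - 1 := Int.toNat_of_nonneg (by omega)
        have h2 := congrArg (fun z : ℤ => (z : ℝ)) this
        push_cast at h2
        exact_mod_cast h2
      have hfp : (f i : ℝ) ≤ -2 := by exact_mod_cast hi'
      rw [hc]
      have hb : (-(f i : ℝ) - 1) * δ ≤ |θ i - x| := by
        have := hhi i
        have h3 := neg_le_abs (θ i - x)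
        nlinarith
      refine (ker_le_inv hL (x := (-(f i : ℝ) - 1) * δ) (mul_pos (by linarith) hδ) hb).trans
        (le_of_eq ?_)
      rw [mul_inv, one_div]
      ring
    refine e1.trans ?_
    rw [← Finset.mul_sum]
    have e2 : ∑ i ∈ t, (((-(f i) - 1).toNat : ℕ) : ℝ)⁻¹ =
        ∑ j ∈ t.image (fun i => (-(f i) - 1).toNat), (j : ℝ)⁻¹ := by
      rw [Finset.sum_image hinj2]
    rw [e2]
    have e3 := inv_sum_log (t.image (fun i => (-(f i) - 1).toNat)) (by
      intro j hj
      obtain ⟨i, hi, rfl⟩ := Finset.mem_image.1 hj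
      have hi' := (Finset.mem_filter.1 hi).2
      omega)
    have e4 : (t.image (fun i => (-(f i) - 1).toNat)).card = t.card :=
      Finset.card_image_of_injOn hinj2
    rw [e4] at e3
    have := hlogc t hts
    have h0 : 0 ≤ 1 / δ := by positivity
    nlinarith
  have p3 : ∑ i ∈ (s.filter (fun i => ¬ 1 ≤ f i)).filter (fun i => ¬ f i ≤ -2), ker L (θ i - x) ≤
      2 * L := by
    set t := (s.filter (fun i => ¬ 1 ≤ f i)).filter (fun i => ¬ f i ≤ -2) with ht
    have hts : t ⊆ s := (Finset.filter_subset _ _).trans (Finset.filter_subset _ _)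
    have hcard : t.card ≤ 2 := by
      have h2 : t.card ≤ ({-1, 0} : Finset ℤ).card := by
        refine Finset.card_le_card_of_injOn f ?_ ?_
        · intro i hi
          have hi1 := (Finset.mem_filter.1 hi).2
          have hi2 := (Finset.mem_filter.1 (Finset.mem_filter.1 hi).1).2
          simp only [Finset.coe_insert, Finset.coe_singleton, Set.mem_insert_iff,
            Set.mem_singleton_iff]
          omega
        · intro i hi j hj hij
          exact hinj i (hts hi) j (hts hj) hij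
      simpa using h2
    have e1 : ∑ i ∈ t, ker L (θ i - x) ≤ t.card • L :=
      Finset.sum_le_card_nsmul _ _ _ fun i _ => ker_le hL _
    refine e1.trans ?_
    rw [nsmul_eq_mul]
    have : (t.card : ℝ) ≤ 2 := by exact_mod_cast hcard
    nlinarith
  rw [hsplit]
  have : 2 / δ * (1 + Real.log (s.card + 1)) = 1 / δ * (1 + Real.log (s.card + 1)) +
      1 / δ * (1 + Real.log (s.card + 1)) := by ring
  linarith

lemma log_sub_ge {x y M : ℝ} (hx : 0 < x) (hy : 0 < y) (hxM : x ≤ M) (hyM : y ≤ M) :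
    |x - y| / M ≤ |Real.log x - Real.log y| := by
  wlog hxy : y ≤ x generalizing x y
  · rw [abs_sub_comm x y, abs_sub_comm (Real.log x)]
    exact this hy hx hyM hxM (by linarith)
  have h1 : Real.log y ≤ Real.log x := Real.log_le_log hy hxy
  rw [abs_of_nonneg (by linarith), abs_of_nonneg (by linarith)]
  have h2 := Real.log_le_sub_one_of_pos (show 0 < y / x by positivity)
  rw [Real.log_div hy.ne' hx.ne'] at h2
  have h3 : (x - y) / M ≤ (x - y) / x := by
    have : 0 ≤ x - y := by linarith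
    gcongr
  have h4 : (x - y) / x = 1 - y / x := by field_simp
  linarith

/-- one dyadic block -/
lemma block {A B : ℕ} (hA : 1 ≤ A) (hB : 1 ≤ B) {L : ℝ} (hL : 0 ≤ L) (x : ℝ) (s : Finset (ℕ × ℕ))
    (hs : ∀ q ∈ s, q.1.Coprime q.2 ∧ A ≤ q.1 ∧ q.1 < 2 * A ∧ B ≤ q.2 ∧ q.2 < 2 * B) :
    ∑ q ∈ s, ker L (Real.log q.1 - Real.log q.2 - x) ≤
      2 * L + 8 * (A * B) * (1 + Real.log (A * B + 1)) := by
  have hAr : (1:ℝ) ≤ A := by exact_mod_cast hA
  have hBr : (1:ℝ) ≤ B := by exact_mod_cast hB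
  have hδ : (0:ℝ) < 1 / (4 * (A * B)) := by positivity
  have h1 := spaced s (fun q => Real.log q.1 - Real.log q.2) hδ hL ?_ x
  · refine h1.trans ?_
    have hc : (s.card : ℝ) ≤ A * B := by
      have hsub : s ⊆ (Finset.Ico A (2 * A)) ×ˢ (Finset.Ico B (2 * B)) := by
        intro q hq
        obtain ⟨_, h2, h3, h4, h5⟩ := hs q hq
        simp only [Finset.mem_product, Finset.mem_Ico]
        exact ⟨⟨h2, h3⟩, h4, h5⟩
      have h6 := Finset.card_le_card hsub
      rw [Finset.card_product, Nat.card_Ico, Nat.card_Ico] at h6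
      have h7 : s.card ≤ A * B := by
        refine h6.trans (le_of_eq ?_)
        congr 1 <;> omega
      exact_mod_cast h7
    have hlog : Real.log (s.card + 1) ≤ Real.log (A * B + 1) :=
      Real.log_le_log (by positivity) (by linarith)
    have h0 : (0:ℝ) ≤ 8 * (A * B) := by positivity
    have e : 2 / (1 / (4 * ((A:ℝ) * B))) = 8 * (A * B) := by
      field_simp
      ring
    rw [e]
    nlinarith
  · intro q hq r hr hne
    obtain ⟨c1, a1, a2, b1, b2⟩ := hs q hq
    obtain ⟨c2, a3, a4, b3, b4⟩ := hs r hr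
    have q1 : 0 < q.1 := by omega
    have q2 : 0 < q.2 := by omega
    have r1 : 0 < r.1 := by omega
    have r2 : 0 < r.2 := by omega
    have q1r : (0:ℝ) < q.1 := by exact_mod_cast q1
    have q2r : (0:ℝ) < q.2 := by exact_mod_cast q2
    have r1r : (0:ℝ) < r.1 := by exact_mod_cast r1
    have r2r : (0:ℝ) < r.2 := by exact_mod_cast r2
    have hneq : q.1 * r.2 ≠ r.1 * q.2 := by
      intro h
      apply hne
      have d1 : q.1 ∣ r.1 := by
        have : q.1 ∣ r.1 * q.2 := ⟨r.2, by rw [← h]⟩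
        exact c1.dvd_of_dvd_mul_right this
      have d2 : r.1 ∣ q.1 := by
        have : r.1 ∣ q.1 * r.2 := ⟨q.2, by rw [h]⟩
        exact c2.dvd_of_dvd_mul_right this
      have e1 : q.1 = r.1 := Nat.dvd_antisymm d1 d2
      have e2 : q.2 = r.2 := by
        rw [e1] at h
        exact (Nat.eq_of_mul_eq_mul_left r1 h).symm
      exact Prod.ext e1 e2
    have e0 : Real.log q.1 - Real.log q.2 - (Real.log r.1 - Real.log r.2) =
        Real.log ((q.1 : ℝ) * r.2) - Real.log ((r.1 : ℝ) * q.2) := by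
      rw [Real.log_mul q1r.ne' r2r.ne', Real.log_mul r1r.ne' q2r.ne']
      ring
    rw [e0]
    have hM1 : (q.1 : ℝ) * r.2 ≤ 4 * (A * B) := by
      have : q.1 * r.2 ≤ (2 * A) * (2 * B) := Nat.mul_le_mul a2.le b4.le
      have h2 : ((q.1 * r.2 : ℕ) : ℝ) ≤ (((2 * A) * (2 * B) : ℕ) : ℝ) := by exact_mod_cast this
      push_cast at h2
      linarith
    have hM2 : (r.1 : ℝ) * q.2 ≤ 4 * (A * B) := by
      have : r.1 * q.2 ≤ (2 * A) * (2 * B) := Nat.mul_le_mul a4.le b2.le
      have h2 : ((r.1 * q.2 : ℕ) : ℝ) ≤ (((2 * A) * (2 * B) : ℕ) : ℝ) := by exact_mod_cast this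
      push_cast at h2
      linarith
    refine le_trans ?_ (log_sub_ge (by positivity) (by positivity) hM1 hM2)
    have h3 : (1:ℝ) ≤ |(q.1 : ℝ) * r.2 - r.1 * q.2| := by
      have h4 : (1:ℤ) ≤ |(q.1 : ℤ) * r.2 - r.1 * q.2| := by
        refine Int.one_le_abs ?_
        intro h5
        apply hneq
        have h6 : (q.1 : ℤ) * r.2 = r.1 * q.2 := by linarith
        exact_mod_cast h6
      have h7 : ((1:ℤ) : ℝ) ≤ ((|(q.1 : ℤ) * r.2 - r.1 * q.2| : ℤ) : ℝ) := by exact_mod_cast h4
      push_cast at h7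
      exact h7
    gcongr

end

end Pool.Agent.Y752.KP
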