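import Pool.Agent.Y752.KP.Low
import Pool.Agent.TH612.GS.Asm3

set_option autoImplicit false
set_option linter.unusedSectionVars false

/-! The standard form of the main theorem. -/

namespace Pool.Agent.Y752.KP

open Complex Filter Topology MeasureTheory Set
open Pool.Agent.TH612.GS (z mP)
open scoped ENNReal

noncomputable section

lemma int_real {k : ℕ} (T : ℝ) (β : Fin k → ℝ) :
    (∫ t in (0:ℝ)..T, f2 t * ∏ l, f2 (t + β l)) =
      ((∫ t in (0:ℝ)..T, ‖riemannZeta (1 / 2 + I * t)‖ ^ 2 *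
        ∏ l, ‖riemannZeta (1 / 2 + I * (t + β l))‖ ^ 2 : ℝ) : ℂ) := by
  rw [← intervalIntegral.integral_ofReal]
  refine intervalIntegral.integral_congr fun t _ => ?_
  simp only [f2, z]
  push_cast
  rfl

lemma locS_std {k : ℕ} {p : ℕ} (hp : p.Prime) (β : Fin k → ℝ) :
    locS (cve β) p = (1 - 1 / (p : ℝ)) ^ (k + 1) * ∫ θ in (0:ℝ)..1,
      1 / (‖1 - exp (2 * Real.pi * I * θ) * (p : ℂ) ^ (-(1 / 2) : ℂ)‖ ^ 2 *
        ∏ l, ‖1 - exp (2 * Real.pi * I * θ) * (p : ℂ) ^ (-(1 / 2 + I * β l))‖ ^ 2) := by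
  unfold locS
  rw [← intervalIntegral.integral_const_mul]
  refine intervalIntegral.integral_congr fun θ _ => ?_
  rw [Finset.prod_div_distrib, Finset.prod_const, Finset.card_univ, Fintype.card_fin,
    Fin.prod_univ_succ, mul_one_div]
  congr 2
  · rw [yp_std hp]
    simp only [cve, Fin.cons_zero]
    congr 4
    push_cast
    ring_nf
  · refine Finset.prod_congr rfl fun l _ => ?_
    rw [yp_std hp]
    simp only [cve, Fin.cons_succ]

theorem std (k : ℕ) {θ : ℝ} (hθ : 9 / 10 < θ) : ∃ T₀ : ℝ, ∀ T : ℝ, T₀ ≤ T →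
    ∀ H : ℝ, T ^ θ ≤ H → H ≤ T →
    volume {β : Fin k → ℝ | (∀ l, β l ∈ Icc 0 H) ∧
      ¬ |(1 / T * ∫ t in (0:ℝ)..T, ‖riemannZeta (1 / 2 + I * t)‖ ^ 2 *
        ∏ l, ‖riemannZeta (1 / 2 + I * (t + β l))‖ ^ 2) / (Real.log T ^ (k + 1) *
        ∏ p ∈ (Finset.range (⌊Real.log T⌋₊ + 1)).filter Nat.Prime,
        ((1 - 1 / (p : ℝ)) ^ (k + 1) * ∫ θ in (0:ℝ)..1,
          1 / (‖1 - exp (2 * Real.pi * I * θ) * (p : ℂ) ^ (-(1 / 2) : ℂ)‖ ^ 2 *
          ∏ l, ‖1 - exp (2 * Real.pi * I * θ) * (p : ℂ) ^ (-(1 / 2 + I * β l))‖ ^ 2))) - 1| ≤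
        Real.log T ^ (-(1 / 5) : ℝ)} ≤
      ENNReal.ofReal (H ^ k * Real.log T ^ (-(1 / 5) : ℝ)) := by
  obtain ⟨T1, hT1, hmain⟩ := fin_main k (show 0 < θ - 9 / 10 by linarith)
  obtain ⟨T2, hT2, hlow⟩ := ES_low k
  refine ⟨max T1 T2, fun T hT H hH1 hH2 => ?_⟩
  have hTT1 : T1 ≤ T := (le_max_left _ _).trans hT
  have hTT2 : T2 ≤ T := (le_max_right _ _).trans hT
  have hT1000 : 1000 ≤ T := hT1.trans hTT1
  have hTp : 0 < T := by linarith
  have hL1 : 1 ≤ Real.log T := by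
    rw [Real.le_log_iff_exp_le hTp]
    have := Real.exp_one_lt_d9
    linarith
  have hLp : 0 < Real.log T := by linarith
  have hHp : 0 < H := lt_of_lt_of_le (Real.rpow_pos_of_pos hTp _) hH1
  rw [add_sub_cancel] at hmain
  have h1 := hmain T hTT1 H hH1 hH2
  have hpr : ∀ β : Fin k → ℝ, ES T β = ∏ p ∈ (Finset.range (⌊Real.log T⌋₊ + 1)).filter Nat.Prime,
        ((1 - 1 / (p : ℝ)) ^ (k + 1) * ∫ θ in (0:ℝ)..1,
          1 / (‖1 - exp (2 * Real.pi * I * θ) * (p : ℂ) ^ (-(1 / 2) : ℂ)‖ ^ 2 *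
          ∏ l, ‖1 - exp (2 * Real.pi * I * θ) * (p : ℂ) ^ (-(1 / 2 + I * β l))‖ ^ 2)) := by
    intro β
    unfold ES
    rw [Finset.prod_coe_sort (Pr ⌊Real.log T⌋₊) (fun p : ℕ => locS (cve β) p)]
    refine Finset.prod_congr rfl fun p hp => ?_
    exact locS_std (Finset.mem_filter.1 hp).2 β
  rw [Pool.Agent.TH612.GS.vol_cube (T := H) (fun β hβ i => ⟨(hβ.1 i).1, (hβ.1 i).2⟩)]
  refine (measure_mono (fun β hβ => ?_)).trans (h1.trans ?_)
  · obtain ⟨hβ1, hβ2⟩ := hβ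
    refine ⟨fun l => hβ1 l, ?_⟩
    rw [← hpr] at hβ2
    obtain ⟨hE, hE2⟩ := hlow T hTT2 β
    rw [int_real, ← Complex.ofReal_mul, ← Complex.ofReal_sub, Complex.norm_real, Real.norm_eq_abs]
    by_contra hcon
    rw [not_lt] at hcon
    apply hβ2
    set J := ∫ t in (0:ℝ)..T, ‖riemannZeta (1 / 2 + I * t)‖ ^ 2 *
        ∏ l, ‖riemannZeta (1 / 2 + I * (t + β l))‖ ^ 2 with hJ
    set E := ES T β with hEd
    set L := Real.log T with hL
    have hpos : 0 < T * L ^ (k + 1) * E := by positivity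
    have e1 : 1 / T * J / (L ^ (k + 1) * E) - 1 = (J - T * L ^ (k + 1) * E) / (T * L ^ (k + 1) * E) := by
      field_simp
    rw [e1, abs_div, abs_of_pos hpos]
    have e2 : L ^ k * (L ^ (1 / 4 : ℝ)) ^ 3 = L ^ (k + 1) * L ^ (-(1 / 4) : ℝ) := by
      have e3 : (L ^ (1 / 4 : ℝ)) ^ 3 = L * L ^ (-(1 / 4) : ℝ) := by
        rw [← Real.rpow_natCast (L ^ (1 / 4 : ℝ)) 3, ← Real.rpow_mul hLp.le]
        nth_rewrite 2 [← Real.rpow_one L]
        rw [← Real.rpow_add hLp]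
        norm_num
      rw [e3, pow_succ, mul_assoc]
    rw [e2] at hcon
    calc |J - T * L ^ (k + 1) * E| / (T * L ^ (k + 1) * E)
        ≤ T * (L ^ (k + 1) * L ^ (-(1 / 4) : ℝ)) / (T * L ^ (k + 1) * E) := by gcongr
      _ = L ^ (-(1 / 4) : ℝ) / E := by field_simp
      _ ≤ _ := hE2
  · apply ENNReal.ofReal_le_ofReal
    have : Real.log T ^ (-(1 / 4) : ℝ) ≤ Real.log T ^ (-(1 / 5) : ℝ) :=
      Real.rpow_le_rpow_of_exponent_le hL1 (by norm_num)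
    gcongr

end

end Pool.Agent.Y752.KP
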