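import Pool.Agent.Y752.KP.Blk2

set_option autoImplicit false

/-! Replacement of the shifted factors on the whole interval. -/

namespace Pool.Agent.Y752.KP

open Complex Filter Topology MeasureTheory Set
open Pool.Agent.TH612.GS (z mP)
open Pool.Agent.TH521.GS (cs lint1 mor tonelli)
open scoped ENNReal

noncomputable section

lemma logpow (C : ℝ) (n : ℕ) {κ : ℝ} (hκ : 0 < κ) : ∃ T₀ : ℝ, 1000 ≤ T₀ ∧ ∀ T : ℝ, T₀ ≤ T →
    C * Real.log T ^ n ≤ T ^ κ := by
  have h1 := (isLittleO_log_rpow_rpow_atTop (n : ℝ) hκ).def (show 0 < (|C| + 1)⁻¹ by positivity)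
  obtain ⟨T1, hT1⟩ := eventually_atTop.1 h1
  refine ⟨max 1000 T1, le_max_left _ _, fun T hT => ?_⟩
  have hT1000 : 1000 ≤ T := (le_max_left _ _).trans hT
  have h2 := hT1 T ((le_max_right _ _).trans hT)
  have hL : 0 ≤ Real.log T := Real.log_nonneg (by linarith)
  have hT0 : 0 < T := by linarith
  rw [Real.norm_of_nonneg (by positivity), Real.norm_of_nonneg (by positivity),
    Real.rpow_natCast] at h2
  have h3 : 0 ≤ Real.log T ^ n := by positivity
  have h4 : (|C| + 1) * Real.log T ^ n ≤ T ^ κ := by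
    have h5 : 0 < |C| + 1 := by positivity
    calc (|C| + 1) * Real.log T ^ n ≤ (|C| + 1) * ((|C| + 1)⁻¹ * T ^ κ) := by gcongr
      _ = T ^ κ := by field_simp
  have h5 := le_abs_self C
  nlinarith

/-- the end points of the blocks -/
def bp (H T : ℝ) (i : ℕ) : ℝ := min (i * H) T

lemma blocks {H T : ℝ} (hH : 0 < H) (hT : 0 < T) (F : ℝ → ℂ) (hF : Continuous F) :
    ∫ t in (0:ℝ)..T, F t = ∑ i ∈ Finset.range ⌈T / H⌉₊, ∫ t in (bp H T i)..(bp H T (i + 1)), F t := by
  have h1 := intervalIntegral.sum_integral_adjacent_intervals (μ := volume) (f := F)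
    (a := bp H T) (n := ⌈T / H⌉₊) (fun i _ => hF.intervalIntegrable _ _)
  rw [h1]
  congr 1
  · simp [bp, hT.le]
  · unfold bp
    rw [min_eq_right]
    have := Nat.le_ceil (T / H)
    rwa [div_le_iff₀ hH] at this

lemma bp_lt {H T : ℝ} (hH : 0 < H) {i : ℕ} (hi : i < ⌈T / H⌉₊) : bp H T i = i * H := by
  unfold bp
  rw [min_eq_left]
  have := Nat.lt_ceil.1 hi
  rw [lt_div_iff₀ hH] at this
  exact this.le

theorem thmA0 {k : ℕ} {C T H W : ℝ} {Y : ℕ} (hY1 : 1 ≤ Y) (hC : 1 ≤ C) (hT : 1000 ≤ T)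
    (hYT : (Y : ℝ) + 1 ≤ T)
    (hKA : ∀ A B lam : ℝ, 0 ≤ A → A ≤ B → B ≤ 3 * T →
      ‖∫ u in A..B, (f2 u - gY Y u) * ee lam u‖ ≤
      C * Real.log T ^ 5 * ((B - A) / Real.sqrt Y + T ^ (9 / 10 : ℝ) * (Y : ℝ) ^ 2))
    (hfs : ∀ A B : ℝ, 0 ≤ A → A ≤ B → B ≤ 3 * T →
      ∫ u in A..B, ‖z u‖ ^ 2 ≤ C * Real.log T ^ 5 * ((B - A) + T ^ (9 / 10 : ℝ)))
    (hH9 : T ^ (9 / 10 : ℝ) ≤ H) (hHT : H ≤ T) (hY6 : (Y : ℝ) ^ 6 ≤ H)
    (hW : 9 * Real.log T ^ 2 ≤ W) :
    ∫⁻ β, ENNReal.ofReal ‖∫ t in (0:ℝ)..T, f2 t * (∏ l : Fin k, f2 (t + β l) -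
      ∏ l : Fin k, gY Y (t + β l))‖ ∂(mP (Fin k) H) ≤
    ENNReal.ofReal (H ^ k * T * (2 ^ (k + 1) * (2 * C * Real.log T ^ 5 *
      (1 / Real.sqrt Y + T ^ (9 / 10 : ℝ) * (Y : ℝ) ^ 2 / H)) * W ^ k +
      192 * (9 * C * Real.log T ^ 5) ^ k * Real.log T ^ 4 / W)) := by
  have cz := z_cont
  have cg := gY_cont Y
  have cf := f2_cont
  have hT0 : 0 < T := by linarith
  have hT9 : 0 < T ^ (9 / 10 : ℝ) := by positivity
  have hH0 : 0 < H := hT9.trans_le hH9
  have hLg1 : 1 ≤ Real.log T := by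
    rw [Real.le_log_iff_exp_le hT0]
    have := Real.exp_one_lt_d9
    linarith
  have hYr : (1:ℝ) ≤ Y := by exact_mod_cast hY1
  have hW1 : 1 ≤ W := by nlinarith
  have hsY : 0 < Real.sqrt Y := Real.sqrt_pos.2 (by linarith)
  set M : ℝ := 2 * C * Real.log T ^ 5 * (H / Real.sqrt Y + T ^ (9 / 10 : ℝ) * (Y : ℝ) ^ 2) with hM
  have hMp : 0 < M := by positivity
  set N : ℕ := ⌈T / H⌉₊ with hN
  have hNle : (N : ℝ) ≤ 2 * (T / H) := by
    have h1 := Nat.ceil_lt_add_one (show 0 ≤ T / H by positivity)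
    have h2 : 1 ≤ T / H := by rw [le_div_iff₀ hH0]; linarith
    linarith
  have hNH : N * H ≤ 2 * T := by
    have h1 := Nat.ceil_lt_add_one (show 0 ≤ T / H by positivity)
    have h2 : (N : ℝ) * H ≤ (T / H + 1) * H := by
      rw [← hN] at h1
      gcongr
    have h3 : (T / H + 1) * H = T + H := by field_simp
    linarith
  set D : ℝ := 9 * C * Real.log T ^ 5 with hD
  set FF : ℕ → ℝ := fun i => ∫ u in (i * H)..(i * H + 2 * H), (‖z u‖ ^ 2) ^ 2 with hFF
  have hstep : ∀ i ∈ Finset.range N, ∫⁻ β, ENNReal.ofReal ‖∫ t in (bp H T i)..(bp H T (i + 1)),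
      f2 t * (∏ l : Fin k, f2 (t + β l) - ∏ l : Fin k, gY Y (t + β l))‖ ∂(mP (Fin k) H) ≤
      ENNReal.ofReal (H ^ k * (2 ^ k * M * W ^ k + 2 * D ^ k * (FF i / W))) := by
    intro i hi
    have hi' : i < ⌈T / H⌉₊ := Finset.mem_range.1 hi
    have e1 := bp_lt hH0 hi'
    have hiT : (i : ℝ) * H ≤ T := by
      rw [← e1]
      exact min_le_right _ _
    have e2 : bp H T (i + 1) = i * H + (bp H T (i + 1) - i * H) := by ring
    rw [e2, e1]
    have h3 : bp H T (i + 1) ≤ T := min_le_right _ _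
    have h4 : (i : ℝ) * H ≤ bp H T (i + 1) := by
      unfold bp
      refine le_min ?_ hiT
      push_cast
      nlinarith
    have h5 : bp H T (i + 1) ≤ i * H + H := by
      unfold bp
      refine (min_le_left _ _).trans (le_of_eq ?_)
      push_cast
      ring
    exact blk_bound hY1 hC hT hYT hKA hfs hH9 hHT hY6 hW (by positivity) (by linarith)
      (by linarith) (by linarith)
  have hFFs : ∑ i ∈ Finset.range N, FF i ≤ 96 * T * Real.log T ^ 4 := by
    set G : ℕ → ℝ := fun i => ∫ u in (i * H)..(((i + 1 : ℕ) : ℝ) * H), (‖z u‖ ^ 2) ^ 2 with hG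
    have hi : ∀ a b : ℝ, IntervalIntegrable (fun u => (‖z u‖ ^ 2) ^ 2) volume a b :=
      fun a b => Continuous.intervalIntegrable (by fun_prop) _ _
    have e1 : ∀ i, FF i = G i + G (i + 1) := by
      intro i
      simp only [hFF, hG]
      rw [intervalIntegral.integral_add_adjacent_intervals (hi _ _) (hi _ _)]
      congr 1
      push_cast
      ring
    have e2 : ∀ n : ℕ, ∑ i ∈ Finset.range n, G i = ∫ u in (0:ℝ)..(n * H), (‖z u‖ ^ 2) ^ 2 := by
      intro n
      have h1 := intervalIntegral.sum_integral_adjacent_intervals (μ := volume)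
        (f := fun u => (‖z u‖ ^ 2) ^ 2) (a := fun i : ℕ => (i : ℝ) * H) (n := n)
        (fun i _ => hi _ _)
      simp only [hG]
      rw [h1]
      simp
    have hG0 : ∀ i, 0 ≤ G i := by
      intro i
      refine intervalIntegral.integral_nonneg ?_ fun _ _ => by positivity
      push_cast
      nlinarith
    have h3 : ∑ i ∈ Finset.range N, FF i ≤ 2 * ∑ i ∈ Finset.range (N + 1), G i := by
      have h4 : ∑ i ∈ Finset.range N, G (i + 1) ≤ ∑ i ∈ Finset.range (N + 1), G i := by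
        rw [Finset.sum_range_succ' G N]
        linarith [hG0 0]
      have h5 : ∑ i ∈ Finset.range N, G i ≤ ∑ i ∈ Finset.range (N + 1), G i := by
        rw [Finset.sum_range_succ]
        linarith [hG0 N]
      have h6 : ∑ i ∈ Finset.range N, FF i = ∑ i ∈ Finset.range N, G i +
          ∑ i ∈ Finset.range N, G (i + 1) := by
        rw [← Finset.sum_add_distrib]
        exact Finset.sum_congr rfl fun i _ => e1 i
      linarith
    have h4 : ∑ i ∈ Finset.range (N + 1), G i ≤ 48 * T * Real.log T ^ 4 := by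
      rw [e2]
      have h5 : ((N + 1 : ℕ) : ℝ) * H ≤ 3 * T := by
        push_cast
        nlinarith
      have h6 : ∫ u in (0:ℝ)..(((N + 1 : ℕ) : ℝ) * H), (‖z u‖ ^ 2) ^ 2 ≤
          ∫ u in (0:ℝ)..(3 * T), (‖z u‖ ^ 2) ^ 2 :=
        intervalIntegral.integral_mono_interval le_rfl (by positivity) h5
          (Eventually.of_forall fun u => by simp only [Pi.zero_apply]; positivity)
          (Continuous.intervalIntegrable (by fun_prop) _ _)
      have h7 := z_four (T := 3 * T) (by linarith)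
      have h8 : Real.log (3 * T) ≤ 2 * Real.log T := by
        rw [Real.log_mul (by norm_num) hT0.ne']
        have : Real.log 3 ≤ Real.log T := Real.log_le_log (by norm_num) (by linarith)
        linarith
      have h9 : 0 ≤ Real.log (3 * T) := Real.log_nonneg (by linarith)
      have h10 : 3 * T * Real.log (3 * T) ^ 4 ≤ 48 * T * Real.log T ^ 4 := by
        calc 3 * T * Real.log (3 * T) ^ 4 ≤ 3 * T * (2 * Real.log T) ^ 4 := by gcongr
          _ = _ := by ring
      linarith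
    linarith
  calc ∫⁻ β, ENNReal.ofReal ‖∫ t in (0:ℝ)..T, f2 t * (∏ l : Fin k, f2 (t + β l) -
        ∏ l : Fin k, gY Y (t + β l))‖ ∂(mP (Fin k) H)
      ≤ ∫⁻ β, ∑ i ∈ Finset.range N, ENNReal.ofReal ‖∫ t in (bp H T i)..(bp H T (i + 1)),
          f2 t * (∏ l : Fin k, f2 (t + β l) - ∏ l : Fin k, gY Y (t + β l))‖ ∂(mP (Fin k) H) := by
        refine lintegral_mono fun β => ?_
        rw [← ENNReal.ofReal_sum_of_nonneg fun _ _ => norm_nonneg _]
        refine ENNReal.ofReal_le_ofReal ?_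
        rw [blocks hH0 hT0 _ (by fun_prop)]
        exact norm_sum_le _ _
    _ = ∑ i ∈ Finset.range N, ∫⁻ β, ENNReal.ofReal ‖∫ t in (bp H T i)..(bp H T (i + 1)),
          f2 t * (∏ l : Fin k, f2 (t + β l) - ∏ l : Fin k, gY Y (t + β l))‖ ∂(mP (Fin k) H) := by
        refine lintegral_finsetSum _ fun i _ => mor ?_
        refine (int_cont (F := fun (β : Fin k → ℝ) t => f2 t * (∏ l : Fin k, f2 (t + β l) -
          ∏ l : Fin k, gY Y (t + β l))) ?_ _ _).norm
        simp only [Function.uncurry_def]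
        fun_prop
    _ ≤ ∑ i ∈ Finset.range N, ENNReal.ofReal (H ^ k * (2 ^ k * M * W ^ k + 2 * D ^ k * (FF i / W))) :=
        Finset.sum_le_sum hstep
    _ = ENNReal.ofReal (∑ i ∈ Finset.range N, H ^ k * (2 ^ k * M * W ^ k + 2 * D ^ k * (FF i / W))) := by
        rw [ENNReal.ofReal_sum_of_nonneg]
        intro i _
        have : 0 ≤ FF i := intervalIntegral.integral_nonneg (by linarith) fun _ _ => by positivity
        positivity
    _ ≤ _ := by
        refine ENNReal.ofReal_le_ofReal ?_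
        rw [← Finset.mul_sum, Finset.sum_add_distrib, Finset.sum_const, Finset.card_range,
          nsmul_eq_mul, ← Finset.mul_sum, ← Finset.sum_div, mul_assoc (H ^ k)]
        refine mul_le_mul_of_nonneg_left ?_ (by positivity)
        have h1 : (N : ℝ) * (2 ^ k * M * W ^ k) ≤ 2 * (T / H) * (2 ^ k * M * W ^ k) := by gcongr
        have h2 : 2 * (T / H) * (2 ^ k * M * W ^ k) = T * (2 ^ (k + 1) * (2 * C * Real.log T ^ 5 *
            (1 / Real.sqrt Y + T ^ (9 / 10 : ℝ) * (Y : ℝ) ^ 2 / H)) * W ^ k) := by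
          rw [hM]
          field_simp
          ring
        have h3 : 2 * D ^ k * ((∑ i ∈ Finset.range N, FF i) / W) ≤
            2 * D ^ k * ((96 * T * Real.log T ^ 4) / W) := by gcongr
        have h4 : 2 * D ^ k * ((96 * T * Real.log T ^ 4) / W) =
            T * (192 * D ^ k * Real.log T ^ 4 / W) := by ring
        rw [mul_add]
        linarith

end

end Pool.Agent.Y752.KP
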