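import Pool.Agent.Y752.KP.ThmA

set_option autoImplicit false

/-! Replacement of the shifted factors on the whole interval, with a power saving. -/

namespace Pool.Agent.Y752.KP

open Complex Filter Topology MeasureTheory Set
open Pool.Agent.TH612.GS (z mP)
open scoped ENNReal

noncomputable section

/-- size conditions on `Y` -/
lemma Y_size {δ : ℝ} (hδ : 0 < δ) (hδ1 : δ ≤ 1 / 40) : ∃ T₀ : ℝ, 1000 ≤ T₀ ∧ ∀ T : ℝ, T₀ ≤ T →
    ∀ Y : ℕ, T ^ δ ≤ Y → (Y : ℝ) ≤ 2 * T ^ δ → 1 ≤ Y ∧ (Y : ℝ) ≤ T ^ (1 / 20 : ℝ) ∧ (Y : ℝ) + 1 ≤ T ∧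
      (Y : ℝ) ^ 6 ≤ T ^ (9 / 10 : ℝ) := by
  obtain ⟨T0, hT0, h0⟩ := logpow 2 0 (show (0:ℝ) < 1 / 40 by norm_num)
  refine ⟨T0, hT0, fun T hT Y hY1 hY2 => ?_⟩
  have hT1000 : 1000 ≤ T := hT0.trans hT
  have hTp : 0 < T := by linarith
  have hT1 : 1 ≤ T := by linarith
  have h2 := h0 T hT
  rw [pow_zero, mul_one] at h2
  have hYr : 1 ≤ (Y : ℝ) := (Real.one_le_rpow hT1 hδ.le).trans hY1
  have h3 : (Y : ℝ) ≤ T ^ (1 / 20 : ℝ) := by
    calc (Y : ℝ) ≤ 2 * T ^ δ := hY2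
      _ ≤ T ^ (1 / 40 : ℝ) * T ^ (1 / 40 : ℝ) := by
          have : T ^ δ ≤ T ^ (1 / 40 : ℝ) := Real.rpow_le_rpow_of_exponent_le hT1 hδ1
          gcongr
      _ = T ^ (1 / 20 : ℝ) := by rw [← Real.rpow_add hTp]; norm_num
  refine ⟨by exact_mod_cast hYr, h3, ?_, ?_⟩
  · have h1 : T ^ (1 / 20 : ℝ) ≤ T ^ (1 / 2 : ℝ) :=
      Real.rpow_le_rpow_of_exponent_le hT1 (by norm_num)
    have h2 : T ^ (1 / 2 : ℝ) * T ^ (1 / 2 : ℝ) = T := by
      rw [← Real.rpow_add hTp]; norm_num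
    have h3 : 2 ≤ T ^ (1 / 2 : ℝ) := by
      rw [← Real.sqrt_eq_rpow]
      exact Real.le_sqrt_of_sq_le (by linarith)
    nlinarith
  · calc (Y : ℝ) ^ 6 ≤ (T ^ (1 / 20 : ℝ)) ^ 6 := by gcongr
      _ = T ^ (6 / 20 : ℝ) := by
          rw [← Real.rpow_natCast, ← Real.rpow_mul hTp.le]; norm_num
      _ ≤ T ^ (9 / 10 : ℝ) := Real.rpow_le_rpow_of_exponent_le hT1 (by norm_num)

theorem thmA (k : ℕ) {η δ : ℝ} (hδ : 0 < δ) (hδ1 : δ ≤ 1 / 40) (hη : 5 / 2 * δ ≤ η) :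
    ∃ κ T₀ : ℝ, 0 < κ ∧ 1000 ≤ T₀ ∧ ∀ T : ℝ, T₀ ≤ T → ∀ H : ℝ, T ^ (9 / 10 + η) ≤ H → H ≤ T →
    ∀ Y : ℕ, T ^ δ ≤ Y → (Y : ℝ) ≤ 2 * T ^ δ →
    ∫⁻ β, ENNReal.ofReal ‖∫ t in (0:ℝ)..T, f2 t * (∏ l : Fin k, f2 (t + β l) -
      ∏ l : Fin k, gY Y (t + β l))‖ ∂(mP (Fin k) H) ≤ ENNReal.ofReal (H ^ k * T * T ^ (-κ)) := by
  obtain ⟨C1, T1, hC1, hT1, hKA⟩ := KA
  obtain ⟨C2, T2, hC2, hT2, hfs⟩ := f_short
  obtain ⟨T3, hT3, hYs⟩ := Y_size hδ hδ1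
  set C := max C1 C2 with hC
  have hC1' : 1 ≤ C := hC1.trans (le_max_left _ _)
  set ε : ℝ := δ / (4 * ((k : ℝ) + 1)) with hε
  have hk1 : (0:ℝ) < (k : ℝ) + 1 := by positivity
  have hεp : 0 < ε := by positivity
  have hεδ : ε ≤ δ / 4 := by
    rw [hε]
    refine div_le_div_of_nonneg_left hδ.le (by norm_num) ?_
    have : (0:ℝ) ≤ k := by positivity
    linarith
  have hkε : k * ε ≤ δ / 4 := by
    have h1 : ((k : ℝ) + 1) * ε = δ / 4 := by rw [hε]; field_simp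
    nlinarith
  obtain ⟨T4, hT4, hW⟩ := logpow 9 2 hεp
  obtain ⟨T5, hT5, hfin⟩ := logpow (20 * 2 ^ k * C + 192 * (9 * C) ^ k) (5 * k + 5)
    (show 0 < ε / 2 by positivity)
  refine ⟨ε / 2, max T1 (max T2 (max T3 (max T4 T5))), by positivity, hT1.trans (le_max_left _ _), ?_⟩
  intro T hT H hH9 hHT Y hY1 hY2
  have a1 : T1 ≤ T := (le_max_left _ _).trans hT
  have a2 : T2 ≤ T := ((le_max_left _ _).trans (le_max_right _ _)).trans hT
  have a3 : T3 ≤ T := (((le_max_left _ _).trans (le_max_right _ _)).trans (le_max_right _ _)).trans hT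
  have a4 : T4 ≤ T := ((((le_max_left _ _).trans (le_max_right _ _)).trans (le_max_right _ _)).trans
    (le_max_right _ _)).trans hT
  have a5 : T5 ≤ T := ((((le_max_right _ _).trans (le_max_right _ _)).trans (le_max_right _ _)).trans
    (le_max_right _ _)).trans hT
  obtain ⟨y1, y2, y3, y4⟩ := hYs T a3 Y hY1 hY2
  have hT1000 : 1000 ≤ T := hT1.trans a1
  have hTp : 0 < T := by linarith
  have hT1' : 1 ≤ T := by linarith
  have hLg1 : 1 ≤ Real.log T := by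
    rw [Real.le_log_iff_exp_le hTp]
    have := Real.exp_one_lt_d9
    linarith
  have hη0 : 0 ≤ η := by linarith
  have hH9' : T ^ (9 / 10 : ℝ) ≤ H :=
    (Real.rpow_le_rpow_of_exponent_le hT1' (by linarith)).trans hH9
  have hHp : 0 < H := (Real.rpow_pos_of_pos hTp _).trans_le hH9'
  have hYr : (1:ℝ) ≤ Y := by exact_mod_cast y1
  have key := thmA0 (k := k) (C := C) (T := T) (H := H) (W := T ^ ε) (Y := Y) y1 hC1' hT1000 y3 ?_ ?_
    hH9' hHT (y4.trans hH9') (by simpa using hW T a4)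
  · refine key.trans (ENNReal.ofReal_le_ofReal ?_)
    refine mul_le_mul_of_nonneg_left ?_ (by positivity)
    have e1 : 1 / Real.sqrt Y ≤ T ^ (-(δ / 2)) := by
      rw [Real.rpow_neg hTp.le, one_div]
      refine inv_anti₀ (by positivity) ?_
      refine Real.le_sqrt_of_sq_le ?_
      rw [← Real.rpow_natCast, ← Real.rpow_mul hTp.le]
      refine le_trans (le_of_eq ?_) hY1
      congr 1
      push_cast
      ring
    have e2 : T ^ (9 / 10 : ℝ) * (Y : ℝ) ^ 2 / H ≤ 4 * T ^ (-(δ / 2)) := by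
      rw [div_le_iff₀ hHp]
      calc T ^ (9 / 10 : ℝ) * (Y : ℝ) ^ 2 ≤ T ^ (9 / 10 : ℝ) * (2 * T ^ δ) ^ 2 := by gcongr
        _ = 4 * (T ^ (9 / 10 : ℝ) * T ^ (2 * δ)) := by
            rw [mul_pow, ← Real.rpow_natCast (T ^ δ), ← Real.rpow_mul hTp.le]
            push_cast
            rw [mul_comm δ 2]
            ring
        _ = 4 * T ^ (9 / 10 + 2 * δ) := by rw [← Real.rpow_add hTp]
        _ ≤ 4 * T ^ (-(δ / 2) + (9 / 10 + η)) := by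
            have : T ^ (9 / 10 + 2 * δ) ≤ T ^ (-(δ / 2) + (9 / 10 + η)) :=
              Real.rpow_le_rpow_of_exponent_le hT1' (by linarith)
            linarith
        _ = 4 * T ^ (-(δ / 2)) * T ^ (9 / 10 + η) := by rw [Real.rpow_add hTp]; ring
        _ ≤ 4 * T ^ (-(δ / 2)) * H := by gcongr
    have e3 : (T ^ ε) ^ k ≤ T ^ (δ / 4) := by
      rw [← Real.rpow_natCast, ← Real.rpow_mul hTp.le, mul_comm]
      exact Real.rpow_le_rpow_of_exponent_le hT1' hkε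
    have e4 : T ^ (-(δ / 2)) * T ^ (δ / 4) ≤ T ^ (-ε) := by
      rw [← Real.rpow_add hTp]
      exact Real.rpow_le_rpow_of_exponent_le hT1' (by linarith)
    set L := Real.log T with hL
    have l1 : L ^ 5 ≤ L ^ (5 * k + 5) := pow_le_pow_right₀ hLg1 (by omega)
    have l2 : (L ^ 5) ^ k * L ^ 4 ≤ L ^ (5 * k + 5) := by
      rw [← pow_mul, ← pow_add]
      exact pow_le_pow_right₀ hLg1 (by omega)
    have f1 : 2 ^ (k + 1) * (2 * C * L ^ 5 * (1 / Real.sqrt Y + T ^ (9 / 10 : ℝ) * (Y : ℝ) ^ 2 / H)) *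
        (T ^ ε) ^ k ≤ (20 * 2 ^ k * C) * L ^ (5 * k + 5) * T ^ (-ε) := by
      calc 2 ^ (k + 1) * (2 * C * L ^ 5 * (1 / Real.sqrt Y + T ^ (9 / 10 : ℝ) * (Y : ℝ) ^ 2 / H)) *
            (T ^ ε) ^ k
          ≤ 2 ^ (k + 1) * (2 * C * L ^ 5 * (T ^ (-(δ / 2)) + 4 * T ^ (-(δ / 2)))) * T ^ (δ / 4) := by
            gcongr
        _ = (20 * 2 ^ k * C) * L ^ 5 * (T ^ (-(δ / 2)) * T ^ (δ / 4)) := by ring
        _ ≤ (20 * 2 ^ k * C) * L ^ (5 * k + 5) * T ^ (-ε) := by gcongr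
    have f2' : 192 * (9 * C * L ^ 5) ^ k * L ^ 4 / T ^ ε ≤
        (192 * (9 * C) ^ k) * L ^ (5 * k + 5) * T ^ (-ε) := by
      rw [Real.rpow_neg hTp.le, ← div_eq_mul_inv]
      refine div_le_div_of_nonneg_right ?_ (by positivity)
      calc 192 * (9 * C * L ^ 5) ^ k * L ^ 4 = 192 * (9 * C) ^ k * ((L ^ 5) ^ k * L ^ 4) := by
            rw [mul_pow]; ring
        _ ≤ _ := by gcongr
    have f3 := hfin T a5
    calc _ ≤ (20 * 2 ^ k * C) * L ^ (5 * k + 5) * T ^ (-ε) +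
          (192 * (9 * C) ^ k) * L ^ (5 * k + 5) * T ^ (-ε) := add_le_add f1 f2'
      _ = ((20 * 2 ^ k * C + 192 * (9 * C) ^ k) * L ^ (5 * k + 5)) * T ^ (-ε) := by ring
      _ ≤ T ^ (ε / 2) * T ^ (-ε) := by gcongr
      _ = T ^ (-(ε / 2)) := by
          rw [← Real.rpow_add hTp]
          congr 1
          ring
  · intro A B lam hA hAB hB
    refine (hKA T a1 Y y1 y2 A B lam hA hAB hB).trans ?_
    have : 0 ≤ (B - A) / Real.sqrt Y := div_nonneg (by linarith) (Real.sqrt_nonneg _)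
    have h2 : C1 ≤ C := le_max_left _ _
    gcongr
  · intro A B hA hAB hB
    refine (hfs T a2 A B hA hAB hB).trans ?_
    have : 0 ≤ B - A := by linarith
    have h2 : C2 ≤ C := le_max_right _ _
    gcongr

end

end Pool.Agent.Y752.KP
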