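import Pool.Agent.Y752.KP.Ar
import Pool.Agent.Y752.KP.ThmA2

set_option autoImplicit false
set_option linter.unusedSectionVars false

/-! The deterministic part: from zeta times main functions to the diagonal. -/

namespace Pool.Agent.Y752.KP

open Complex Filter Topology MeasureTheory Set
open Pool.Agent.TH612.GS (z mP)
open scoped ENNReal

noncomputable section

lemma prod_Yve (k Y' Y : ℕ) (g : ℕ → ℝ) : ∏ j, g (Yve k Y' Y j) = g Y' * g Y ^ k := by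
  unfold Yve
  rw [Fin.prod_univ_succ]
  simp only [Fin.cons_zero, Fin.cons_succ, Finset.prod_const, Finset.card_univ, Fintype.card_fin]

theorem thmB (k : ℕ) {δ : ℝ} (hδ : 0 < δ) (hδ1 : δ * (1000 * ((k : ℝ) + 1)) ≤ 1) :
    ∃ κ T₀ : ℝ, 0 < κ ∧ 1000 ≤ T₀ ∧ ∀ T : ℝ, T₀ ≤ T → ∀ Y Y' : ℕ, T ^ δ ≤ Y →
    (Y : ℝ) ≤ 2 * T ^ δ → T ^ ((4 * k + 2) * δ) ≤ Y' → (Y' : ℝ) ≤ 2 * T ^ ((4 * k + 2) * δ) →
    ∀ β : Fin k → ℝ, (∀ l, 0 ≤ β l ∧ β l ≤ T) →
    ‖(∫ t in (0:ℝ)..T, f2 t * ∏ l, gY Y (t + β l)) -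
      ∑ A ∈ (Finset.univ : Finset (Fin (k + 1))).powerset, ((WA (cve β) T A : ℝ) : ℂ) *
        SB (Yve k Y' Y) (cve β) (Finset.univ \ A)‖ ≤ T * T ^ (-κ) := by
  have hk0 : (0:ℝ) ≤ k := by positivity
  have hδ40 : δ ≤ 1 / 40 := by nlinarith
  have hδ'0 : 0 < (4 * (k : ℝ) + 2) * δ := by positivity
  have hδ'40 : (4 * (k : ℝ) + 2) * δ ≤ 1 / 40 := by nlinarith
  obtain ⟨C, T1, hC, hT1, hKA⟩ := KA
  obtain ⟨T2, hT2, hYs⟩ := Y_size hδ hδ40
  obtain ⟨T3, hT3, hYs'⟩ := Y_size hδ'0 hδ'40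
  obtain ⟨T4, hT4, hfin⟩ := logpow (5 * 4 ^ k * 9 ^ k * C + 4 * 9 ^ (k + 1) * (2 ^ (k + 1)) ^ 3)
    (k + 5) (show 0 < δ / 2 by positivity)
  refine ⟨δ / 2, max T1 (max T2 (max T3 T4)), by positivity, hT1.trans (le_max_left _ _), ?_⟩
  intro T hT Y Y' hY1 hY2 hY1' hY2' β hβ
  have a1 : T1 ≤ T := (le_max_left _ _).trans hT
  have a2 : T2 ≤ T := ((le_max_left _ _).trans (le_max_right _ _)).trans hT
  have a3 : T3 ≤ T := (((le_max_left _ _).trans (le_max_right _ _)).trans (le_max_right _ _)).trans hT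
  have a4 : T4 ≤ T := (((le_max_right _ _).trans (le_max_right _ _)).trans (le_max_right _ _)).trans hT
  obtain ⟨y1, y2, y3, y4⟩ := hYs T a2 Y hY1 hY2
  obtain ⟨y1', y2', y3', y4'⟩ := hYs' T a3 Y' hY1' hY2'
  have hT1000 : 1000 ≤ T := hT1.trans a1
  have hTp : 0 < T := by linarith
  have hT1' : 1 ≤ T := by linarith
  have hLg1 : 1 ≤ Real.log T := by
    rw [Real.le_log_iff_exp_le hTp]
    have := Real.exp_one_lt_d9
    linarith
  set L := Real.log T with hL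
  have cg := gY_cont Y
  have cg' := gY_cont Y'
  have cf := f2_cont
  have hYr : (1:ℝ) ≤ Y := by exact_mod_cast y1
  have hYr' : (1:ℝ) ≤ Y' := by exact_mod_cast y1'
  set δ' : ℝ := (4 * (k : ℝ) + 2) * δ with hδ'
  -- first step
  have s1 := e2_bd (ι := Fin k) (T := T) (M := C * L ^ 5 * (T / Real.sqrt Y' +
    T ^ (9 / 10 : ℝ) * (Y' : ℝ) ^ 2)) (by linarith) (Yv := fun _ => Y) (fun _ => by linarith)
    (c := β) (fun l => ⟨(hβ l).1, by linarith [(hβ l).2]⟩) (fun t => f2 t - gY Y' t) (by fun_prop)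
    (by
      intro lam y hy
      refine (hKA T a1 Y' y1' y2' 0 y lam le_rfl hy.1 (by linarith [hy.2])).trans ?_
      have h1 : (y - 0) / Real.sqrt Y' ≤ T / Real.sqrt Y' := by
        refine div_le_div_of_nonneg_right ?_ (Real.sqrt_nonneg _)
        linarith [hy.2]
      gcongr)
  -- second step
  have hc2 : ∀ j : Fin (k + 1), 0 ≤ cve β j ∧ cve β j ≤ 2 * T := by
    intro j
    unfold cve
    refine Fin.cases ?_ (fun l => ?_) j
    · simp only [Fin.cons_zero]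
      constructor <;> linarith
    · simp only [Fin.cons_succ]
      exact ⟨(hβ l).1, by linarith [(hβ l).2]⟩
  have hY2T : ∀ j : Fin (k + 1), ((Yve k Y' Y j : ℕ) : ℝ) ≤ T := by
    intro j
    unfold Yve
    refine Fin.cases ?_ (fun l => ?_) j
    · simp only [Fin.cons_zero]; linarith
    · simp only [Fin.cons_succ]; linarith
  have s2 := e3_bd (ι := Fin (k + 1)) (T := T) (by linarith) (Yv := Yve k Y' Y) hY2T
    (c := cve β) hc2
  have e1 : ∀ t, ∏ j, gY (Yve k Y' Y j) (t + cve β j) = gY Y' t * ∏ l, gY Y (t + β l) := by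
    intro t
    rw [Fin.prod_univ_succ]
    unfold Yve cve
    simp only [Fin.cons_zero, Fin.cons_succ, add_zero]
  simp only [e1] at s2
  have e2 : ∫ t in (0:ℝ)..T, f2 t * ∏ l, gY Y (t + β l) =
      (∫ t in (0:ℝ)..T, (f2 t - gY Y' t) * ∏ l, gY Y (t + β l)) +
      ∫ t in (0:ℝ)..T, gY Y' t * ∏ l, gY Y (t + β l) := by
    rw [← intervalIntegral.integral_add (Continuous.intervalIntegrable (by fun_prop) _ _)
      (Continuous.intervalIntegrable (by fun_prop) _ _)]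
    refine intervalIntegral.integral_congr fun t _ => ?_
    ring
  rw [e2, add_sub_assoc]
  refine (norm_add_le _ _).trans ?_
  refine (add_le_add s1 s2).trans ?_
  rw [prod_Yve k Y' Y (fun n => (n : ℝ) ^ 2), prod_Yve k Y' Y (fun n => (n : ℝ))]
  simp only [Finset.prod_const, Finset.card_univ, Fintype.card_fin]
  have r1 : ∀ a b : ℝ, T ^ a * T ^ b = T ^ (a + b) := fun a b => (Real.rpow_add hTp a b).symm
  have b1 : ((Y : ℝ) ^ 2) ^ k ≤ 4 ^ k * T ^ (2 * k * δ) := by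
    calc ((Y : ℝ) ^ 2) ^ k ≤ ((2 * T ^ δ) ^ 2) ^ k := by gcongr
      _ = 4 ^ k * T ^ (2 * k * δ) := by
          rw [mul_pow, mul_pow, ← Real.rpow_natCast (T ^ δ) 2, ← Real.rpow_mul hTp.le,
            ← Real.rpow_natCast _ k, ← Real.rpow_natCast _ k, ← Real.rpow_mul hTp.le]
          norm_num
          congr 1
          ring
  have b2 : T / Real.sqrt Y' ≤ T * T ^ (-(δ' / 2)) := by
    rw [div_eq_mul_inv]
    refine mul_le_mul_of_nonneg_left ?_ hTp.le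
    rw [Real.rpow_neg hTp.le]
    refine inv_anti₀ (by positivity) ?_
    refine Real.le_sqrt_of_sq_le ?_
    rw [← Real.rpow_natCast, ← Real.rpow_mul hTp.le]
    refine le_trans (le_of_eq ?_) hY1'
    congr 1
    push_cast
    ring
  have b3 : T ^ (9 / 10 : ℝ) * (Y' : ℝ) ^ 2 ≤ 4 * (T * T ^ (-(1 / 10) + 2 * δ')) := by
    calc T ^ (9 / 10 : ℝ) * (Y' : ℝ) ^ 2 ≤ T ^ (9 / 10 : ℝ) * (2 * T ^ δ') ^ 2 := by gcongr
      _ = 4 * (T ^ (9 / 10 : ℝ) * T ^ (2 * δ')) := by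
          rw [mul_pow, ← Real.rpow_natCast (T ^ δ'), ← Real.rpow_mul hTp.le]
          push_cast
          rw [mul_comm δ' 2]
          ring
      _ = 4 * T ^ (9 / 10 + 2 * δ') := by rw [r1]
      _ = 4 * (T ^ (1:ℝ) * T ^ (-(1 / 10) + 2 * δ')) := by
          rw [r1]
          congr 2
          ring
      _ = _ := by rw [Real.rpow_one]
  have c1 : ((Y : ℝ) ^ 2) ^ k * ((9 * L) ^ k * (C * L ^ 5 * (T / Real.sqrt Y' +
      T ^ (9 / 10 : ℝ) * (Y' : ℝ) ^ 2))) ≤ (5 * 4 ^ k * 9 ^ k * C) * L ^ (k + 5) * (T * T ^ (-δ)) := by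
    calc ((Y : ℝ) ^ 2) ^ k * ((9 * L) ^ k * (C * L ^ 5 * (T / Real.sqrt Y' +
          T ^ (9 / 10 : ℝ) * (Y' : ℝ) ^ 2)))
        ≤ (4 ^ k * T ^ (2 * k * δ)) * ((9 * L) ^ k * (C * L ^ 5 * (T * T ^ (-(δ' / 2)) +
          4 * (T * T ^ (-(1 / 10) + 2 * δ'))))) := by gcongr
      _ = (4 ^ k * 9 ^ k * C) * L ^ (k + 5) * (T * (T ^ (2 * k * δ) * T ^ (-(δ' / 2)) +
          4 * (T ^ (2 * k * δ) * T ^ (-(1 / 10) + 2 * δ')))) := by
          rw [mul_pow, pow_add]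
          ring
      _ ≤ (4 ^ k * 9 ^ k * C) * L ^ (k + 5) * (T * (T ^ (-δ) + 4 * T ^ (-δ))) := by
          have g1 : T ^ (2 * k * δ) * T ^ (-(δ' / 2)) ≤ T ^ (-δ) := by
            rw [r1]
            refine Real.rpow_le_rpow_of_exponent_le hT1' ?_
            rw [hδ']
            linarith
          have g2 : T ^ (2 * k * δ) * T ^ (-(1 / 10) + 2 * δ') ≤ T ^ (-δ) := by
            rw [r1]
            refine Real.rpow_le_rpow_of_exponent_le hT1' ?_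
            rw [hδ']
            nlinarith
          gcongr
      _ = _ := by ring
  have c2 : (Y' : ℝ) ^ 2 * ((Y : ℝ) ^ 2) ^ k * ((9 * L) ^ (k + 1) * (4 * ((Y' : ℝ) * (Y : ℝ) ^ k))) ≤
      (4 * 9 ^ (k + 1) * (2 ^ (k + 1)) ^ 3) * L ^ (k + 5) * (T * T ^ (-δ)) := by
    have g1 : (Y' : ℝ) * (Y : ℝ) ^ k ≤ 2 ^ (k + 1) * T ^ ((5 * k + 2) * δ) := by
      calc (Y' : ℝ) * (Y : ℝ) ^ k ≤ (2 * T ^ δ') * (2 * T ^ δ) ^ k := by gcongr
        _ = 2 ^ (k + 1) * (T ^ δ' * (T ^ δ) ^ k) := by rw [mul_pow]; ring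
        _ = _ := by
            rw [← Real.rpow_natCast (T ^ δ) k, ← Real.rpow_mul hTp.le, r1]
            congr 2
            rw [hδ']
            ring
    have g2 : (T ^ ((5 * k + 2) * δ)) ^ 3 ≤ T * T ^ (-δ) := by
      calc (T ^ ((5 * k + 2) * δ)) ^ 3 = T ^ ((5 * k + 2) * δ * 3) := by
            rw [← Real.rpow_natCast, ← Real.rpow_mul hTp.le]
            norm_num
        _ ≤ T ^ (1 + (-δ)) := by
            refine Real.rpow_le_rpow_of_exponent_le hT1' ?_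
            nlinarith
        _ = _ := by rw [Real.rpow_add hTp, Real.rpow_one]
    have g3 : L ^ (k + 1) ≤ L ^ (k + 5) := pow_le_pow_right₀ hLg1 (by omega)
    calc (Y' : ℝ) ^ 2 * ((Y : ℝ) ^ 2) ^ k * ((9 * L) ^ (k + 1) * (4 * ((Y' : ℝ) * (Y : ℝ) ^ k)))
        = 4 * (9 * L) ^ (k + 1) * ((Y' : ℝ) * (Y : ℝ) ^ k) ^ 3 := by ring
      _ ≤ 4 * (9 * L) ^ (k + 1) * (2 ^ (k + 1) * T ^ ((5 * k + 2) * δ)) ^ 3 := by gcongr
      _ = (4 * 9 ^ (k + 1) * (2 ^ (k + 1)) ^ 3) * L ^ (k + 1) * (T ^ ((5 * k + 2) * δ)) ^ 3 := by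
          rw [mul_pow 9 L, mul_pow (2 ^ (k + 1))]
          ring
      _ ≤ _ := by gcongr
  have c3 := hfin T a4
  calc _ ≤ (5 * 4 ^ k * 9 ^ k * C) * L ^ (k + 5) * (T * T ^ (-δ)) +
        (4 * 9 ^ (k + 1) * (2 ^ (k + 1)) ^ 3) * L ^ (k + 5) * (T * T ^ (-δ)) := add_le_add c1 c2
    _ = (5 * 4 ^ k * 9 ^ k * C + 4 * 9 ^ (k + 1) * (2 ^ (k + 1)) ^ 3) * L ^ (k + 5) *
        (T * T ^ (-δ)) := by ring
    _ ≤ T ^ (δ / 2) * (T * T ^ (-δ)) := by gcongr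
    _ = T * (T ^ (δ / 2) * T ^ (-δ)) := by ring
    _ = T * T ^ (-(δ / 2)) := by
        rw [r1]
        congr 2
        ring

end

end Pool.Agent.Y752.KP
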