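import Pool.Agent.Y752.KP.Exp

set_option autoImplicit false
set_option linter.unusedSectionVars false

/-! Truncated Poisson kernels. -/

namespace Pool.Agent.Y752.KP

open Complex Filter Topology MeasureTheory Set

noncomputable section

/-- exponents of a reduced pair at a prime -/
def EM (M : ℕ) : Finset (ℕ × ℕ) :=
  ((Finset.range (M + 1)) ×ˢ (Finset.range (M + 1))).filter fun e => e.1 = 0 ∨ e.2 = 0

lemma mem_EM {M : ℕ} {e : ℕ × ℕ} : e ∈ EM M ↔ e.1 ≤ M ∧ e.2 ≤ M ∧ (e.1 = 0 ∨ e.2 = 0) := by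
  unfold EM
  rw [Finset.mem_filter, Finset.mem_product, Finset.mem_range, Finset.mem_range]
  constructor
  · rintro ⟨⟨h1, h2⟩, h3⟩
    exact ⟨by omega, by omega, h3⟩
  · rintro ⟨h1, h2, h3⟩
    exact ⟨⟨by omega, by omega⟩, h3⟩

lemma sum_EM {R : Type} [CommRing R] (M : ℕ) (y v : R) :
    ∑ e ∈ EM M, y ^ e.1 * v ^ e.2 = ∑ n ∈ Finset.range (M + 1), y ^ n +
      ∑ n ∈ Finset.range M, v ^ (n + 1) := by
  have h1 : EM M = (Finset.range (M + 1)).image (fun n => (n, 0)) ∪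
      (Finset.range M).image (fun n => (0, n + 1)) := by
    ext e
    obtain ⟨a, b⟩ := e
    rw [mem_EM]
    simp only [Finset.mem_union, Finset.mem_image, Finset.mem_range, Prod.mk.injEq]
    constructor
    · rintro ⟨h1, h2, h3⟩
      by_cases hb : b = 0
      · left
        exact ⟨a, by omega, rfl, hb.symm⟩
      · right
        exact ⟨b - 1, by omega, by omega, by omega⟩
    · rintro (⟨n, h1, h2, h3⟩ | ⟨n, h1, h2, h3⟩)
      · refine ⟨by omega, by omega, Or.inr h3.symm⟩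
      · refine ⟨by omega, by omega, Or.inl h2.symm⟩
  have hd : Disjoint ((Finset.range (M + 1)).image (fun n => (n, 0)))
      ((Finset.range M).image (fun n => (0, n + 1))) := by
    rw [Finset.disjoint_left]
    intro e h2 h3
    simp only [Finset.mem_image, Finset.mem_range] at h2 h3
    obtain ⟨n, _, rfl⟩ := h2
    obtain ⟨m, _, h4⟩ := h3
    simp only [Prod.mk.injEq] at h4
    omega
  rw [h1, Finset.sum_union hd, Finset.sum_image, Finset.sum_image]
  · simp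
  · intro a _ b _ h
    simp only [Prod.mk.injEq] at h
    omega
  · intro a _ b _ h
    simp only [Prod.mk.injEq] at h
    omega

lemma poisson (M : ℕ) {y : ℂ} {r : ℝ} (hr : ‖y‖ = r) (hr1 : r < 1) :
    ‖(∑ e ∈ EM M, y ^ e.1 * (starRingEnd ℂ) y ^ e.2) - (((1 - r ^ 2) / ‖1 - y‖ ^ 2 : ℝ) : ℂ)‖ ≤
      2 * r ^ (M + 1) / (1 - r) := by
  have hr0 : 0 ≤ r := hr ▸ norm_nonneg y
  set v := (starRingEnd ℂ) y with hv
  have hvn : ‖v‖ = r := by rw [hv, Complex.norm_conj, hr]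
  have hu : 1 - r ≤ ‖1 - y‖ := by
    have := norm_sub_norm_le (1:ℂ) y
    rw [norm_one, hr] at this
    exact this
  have hu2 : 1 - r ≤ ‖1 - v‖ := by
    have := norm_sub_norm_le (1:ℂ) v
    rw [norm_one, hvn] at this
    exact this
  have hpos : 0 < 1 - r := by linarith
  have hy : 1 - y ≠ 0 := by
    intro h
    rw [h, norm_zero] at hu
    linarith
  have hv1 : 1 - v ≠ 0 := by
    intro h
    rw [h, norm_zero] at hu2
    linarith
  have e1 : ((‖1 - y‖ ^ 2 : ℝ) : ℂ) = (1 - y) * (1 - v) := by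
    rw [← Complex.normSq_eq_norm_sq, Complex.normSq_eq_conj_mul_self, map_sub, map_one, mul_comm]
  have e2 : ((r ^ 2 : ℝ) : ℂ) = y * v := by
    rw [← hr, ← Complex.normSq_eq_norm_sq, Complex.normSq_eq_conj_mul_self, mul_comm]
  have e3 : (((1 - r ^ 2) / ‖1 - y‖ ^ 2 : ℝ) : ℂ) = (1 - y * v) / ((1 - y) * (1 - v)) := by
    rw [← e1, ← e2]
    push_cast
    ring
  have g1 : ∑ n ∈ Finset.range (M + 1), y ^ n = (1 - y ^ (M + 1)) / (1 - y) := by
    rw [eq_div_iff hy, mul_comm, mul_neg_geom_sum]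
  have g2 : ∑ n ∈ Finset.range M, v ^ (n + 1) = v * (1 - v ^ M) / (1 - v) := by
    have : ∑ n ∈ Finset.range M, v ^ (n + 1) = v * ∑ n ∈ Finset.range M, v ^ n := by
      rw [Finset.mul_sum]
      exact Finset.sum_congr rfl fun n _ => by rw [pow_succ, mul_comm]
    rw [this, eq_div_iff hv1, mul_assoc, mul_comm _ (1 - v), mul_neg_geom_sum]
  have e4 : (∑ e ∈ EM M, y ^ e.1 * v ^ e.2) - (((1 - r ^ 2) / ‖1 - y‖ ^ 2 : ℝ) : ℂ) =
      -(y ^ (M + 1) / (1 - y) + v ^ (M + 1) / (1 - v)) := by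
    rw [sum_EM, g1, g2, e3]
    field_simp
    ring
  rw [e4, norm_neg]
  refine (norm_add_le _ _).trans ?_
  rw [norm_div, norm_div, norm_pow, norm_pow, hr, hvn]
  have h5 : r ^ (M + 1) / ‖1 - y‖ ≤ r ^ (M + 1) / (1 - r) := by gcongr
  have h6 : r ^ (M + 1) / ‖1 - v‖ ≤ r ^ (M + 1) / (1 - r) := by gcongr
  have h7 : 2 * r ^ (M + 1) / (1 - r) = r ^ (M + 1) / (1 - r) + r ^ (M + 1) / (1 - r) := by ring
  rw [h7]
  exact add_le_add h5 h6

lemma poisson_bd (M : ℕ) {y : ℂ} {r : ℝ} (hr : ‖y‖ = r) (hr1 : r < 1) :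
    ‖∑ e ∈ EM M, y ^ e.1 * (starRingEnd ℂ) y ^ e.2‖ ≤ 2 / (1 - r) := by
  have hr0 : 0 ≤ r := hr ▸ norm_nonneg y
  have hpos : 0 < 1 - r := by linarith
  have hg : ∀ n : ℕ, ∑ i ∈ Finset.range n, r ^ i ≤ 1 / (1 - r) := by
    intro n
    rw [le_div_iff₀ hpos, mul_comm, mul_neg_geom_sum]
    have : 0 ≤ r ^ n := by positivity
    linarith
  rw [sum_EM]
  refine (norm_add_le _ _).trans ?_
  have h1 : ‖∑ n ∈ Finset.range (M + 1), y ^ n‖ ≤ 1 / (1 - r) := by
    refine (norm_sum_le _ _).trans (le_trans (le_of_eq ?_) (hg (M + 1)))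
    exact Finset.sum_congr rfl fun n _ => by rw [norm_pow, hr]
  have h2 : ‖∑ n ∈ Finset.range M, (starRingEnd ℂ) y ^ (n + 1)‖ ≤ 1 / (1 - r) := by
    refine (norm_sum_le _ _).trans (le_trans ?_ (hg M))
    refine Finset.sum_le_sum fun n _ => ?_
    rw [norm_pow, Complex.norm_conj, hr]
    exact pow_le_pow_of_le_one hr0 hr1.le (Nat.le_succ n)
  have h3 : 2 / (1 - r) = 1 / (1 - r) + 1 / (1 - r) := by ring
  rw [h3]
  exact add_le_add h1 h2

/-- differences of products -/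
lemma prod_diffC {ι : Type} [DecidableEq ι] (s : Finset ι) (a b : ι → ℂ) {B D : ℝ} (hB : 1 ≤ B)
    (ha : ∀ j ∈ s, ‖a j‖ ≤ B) (hb : ∀ j ∈ s, ‖b j‖ ≤ B) (hD0 : 0 ≤ D)
    (hD : ∀ j ∈ s, ‖a j - b j‖ ≤ D) :
    ‖∏ j ∈ s, a j - ∏ j ∈ s, b j‖ ≤ s.card * B ^ s.card * D := by
  induction s using Finset.induction_on with
  | empty => simp
  | insert j s hj ih =>
    have ih' := ih (fun i hi => ha i (Finset.mem_insert_of_mem hi))
      (fun i hi => hb i (Finset.mem_insert_of_mem hi))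
      (fun i hi => hD i (Finset.mem_insert_of_mem hi))
    have hbj := hb j (Finset.mem_insert_self j s)
    have hDj := hD j (Finset.mem_insert_self j s)
    have hp : ‖∏ i ∈ s, a i‖ ≤ B ^ s.card := by
      rw [norm_prod]
      refine (Finset.prod_le_prod (fun _ _ => norm_nonneg _)
        fun i hi => ha i (Finset.mem_insert_of_mem hi)).trans (le_of_eq ?_)
      rw [Finset.prod_const]
    rw [Finset.prod_insert hj, Finset.prod_insert hj, Finset.card_insert_of_notMem hj]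
    have e1 : a j * ∏ i ∈ s, a i - b j * ∏ i ∈ s, b i = (a j - b j) * ∏ i ∈ s, a i +
        b j * (∏ i ∈ s, a i - ∏ i ∈ s, b i) := by ring
    rw [e1]
    refine (norm_add_le _ _).trans ?_
    rw [norm_mul, norm_mul]
    have hBs : 0 ≤ B ^ s.card := by positivity
    calc ‖a j - b j‖ * ‖∏ i ∈ s, a i‖ + ‖b j‖ * ‖∏ i ∈ s, a i - ∏ i ∈ s, b i‖
        ≤ D * B ^ s.card + B * (s.card * B ^ s.card * D) := by gcongr
      _ ≤ D * B ^ (s.card + 1) + B * (s.card * B ^ s.card * D) := by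
          have : B ^ s.card ≤ B ^ (s.card + 1) := pow_le_pow_right₀ hB (Nat.le_succ _)
          gcongr
      _ = _ := by
        push_cast
        ring

end

end Pool.Agent.Y752.KP
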