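import Pool.Agent.Y752.KP.To1

set_option autoImplicit false
set_option linter.unusedSectionVars false

/-! Reduced pairs built from small primes. -/

namespace Pool.Agent.Y752.KP

open Complex Filter Topology MeasureTheory Set

noncomputable section

/-- the primes up to `m` -/
def Pr (m : ℕ) : Finset ℕ := (Finset.range (m + 1)).filter Nat.Prime

lemma mem_Pr {m p : ℕ} : p ∈ Pr m ↔ p ≤ m ∧ p.Prime := by
  unfold Pr
  rw [Finset.mem_filter, Finset.mem_range]
  constructor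
  · rintro ⟨h1, h2⟩; exact ⟨by omega, h2⟩
  · rintro ⟨h1, h2⟩; exact ⟨by omega, h2⟩

/-- all prime factors are at most `m` -/
def smn (m n : ℕ) : Prop := ∀ p, p.Prime → p ∣ n → p ≤ m

/-- a pair built from small primes -/
def sm (m : ℕ) (q : ℕ × ℕ) : Prop := smn m q.1 ∧ smn m q.2

/-- the Euler factor variable -/
def yp (p : ℕ) (c θ : ℝ) : ℂ := (((Real.sqrt p)⁻¹ : ℝ) : ℂ) * (ee (Real.log p) c * ee (-(2 * Real.pi)) θ)

lemma yp_norm (p : ℕ) (c θ : ℝ) : ‖yp p c θ‖ = (Real.sqrt p)⁻¹ := by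
  unfold yp
  rw [norm_mul, norm_mul, ee_norm, ee_norm, mul_one, mul_one, Complex.norm_real,
    Real.norm_of_nonneg (by positivity)]

lemma ee_pow (θ u : ℝ) (n : ℕ) : ee θ u ^ n = ee (n * θ) u := by
  unfold ee
  rw [← Complex.exp_nat_mul]
  congr 1
  push_cast
  ring

lemma yp_pow (p : ℕ) (c θ : ℝ) (a b : ℕ) : yp p c θ ^ a * (starRingEnd ℂ) (yp p c θ) ^ b =
    ((((Real.sqrt p)⁻¹) ^ a * ((Real.sqrt p)⁻¹) ^ b : ℝ) : ℂ) *
      (ee (a * Real.log p - b * Real.log p) c * ee (((a : ℝ) - b) * (-(2 * Real.pi))) θ) := by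
  unfold yp
  rw [map_mul, map_mul, Complex.conj_ofReal, ee_conj, ee_conj, mul_pow, mul_pow, mul_pow, mul_pow,
    ee_pow, ee_pow, ee_pow, ee_pow, sub_eq_add_neg, ee_add]
  have h1 : ee (((a : ℝ) - b) * (-(2 * Real.pi))) θ =
      ee (a * (-(2 * Real.pi))) θ * ee (b * (-(-(2 * Real.pi)))) θ := by
    rw [← ee_add]
    congr 1
    ring
  have h2 : ee (b * (-Real.log p)) c = ee (-(b * Real.log p)) c := by
    congr 1
    ring
  rw [h1, h2]
  push_cast
  ring

lemma recon {m n : ℕ} (hn : n ≠ 0) (h : smn m n) :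
    ∏ p : Pr m, (p : ℕ) ^ (n.factorization p) = n := by
  rw [Finset.prod_coe_sort (Pr m) (fun p => p ^ n.factorization p)]
  have h1 := Nat.prod_factorization_pow_eq_self hn
  have h2 : n.factorization.support ⊆ Pr m := by
    intro p hp
    rw [Nat.support_factorization, Nat.mem_primeFactors] at hp
    exact mem_Pr.2 ⟨h p hp.1 hp.2.1, hp.1⟩
  rw [← Finsupp.prod_of_support_subset n.factorization h2 (fun p k => p ^ k) (fun _ _ => pow_zero _)]
  exact h1

lemma recon_sqrt {m n : ℕ} (hn : n ≠ 0) (h : smn m n) :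
    ∏ p : Pr m, ((Real.sqrt (p : ℕ))⁻¹) ^ (n.factorization p) = (Real.sqrt n)⁻¹ := by
  have h1 : ∀ p : Pr m, ((Real.sqrt (p : ℕ))⁻¹) ^ (n.factorization p) =
      (Real.sqrt (((p : ℕ) : ℝ) ^ (n.factorization p)))⁻¹ := by
    intro p
    rw [inv_pow, Real.sqrt_eq_rpow, Real.sqrt_eq_rpow, ← Real.rpow_natCast, ← Real.rpow_natCast,
      ← Real.rpow_mul (by positivity), ← Real.rpow_mul (by positivity), mul_comm (1 / 2 : ℝ)]
  simp only [h1]
  rw [Finset.prod_inv_distrib, ← Real.sqrt_prod _ fun _ _ => by positivity]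
  congr 2
  have := recon hn h
  exact_mod_cast this

lemma recon_log {m n : ℕ} (hn : n ≠ 0) (h : smn m n) :
    ∑ p : Pr m, (n.factorization p : ℝ) * Real.log (p : ℕ) = Real.log n := by
  have h1 := recon hn h
  have h2 : Real.log n = Real.log (∏ p : Pr m, (((p : ℕ) : ℝ) ^ (n.factorization p))) := by
    congr 1
    exact_mod_cast h1.symm
  rw [h2, Real.log_prod]
  · refine Finset.sum_congr rfl fun p _ => ?_
    rw [Real.log_pow]
  · intro p _
    have := (mem_Pr.1 p.2).2.pos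
    positivity

/-- the character of a pair on the torus -/
def chi {m : ℕ} (θ : Pr m → ℝ) (q : ℕ × ℕ) : ℂ :=
  ∏ p : Pr m, ee (((q.1.factorization p : ℝ) - q.2.factorization p) * (-(2 * Real.pi))) (θ p)

lemma F_eq {m : ℕ} {q : ℕ × ℕ} (h1 : 1 ≤ q.1) (h2 : 1 ≤ q.2) (hs : sm m q) (c : ℝ) (θ : Pr m → ℝ) :
    ∏ p : Pr m, (yp p c (θ p) ^ (q.1.factorization p) *
      (starRingEnd ℂ) (yp p c (θ p)) ^ (q.2.factorization p)) =
    ((wt q : ℝ) : ℂ) * ee (fr q) c * chi θ q := by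
  have n1 : q.1 ≠ 0 := by omega
  have n2 : q.2 ≠ 0 := by omega
  simp only [yp_pow]
  rw [Finset.prod_mul_distrib, Finset.prod_mul_distrib]
  have e1 : ∏ p : Pr m, ((((Real.sqrt (p : ℕ))⁻¹) ^ (q.1.factorization p) *
      ((Real.sqrt (p : ℕ))⁻¹) ^ (q.2.factorization p) : ℝ) : ℂ) = ((wt q : ℝ) : ℂ) := by
    rw [← Complex.ofReal_prod, Finset.prod_mul_distrib, recon_sqrt n1 hs.1, recon_sqrt n2 hs.2, wt_eq]
  have e2 : ∏ p : Pr m, ee (q.1.factorization p * Real.log (p : ℕ) -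
      q.2.factorization p * Real.log (p : ℕ)) c = ee (fr q) c := by
    rw [ee_sum, Finset.sum_sub_distrib, recon_log n1 hs.1, recon_log n2 hs.2]
    rfl
  rw [e1, e2]
  unfold chi
  ring

end

end Pool.Agent.Y752.KP
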