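import Pool.Agent.Y752.KP.To2

set_option autoImplicit false
set_option linter.unusedSectionVars false

/-! Exponent vectors and reduced pairs; tails. -/

namespace Pool.Agent.Y752.KP

open Complex Filter Topology MeasureTheory Set

noncomputable section

/-- exponent vectors -/
def EV (m M : ℕ) : Finset (Pr m → ℕ × ℕ) := Fintype.piFinset fun _ => EM M

/-- the pair of an exponent vector -/
def An {m : ℕ} (ν : Pr m → ℕ × ℕ) : ℕ × ℕ :=
  (∏ p : Pr m, (p : ℕ) ^ (ν p).1, ∏ p : Pr m, (p : ℕ) ^ (ν p).2)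

lemma Pr_prime {m : ℕ} (p : Pr m) : (p : ℕ).Prime := (mem_Pr.1 p.2).2

lemma fac_prod {m : ℕ} (f : Pr m → ℕ) (p0 : Pr m) :
    (∏ p : Pr m, (p : ℕ) ^ (f p)).factorization p0 = f p0 := by
  rw [Nat.factorization_prod (fun p _ => (pow_pos (Pr_prime p).pos _).ne'), Finsupp.finsetSum_apply]
  rw [Finset.sum_eq_single p0]
  · rw [Nat.factorization_pow, Finsupp.smul_apply, (Pr_prime p0).factorization_self, smul_eq_mul,
      mul_one]
  · intro p _ hp
    refine Nat.factorization_eq_zero_of_not_dvd fun h => hp ?_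
    have h1 := (Pr_prime p0).dvd_of_dvd_pow h
    exact Subtype.ext ((Nat.prime_dvd_prime_iff_eq (Pr_prime p0) (Pr_prime p)).1 h1).symm
  · intro h
    exact absurd (Finset.mem_univ _) h

lemma sm_prod {m : ℕ} (f : Pr m → ℕ) : smn m (∏ p : Pr m, (p : ℕ) ^ (f p)) := by
  intro r hr hd
  obtain ⟨p, _, hp⟩ := (Prime.dvd_finsetProd_iff hr.prime _).1 hd
  have h1 := hr.dvd_of_dvd_pow hp
  rw [(Nat.prime_dvd_prime_iff_eq hr (Pr_prime p)).1 h1]
  exact (mem_Pr.1 p.2).1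

lemma prod_pos' {m : ℕ} (f : Pr m → ℕ) : 1 ≤ ∏ p : Pr m, (p : ℕ) ^ (f p) := by
  have : 0 < ∏ p : Pr m, (p : ℕ) ^ (f p) := Finset.prod_pos fun p _ => pow_pos (Pr_prime p).pos _
  exact this

open Classical in
/-- the reduced pairs built from small primes -/
def smq (m Y : ℕ) : Finset (ℕ × ℕ) := (qs Y).filter fun q => sm m q

open Classical in
lemma mem_smq {m Y : ℕ} {q : ℕ × ℕ} : q ∈ smq m Y ↔ q ∈ qs Y ∧ sm m q := by
  unfold smq
  exact Finset.mem_filter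

lemma sum_bij {m M Y : ℕ} (hM : Y < 2 ^ (M + 1)) (g : Pr m → ℕ × ℕ → ℂ) :
    ∑ ν ∈ (EV m M).filter (fun ν => (An ν).1 * (An ν).2 ≤ Y), ∏ p, g p (ν p) =
    ∑ q ∈ smq m Y, ∏ p : Pr m, g p (q.1.factorization p, q.2.factorization p) := by
  refine Finset.sum_bij' (fun ν _ => An ν)
    (fun q _ => fun p : Pr m => (q.1.factorization p, q.2.factorization p)) ?_ ?_ ?_ ?_ ?_
  · intro ν hν
    obtain ⟨h1, h2⟩ := Finset.mem_filter.1 hν
    have h3 : ∀ p, (ν p).1 = 0 ∨ (ν p).2 = 0 := fun p =>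
      (mem_EM.1 (Fintype.mem_piFinset.1 h1 p)).2.2
    refine mem_smq.2 ⟨mem_qs.2 ⟨prod_pos' fun p => (ν p).1, prod_pos' fun p => (ν p).2, ?_, h2⟩,
      sm_prod fun p => (ν p).1, sm_prod fun p => (ν p).2⟩
    show Nat.Coprime (∏ p : Pr m, (p : ℕ) ^ (ν p).1) (∏ p : Pr m, (p : ℕ) ^ (ν p).2)
    refine Nat.Coprime.prod_left fun p _ => Nat.Coprime.prod_right fun p' _ => ?_
    by_cases hp : p = p'
    · subst hp
      rcases h3 p with h | h
      · rw [h, pow_zero]; exact Nat.coprime_one_left _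
      · rw [h, pow_zero]; exact Nat.coprime_one_right _
    · exact Nat.coprime_pow_primes _ _ (Pr_prime p) (Pr_prime p') fun h => hp (Subtype.ext h)
  · intro q hq
    obtain ⟨h1, h2⟩ := mem_smq.1 hq
    obtain ⟨a, b, hc, hY⟩ := mem_qs.1 h1
    obtain ⟨_, _, a', b'⟩ := qs_bd h1
    have hbd : ∀ n : ℕ, 1 ≤ n → n ≤ Y → ∀ p : Pr m, n.factorization p ≤ M := by
      intro n hn1 hn2 p
      have h3 : (p : ℕ) ^ n.factorization p ≤ n := Nat.le_of_dvd hn1 (Nat.ordProj_dvd n p)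
      have h4 : 2 ^ n.factorization p ≤ (p : ℕ) ^ n.factorization p :=
        Nat.pow_le_pow_left (Pr_prime p).two_le _
      have h5 : 2 ^ n.factorization p < 2 ^ (M + 1) := by omega
      have h6 := (Nat.pow_lt_pow_iff_right (by norm_num)).1 h5
      omega
    have hA : An (fun p : Pr m => (q.1.factorization p, q.2.factorization p)) = q := by
      unfold An
      exact Prod.ext (recon (by omega) h2.1) (recon (by omega) h2.2)
    refine Finset.mem_filter.2 ⟨?_, ?_⟩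
    · refine Fintype.mem_piFinset.2 fun p => mem_EM.2 ⟨hbd _ a a' p, hbd _ b b' p, ?_⟩
      by_contra hcon
      push Not at hcon
      have d1 : (p : ℕ) ∣ q.1 := Nat.dvd_of_factorization_pos hcon.1
      have d2 : (p : ℕ) ∣ q.2 := Nat.dvd_of_factorization_pos hcon.2
      have := Nat.dvd_gcd d1 d2
      rw [hc] at this
      exact (Pr_prime p).one_lt.ne' (Nat.dvd_one.1 this)
    · rw [hA]
      exact hY
  · intro ν _
    funext p
    unfold An
    exact Prod.ext (fac_prod _ p) (fac_prod _ p)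
  · intro q hq
    obtain ⟨h1, h2⟩ := mem_smq.1 hq
    obtain ⟨a, b, _, _⟩ := mem_qs.1 h1
    unfold An
    exact Prod.ext (recon (by omega) h2.1) (recon (by omega) h2.2)
  · intro ν _
    refine Finset.prod_congr rfl fun p _ => ?_
    unfold An
    simp only [fac_prod]

/-- the weights of the Rankin trick -/
def sp (p : ℕ) : ℝ := (p : ℝ) ^ (-(1 / 4) : ℝ)

lemma sp_pos {p : ℕ} (hp : p.Prime) : 0 < sp p := by
  have : (0:ℝ) < p := by exact_mod_cast hp.pos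
  unfold sp
  positivity

lemma sp_sq {p : ℕ} (hp : p.Prime) : (Real.sqrt p)⁻¹ = sp p ^ 2 := by
  have : (0:ℝ) < p := by exact_mod_cast hp.pos
  unfold sp
  rw [← Real.rpow_natCast, ← Real.rpow_mul this.le, Real.sqrt_eq_rpow, ← Real.rpow_neg this.le]
  norm_num

lemma sp_le {p : ℕ} (hp : p.Prime) : sp p ≤ 17 / 20 := by
  have h2 : (2:ℝ) ≤ p := by exact_mod_cast hp.two_le
  unfold sp
  have h3 : (p : ℝ) ^ (-(1 / 4) : ℝ) ≤ 2 ^ (-(1 / 4) : ℝ) :=
    Real.rpow_le_rpow_of_nonpos (by norm_num) h2 (by norm_num)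
  refine h3.trans ?_
  have h4 : ((2:ℝ) ^ (-(1 / 4) : ℝ)) ^ 4 = 1 / 2 := by
    rw [← Real.rpow_natCast, ← Real.rpow_mul (by norm_num)]
    norm_num
  have h5 : ((2:ℝ) ^ (-(1 / 4) : ℝ)) ^ 4 ≤ (17 / 20) ^ 4 := by rw [h4]; norm_num
  exact (pow_le_pow_iff_left₀ (by positivity) (by norm_num) (by norm_num)).1 h5

lemma inv_sqrt_le {p : ℕ} (hp : p.Prime) : (Real.sqrt p)⁻¹ ≤ sp p := by
  rw [sp_sq hp]
  have h1 := sp_pos hp
  have h2 := sp_le hp
  nlinarith

lemma loc_bd {p : ℕ} (hp : p.Prime) (M : ℕ) :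
    ∑ e ∈ EM M, sp p ^ e.1 * sp p ^ e.2 ≤ Real.exp (14 * sp p) := by
  have h1 := sp_pos hp
  have h2 := sp_le hp
  have hpos : 0 < 1 - sp p := by linarith
  have hg : ∀ n : ℕ, ∑ i ∈ Finset.range n, sp p ^ i ≤ 1 / (1 - sp p) := by
    intro n
    rw [le_div_iff₀ hpos, mul_comm, mul_neg_geom_sum]
    have : 0 ≤ sp p ^ n := by positivity
    linarith
  rw [sum_EM]
  have h3 : ∑ n ∈ Finset.range M, sp p ^ (n + 1) ≤ sp p * (1 / (1 - sp p)) := by
    have : ∑ n ∈ Finset.range M, sp p ^ (n + 1) = sp p * ∑ n ∈ Finset.range M, sp p ^ n := by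
      rw [Finset.mul_sum]
      exact Finset.sum_congr rfl fun n _ => by rw [pow_succ, mul_comm]
    rw [this]
    exact mul_le_mul_of_nonneg_left (hg M) h1.le
  have h4 : 1 / (1 - sp p) + sp p * (1 / (1 - sp p)) ≤ 1 + 14 * sp p := by
    have e1 : 1 / (1 - sp p) + sp p * (1 / (1 - sp p)) = (1 + sp p) / (1 - sp p) := by ring
    rw [e1, div_le_iff₀ hpos]
    nlinarith
  have h5 := Real.add_one_le_exp (14 * sp p)
  linarith [hg (M + 1)]

/-- sum of fourth roots -/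
lemma sum_sp (m : ℕ) : ∑ n ∈ Finset.Icc 1 m, (n : ℝ) ^ (-(1 / 4) : ℝ) ≤ 3 / 2 * (m : ℝ) ^ (3 / 4 : ℝ) := by
  have h1 := sq_sum_le_card_mul_sum_sq (s := Finset.Icc 1 m) (f := fun n : ℕ => (n : ℝ) ^ (-(1 / 4) : ℝ))
  rw [Nat.card_Icc, Nat.add_sub_cancel] at h1
  have h2 : ∑ n ∈ Finset.Icc 1 m, ((n : ℝ) ^ (-(1 / 4) : ℝ)) ^ 2 ≤ 2 * Real.sqrt m := by
    refine le_trans (le_of_eq ?_) (inv_sqrt_sum m)
    refine Finset.sum_congr rfl fun n hn => ?_
    have hn1 : (0:ℝ) < n := by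
      have := (Finset.mem_Icc.1 hn).1
      exact_mod_cast (by omega : 0 < n)
    rw [← Real.rpow_natCast, ← Real.rpow_mul hn1.le, Real.sqrt_eq_rpow, ← Real.rpow_neg hn1.le]
    norm_num
  have hm : (0:ℝ) ≤ m := by positivity
  have h3 : (m : ℝ) * (2 * Real.sqrt m) ≤ (3 / 2 * (m : ℝ) ^ (3 / 4 : ℝ)) ^ 2 := by
    rcases Nat.eq_zero_or_pos m with h0 | hpos
    · subst h0; simp
    · have hm0 : (0:ℝ) < m := by exact_mod_cast hpos
      have e1 : ((m : ℝ) ^ (3 / 4 : ℝ)) ^ 2 = m * Real.sqrt m := by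
        rw [← Real.rpow_natCast, ← Real.rpow_mul hm0.le, Real.sqrt_eq_rpow]
        nth_rewrite 2 [← Real.rpow_one (m : ℝ)]
        rw [← Real.rpow_add hm0]
        norm_num
      rw [mul_pow, e1]
      have : 0 ≤ (m : ℝ) * Real.sqrt m := by positivity
      nlinarith
  have h4 : (∑ n ∈ Finset.Icc 1 m, (n : ℝ) ^ (-(1 / 4) : ℝ)) ^ 2 ≤ (3 / 2 * (m : ℝ) ^ (3 / 4 : ℝ)) ^ 2 := by
    refine h1.trans (le_trans ?_ h3)
    exact mul_le_mul_of_nonneg_left h2 hm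
  exact (le_abs_self _).trans (abs_le_of_sq_le_sq h4 (by positivity))

/-- the total mass -/
def Zm (m : ℕ) : ℝ := Real.exp (21 * (m : ℝ) ^ (3 / 4 : ℝ))

lemma one_le_Zm (m : ℕ) : 1 ≤ Zm m := by
  unfold Zm
  exact Real.one_le_exp (by positivity)

lemma Z_bd (m M : ℕ) : ∏ p : Pr m, ∑ e ∈ EM M, sp p ^ e.1 * sp p ^ e.2 ≤ Zm m := by
  calc ∏ p : Pr m, ∑ e ∈ EM M, sp p ^ e.1 * sp p ^ e.2 ≤ ∏ p : Pr m, Real.exp (14 * sp p) := by
        refine Finset.prod_le_prod (fun p _ => ?_) fun p _ => loc_bd (Pr_prime p) M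
        have := sp_pos (Pr_prime p)
        exact Finset.sum_nonneg fun e _ => by positivity
    _ = Real.exp (14 * ∑ p : Pr m, sp p) := by rw [← Real.exp_sum, Finset.mul_sum]
    _ ≤ Zm m := by
        unfold Zm
        refine Real.exp_le_exp.2 ?_
        have h1 : ∑ p : Pr m, sp p ≤ ∑ n ∈ Finset.Icc 1 m, (n : ℝ) ^ (-(1 / 4) : ℝ) := by
          rw [Finset.sum_coe_sort (Pr m) sp]
          refine Finset.sum_le_sum_of_subset_of_nonneg ?_
            fun n _ _ => (by unfold sp; positivity : 0 ≤ sp n)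
          intro p hp
          obtain ⟨a, b⟩ := mem_Pr.1 hp
          exact Finset.mem_Icc.2 ⟨b.one_le, a⟩
        have h2 := sum_sp m
        linarith

lemma EV_sum {m M : ℕ} (g : Pr m → ℕ × ℕ → ℝ) :
    ∑ ν ∈ EV m M, ∏ p, g p (ν p) = ∏ p : Pr m, ∑ e ∈ EM M, g p e := by
  unfold EV
  rw [Finset.prod_univ_sum]

lemma tot_bd (m M : ℕ) : ∑ ν ∈ EV m M, ∏ p : Pr m, ((Real.sqrt (p : ℕ))⁻¹ ^ (ν p).1 *
    (Real.sqrt (p : ℕ))⁻¹ ^ (ν p).2) ≤ Zm m := by
  refine le_trans (Finset.sum_le_sum fun ν _ => ?_) ((EV_sum (m := m) (M := M)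
    (fun p e => sp p ^ e.1 * sp p ^ e.2)).le.trans (Z_bd m M))
  refine Finset.prod_le_prod (fun p _ => by positivity) fun p _ => ?_
  have h1 := inv_sqrt_le (Pr_prime p)
  have h2 := sp_pos (Pr_prime p)
  gcongr

lemma rankin {m M Y : ℕ} (hY : 1 ≤ Y) :
    ∑ ν ∈ (EV m M).filter (fun ν => ¬ (An ν).1 * (An ν).2 ≤ Y),
      ∏ p : Pr m, ((Real.sqrt (p : ℕ))⁻¹ ^ (ν p).1 * (Real.sqrt (p : ℕ))⁻¹ ^ (ν p).2) ≤
      (Y : ℝ) ^ (-(1 / 4) : ℝ) * Zm m := by
  have hYr : (1:ℝ) ≤ Y := by exact_mod_cast hY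
  have key : ∀ ν ∈ (EV m M).filter (fun ν => ¬ (An ν).1 * (An ν).2 ≤ Y),
      ∏ p : Pr m, ((Real.sqrt (p : ℕ))⁻¹ ^ (ν p).1 * (Real.sqrt (p : ℕ))⁻¹ ^ (ν p).2) ≤
      (Y : ℝ) ^ (-(1 / 4) : ℝ) * ∏ p : Pr m, (sp p ^ (ν p).1 * sp p ^ (ν p).2) := by
    intro ν hν
    have h1 := (Finset.mem_filter.1 hν).2
    have e1 : ∏ p : Pr m, ((Real.sqrt (p : ℕ))⁻¹ ^ (ν p).1 * (Real.sqrt (p : ℕ))⁻¹ ^ (ν p).2) =
        (∏ p : Pr m, (sp p ^ (ν p).1 * sp p ^ (ν p).2)) *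
        ∏ p : Pr m, (sp p ^ (ν p).1 * sp p ^ (ν p).2) := by
      rw [← Finset.prod_mul_distrib]
      refine Finset.prod_congr rfl fun p _ => ?_
      rw [sp_sq (Pr_prime p)]
      ring
    have e2 : ∏ p : Pr m, (sp p ^ (ν p).1 * sp p ^ (ν p).2) =
        ((((An ν).1 * (An ν).2 : ℕ)) : ℝ) ^ (-(1 / 4) : ℝ) := by
      unfold An
      push_cast
      rw [Real.mul_rpow (Finset.prod_nonneg fun _ _ => by positivity)
        (Finset.prod_nonneg fun _ _ => by positivity), Finset.prod_mul_distrib,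
        ← Real.finsetProd_rpow _ _ (fun _ _ => by positivity),
        ← Real.finsetProd_rpow _ _ (fun _ _ => by positivity)]
      unfold sp
      congr 1
      · refine Finset.prod_congr rfl fun p _ => ?_
        rw [← Real.rpow_natCast, ← Real.rpow_natCast, ← Real.rpow_mul (by positivity),
          ← Real.rpow_mul (by positivity), mul_comm]
      · refine Finset.prod_congr rfl fun p _ => ?_
        rw [← Real.rpow_natCast, ← Real.rpow_natCast, ← Real.rpow_mul (by positivity),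
          ← Real.rpow_mul (by positivity), mul_comm]
    have h2 : ∏ p : Pr m, (sp p ^ (ν p).1 * sp p ^ (ν p).2) ≤ (Y : ℝ) ^ (-(1 / 4) : ℝ) := by
      rw [e2]
      refine Real.rpow_le_rpow_of_nonpos (by linarith) ?_ (by norm_num)
      exact_mod_cast (by omega : Y ≤ (An ν).1 * (An ν).2)
    rw [e1]
    refine mul_le_mul_of_nonneg_right h2 (Finset.prod_nonneg fun p _ => ?_)
    have := sp_pos (Pr_prime p)
    positivity
  refine (Finset.sum_le_sum key).trans ?_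
  rw [← Finset.mul_sum]
  refine mul_le_mul_of_nonneg_left ?_ (by positivity)
  refine le_trans (Finset.sum_le_sum_of_subset_of_nonneg (Finset.filter_subset _ _)
    fun ν _ _ => Finset.prod_nonneg fun p _ => ?_) ((EV_sum (m := m) (M := M)
    (fun p e => sp p ^ e.1 * sp p ^ e.2)).le.trans (Z_bd m M))
  have := sp_pos (Pr_prime p)
  positivity

end

end Pool.Agent.Y752.KP
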