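import Pool.Agent.Y752.KP.To3
import Pool.Agent.Y752.KP.Ms

set_option autoImplicit false
set_option linter.unusedSectionVars false

/-! Torus integrals: the truncated Euler product against the diagonal sum. -/

namespace Pool.Agent.Y752.KP

open Complex Filter Topology MeasureTheory Set
open Pool.Agent.TH612.GS (mP)
open scoped ENNReal

noncomputable section

lemma ee_cont2 (θ : ℝ) : Continuous (ee θ) := ee_cont θ

lemma yp_cont (p : ℕ) (c : ℝ) : Continuous (yp p c) := by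
  unfold yp
  exact continuous_const.mul (continuous_const.mul (ee_cont _))

/-- truncated local factor -/
def PMf (M p : ℕ) (c θ : ℝ) : ℂ := ∑ e ∈ EM M, yp p c θ ^ e.1 * (starRingEnd ℂ) (yp p c θ) ^ e.2

lemma PMf_cont (M p : ℕ) (c : ℝ) : Continuous (PMf M p c) := by
  unfold PMf
  refine continuous_finsetSum _ fun e _ => ((yp_cont p c).pow _).mul ?_
  exact (Complex.continuous_conj.comp (yp_cont p c)).pow _

variable {m : ℕ}

/-- product of the truncated local factors -/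
def GMf (M : ℕ) (c : ℝ) (θ : Pr m → ℝ) : ℂ := ∏ p : Pr m, PMf M p c (θ p)

/-- the sum over small pairs on the torus -/
def GYf (Y : ℕ) (c : ℝ) (θ : Pr m → ℝ) : ℂ :=
  ∑ q ∈ smq m Y, ((wt q : ℝ) : ℂ) * ee (fr q) c * chi θ q

lemma GM_sum (M : ℕ) (c : ℝ) (θ : Pr m → ℝ) : GMf M c θ = ∑ ν ∈ EV m M, ∏ p : Pr m,
    (yp p c (θ p) ^ (ν p).1 * (starRingEnd ℂ) (yp p c (θ p)) ^ (ν p).2) := by
  unfold GMf PMf EV
  rw [Finset.prod_univ_sum]

lemma GY_sum {M Y : ℕ} (hM : Y < 2 ^ (M + 1)) (c : ℝ) (θ : Pr m → ℝ) : GYf Y c θ =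
    ∑ ν ∈ (EV m M).filter (fun ν => (An ν).1 * (An ν).2 ≤ Y), ∏ p : Pr m,
    (yp p c (θ p) ^ (ν p).1 * (starRingEnd ℂ) (yp p c (θ p)) ^ (ν p).2) := by
  rw [sum_bij hM (fun p e => yp p c (θ p) ^ e.1 * (starRingEnd ℂ) (yp p c (θ p)) ^ e.2)]
  unfold GYf
  refine Finset.sum_congr rfl fun q hq => ?_
  obtain ⟨h1, h2⟩ := mem_smq.1 hq
  obtain ⟨a, b, _, _⟩ := mem_qs.1 h1
  rw [F_eq a b h2]

lemma term_norm (c : ℝ) (θ : Pr m → ℝ) (ν : Pr m → ℕ × ℕ) : ‖∏ p : Pr m,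
    (yp p c (θ p) ^ (ν p).1 * (starRingEnd ℂ) (yp p c (θ p)) ^ (ν p).2)‖ =
    ∏ p : Pr m, ((Real.sqrt (p : ℕ))⁻¹ ^ (ν p).1 * (Real.sqrt (p : ℕ))⁻¹ ^ (ν p).2) := by
  rw [norm_prod]
  refine Finset.prod_congr rfl fun p _ => ?_
  rw [norm_mul, norm_pow, norm_pow, Complex.norm_conj, yp_norm]

lemma GM_bd (M : ℕ) (c : ℝ) (θ : Pr m → ℝ) : ‖GMf M c θ‖ ≤ Zm m := by
  rw [GM_sum]
  refine (norm_sum_le _ _).trans ?_
  simp only [term_norm]
  exact tot_bd m M

lemma GY_bd {M Y : ℕ} (hM : Y < 2 ^ (M + 1)) (c : ℝ) (θ : Pr m → ℝ) : ‖GYf Y c θ‖ ≤ Zm m := by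
  rw [GY_sum hM]
  refine (norm_sum_le _ _).trans ?_
  simp only [term_norm]
  refine le_trans (Finset.sum_le_sum_of_subset_of_nonneg (Finset.filter_subset _ _)
    fun ν _ _ => Finset.prod_nonneg fun p _ => ?_) (tot_bd m M)
  positivity

lemma GM_GY {M Y : ℕ} (hY : 1 ≤ Y) (hM : Y < 2 ^ (M + 1)) (c : ℝ) (θ : Pr m → ℝ) :
    ‖GMf M c θ - GYf Y c θ‖ ≤ (Y : ℝ) ^ (-(1 / 4) : ℝ) * Zm m := by
  rw [GM_sum, GY_sum hM, ← Finset.sum_filter_add_sum_filter_not (EV m M)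
    (fun ν => (An ν).1 * (An ν).2 ≤ Y), add_sub_cancel_left]
  refine (norm_sum_le _ _).trans ?_
  simp only [term_norm]
  exact rankin hY

lemma int_ee1 (n : ℤ) : ∫ y, ee ((n : ℝ) * (-(2 * Real.pi))) y ∂(volume.restrict (Icc (0:ℝ) 1)) =
    if n = 0 then 1 else 0 := by
  rw [integral_Icc_eq_integral_Ioc, ← intervalIntegral.integral_of_le zero_le_one]
  split_ifs with h
  · subst h
    simp [ee_zero]
  · have hc : (I * (((n : ℝ) * (-(2 * Real.pi)) : ℝ) : ℂ)) ≠ 0 := by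
      refine mul_ne_zero I_ne_zero ?_
      rw [Ne, Complex.ofReal_eq_zero]
      have h1 : (n : ℝ) ≠ 0 := by exact_mod_cast h
      have h2 : -(2 * Real.pi) ≠ 0 := by
        have := Real.pi_pos
        linarith
      exact mul_ne_zero h1 h2
    have h3 := integral_exp_mul_complex (a := 0) (b := 1) hc
    have h4 : ∀ y : ℝ, ee ((n : ℝ) * (-(2 * Real.pi))) y =
        exp (I * (((n : ℝ) * (-(2 * Real.pi)) : ℝ) : ℂ) * y) := by
      intro y
      unfold ee
      congr 1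
      push_cast
      ring
    simp only [h4]
    rw [h3]
    have h5 : exp (I * (((n : ℝ) * (-(2 * Real.pi)) : ℝ) : ℂ) * ((1 : ℝ) : ℂ)) = 1 := by
      rw [Complex.exp_eq_one_iff]
      refine ⟨-n, ?_⟩
      push_cast
      ring
    rw [h5]
    simp

variable {ι : Type} [Fintype ι] [DecidableEq ι]

instance mP1_prob : IsProbabilityMeasure (mP (Pr m) 1) := by
  unfold mP
  have : ∀ _ : Pr m, IsProbabilityMeasure ((volume : Measure ℝ).restrict (Icc (0:ℝ) 1)) := by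
    intro _
    refine ⟨?_⟩
    rw [Measure.restrict_apply MeasurableSet.univ, univ_inter, Real.volume_Icc]
    norm_num
  infer_instance

/-- torus integral of the truncated product -/
lemma tor1 (M : ℕ) (c : ι → ℝ) : ∫ θ, ∏ j, GMf M (c j) θ ∂(mP (Pr m) 1) =
    ∏ p : Pr m, ∫ θ in (0:ℝ)..1, ∏ j, PMf M p (c j) θ := by
  have h1 : ∀ θ : Pr m → ℝ, ∏ j, GMf M (c j) θ = ∏ p : Pr m, ∏ j, PMf M p (c j) (θ p) := by
    intro θ
    unfold GMf
    exact Finset.prod_comm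
  simp only [h1]
  unfold mP
  rw [integral_fintype_prod_eq_prod (fun (p : Pr m) θ => ∏ j, PMf M p (c j) θ)]
  refine Finset.prod_congr rfl fun p _ => ?_
  rw [integral_Icc_eq_integral_Ioc, ← intervalIntegral.integral_of_le zero_le_one]

/-- the small diagonal tuples -/
def DS (m : ℕ) (Yv : ι → ℕ) : Finset (ι → ℕ × ℕ) :=
  (Fintype.piFinset fun j => smq m (Yv j)).filter fun q => (∏ j : ι, (q j).1) = ∏ j : ι, (q j).2

lemma DS_sub (m : ℕ) (Yv : ι → ℕ) : DS m Yv ⊆ DD Yv := by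
  intro q hq
  obtain ⟨h1, h2⟩ := Finset.mem_filter.1 hq
  exact Finset.mem_filter.2 ⟨mem_QQ.2 fun j => (mem_smq.1 (Fintype.mem_piFinset.1 h1 j)).1, h2⟩

lemma smn_prod {f : ι → ℕ} (h : ∀ j, smn m (f j)) : smn m (∏ j, f j) := by
  intro r hr hd
  obtain ⟨j, _, hj⟩ := (Prime.dvd_finsetProd_iff hr.prime _).1 hd
  exact h j r hr hj

lemma chi_prod (θ : Pr m → ℝ) (q : ι → ℕ × ℕ) : ∏ j, chi θ (q j) = ∏ p : Pr m,
    ee (((∑ j, (((q j).1.factorization p : ℤ) - (q j).2.factorization p) : ℤ) : ℝ) *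
      (-(2 * Real.pi))) (θ p) := by
  unfold chi
  rw [Finset.prod_comm]
  refine Finset.prod_congr rfl fun p _ => ?_
  rw [ee_sum, ← Finset.sum_mul]
  congr 2
  push_cast
  rfl

lemma tor_chi {Yv : ι → ℕ} {q : ι → ℕ × ℕ} (hq : q ∈ Fintype.piFinset fun j => smq m (Yv j)) :
    ∫ θ, ∏ j, chi θ (q j) ∂(mP (Pr m) 1) =
      if (∏ j : ι, (q j).1) = ∏ j : ι, (q j).2 then 1 else 0 := by
  have hq1 : ∀ j, (q j).1 ≠ 0 := fun j => by
    have := (mem_qs.1 (mem_smq.1 (Fintype.mem_piFinset.1 hq j)).1).1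
    omega
  have hq2 : ∀ j, (q j).2 ≠ 0 := fun j => by
    have := (mem_qs.1 (mem_smq.1 (Fintype.mem_piFinset.1 hq j)).1).2.1
    omega
  have hs1 : smn m (∏ j, (q j).1) := smn_prod fun j => (mem_smq.1 (Fintype.mem_piFinset.1 hq j)).2.1
  have hs2 : smn m (∏ j, (q j).2) := smn_prod fun j => (mem_smq.1 (Fintype.mem_piFinset.1 hq j)).2.2
  simp only [chi_prod]
  unfold mP
  rw [integral_fintype_prod_eq_prod (fun (p : Pr m) y =>
    ee (((∑ j, (((q j).1.factorization p : ℤ) - (q j).2.factorization p) : ℤ) : ℝ) *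
      (-(2 * Real.pi))) y)]
  simp only [int_ee1]
  have hfac : ∀ p : Pr m, (∑ j, (((q j).1.factorization p : ℤ) - (q j).2.factorization p) = 0) ↔
      (∏ j, (q j).1).factorization p = (∏ j, (q j).2).factorization p := by
    intro p
    rw [Nat.factorization_prod fun j _ => hq1 j, Nat.factorization_prod fun j _ => hq2 j,
      Finsupp.finsetSum_apply, Finsupp.finsetSum_apply, Finset.sum_sub_distrib, sub_eq_zero]
    constructor
    · intro h; exact_mod_cast h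
    · intro h; exact_mod_cast h
  split_ifs with h
  · refine Finset.prod_eq_one fun p _ => ?_
    rw [if_pos ((hfac p).2 (by rw [h]))]
  · have h1 : ∃ p : Pr m, (∏ j, (q j).1).factorization p ≠ (∏ j, (q j).2).factorization p := by
      by_contra hcon
      push Not at hcon
      apply h
      rw [← recon (Finset.prod_ne_zero_iff.2 fun j _ => hq1 j) hs1,
        ← recon (Finset.prod_ne_zero_iff.2 fun j _ => hq2 j) hs2]
      exact Finset.prod_congr rfl fun p _ => by rw [hcon p]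
    obtain ⟨p, hp⟩ := h1
    refine Finset.prod_eq_zero (Finset.mem_univ p) ?_
    rw [if_neg fun h2 => hp ((hfac p).1 h2)]

lemma chi_cont (q : ℕ × ℕ) : Continuous fun θ : Pr m → ℝ => chi θ q := by
  unfold chi
  exact continuous_finsetProd _ fun p _ => (ee_cont2 _).comp (continuous_apply p)

lemma chi_norm (θ : Pr m → ℝ) (q : ℕ × ℕ) : ‖chi θ q‖ = 1 := by
  unfold chi
  rw [norm_prod]
  simp only [ee_norm, Finset.prod_const_one]

/-- torus integral of the product of the small sums -/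
lemma tor2 (Yv : ι → ℕ) (c : ι → ℝ) : ∫ θ, ∏ j, GYf (Yv j) (c j) θ ∂(mP (Pr m) 1) =
    ∑ q ∈ DS m Yv, ((wtp q : ℝ) : ℂ) * phc c q := by
  have h1 : ∀ θ : Pr m → ℝ, ∏ j, GYf (Yv j) (c j) θ =
      ∑ q ∈ Fintype.piFinset fun j => smq m (Yv j), (((wtp q : ℝ) : ℂ) * phc c q) *
        ∏ j, chi θ (q j) := by
    intro θ
    unfold GYf
    rw [Finset.prod_univ_sum]
    refine Finset.sum_congr rfl fun q _ => ?_
    rw [Finset.prod_mul_distrib, Finset.prod_mul_distrib]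
    unfold wtp phc
    push_cast
    ring
  simp only [h1]
  rw [integral_finsetSum]
  · unfold DS
    rw [Finset.sum_filter]
    refine Finset.sum_congr rfl fun q hq => ?_
    rw [integral_const_mul, tor_chi hq]
    split_ifs <;> simp
  · intro q _
    refine Integrable.const_mul ?_ _
    have hc : Continuous fun θ : Pr m → ℝ => ∏ j, chi θ (q j) :=
      continuous_finsetProd _ fun j _ => chi_cont (q j)
    refine (integrable_const (1:ℝ)).mono' hc.aestronglyMeasurable (Eventually.of_forall fun θ => ?_)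
    rw [norm_prod]
    simp only [chi_norm, Finset.prod_const_one]
    exact le_rfl

lemma GYf_cont (Y : ℕ) (c : ℝ) : Continuous fun θ : Pr m → ℝ => GYf Y c θ := by
  unfold GYf
  exact continuous_finsetSum _ fun q _ => continuous_const.mul (chi_cont q)

lemma GMf_cont (M : ℕ) (c : ℝ) : Continuous fun θ : Pr m → ℝ => GMf M c θ := by
  unfold GMf
  exact continuous_finsetProd _ fun p _ => (PMf_cont M p c).comp (continuous_apply p)

theorem tor_diff {Y M : ℕ} (hY : 1 ≤ Y) (Yv : ι → ℕ) (hYv : ∀ j, Y ≤ Yv j)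
    (hM : ∀ j, Yv j < 2 ^ (M + 1)) (c : ι → ℝ) :
    ‖(∏ p : Pr m, ∫ θ in (0:ℝ)..1, ∏ j, PMf M p (c j) θ) -
      ∑ q ∈ DS m Yv, ((wtp q : ℝ) : ℂ) * phc c q‖ ≤
      Fintype.card ι * Zm m ^ Fintype.card ι * ((Y : ℝ) ^ (-(1 / 4) : ℝ) * Zm m) := by
  have hYr : (1:ℝ) ≤ Y := by exact_mod_cast hY
  have hZ := one_le_Zm m
  have hbM : ∀ θ : Pr m → ℝ, ‖∏ j, GMf M (c j) θ‖ ≤ Zm m ^ Fintype.card ι := by
    intro θ
    rw [norm_prod]
    calc ∏ j, ‖GMf M (c j) θ‖ ≤ ∏ _j : ι, Zm m :=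
          Finset.prod_le_prod (fun _ _ => norm_nonneg _) fun j _ => GM_bd M _ θ
      _ = _ := by rw [Finset.prod_const, Finset.card_univ]
  have hbY : ∀ θ : Pr m → ℝ, ‖∏ j, GYf (Yv j) (c j) θ‖ ≤ Zm m ^ Fintype.card ι := by
    intro θ
    rw [norm_prod]
    calc ∏ j, ‖GYf (Yv j) (c j) θ‖ ≤ ∏ _j : ι, Zm m :=
          Finset.prod_le_prod (fun _ _ => norm_nonneg _) fun j _ => GY_bd (hM j) _ θ
      _ = _ := by rw [Finset.prod_const, Finset.card_univ]
  have iM : Integrable (fun θ : Pr m → ℝ => ∏ j, GMf M (c j) θ) (mP (Pr m) 1) :=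
    (integrable_const (Zm m ^ Fintype.card ι)).mono'
      (continuous_finsetProd _ fun j _ => GMf_cont M (c j)).aestronglyMeasurable
      (Eventually.of_forall hbM)
  have iY : Integrable (fun θ : Pr m → ℝ => ∏ j, GYf (Yv j) (c j) θ) (mP (Pr m) 1) :=
    (integrable_const (Zm m ^ Fintype.card ι)).mono'
      (continuous_finsetProd _ fun j _ => GYf_cont (Yv j) (c j)).aestronglyMeasurable
      (Eventually.of_forall hbY)
  rw [← tor1, ← tor2, ← integral_sub iM iY]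
  have h2 : ∀ θ : Pr m → ℝ, ‖∏ j, GMf M (c j) θ - ∏ j, GYf (Yv j) (c j) θ‖ ≤
      Fintype.card ι * Zm m ^ Fintype.card ι * ((Y : ℝ) ^ (-(1 / 4) : ℝ) * Zm m) := by
    intro θ
    have := prod_diffC (Finset.univ : Finset ι) (fun j => GMf M (c j) θ)
      (fun j => GYf (Yv j) (c j) θ) (B := Zm m) (D := (Y : ℝ) ^ (-(1 / 4) : ℝ) * Zm m) hZ
      (fun j _ => GM_bd M _ θ) (fun j _ => GY_bd (hM j) _ θ) (by positivity) (fun j _ => by
        refine (GM_GY (hY.trans (hYv j)) (hM j) _ θ).trans ?_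
        have h3 : ((Yv j : ℕ) : ℝ) ^ (-(1 / 4) : ℝ) ≤ (Y : ℝ) ^ (-(1 / 4) : ℝ) :=
          Real.rpow_le_rpow_of_nonpos (by linarith) (by exact_mod_cast hYv j) (by norm_num)
        gcongr)
    rw [Finset.card_univ] at this
    exact this
  have h3 := norm_integral_le_of_norm_le (μ := mP (Pr m) 1) (integrable_const
    (Fintype.card ι * Zm m ^ Fintype.card ι * ((Y : ℝ) ^ (-(1 / 4) : ℝ) * Zm m)))
    (Eventually.of_forall h2)
  simpa using h3

end

end Pool.Agent.Y752.KP
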