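import Pool.Agent.Y752.KP.Exp

set_option autoImplicit false
set_option linter.unusedSectionVars false

/-! The weight integrals. -/

namespace Pool.Agent.Y752.KP

open Complex Filter Topology MeasureTheory Set

noncomputable section

variable {ι : Type} [DecidableEq ι]

lemma prod_diff (s : Finset ι) (a : ι → ℝ) {b B D : ℝ} (hB : 0 ≤ B) (hb : |b| ≤ B)
    (ha : ∀ j ∈ s, |a j| ≤ B) (hD : ∀ j ∈ s, |a j - b| ≤ D) :
    B * |∏ j ∈ s, a j - b ^ s.card| ≤ s.card * B ^ s.card * D := by
  induction s using Finset.induction_on with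
  | empty => simp
  | insert j s hj ih =>
    have ih' := ih (fun i hi => ha i (Finset.mem_insert_of_mem hi))
      (fun i hi => hD i (Finset.mem_insert_of_mem hi))
    have haj := ha j (Finset.mem_insert_self j s)
    have hDj := hD j (Finset.mem_insert_self j s)
    have hD0 : 0 ≤ D := (abs_nonneg _).trans hDj
    have hp : |∏ i ∈ s, a i| ≤ B ^ s.card := by
      rw [Finset.abs_prod]
      refine (Finset.prod_le_prod (fun _ _ => abs_nonneg _)
        fun i hi => ha i (Finset.mem_insert_of_mem hi)).trans (le_of_eq ?_)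
      rw [Finset.prod_const]
    rw [Finset.prod_insert hj, Finset.card_insert_of_notMem hj, pow_succ]
    have e1 : a j * ∏ i ∈ s, a i - b ^ s.card * b = (a j - b) * ∏ i ∈ s, a i +
        b * (∏ i ∈ s, a i - b ^ s.card) := by ring
    rw [e1]
    have h1 : |(a j - b) * ∏ i ∈ s, a i + b * (∏ i ∈ s, a i - b ^ s.card)| ≤
        D * B ^ s.card + B * |∏ i ∈ s, a i - b ^ s.card| := by
      refine (abs_add_le _ _).trans (add_le_add ?_ ?_)
      · rw [abs_mul]
        exact mul_le_mul hDj hp (abs_nonneg _) hD0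
      · rw [abs_mul]
        exact mul_le_mul_of_nonneg_right hb (abs_nonneg _)
    calc B * |(a j - b) * ∏ i ∈ s, a i + b * (∏ i ∈ s, a i - b ^ s.card)|
        ≤ B * (D * B ^ s.card + B * |∏ i ∈ s, a i - b ^ s.card|) := by gcongr
      _ ≤ B * (D * B ^ s.card + s.card * B ^ s.card * D) := by gcongr
      _ = _ := by
        push_cast
        ring

lemma WA_bd {T : ℝ} (hT : 7 ≤ T) {c : ι → ℝ} (hc : ∀ j, 0 ≤ c j ∧ c j ≤ 2 * T) (A : Finset ι) :
    |WA c T A| ≤ T * (2 * Real.log T) ^ A.card := by
  have hL : 0 ≤ Real.log T := Real.log_nonneg (by linarith)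
  have h1 : ∀ t ∈ Set.uIoc 0 T, ‖∏ j ∈ A, Lw (t + c j)‖ ≤ (2 * Real.log T) ^ A.card := by
    intro t ht
    rw [uIoc_of_le (by linarith)] at ht
    rw [norm_prod]
    calc ∏ j ∈ A, ‖Lw (t + c j)‖ ≤ ∏ _j ∈ A, 2 * Real.log T := by
          refine Finset.prod_le_prod (fun _ _ => norm_nonneg _) fun j _ => ?_
          rw [Real.norm_eq_abs]
          exact Lw_bd hT (by linarith [ht.1, (hc j).1]) (by linarith [ht.2, (hc j).2])
      _ = (2 * Real.log T) ^ A.card := by rw [Finset.prod_const]
  have h2 := intervalIntegral.norm_integral_le_of_norm_le_const h1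
  rw [Real.norm_eq_abs, sub_zero, abs_of_nonneg (show (0:ℝ) ≤ T by linarith)] at h2
  unfold WA
  linarith

lemma Lw_near {T t c : ℝ} (hT : 1000 ≤ T) (ht0 : 0 ≤ t) (htT : t ≤ T) (hc0 : 0 ≤ c)
    (hcT : c ≤ 2 * T) : |Lw (t + c) - Real.log T| ≤ Real.log T - Real.log (1 + t) + 3 := by
  have hpi1 := Real.pi_gt_three
  have hpi2 := Real.pi_lt_d2
  have hg1 := Real.one_half_lt_eulerMascheroniConstant
  have hg2 := Real.eulerMascheroniConstant_lt_two_thirds
  have hlog2pi : Real.log (2 * Real.pi) ≤ 2 := by
    rw [Real.log_le_iff_le_exp (by positivity)]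
    have h1 : Real.exp 2 = Real.exp 1 * Real.exp 1 := by rw [← Real.exp_add]; norm_num
    have h2 := Real.exp_one_gt_d9
    rw [h1]
    nlinarith
  have hlog2pi1 : 1 ≤ Real.log (2 * Real.pi) := by
    rw [Real.le_log_iff_exp_le (by positivity)]
    have h2 := Real.exp_one_lt_d9
    linarith
  have e1 : Lw (t + c) = Real.log (1 + (t + c)) - Real.log (2 * Real.pi) +
      2 * Real.eulerMascheroniConstant := by
    unfold Lw
    rw [abs_of_nonneg (by linarith), Real.log_div (by linarith) (by positivity)]
  have h1 : Real.log (1 + t) ≤ Real.log (1 + (t + c)) := Real.log_le_log (by linarith) (by linarith)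
  have hlog4 : Real.log 4 ≤ 3 / 2 := by
    have : Real.log 4 = 2 * Real.log 2 := by
      rw [show (4:ℝ) = 2 ^ 2 by norm_num, Real.log_pow]; norm_num
    have := Real.log_two_lt_d9
    linarith
  have h2 : Real.log (1 + (t + c)) ≤ Real.log 4 + Real.log T := by
    rw [← Real.log_mul (by norm_num) (by linarith)]
    exact Real.log_le_log (by linarith) (by linarith)
  have h3 : Real.log (1 + t) ≤ Real.log 2 + Real.log T := by
    rw [← Real.log_mul (by norm_num) (by linarith)]
    exact Real.log_le_log (by linarith) (by linarith)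
  have h4 := Real.log_two_lt_d9
  rw [abs_le, e1]
  constructor <;> linarith

lemma int_log1 {T : ℝ} (hT : 1000 ≤ T) :
    ∫ t in (0:ℝ)..T, (Real.log T - Real.log (1 + t) + 3) ≤ 4 * T := by
  have h1 : ∫ t in (0:ℝ)..T, Real.log (1 + t) = (1 + T) * Real.log (1 + T) - T := by
    have := intervalIntegral.integral_comp_add_left (a := (0:ℝ)) (b := T) (fun t => Real.log t) 1
    rw [this, integral_log]
    simp
    ring
  have hi : IntervalIntegrable (fun t => Real.log (1 + t)) volume 0 T := by
    refine ContinuousOn.intervalIntegrable ?_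
    rw [uIcc_of_le (by linarith)]
    refine Real.continuousOn_log.comp (by fun_prop) fun t ht => ?_
    have : (0:ℝ) < 1 + t := by linarith [ht.1]
    exact this.ne'
  rw [intervalIntegral.integral_add (intervalIntegrable_const.sub hi) intervalIntegrable_const,
    intervalIntegral.integral_sub intervalIntegrable_const hi, h1]
  simp only [intervalIntegral.integral_const, smul_eq_mul, sub_zero]
  have h2 : Real.log T ≤ Real.log (1 + T) := Real.log_le_log (by linarith) (by linarith)
  have h3 : 0 ≤ Real.log (1 + T) := Real.log_nonneg (by linarith)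
  nlinarith

variable [Fintype ι]

lemma WA_main {T : ℝ} (hT : 1000 ≤ T) {c : ι → ℝ} (hc : ∀ j, 0 ≤ c j ∧ c j ≤ 2 * T) :
    |WA c T Finset.univ - T * Real.log T ^ Fintype.card ι| ≤
      T * (Fintype.card ι * 4 * 2 ^ Fintype.card ι * Real.log T ^ (Fintype.card ι - 1)) := by
  have hcL := Lw_cont
  have hL : 1 ≤ Real.log T := by
    rw [Real.le_log_iff_exp_le (by linarith)]
    have := Real.exp_one_lt_d9
    linarith
  set n := Fintype.card ι with hn
  set B : ℝ := 2 * Real.log T with hB
  have hBp : 0 < B := by rw [hB]; linarith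
  rcases Nat.eq_zero_or_pos n with h0 | hpos
  · have : (Finset.univ : Finset ι) = ∅ := by
      rw [← Finset.card_eq_zero, Finset.card_univ]
      exact h0
    unfold WA
    rw [this, h0]
    simp
  have hcont : Continuous fun t => ∏ j, Lw (t + c j) :=
    continuous_finsetProd _ fun j _ => hcL.comp (by fun_prop)
  have h1 : ∀ t ∈ Icc 0 T, B * |∏ j, Lw (t + c j) - Real.log T ^ n| ≤
      n * B ^ n * (Real.log T - Real.log (1 + t) + 3) := by
    intro t ht
    have := prod_diff (Finset.univ : Finset ι) (fun j => Lw (t + c j)) (b := Real.log T) (B := B)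
      (D := Real.log T - Real.log (1 + t) + 3) hBp.le
      (by rw [abs_of_nonneg (by linarith)]; linarith)
      (fun j _ => Lw_bd (by linarith) (by linarith [ht.1, (hc j).1]) (by linarith [ht.2, (hc j).2]))
      (fun j _ => Lw_near hT ht.1 ht.2 (hc j).1 (hc j).2)
    rw [Finset.card_univ] at this
    exact this
  have h2 : B * |WA c T Finset.univ - T * Real.log T ^ n| ≤ n * B ^ n * (4 * T) := by
    have e1 : WA c T Finset.univ - T * Real.log T ^ n =
        ∫ t in (0:ℝ)..T, (∏ j, Lw (t + c j) - Real.log T ^ n) := by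
      unfold WA
      rw [intervalIntegral.integral_sub (hcont.intervalIntegrable _ _) intervalIntegrable_const]
      simp
    have e2 : |∫ t in (0:ℝ)..T, (∏ j, Lw (t + c j) - Real.log T ^ n)| ≤
        ∫ t in (0:ℝ)..T, |∏ j, Lw (t + c j) - Real.log T ^ n| :=
      intervalIntegral.abs_integral_le_integral_abs (by linarith)
    rw [e1]
    calc B * |∫ t in (0:ℝ)..T, (∏ j, Lw (t + c j) - Real.log T ^ n)|
        ≤ B * ∫ t in (0:ℝ)..T, |∏ j, Lw (t + c j) - Real.log T ^ n| := by gcongr
      _ = ∫ t in (0:ℝ)..T, B * |∏ j, Lw (t + c j) - Real.log T ^ n| := by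
          rw [intervalIntegral.integral_const_mul]
      _ ≤ ∫ t in (0:ℝ)..T, n * B ^ n * (Real.log T - Real.log (1 + t) + 3) := by
          refine intervalIntegral.integral_mono_on (by linarith)
            (Continuous.intervalIntegrable (by fun_prop) _ _) ?_ h1
          refine IntervalIntegrable.const_mul ?_ _
          refine (IntervalIntegrable.sub intervalIntegrable_const ?_).add intervalIntegrable_const
          refine ContinuousOn.intervalIntegrable ?_
          rw [uIcc_of_le (by linarith)]
          refine Real.continuousOn_log.comp (by fun_prop) fun t ht => ?_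
          have : (0:ℝ) < 1 + t := by linarith [ht.1]
          exact this.ne'
      _ = n * B ^ n * ∫ t in (0:ℝ)..T, (Real.log T - Real.log (1 + t) + 3) := by
          rw [intervalIntegral.integral_const_mul]
      _ ≤ n * B ^ n * (4 * T) := by
          have := int_log1 hT
          gcongr
  have h3 : n * B ^ n * (4 * T) = B * (T * (n * 4 * (2 ^ (n - 1) * Real.log T ^ (n - 1)))) := by
    obtain ⟨m, hm⟩ : ∃ m, n = m + 1 := ⟨n - 1, by omega⟩
    rw [hm]
    simp only [Nat.add_sub_cancel]
    rw [hB, mul_pow, pow_succ, pow_succ]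
    push_cast
    ring
  rw [h3] at h2
  have h4 := le_of_mul_le_mul_left h2 hBp
  refine h4.trans ?_
  have h5 : (2:ℝ) ^ (n - 1) ≤ 2 ^ n := pow_le_pow_right₀ (by norm_num) (by omega)
  calc T * (n * 4 * (2 ^ (n - 1) * Real.log T ^ (n - 1)))
      ≤ T * (n * 4 * (2 ^ n * Real.log T ^ (n - 1))) := by gcongr
    _ = _ := by ring

end

end Pool.Agent.Y752.KP
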